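import Mathlib

/-!
Circular beta ensemble: definitions used in the proof of the joint continuity of the pair
correlation function of the Sine-beta process.
-/

set_option autoImplicit false

namespace Pool.Agent.Lib.MP_b33862_pr

open MeasureTheory Set Real
open scoped ENNReal

/-- the point `e^{ix}` of the unit circle -/
noncomputable def e (x : ℝ) : ℂ := Complex.exp (x * Complex.I)

/-- product of all mutual distances of the points `e^{iθ_j}` -/
noncomputable def vand {n : ℕ} (θ : Fin n → ℝ) : ℝ :=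
  ∏ j, ∏ k ∈ Finset.Ioi j, ‖e (θ j) - e (θ k)‖

/-- modulus of the polynomial with zeros `e^{iθ_j}` at the point `ζ` -/
noncomputable def cp {n : ℕ} (θ : Fin n → ℝ) (ζ : ℂ) : ℝ := ∏ j, ‖ζ - e (θ j)‖

/-- uniform probability measure on `[-π, π)` -/
noncomputable def circ : Measure ℝ :=
  (ENNReal.ofReal (2 * π))⁻¹ • volume.restrict (Ico (-π) π)

/-- uniform probability measure on `[-π, π)^n` -/
noncomputable def tor (n : ℕ) : Measure (Fin n → ℝ) := Measure.pi fun _ => circ

/-- partition function -/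
noncomputable def Z (β : ℝ) (n : ℕ) : ℝ := ∫ θ, vand θ ^ β ∂(tor n)

/-- circular beta ensemble as a probability measure on `[-π, π)^n` -/
noncomputable def cbe (β : ℝ) (n : ℕ) : Measure (Fin n → ℝ) :=
  (tor n).withDensity fun θ => ENNReal.ofReal (vand θ ^ β / Z β n)

/-- a function of the angles that depends only on the points `e^{iθ_j}` -/
def Per {n : ℕ} {α : Type*} (Φ : (Fin n → ℝ) → α) : Prop :=
  ∀ θ θ' : Fin n → ℝ, (∀ i, e (θ i) = e (θ' i)) → Φ θ = Φ θ'

/-- a function of the angles that is invariant under common rotations -/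
def Rot {n : ℕ} {α : Type*} (Φ : (Fin n → ℝ) → α) : Prop :=
  ∀ (θ : Fin n → ℝ) (a : ℝ), Φ (fun i => θ i + a) = Φ θ

/-- a symmetric function of the angles -/
def Sym {n : ℕ} {α : Type*} (Φ : (Fin n → ℝ) → α) : Prop :=
  ∀ (θ : Fin n → ℝ) (σ : Equiv.Perm (Fin n)), Φ (θ ∘ σ) = Φ θ

/-- number of points within (chordal) distance `r` of the point number `i`, itself included -/
noncomputable def cnt {n : ℕ} (r : ℝ) (θ : Fin n → ℝ) (i : Fin n) : ℕ :=
  (Finset.univ.filter fun j => ‖e (θ i) - e (θ j)‖ ≤ r).card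

/-- two-point function of the characteristic polynomial -/
noncomputable def dfun (β : ℝ) (m : ℕ) (s : ℝ) : ℝ :=
  ∫ θ, cp θ 1 ^ β * cp θ (e s) ^ β ∂(cbe β m)

/-- rescaled two-point correlation function of the circular beta ensemble -/
noncomputable def rho (β : ℝ) (n : ℕ) (x : ℝ) : ℝ :=
  (n - 1) / (4 * π ^ 2 * n) * (Z β (n - 2) / Z β n) * ‖1 - e (x / n)‖ ^ β * dfun β (n - 2) (x / n)

/-- sorted points of the open interval `(0, 2π)` -/
def simplex (N : ℕ) : Set (Fin N → ℝ) := {φ | StrictMono φ ∧ ∀ i, φ i ∈ Ioo 0 (2 * π)}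

/-- the points `0, φ_1, ..., φ_N` -/
def pts {N : ℕ} (φ : Fin N → ℝ) : Fin (N + 1) → ℝ := Fin.cons 0 φ

/-- counterclockwise distance from point `i` to point `j ≠ i` (sorted points) -/
noncomputable def gap {n : ℕ} (u : Fin n → ℝ) (i j : Fin n) : ℝ :=
  if i < j then u j - u i else u j - u i + 2 * π

/-- statistic of the distances to the `m`-th next point -/
noncomputable def gapSum {N : ℕ} (ψ : ℝ → ℝ) (m : Fin (N + 1)) (φ : Fin N → ℝ) : ℝ :=
  ∑ i, ψ (gap (pts φ) i (i + m))

end Pool.Agent.Lib.MP_b33862_pr
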