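import Mathlib
import Pool.Agent.Lib.MP_b33862_pr.Defs

set_option autoImplicit false

namespace Pool.Agent.Lib.MP_b33862_pr

open MeasureTheory Set Real Filter
open scoped ENNReal Topology

lemma e_norm (x : ℝ) : ‖e x‖ = 1 := by
  unfold e; exact Complex.norm_exp_ofReal_mul_I x

lemma e_zero : e 0 = 1 := by simp [e]

lemma e_add (x y : ℝ) : e (x + y) = e x * e y := by
  unfold e; rw [← Complex.exp_add]; push_cast; ring_nf

lemma e_continuous : Continuous e := by unfold e; fun_prop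

lemma e_per (x : ℝ) (k : ℤ) : e (x + k * (2 * π)) = e x := by
  unfold e
  have : ((x + k * (2 * π) : ℝ) : ℂ) * Complex.I = x * Complex.I + k * (2 * π * Complex.I) := by
    push_cast; ring
  rw [this, Complex.exp_add, Complex.exp_int_mul_two_pi_mul_I, mul_one]

lemma e_sub_norm (x y : ℝ) : ‖e x - e y‖ = ‖1 - e (y - x)‖ := by
  have : e y = e x * e (y - x) := by rw [← e_add]; ring_nf
  rw [this, ← mul_one_sub, norm_mul, e_norm, one_mul]

lemma one_sub_e (x : ℝ) : ‖1 - e x‖ = |2 * Real.sin (x / 2)| := by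
  unfold e
  rw [norm_sub_rev]
  have := Complex.norm_exp_I_mul_ofReal_sub_one x
  rw [mul_comm] at this
  rw [this, Real.norm_eq_abs]

lemma one_sub_e_le (x : ℝ) : ‖1 - e x‖ ≤ |x| := by
  rw [one_sub_e, abs_mul, abs_of_pos (by norm_num : (0:ℝ) < 2)]
  have := Real.abs_sin_le_abs (x := x / 2)
  rw [abs_div, abs_of_pos (by norm_num : (0:ℝ) < 2)] at this
  linarith

lemma e_sub_le (x y : ℝ) : ‖e x - e y‖ ≤ |x - y| := by
  rw [e_sub_norm, abs_sub_comm]; exact one_sub_e_le _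

lemma vand_nonneg {n : ℕ} (θ : Fin n → ℝ) : 0 ≤ vand θ :=
  Finset.prod_nonneg fun _ _ => Finset.prod_nonneg fun _ _ => norm_nonneg _

lemma cp_nonneg {n : ℕ} (θ : Fin n → ℝ) (ζ : ℂ) : 0 ≤ cp θ ζ :=
  Finset.prod_nonneg fun _ _ => norm_nonneg _

lemma vand_continuous (n : ℕ) : Continuous (vand : (Fin n → ℝ) → ℝ) := by
  unfold vand
  have := e_continuous
  fun_prop

lemma cp_continuous (n : ℕ) : Continuous fun p : (Fin n → ℝ) × ℂ => cp p.1 p.2 := by
  unfold cp
  have := e_continuous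
  fun_prop

lemma cp_le {n : ℕ} (θ : Fin n → ℝ) (ζ : ℂ) : cp θ ζ ≤ (1 + ‖ζ‖) ^ n := by
  unfold cp
  calc ∏ j, ‖ζ - e (θ j)‖ ≤ ∏ _j : Fin n, (1 + ‖ζ‖) := by
        apply Finset.prod_le_prod
        · intros; positivity
        · intro i _
          calc ‖ζ - e (θ i)‖ ≤ ‖ζ‖ + ‖e (θ i)‖ := norm_sub_le _ _
            _ = 1 + ‖ζ‖ := by rw [e_norm]; ring
    _ = _ := by simp

lemma vand_cons {n : ℕ} (a : ℝ) (θ : Fin n → ℝ) :
    vand (Fin.cons a θ : Fin (n + 1) → ℝ) = cp θ (e a) * vand θ := by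
  unfold vand cp
  rw [Fin.prod_univ_succ]
  congr 1
  · rw [Fin.Ioi_zero_eq_map, Finset.prod_map]
    simp
  · apply Finset.prod_congr rfl
    intro i _
    rw [Fin.Ioi_succ, Finset.prod_map]
    simp

lemma cp_cons {n : ℕ} (a : ℝ) (θ : Fin n → ℝ) (ζ : ℂ) :
    cp (Fin.cons a θ : Fin (n + 1) → ℝ) ζ = ‖ζ - e a‖ * cp θ ζ := by
  unfold cp
  rw [Fin.prod_univ_succ]
  simp

lemma vand_per (n : ℕ) : Per (vand : (Fin n → ℝ) → ℝ) := by
  intro θ θ' h
  unfold vand
  simp only [h]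

lemma vand_rot (n : ℕ) : Rot (vand : (Fin n → ℝ) → ℝ) := by
  intro θ a
  unfold vand
  apply Finset.prod_congr rfl; intro i _
  apply Finset.prod_congr rfl; intro j _
  rw [e_sub_norm, e_sub_norm (θ i)]
  congr 3; ring

lemma cp_per {n : ℕ} (ζ : ℂ) : Per (fun θ : Fin n → ℝ => cp θ ζ) := by
  intro θ θ' h
  unfold cp
  simp only [h]

lemma cp_sym {n : ℕ} (ζ : ℂ) : Sym (fun θ : Fin n → ℝ => cp θ ζ) := by
  intro θ σ
  unfold cp
  exact Equiv.prod_comp σ fun j => ‖ζ - e (θ j)‖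

lemma cp_rot {n : ℕ} (θ : Fin n → ℝ) (a : ℝ) (ζ : ℂ) :
    cp (fun i => θ i + a) (e a * ζ) = cp θ ζ := by
  unfold cp
  apply Finset.prod_congr rfl; intro i _
  beta_reduce
  rw [add_comm (θ i) a, e_add, ← mul_sub, norm_mul, e_norm, one_mul]

lemma vand_sq {n : ℕ} (θ : Fin n → ℝ) :
    vand θ ^ 2 = ∏ j, ∏ k ∈ Finset.univ.erase j, ‖e (θ j) - e (θ k)‖ := by
  have h1 : ∀ j : Fin n, Finset.univ.erase j = Finset.Iio j ∪ Finset.Ioi j := by
    intro j; ext k; simp only [Finset.mem_erase, Finset.mem_univ, and_true, Finset.mem_union,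
      Finset.mem_Iio, Finset.mem_Ioi]; exact ne_iff_lt_or_gt
  have h2 : ∀ j : Fin n, Disjoint (Finset.Iio j) (Finset.Ioi j) := by
    intro j; rw [Finset.disjoint_left]; intro k hk hk'
    simp only [Finset.mem_Iio, Finset.mem_Ioi] at hk hk'
    exact absurd hk (not_lt.2 hk'.le)
  have h3 : ∏ j : Fin n, ∏ k ∈ Finset.Iio j, ‖e (θ j) - e (θ k)‖ = vand θ := by
    unfold vand
    rw [Finset.prod_sigma', Finset.prod_sigma']
    refine Finset.prod_bij' (fun x _ => ⟨x.2, x.1⟩) (fun x _ => ⟨x.2, x.1⟩) ?_ ?_ ?_ ?_ ?_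
    · simp
    · simp
    · simp
    · simp
    · rintro ⟨a, b⟩ _; exact norm_sub_rev _ _
  simp_rw [h1]
  rw [sq]
  nth_rw 1 [← h3]
  unfold vand
  rw [← Finset.prod_mul_distrib]
  apply Finset.prod_congr rfl; intro j _
  rw [Finset.prod_union (h2 j)]

lemma vand_sym (n : ℕ) : Sym (vand : (Fin n → ℝ) → ℝ) := by
  intro θ σ
  have h : vand (θ ∘ σ) ^ 2 = vand θ ^ 2 := by
    rw [vand_sq, vand_sq]
    rw [← Equiv.prod_comp σ (fun j => ∏ k ∈ Finset.univ.erase j, ‖e (θ j) - e (θ k)‖)]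
    apply Finset.prod_congr rfl; intro j _
    refine Finset.prod_bij' (fun k _ => σ k) (fun k _ => σ.symm k) ?_ ?_ ?_ ?_ ?_
    · simp
    · intro a ha
      simp only [Finset.mem_erase, Finset.mem_univ, and_true] at ha ⊢
      intro h; exact ha (by rw [← h]; simp)
    · simp
    · simp
    · simp
  exact (sq_eq_sq₀ (vand_nonneg _) (vand_nonneg _)).1 h

/-! ### the torus -/

instance fact_two_pi : Fact (0 < 2 * π) := ⟨Real.two_pi_pos⟩

lemma e_eq_iff (x y : ℝ) : e x = e y ↔ (x : AddCircle (2 * π)) = (y : AddCircle (2 * π)) := by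
  unfold e
  rw [Complex.exp_eq_exp_iff_exists_int, ← sub_eq_zero, ← AddCircle.coe_sub,
    AddCircle.coe_eq_zero_iff]
  constructor
  · rintro ⟨n, hn⟩
    refine ⟨n, ?_⟩
    have h : ((x : ℂ) - y - n * (2 * π)) * Complex.I = 0 := by
      linear_combination hn
    have h2 : (x : ℂ) - y - n * (2 * π) = 0 := (mul_eq_zero.1 h).resolve_right Complex.I_ne_zero
    have h3 : x - y - n * (2 * π) = 0 := by exact_mod_cast h2
    rw [zsmul_eq_mul]; linarith
  · rintro ⟨n, hn⟩
    refine ⟨n, ?_⟩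
    rw [zsmul_eq_mul] at hn
    have h3 : x = y + n * (2 * π) := by linarith
    rw [h3]; push_cast; ring

/-- normalised Haar measure of the additive circle -/
noncomputable def haarC : Measure (AddCircle (2 * π)) := (ENNReal.ofReal (2 * π))⁻¹ • volume

lemma two_pi_ne : ENNReal.ofReal (2 * π) ≠ 0 := by
  simp [Real.pi_pos]

lemma circ_mk : MeasurePreserving ((↑) : ℝ → AddCircle (2 * π)) circ haarC := by
  have h := AddCircle.measurePreserving_mk (2 * π) (-π)
  have h2 : (volume : Measure ℝ).restrict (Ioc (-π) (-π + 2 * π)) =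
      volume.restrict (Ico (-π) π) := by
    rw [show -π + 2 * π = π by ring]
    exact Measure.restrict_congr_set Ico_ae_eq_Ioc.symm
  rw [h2] at h
  exact h.smul_measure _

noncomputable def boxM : Measure ℝ := (ENNReal.ofReal (2 * π))⁻¹ • volume.restrict (Ioo 0 (2 * π))

lemma boxM_mk : MeasurePreserving ((↑) : ℝ → AddCircle (2 * π)) boxM haarC := by
  have h := AddCircle.measurePreserving_mk (2 * π) 0
  have h2 : (volume : Measure ℝ).restrict (Ioc 0 (0 + 2 * π)) =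
      volume.restrict (Ioo 0 (2 * π)) := by
    rw [zero_add]
    exact Measure.restrict_congr_set Ioo_ae_eq_Ioc.symm
  rw [h2] at h
  exact h.smul_measure _

instance : IsProbabilityMeasure circ := by
  constructor
  unfold circ
  rw [Measure.smul_apply, Measure.restrict_apply_univ, Real.volume_Ico, smul_eq_mul]
  rw [show π - -π = 2 * π by ring]
  exact ENNReal.inv_mul_cancel two_pi_ne ENNReal.ofReal_ne_top

instance : IsProbabilityMeasure haarC := by
  rw [← circ_mk.map_eq]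
  exact Measure.isProbabilityMeasure_map circ_mk.measurable.aemeasurable

instance : IsProbabilityMeasure boxM := by
  constructor
  unfold boxM
  rw [Measure.smul_apply, Measure.restrict_apply_univ, Real.volume_Ioo, smul_eq_mul]
  rw [show 2 * π - 0 = 2 * π by ring]
  exact ENNReal.inv_mul_cancel two_pi_ne ENNReal.ofReal_ne_top

instance (n : ℕ) : IsProbabilityMeasure (tor n) := by unfold tor; infer_instance

/-- representative in `[-π, π)` -/
noncomputable def tau (x : AddCircle (2 * π)) : ℝ := (AddCircle.measurableEquivIco (2 * π) (-π) x).1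

lemma tau_measurable : Measurable tau :=
  measurable_subtype_coe.comp (AddCircle.measurableEquivIco (2 * π) (-π)).measurable

lemma coe_tau (x : AddCircle (2 * π)) : ((tau x : ℝ) : AddCircle (2 * π)) = x :=
  (AddCircle.measurableEquivIco (2 * π) (-π)).symm_apply_apply x

lemma tau_coe {x : ℝ} (hx : x ∈ Ico (-π) π) : tau (x : AddCircle (2 * π)) = x := by
  unfold tau
  have hx' : x ∈ Ico (-π) (-π + 2 * π) := by rwa [show -π + 2 * π = π by ring]
  have := AddCircle.equivIco_coe_eq hx'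
  exact congrArg Subtype.val this

lemma tau_mem (x : AddCircle (2 * π)) : tau x ∈ Ico (-π) π := by
  have h1 : tau x ∈ Ico (-π) (-π + 2 * π) := (AddCircle.measurableEquivIco (2 * π) (-π) x).2
  rwa [show -π + 2 * π = π by ring] at h1

lemma per_lintegral {n : ℕ} {ν : Measure ℝ} [IsProbabilityMeasure ν]
    (h : MeasurePreserving ((↑) : ℝ → AddCircle (2 * π)) ν haarC) {F : (Fin n → ℝ) → ℝ≥0∞}
    (hF : Measurable F) (hP : Per F) :
    ∫⁻ θ, F θ ∂(Measure.pi fun _ : Fin n => ν) =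
      ∫⁻ x, F (fun i => tau (x i)) ∂(Measure.pi fun _ : Fin n => haarC) := by
  have h1 : MeasurePreserving (fun (θ : Fin n → ℝ) i => (θ i : AddCircle (2 * π)))
      (Measure.pi fun _ : Fin n => ν) (Measure.pi fun _ : Fin n => haarC) :=
    measurePreserving_pi _ _ fun _ => h
  have hG : Measurable fun x : Fin n → AddCircle (2 * π) => F (fun i => tau (x i)) :=
    hF.comp (measurable_pi_lambda _ fun i => tau_measurable.comp (measurable_pi_apply i))
  rw [← h1.lintegral_comp hG]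
  apply lintegral_congr
  intro θ
  apply hP
  intro i
  rw [e_eq_iff, coe_tau]

lemma per_lintegral' {n : ℕ} {ν ν' : Measure ℝ} [IsProbabilityMeasure ν] [IsProbabilityMeasure ν']
    (h : MeasurePreserving ((↑) : ℝ → AddCircle (2 * π)) ν haarC)
    (h' : MeasurePreserving ((↑) : ℝ → AddCircle (2 * π)) ν' haarC) {F : (Fin n → ℝ) → ℝ≥0∞}
    (hF : Measurable F) (hP : Per F) :
    ∫⁻ θ, F θ ∂(Measure.pi fun _ : Fin n => ν) = ∫⁻ θ, F θ ∂(Measure.pi fun _ : Fin n => ν') := by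
  rw [per_lintegral h hF hP, per_lintegral h' hF hP]

lemma lintegral_tor_box {n : ℕ} {F : (Fin n → ℝ) → ℝ≥0∞} (hF : Measurable F) (hP : Per F) :
    ∫⁻ θ, F θ ∂(tor n) = (ENNReal.ofReal (2 * π))⁻¹ ^ n *
      ∫⁻ θ in Set.pi univ (fun _ : Fin n => Ioo 0 (2 * π)), F θ := by
  unfold tor
  rw [per_lintegral' circ_mk boxM_mk hF hP]
  have : (Measure.pi fun _ : Fin n => boxM) = ((ENNReal.ofReal (2 * π))⁻¹ ^ n) •
      (volume : Measure (Fin n → ℝ)).restrict (Set.pi univ (fun _ : Fin n => Ioo 0 (2 * π))) := by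
    apply Measure.pi_eq
    intro s hs
    rw [Measure.smul_apply, volume_pi, Measure.restrict_pi_pi, Measure.pi_pi]
    unfold boxM
    simp only [Measure.smul_apply, smul_eq_mul, Finset.prod_mul_distrib, Finset.prod_const,
      Finset.card_univ, Fintype.card_fin]
  rw [this, lintegral_smul_measure, smul_eq_mul]

lemma lintegral_tor_rot {n : ℕ} {F : (Fin n → ℝ) → ℝ≥0∞} (hF : Measurable F) (hP : Per F) (a : ℝ) :
    ∫⁻ θ, F (fun i => θ i + a) ∂(tor n) = ∫⁻ θ, F θ ∂(tor n) := by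
  unfold tor
  have hm : Measurable fun x : ℝ => x + a := by fun_prop
  have hp : IsProbabilityMeasure (circ.map fun x => x + a) :=
    Measure.isProbabilityMeasure_map hm.aemeasurable
  have h1 : MeasurePreserving (fun x : ℝ => x + a) circ (circ.map fun x => x + a) :=
    ⟨hm, rfl⟩
  have h2 : MeasurePreserving ((↑) : ℝ → AddCircle (2 * π)) (circ.map fun x => x + a) haarC := by
    refine ⟨AddCircle.measurable_mk', ?_⟩
    rw [Measure.map_map AddCircle.measurable_mk' hm]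
    have : ((↑) : ℝ → AddCircle (2 * π)) ∘ (fun x => x + a) =
        (fun y => y + (a : AddCircle (2 * π))) ∘ ((↑) : ℝ → AddCircle (2 * π)) := by
      ext x; simp
    rw [this, ← Measure.map_map (by fun_prop) AddCircle.measurable_mk', circ_mk.map_eq]
    unfold haarC
    rw [Measure.map_smul, map_add_right_eq_self]
  rw [← per_lintegral' h2 circ_mk hF hP]
  have h3 : MeasurePreserving (fun (θ : Fin n → ℝ) i => θ i + a)
      (Measure.pi fun _ : Fin n => circ) (Measure.pi fun _ : Fin n => circ.map fun x => x + a) :=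
    measurePreserving_pi _ _ fun _ => h1
  rw [← h3.lintegral_comp hF]

lemma tor_eq (n : ℕ) : tor n = ((ENNReal.ofReal (2 * π))⁻¹ ^ n) •
    (volume : Measure (Fin n → ℝ)).restrict (Set.pi univ (fun _ : Fin n => Ico (-π) π)) := by
  apply Measure.pi_eq
  intro s hs
  rw [Measure.smul_apply, volume_pi, Measure.restrict_pi_pi, Measure.pi_pi]
  unfold circ
  simp only [Measure.smul_apply, smul_eq_mul, Finset.prod_mul_distrib, Finset.prod_const,
    Finset.card_univ, Fintype.card_fin]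

lemma tor_ac (n : ℕ) : tor n ≪ (volume : Measure (Fin n → ℝ)) := by
  rw [tor_eq]
  exact (Measure.smul_absolutelyContinuous).trans Measure.restrict_le_self.absolutelyContinuous

lemma ae_box (n : ℕ) : ∀ᵐ θ ∂(tor n), ∀ i, θ i ∈ Ico (-π) π := by
  rw [tor_eq]
  apply Measure.ae_smul_measure
  have h := ae_restrict_mem (μ := (volume : Measure (Fin n → ℝ)))
    (s := Set.pi univ (fun _ : Fin n => Ico (-π) π)) (MeasurableSet.univ_pi fun _ => measurableSet_Ico)
  filter_upwards [h] with θ hθ i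
  exact hθ i (mem_univ _)

lemma vand_ne_zero_iff {n : ℕ} (θ : Fin n → ℝ) :
    vand θ ≠ 0 ↔ ∀ i j, i ≠ j → e (θ i) ≠ e (θ j) := by
  unfold vand
  rw [Finset.prod_ne_zero_iff]
  simp only [Finset.mem_univ, forall_true_left, Finset.prod_ne_zero_iff, Finset.mem_Ioi,
    norm_ne_zero_iff, sub_ne_zero]
  constructor
  · intro h i j hij
    rcases lt_or_gt_of_ne hij with h1 | h1
    · exact h i j h1
    · exact (h j i h1).symm
  · intro h i j hij
    exact h i j hij.ne

lemma e_inj {x y : ℝ} (hx : x ∈ Ico (-π) π) (hy : y ∈ Ico (-π) π) (h : e x = e y) : x = y := by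
  rw [e_eq_iff] at h
  rw [← tau_coe hx, h, tau_coe hy]

lemma vand_pos_ae (n : ℕ) : ∀ᵐ θ ∂(tor n), 0 < vand θ := by
  have h1 : ∀ i j : Fin n, i ≠ j → ∀ᵐ θ ∂(tor n), θ i ≠ θ j := by
    intro i j hij
    have h0 : ∀ᵐ θ ∂(volume : Measure (Fin n → ℝ)), θ i ≠ θ j := ?_
    · exact (tor_ac n).ae_le h0
    rw [ae_iff]
    let L : (Fin n → ℝ) →ₗ[ℝ] ℝ := (LinearMap.proj i : (Fin n → ℝ) →ₗ[ℝ] ℝ) - LinearMap.proj j
    have h2 : {θ : Fin n → ℝ | ¬ θ i ≠ θ j} = (LinearMap.ker L : Set (Fin n → ℝ)) := by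
      ext θ
      simp [L, sub_eq_zero]
    rw [h2]
    apply Measure.addHaar_submodule
    intro h
    have h3 : (Pi.single i 1 : Fin n → ℝ) ∈ LinearMap.ker L := by rw [h]; trivial
    simp [L, hij.symm] at h3
  have h2 : ∀ᵐ θ ∂(tor n), ∀ i j : Fin n, i ≠ j → θ i ≠ θ j := by
    rw [ae_all_iff]; intro i
    rw [ae_all_iff]; intro j
    by_cases hij : i = j
    · simp [hij]
    · filter_upwards [h1 i j hij] with θ hθ _ using hθ
  filter_upwards [h2, ae_box n] with θ h3 h4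
  apply lt_of_le_of_ne (vand_nonneg _)
  symm
  rw [vand_ne_zero_iff]
  intro i j hij h5
  exact h3 i j hij (e_inj (h4 i) (h4 j) h5)

lemma vand_le_pow {n : ℕ} (θ : Fin n → ℝ) :
    vand θ ≤ ∏ j : Fin n, ∏ _k ∈ Finset.Ioi j, (2 : ℝ) := by
  unfold vand
  apply Finset.prod_le_prod
  · intro i _; exact Finset.prod_nonneg fun _ _ => norm_nonneg _
  · intro i _
    apply Finset.prod_le_prod
    · intro j _; exact norm_nonneg _
    · intro j _
      calc ‖e (θ i) - e (θ j)‖ ≤ ‖e (θ i)‖ + ‖e (θ j)‖ := norm_sub_le _ _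
        _ = 2 := by rw [e_norm, e_norm]; norm_num

lemma vand_rpow_measurable (n : ℕ) (β : ℝ) :
    Measurable fun θ : Fin n → ℝ => vand θ ^ β :=
  (vand_continuous n).measurable.pow_const β

lemma vand_rpow_le_two {β : ℝ} (hβ : 0 ≤ β) {n : ℕ} (θ : Fin n → ℝ) :
    vand θ ^ β ≤ (∏ j : Fin n, ∏ _k ∈ Finset.Ioi j, (2 : ℝ)) ^ β :=
  Real.rpow_le_rpow (vand_nonneg _) (vand_le_pow _) hβ

lemma integrable_vand_rpow0 {β : ℝ} (hβ : 0 ≤ β) (n : ℕ) :
    Integrable (fun θ : Fin n → ℝ => vand θ ^ β) (tor n) := by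
  apply Integrable.of_bound (vand_rpow_measurable n β).aestronglyMeasurable
    ((∏ j : Fin n, ∏ _k ∈ Finset.Ioi j, (2 : ℝ)) ^ β)
  filter_upwards with θ
  rw [Real.norm_eq_abs, abs_of_nonneg (Real.rpow_nonneg (vand_nonneg _) _)]
  exact vand_rpow_le_two hβ θ

lemma Z_pos (β : ℝ) (hβ : 0 ≤ β) (n : ℕ) : 0 < Z β n := by
  unfold Z
  rw [integral_pos_iff_support_of_nonneg (fun θ => Real.rpow_nonneg (vand_nonneg _) _)
    (integrable_vand_rpow0 hβ n)]
  have h : ∀ᵐ θ ∂(tor n), θ ∈ Function.support fun θ : Fin n → ℝ => vand θ ^ β := by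
    filter_upwards [vand_pos_ae n] with θ hθ
    exact (Real.rpow_pos_of_pos hθ β).ne'
  rw [pos_iff_ne_zero]
  intro h0
  have h1 : ∀ᵐ θ ∂(tor n), θ ∉ Function.support fun θ : Fin n → ℝ => vand θ ^ β :=
    measure_eq_zero_iff_ae_notMem.1 h0
  have h2 : ∀ᵐ θ ∂(tor n), False := by
    filter_upwards [h, h1] with θ a b using b a
  rw [eventually_false_iff_eq_bot, ae_eq_bot] at h2
  exact (IsProbabilityMeasure.ne_zero (tor n)) h2

lemma dens_measurable (β : ℝ) (n : ℕ) :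
    Measurable fun θ : Fin n → ℝ => ENNReal.ofReal (vand θ ^ β / Z β n) :=
  ENNReal.measurable_ofReal.comp ((vand_rpow_measurable n β).div_const _)

lemma cbe_prob {β : ℝ} (hβ : 0 ≤ β) (n : ℕ) : IsProbabilityMeasure (cbe β n) := by
  constructor
  unfold cbe
  rw [withDensity_apply _ MeasurableSet.univ, Measure.restrict_univ,
    ← ofReal_integral_eq_lintegral_ofReal, integral_div]
  · rw [show (∫ θ, vand θ ^ β ∂(tor n)) = Z β n from rfl, div_self (Z_pos β hβ n).ne']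
    simp
  · exact (integrable_vand_rpow0 hβ n).div_const _
  · filter_upwards with θ
    exact div_nonneg (Real.rpow_nonneg (vand_nonneg _) _) (Z_pos β hβ n).le

lemma lintegral_cbe {β : ℝ} (hβ : 0 ≤ β) {n : ℕ} {F : (Fin n → ℝ) → ℝ≥0∞} (hF : Measurable F) :
    ∫⁻ θ, F θ ∂(cbe β n) = (∫⁻ θ, F θ * ENNReal.ofReal (vand θ ^ β) ∂(tor n)) /
      ENNReal.ofReal (Z β n) := by
  have hm : Measurable fun θ : Fin n → ℝ => F θ * ENNReal.ofReal (vand θ ^ β) :=
    hF.mul (ENNReal.measurable_ofReal.comp (vand_rpow_measurable n β))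
  unfold cbe
  rw [lintegral_withDensity_eq_lintegral_mul _ (dens_measurable β n) hF, div_eq_mul_inv,
    ← lintegral_mul_const'' _ hm.aemeasurable]
  apply lintegral_congr
  intro θ
  simp only [Pi.mul_apply]
  rw [ENNReal.ofReal_div_of_pos (Z_pos β hβ n), div_eq_mul_inv, mul_comm (F θ)]
  ring

lemma integral_cbe {β : ℝ} (hβ : 0 ≤ β) {n : ℕ} (F : (Fin n → ℝ) → ℝ) :
    ∫ θ, F θ ∂(cbe β n) = (∫ θ, F θ * vand θ ^ β ∂(tor n)) / Z β n := by
  unfold cbe
  rw [integral_withDensity_eq_integral_toReal_smul (dens_measurable β n)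
    (by filter_upwards with θ using ENNReal.ofReal_lt_top), ← integral_div]
  apply integral_congr_ae
  filter_upwards with θ
  rw [ENNReal.toReal_ofReal (div_nonneg (Real.rpow_nonneg (vand_nonneg _) _) (Z_pos β hβ n).le),
    smul_eq_mul]
  ring

lemma integrable_cbe_of_bdd {β : ℝ} (hβ : 0 ≤ β) {n : ℕ} {F : (Fin n → ℝ) → ℝ}
    (hF : Measurable F) (C : ℝ) (hC : ∀ θ, |F θ| ≤ C) : Integrable F (cbe β n) := by
  have := cbe_prob hβ n
  exact Integrable.of_bound hF.aestronglyMeasurable C (by filter_upwards with θ using hC θ)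

lemma cbe_ac (β : ℝ) (n : ℕ) : cbe β n ≪ tor n := withDensity_absolutelyContinuous _ _

lemma vand_pos_ae_cbe (β : ℝ) (n : ℕ) : ∀ᵐ θ ∂(cbe β n), 0 < vand θ :=
  (cbe_ac β n).ae_le (vand_pos_ae n)

lemma ae_box_cbe (β : ℝ) (n : ℕ) : ∀ᵐ θ ∂(cbe β n), ∀ i, θ i ∈ Ico (-π) π :=
  (cbe_ac β n).ae_le (ae_box n)

lemma Per.mul {n : ℕ} {F G : (Fin n → ℝ) → ℝ≥0∞} (hF : Per F) (hG : Per G) :
    Per fun θ => F θ * G θ := by
  intro θ θ' h
  beta_reduce
  rw [hF θ θ' h, hG θ θ' h]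

lemma Per.comp {n : ℕ} {α γ : Type*} {F : (Fin n → ℝ) → α} (hF : Per F) (g : α → γ) :
    Per fun θ => g (F θ) := by
  intro θ θ' h
  beta_reduce
  rw [hF θ θ' h]

lemma vand_rpow_ofReal_measurable (n : ℕ) (β : ℝ) :
    Measurable fun θ : Fin n → ℝ => ENNReal.ofReal (vand θ ^ β) :=
  ENNReal.measurable_ofReal.comp (vand_rpow_measurable n β)

lemma lintegral_cbe_rot {β : ℝ} (hβ : 0 ≤ β) {n : ℕ} {F : (Fin n → ℝ) → ℝ≥0∞} (hF : Measurable F)
    (hP : Per F) (a : ℝ) :
    ∫⁻ θ, F (fun i => θ i + a) ∂(cbe β n) = ∫⁻ θ, F θ ∂(cbe β n) := by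
  have hm : Measurable fun θ : Fin n → ℝ => fun i => θ i + a := by fun_prop
  have hFm : Measurable fun θ : Fin n → ℝ => F fun i => θ i + a := hF.comp hm
  rw [lintegral_cbe hβ hF, lintegral_cbe hβ hFm]
  congr 1
  have hH : Measurable fun θ : Fin n → ℝ => F θ * ENNReal.ofReal (vand θ ^ β) :=
    hF.mul (vand_rpow_ofReal_measurable n β)
  have hPP : Per fun θ : Fin n → ℝ => F θ * ENNReal.ofReal (vand θ ^ β) :=
    hP.mul ((vand_per n).comp fun x => ENNReal.ofReal (x ^ β))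
  rw [← lintegral_tor_rot hH hPP a]
  apply lintegral_congr
  intro θ
  rw [vand_rot n θ a]

lemma integral_cbe_rot {β : ℝ} (hβ : 0 ≤ β) {n : ℕ} {F : (Fin n → ℝ) → ℝ} (hF : Measurable F)
    (hP : Per F) (a : ℝ) :
    ∫ θ, F (fun i => θ i + a) ∂(cbe β n) = ∫ θ, F θ ∂(cbe β n) := by
  have hm : Measurable fun θ : Fin n → ℝ => fun i => θ i + a := by fun_prop
  have key : ∀ g : ℝ → ℝ≥0∞, Measurable g → ∫⁻ θ, g (F (fun i => θ i + a)) ∂(cbe β n) =
      ∫⁻ θ, g (F θ) ∂(cbe β n) := fun g hg =>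
    lintegral_cbe_rot hβ (hg.comp hF) (hP.comp g) a
  by_cases hI : Integrable F (cbe β n)
  · have hI' : Integrable (fun θ => F (fun i => θ i + a)) (cbe β n) := by
      refine ⟨(hF.comp hm).aestronglyMeasurable, ?_⟩
      have h2 := hI.2
      unfold HasFiniteIntegral at h2 ⊢
      rwa [key (fun x => ‖x‖ₑ) (by fun_prop)]
    rw [integral_eq_lintegral_pos_part_sub_lintegral_neg_part hI',
      integral_eq_lintegral_pos_part_sub_lintegral_neg_part hI,
      key (fun x => ENNReal.ofReal x) (by fun_prop), key (fun x => ENNReal.ofReal (-x)) (by fun_prop)]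
  · have hI' : ¬ Integrable (fun θ => F (fun i => θ i + a)) (cbe β n) := by
      intro h
      apply hI
      refine ⟨hF.aestronglyMeasurable, ?_⟩
      have h2 := h.2
      unfold HasFiniteIntegral at h2 ⊢
      rwa [← key (fun x => ‖x‖ₑ) (by fun_prop)]
    rw [integral_undef hI, integral_undef hI']

lemma lintegral_tor_cons {n : ℕ} {F : (Fin (n + 1) → ℝ) → ℝ≥0∞} (hF : Measurable F) :
    ∫⁻ θ, F θ ∂(tor (n + 1)) = ∫⁻ a, ∫⁻ θ, F (Fin.cons a θ) ∂(tor n) ∂circ := by
  unfold tor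
  have h := (measurePreserving_piFinSuccAbove (fun _ : Fin (n + 1) => circ) 0).symm
  rw [← h.lintegral_comp hF, lintegral_prod]
  · apply lintegral_congr; intro a
    apply lintegral_congr; intro θ
    congr 1
    ext i
    refine Fin.cases ?_ (fun j => ?_) i <;> simp
  · exact (hF.comp h.measurable).aemeasurable

lemma lintegral_tor_perm {n : ℕ} {F : (Fin n → ℝ) → ℝ≥0∞} (hF : Measurable F)
    (σ : Equiv.Perm (Fin n)) : ∫⁻ θ, F (θ ∘ σ) ∂(tor n) = ∫⁻ θ, F θ ∂(tor n) := by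
  unfold tor
  have h := measurePreserving_piCongrLeft (fun _ : Fin n => circ) σ.symm
  rw [← h.lintegral_comp hF]
  apply lintegral_congr; intro θ
  congr 1
  ext i
  simp [MeasurableEquiv.piCongrLeft, Equiv.piCongrLeft, Equiv.piCongrLeft']

lemma lintegral_cbe_perm {β : ℝ} (hβ : 0 ≤ β) {n : ℕ} {F : (Fin n → ℝ) → ℝ≥0∞} (hF : Measurable F)
    (σ : Equiv.Perm (Fin n)) : ∫⁻ θ, F (θ ∘ σ) ∂(cbe β n) = ∫⁻ θ, F θ ∂(cbe β n) := by
  have hm : Measurable fun θ : Fin n → ℝ => θ ∘ σ :=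
    measurable_pi_lambda _ fun i => measurable_pi_apply _
  have hFm : Measurable fun θ : Fin n → ℝ => F (θ ∘ σ) := hF.comp hm
  have hFv : Measurable fun θ : Fin n → ℝ => F θ * ENNReal.ofReal (vand θ ^ β) :=
    hF.mul (vand_rpow_ofReal_measurable n β)
  rw [lintegral_cbe hβ hF, lintegral_cbe hβ hFm]
  congr 1
  rw [← lintegral_tor_perm hFv σ]
  apply lintegral_congr
  intro θ
  rw [vand_sym n θ σ]

/-- one-dimensional rotation invariance -/
lemma circ_rot {g : AddCircle (2 * π) → ℝ≥0∞} (hg : Measurable g) (t : ℝ) :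
    ∫⁻ a, g ((a + t : ℝ) : AddCircle (2 * π)) ∂circ = ∫⁻ a, g (a : AddCircle (2 * π)) ∂circ := by
  have h1 : Measurable fun x : AddCircle (2 * π) => g (x + (t : AddCircle (2 * π))) :=
    hg.comp (by fun_prop)
  have h2 := circ_mk.lintegral_comp h1
  have h3 := circ_mk.lintegral_comp hg
  simp only [AddCircle.coe_add]
  rw [h2, h3]
  unfold haarC
  rw [lintegral_smul_measure, lintegral_smul_measure, lintegral_add_right_eq_self]

lemma ae_circ : ∀ᵐ a ∂circ, a ∈ Ico (-π) π := by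
  unfold circ
  apply Measure.ae_smul_measure
  exact ae_restrict_mem measurableSet_Ico

/-- mass transport -/
lemma mass_transport {β : ℝ} (hβ : 0 ≤ β) {n : ℕ} {F : (Fin n → ℝ) → ℝ≥0∞} (hF : Measurable F)
    (hP : Per F) (hR : Rot F) (i : Fin n) {A : Set ℝ} (hA : MeasurableSet A) :
    ∫⁻ θ, A.indicator 1 (θ i) * F θ ∂(cbe β n) = circ A * ∫⁻ θ, F θ ∂(cbe β n) := by
  have hg : Measurable fun x : AddCircle (2 * π) => A.indicator (1 : ℝ → ℝ≥0∞) (tau x) :=
    (measurable_one.indicator hA).comp tau_measurable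
  have hgi : Measurable fun θ : Fin n → ℝ =>
      A.indicator (1 : ℝ → ℝ≥0∞) (tau (θ i : AddCircle (2 * π))) :=
    hg.comp (AddCircle.measurable_mk'.comp (measurable_pi_apply i))
  have hgP : Per fun θ : Fin n → ℝ => A.indicator (1 : ℝ → ℝ≥0∞) (tau (θ i : AddCircle (2 * π))) := by
    intro θ θ' h
    beta_reduce
    rw [(e_eq_iff _ _).1 (h i)]
  have e1 : ∫⁻ θ, A.indicator 1 (θ i) * F θ ∂(cbe β n) =
      ∫⁻ θ, A.indicator 1 (tau (θ i : AddCircle (2 * π))) * F θ ∂(cbe β n) := by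
    apply lintegral_congr_ae
    filter_upwards [ae_box_cbe β n] with θ hθ
    rw [tau_coe (hθ i)]
  have e2 : ∀ a : ℝ, ∫⁻ θ, A.indicator 1 (tau ((θ i + a : ℝ) : AddCircle (2 * π))) * F θ ∂(cbe β n) =
      ∫⁻ θ, A.indicator 1 (tau (θ i : AddCircle (2 * π))) * F θ ∂(cbe β n) := by
    intro a
    have hgF : Measurable fun θ : Fin n → ℝ =>
      A.indicator (1 : ℝ → ℝ≥0∞) (tau (θ i : AddCircle (2 * π))) * F θ := hgi.mul hF
    rw [← lintegral_cbe_rot hβ hgF (hgP.mul hP) a]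
    apply lintegral_congr; intro θ
    rw [hR θ a]
  have hpb := cbe_prob hβ n
  have hm2 : Measurable fun p : ℝ × (Fin n → ℝ) =>
      A.indicator (1 : ℝ → ℝ≥0∞) (tau ((p.2 i + p.1 : ℝ) : AddCircle (2 * π))) * F p.2 := by
    apply Measurable.mul
    · exact hg.comp (AddCircle.measurable_mk'.comp (by fun_prop))
    · exact hF.comp measurable_snd
  calc ∫⁻ θ, A.indicator 1 (θ i) * F θ ∂(cbe β n)
      = ∫⁻ a, ∫⁻ θ, A.indicator 1 (tau ((θ i + a : ℝ) : AddCircle (2 * π))) * F θ ∂(cbe β n) ∂circ := by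
        rw [lintegral_congr e2, lintegral_const, measure_univ, mul_one, e1]
    _ = ∫⁻ θ, ∫⁻ a, A.indicator 1 (tau ((θ i + a : ℝ) : AddCircle (2 * π))) * F θ ∂circ ∂(cbe β n) :=
        lintegral_lintegral_swap hm2.aemeasurable
    _ = ∫⁻ θ, circ A * F θ ∂(cbe β n) := by
        apply lintegral_congr; intro θ
        rw [lintegral_mul_const]
        · congr 1
          have h3 := circ_rot hg (θ i)
          simp only [add_comm _ (θ i)] at h3 ⊢
          rw [h3]
          rw [← lintegral_indicator_one hA]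
          apply lintegral_congr_ae
          filter_upwards [ae_circ] with a ha
          rw [tau_coe ha]
        · exact hg.comp (AddCircle.measurable_mk'.comp (by fun_prop))
    _ = circ A * ∫⁻ θ, F θ ∂(cbe β n) := lintegral_const_mul _ hF

end Pool.Agent.Lib.MP_b33862_pr
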