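import Mathlib
import Pool.Agent.Lib.MP_b33862_pr.Basic

/-!
Partition function and energy of the circular beta ensemble (piece P2).
-/

set_option autoImplicit false

namespace Pool.Agent.Lib.MP_b33862_pr

open MeasureTheory Set Real Filter
open scoped ENNReal Topology ComplexOrder

/-- the Vandermonde matrix of the points `e^{iθ_j}` -/
noncomputable def vmat {n : ℕ} (θ : Fin n → ℝ) : Matrix (Fin n) (Fin n) ℂ :=
  Matrix.vandermonde fun j => e (θ j)

lemma norm_det_vmat {n : ℕ} (θ : Fin n → ℝ) : ‖(vmat θ).det‖ = vand θ := by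
  rw [vmat, Matrix.det_vandermonde, vand, norm_prod]
  refine Finset.prod_congr rfl fun j _ => ?_
  rw [norm_prod]
  refine Finset.prod_congr rfl fun k _ => ?_
  exact norm_sub_rev _ _

lemma vmat_row {n : ℕ} (θ : Fin n → ℝ) (i : Fin n) :
    ((vmat θ) * (vmat θ).conjTranspose) i i = n := by
  rw [Matrix.mul_apply]
  have : ∀ j : Fin n, vmat θ i j * (vmat θ).conjTranspose j i = 1 := by
    intro j
    rw [Matrix.conjTranspose_apply, vmat, Matrix.vandermonde_apply]
    have h : ‖e (θ i) ^ (j : ℕ)‖ = 1 := by rw [norm_pow, e_norm, one_pow]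
    have := RCLike.mul_conj (e (θ i) ^ (j : ℕ))
    rw [h] at this
    simpa using this
  rw [Finset.sum_congr rfl fun j _ => this j]
  simp

lemma vand_sq_le {n : ℕ} (θ : Fin n → ℝ) : vand θ ^ 2 ≤ (n : ℝ) ^ n := by
  rcases Nat.eq_zero_or_pos n with rfl | hn
  · simp [vand]
  have hn' : (0 : ℝ) < n := by exact_mod_cast hn
  set A := (vmat θ) * (vmat θ).conjTranspose with hA
  have hpsd : A.PosSemidef := Matrix.posSemidef_self_mul_conjTranspose _
  have hH := hpsd.1
  have hdet : A.det = ((vand θ ^ 2 : ℝ) : ℂ) := by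
    rw [hA, Matrix.det_mul, Matrix.det_conjTranspose, ← norm_det_vmat]
    have := RCLike.mul_conj (vmat θ).det
    simpa using this
  have hprod : ∏ i, hH.eigenvalues i = vand θ ^ 2 := by
    have := hH.det_eq_prod_eigenvalues
    rw [hdet] at this
    have h2 : ((vand θ ^ 2 : ℝ) : ℂ) = ((∏ i, hH.eigenvalues i : ℝ) : ℂ) := by
      rw [this]; simp
    exact (Complex.ofReal_injective h2).symm
  have hsum : ∑ i, hH.eigenvalues i = (n : ℝ) ^ 2 := by
    have h1 := hH.trace_eq_sum_eigenvalues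
    have h2 : A.trace = (((n : ℝ) ^ 2 : ℝ) : ℂ) := by
      rw [Matrix.trace]
      simp only [Matrix.diag_apply, hA, vmat_row]
      simp [sq]
    rw [h2] at h1
    have h3 : (((n : ℝ) ^ 2 : ℝ) : ℂ) = ((∑ i, hH.eigenvalues i : ℝ) : ℂ) := by
      rw [h1]; simp
    exact (Complex.ofReal_injective h3).symm
  have hnn : ∀ i, 0 ≤ hH.eigenvalues i := hpsd.eigenvalues_nonneg
  have key := Real.geom_mean_le_arith_mean_weighted (Finset.univ : Finset (Fin n))
    (fun _ => (1 : ℝ) / n) hH.eigenvalues (fun _ _ => by positivity) (by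
      simp [hn'.ne']) (fun i _ => hnn i)
  rw [← Finset.mul_sum, hsum] at key
  rw [Real.finsetProd_rpow _ _ (fun i _ => hnn i)] at key
  rw [hprod] at key
  have h0 : 0 ≤ vand θ ^ 2 := by positivity
  have h4 : ((vand θ ^ 2) ^ ((1 : ℝ) / n)) ^ n ≤ (n : ℝ) ^ n := by
    refine pow_le_pow_left₀ (by positivity) (key.trans (le_of_eq ?_)) n
    field_simp
  have h5 : ((vand θ ^ 2) ^ ((1 : ℝ) / n)) ^ n = vand θ ^ 2 := by
    rw [← Real.rpow_natCast, ← Real.rpow_mul h0]
    rw [one_div, inv_mul_cancel₀ hn'.ne', Real.rpow_one]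
  rw [h5] at h4
  exact h4

lemma vand_le {n : ℕ} (θ : Fin n → ℝ) : vand θ ≤ (n : ℝ) ^ ((n : ℝ) / 2) := by
  have h := vand_sq_le θ
  have h0 := vand_nonneg θ
  have : vand θ = (vand θ ^ 2) ^ ((1 : ℝ) / 2) := by
    rw [← Real.rpow_natCast, ← Real.rpow_mul h0]
    norm_num
  rw [this]
  calc (vand θ ^ 2) ^ ((1 : ℝ) / 2) ≤ ((n : ℝ) ^ n) ^ ((1 : ℝ) / 2) :=
        Real.rpow_le_rpow (by positivity) h (by norm_num)
    _ = (n : ℝ) ^ ((n : ℝ) / 2) := by
        rw [← Real.rpow_natCast, ← Real.rpow_mul (by positivity)]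
        ring_nf

/-! ### second moment -/

lemma integral_circ (f : ℝ → ℂ) : ∫ x, f x ∂circ = ((2 * π)⁻¹ : ℝ) • ∫ x in Ico (-π) π, f x := by
  rw [circ, integral_smul_measure, ENNReal.toReal_inv, ENNReal.toReal_ofReal (by positivity)]

lemma integral_circ_e (a b : ℕ) :
    ∫ x, e x ^ a * (starRingEnd ℂ) (e x ^ b) ∂circ = if a = b then 1 else 0 := by
  have hπ := Real.pi_pos
  split_ifs with hab
  · subst hab
    have : ∀ x : ℝ, e x ^ a * (starRingEnd ℂ) (e x ^ a) = 1 := by
      intro x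
      have h : ‖e x ^ a‖ = 1 := by rw [norm_pow, e_norm, one_pow]
      have := RCLike.mul_conj (e x ^ a)
      rw [h] at this
      simpa using this
    simp_rw [this]
    simp
  · rw [integral_circ]
    have hne : ((a : ℂ) - b) ≠ 0 := by
      intro h
      rw [sub_eq_zero] at h
      exact hab (by exact_mod_cast h)
    have h1 : ∀ x : ℝ, e x ^ a * (starRingEnd ℂ) (e x ^ b) =
        Complex.exp ((((a : ℂ) - b) * Complex.I) * x) := by
      intro x
      rw [e, map_pow, ← Complex.exp_conj, ← Complex.exp_nat_mul, ← Complex.exp_nat_mul,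
        ← Complex.exp_add]
      congr 1
      simp
      ring
    simp_rw [h1]
    rw [integral_Ico_eq_integral_Ioo, ← integral_Ioc_eq_integral_Ioo,
      ← intervalIntegral.integral_of_le (by linarith), integral_exp_mul_complex
      (mul_ne_zero hne Complex.I_ne_zero)]
    have h2 : Complex.exp (((a : ℂ) - b) * Complex.I * (π : ℝ)) =
        Complex.exp (((a : ℂ) - b) * Complex.I * ((-π : ℝ) : ℂ)) := by
      rw [Complex.exp_eq_exp_iff_exists_int]
      refine ⟨(a : ℤ) - b, ?_⟩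
      push_cast
      ring
    rw [h2]
    simp

lemma integral_circ_prod {n : ℕ} (σ τ : Equiv.Perm (Fin n)) :
    ∫ θ, (∏ j, (e (θ j) ^ (σ j : ℕ) * (starRingEnd ℂ) (e (θ j) ^ (τ j : ℕ)))) ∂(tor n) =
      if σ = τ then 1 else 0 := by
  rw [tor, integral_fintype_prod_eq_prod (fun j x => (e x ^ (σ j : ℕ) *
    (starRingEnd ℂ) (e x ^ (τ j : ℕ))))]
  simp_rw [integral_circ_e]
  split_ifs with h
  · subst h; simp
  · obtain ⟨j, hj⟩ : ∃ j, σ j ≠ τ j := by
      by_contra hcon
      push Not at hcon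
      exact h (Equiv.ext hcon)
    refine Finset.prod_eq_zero (Finset.mem_univ j) ?_
    rw [if_neg]
    intro hh
    exact hj (Fin.ext hh)

lemma det_vmat {n : ℕ} (θ : Fin n → ℝ) : (vmat θ).det =
    ∑ σ : Equiv.Perm (Fin n), (Equiv.Perm.sign σ : ℂ) * ∏ j, e (θ j) ^ (σ j : ℕ) := by
  rw [← Matrix.det_transpose, Matrix.det_apply']
  refine Finset.sum_congr rfl fun σ _ => ?_
  simp [vmat, Matrix.vandermonde_apply]

lemma Z_two (n : ℕ) : Z 2 n = n.factorial := by
  have h1 : ∀ θ : Fin n → ℝ, ((vand θ ^ (2 : ℝ) : ℝ) : ℂ) =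
      ∑ σ : Equiv.Perm (Fin n), ∑ τ : Equiv.Perm (Fin n),
        ((Equiv.Perm.sign σ : ℂ) * (Equiv.Perm.sign τ : ℂ)) *
        ∏ j, (e (θ j) ^ (σ j : ℕ) * (starRingEnd ℂ) (e (θ j) ^ (τ j : ℕ))) := by
    intro θ
    have := RCLike.mul_conj (vmat θ).det
    rw [norm_det_vmat] at this
    have h2 : ((vand θ ^ (2 : ℝ) : ℝ) : ℂ) = (vmat θ).det * (starRingEnd ℂ) (vmat θ).det := by
      rw [this]
      norm_num
    rw [h2, det_vmat, map_sum, Finset.sum_mul_sum]
    refine Finset.sum_congr rfl fun σ _ => Finset.sum_congr rfl fun τ _ => ?_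
    rw [Finset.prod_mul_distrib, map_mul, map_prod]
    simp only [map_intCast]
    ring
  have hint : ∀ σ τ : Equiv.Perm (Fin n), Integrable (fun θ : Fin n → ℝ =>
      ((Equiv.Perm.sign σ : ℂ) * (Equiv.Perm.sign τ : ℂ)) *
        ∏ j, (e (θ j) ^ (σ j : ℕ) * (starRingEnd ℂ) (e (θ j) ^ (τ j : ℕ)))) (tor n) := by
    intro σ τ
    refine Integrable.const_mul ?_ _
    refine Integrable.of_bound (C := 1) ?_ ?_
    · refine Continuous.aestronglyMeasurable ?_
      have := e_continuous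
      fun_prop
    · refine ae_of_all _ fun θ => ?_
      rw [norm_prod]
      refine (Finset.prod_le_one (fun _ _ => norm_nonneg _) fun j _ => ?_)
      rw [norm_mul, RCLike.norm_conj, norm_pow, norm_pow, e_norm]
      simp
  have h3 : ((Z 2 n : ℝ) : ℂ) = n.factorial := by
    rw [Z, ← integral_complex_ofReal]
    simp_rw [h1]
    rw [integral_finsetSum _ fun σ _ => integrable_finsetSum _ fun τ _ => hint σ τ]
    have : ∀ σ : Equiv.Perm (Fin n), ∫ θ, ∑ τ : Equiv.Perm (Fin n),
        ((Equiv.Perm.sign σ : ℂ) * (Equiv.Perm.sign τ : ℂ)) *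
        ∏ j, (e (θ j) ^ (σ j : ℕ) * (starRingEnd ℂ) (e (θ j) ^ (τ j : ℕ))) ∂(tor n) = 1 := by
      intro σ
      rw [integral_finsetSum _ fun τ _ => hint σ τ]
      simp_rw [integral_const_mul, integral_circ_prod]
      rw [Finset.sum_eq_single σ]
      · simp only [if_true, mul_one]
        rcases Int.units_eq_one_or (Equiv.Perm.sign σ) with h | h <;> simp [h]
      · intro τ _ hτ
        rw [if_neg (Ne.symm hτ), mul_zero]
      · intro h; exact absurd (Finset.mem_univ _) h
    rw [Finset.sum_congr rfl fun σ _ => this σ]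
    simp [Fintype.card_perm]
  exact_mod_cast h3

/-! ### bounds for the partition function -/

lemma vand_rpow_continuous {β : ℝ} (hβ : 0 ≤ β) (n : ℕ) :
    Continuous fun θ : Fin n → ℝ => vand θ ^ β :=
  (vand_continuous n).rpow_const fun _ => Or.inr hβ

lemma vand_rpow_le {β : ℝ} (hβ : 0 ≤ β) {n : ℕ} (θ : Fin n → ℝ) :
    vand θ ^ β ≤ (n : ℝ) ^ (β * n / 2) := by
  calc vand θ ^ β ≤ ((n : ℝ) ^ ((n : ℝ) / 2)) ^ β :=
        Real.rpow_le_rpow (vand_nonneg θ) (vand_le θ) hβ
    _ = (n : ℝ) ^ (β * n / 2) := by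
        rw [← Real.rpow_mul (by positivity)]
        ring_nf

lemma integrable_vand_rpow {β : ℝ} (hβ : 0 ≤ β) (n : ℕ) :
    Integrable (fun θ : Fin n → ℝ => vand θ ^ β) (tor n) := by
  refine Integrable.of_bound (C := (n : ℝ) ^ (β * n / 2))
    (vand_rpow_continuous hβ n).aestronglyMeasurable (ae_of_all _ fun θ => ?_)
  rw [Real.norm_eq_abs, abs_of_nonneg (Real.rpow_nonneg (vand_nonneg θ) _)]
  exact vand_rpow_le hβ θ

lemma Z_le {β : ℝ} (hβ : 0 ≤ β) (n : ℕ) : Z β n ≤ (n : ℝ) ^ (β * n / 2) := by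
  rw [Z]
  calc ∫ θ, vand θ ^ β ∂(tor n) ≤ ∫ _θ, (n : ℝ) ^ (β * n / 2) ∂(tor n) :=
        integral_mono (integrable_vand_rpow hβ n) (integrable_const _) fun θ => vand_rpow_le hβ θ
    _ = (n : ℝ) ^ (β * n / 2) := by simp

lemma factorial_ge (n : ℕ) : Real.exp (-(n : ℝ)) * (n : ℝ) ^ (n : ℝ) ≤ n.factorial := by
  have h1 : (n : ℝ) ^ n / n.factorial ≤ Real.exp n := by
    have := Real.pow_div_factorial_le_exp (x := (n : ℝ)) (by positivity) n
    exact this
  rw [Real.rpow_natCast, Real.exp_neg]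
  have h2 : (0 : ℝ) < n.factorial := by exact_mod_cast Nat.factorial_pos n
  rw [div_le_iff₀ h2] at h1
  rw [inv_mul_le_iff₀ (Real.exp_pos _)]
  exact h1

lemma Z_ge {β : ℝ} (hβ : 0 < β) (n : ℕ) :
    Real.exp (-((1 + β) * n)) * (n : ℝ) ^ (β * n / 2) ≤ Z β n := by
  have hZ2 := Z_two n
  have hf := factorial_ge n
  rcases Nat.eq_zero_or_pos n with rfl | hn
  · simp [Z, vand]
  have hn' : (0 : ℝ) < n := by exact_mod_cast hn
  rcases le_total β 2 with h2 | h2
  · -- `β ≤ 2`
    have h3 : Z 2 n ≤ (n : ℝ) ^ ((2 - β) * n / 2) * Z β n := by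
      rw [Z, Z, ← integral_const_mul]
      refine integral_mono (integrable_vand_rpow (by norm_num) n)
        ((integrable_vand_rpow hβ.le n).const_mul _) fun θ => ?_
      have h4 := vand_rpow_le (β := 2 - β) (by linarith) θ
      rcases (vand_nonneg θ).eq_or_lt with h0 | h0
      · simp only [← h0]
        rw [Real.zero_rpow (by norm_num), Real.zero_rpow hβ.ne']
        simp
      · calc vand θ ^ (2 : ℝ) = vand θ ^ (2 - β) * vand θ ^ β := by
              rw [← Real.rpow_add h0]; ring_nf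
          _ ≤ _ := by
              refine mul_le_mul_of_nonneg_right h4 (Real.rpow_nonneg (vand_nonneg θ) _)
    rw [hZ2] at h3
    have h5 : (0 : ℝ) < (n : ℝ) ^ ((2 - β) * n / 2) := Real.rpow_pos_of_pos hn' _
    have h6 : Real.exp (-(n : ℝ)) * (n : ℝ) ^ (n : ℝ) ≤ (n : ℝ) ^ ((2 - β) * n / 2) * Z β n :=
      hf.trans h3
    have h7 : (n : ℝ) ^ (n : ℝ) = (n : ℝ) ^ ((2 - β) * n / 2) * (n : ℝ) ^ (β * n / 2) := by
      rw [← Real.rpow_add hn']; ring_nf
    rw [h7] at h6
    have h8 : Real.exp (-(n : ℝ)) * (n : ℝ) ^ (β * n / 2) ≤ Z β n := by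
      refine le_of_mul_le_mul_left ?_ h5
      linarith [h6]
    refine le_trans ?_ h8
    refine mul_le_mul_of_nonneg_right ?_ (Real.rpow_nonneg hn'.le _)
    refine Real.exp_le_exp.2 ?_
    nlinarith
  · -- `2 ≤ β`
    have hc : ConvexOn ℝ (Ici (0 : ℝ)) fun x : ℝ => x ^ (β / 2) :=
      convexOn_rpow (by linarith)
    have hJ := hc.map_integral_le (μ := tor n) (f := fun θ : Fin n → ℝ => vand θ ^ (2 : ℝ))
      (continuousOn_id.rpow_const fun x _ => Or.inr (by linarith)) isClosed_Ici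
      (ae_of_all _ fun θ => Real.rpow_nonneg (vand_nonneg θ) _)
      (integrable_vand_rpow (by norm_num) n) (by
        have : ((fun x : ℝ => x ^ (β / 2)) ∘ fun θ : Fin n → ℝ => vand θ ^ (2 : ℝ)) =
            fun θ => vand θ ^ β := by
          funext θ
          simp only [Function.comp]
          rw [← Real.rpow_mul (vand_nonneg θ)]
          ring_nf
        rw [this]
        exact integrable_vand_rpow hβ.le n)
    have h9 : (∫ θ, (fun x : ℝ => x ^ (β / 2)) (vand θ ^ (2 : ℝ)) ∂(tor n)) = Z β n := by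
      rw [Z]
      refine integral_congr_ae (ae_of_all _ fun θ => ?_)
      simp only
      rw [← Real.rpow_mul (vand_nonneg θ)]
      ring_nf
    have hJ' : (Z 2 n) ^ (β / 2) ≤ Z β n := by
      rw [← h9]; exact hJ
    rw [hZ2] at hJ'
    refine le_trans ?_ hJ'
    calc Real.exp (-((1 + β) * n)) * (n : ℝ) ^ (β * n / 2)
        ≤ Real.exp (-((n : ℝ) * (β / 2))) * (n : ℝ) ^ (β * n / 2) := by
          refine mul_le_mul_of_nonneg_right ?_ (Real.rpow_nonneg hn'.le _)
          refine Real.exp_le_exp.2 ?_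
          nlinarith
      _ = (Real.exp (-(n : ℝ)) * (n : ℝ) ^ (n : ℝ)) ^ (β / 2) := by
          rw [Real.mul_rpow (by positivity) (by positivity), ← Real.exp_mul,
            ← Real.rpow_mul hn'.le]
          ring_nf
      _ ≤ _ := Real.rpow_le_rpow (by positivity) hf (by positivity)

/-! ### energy -/

/-- `x^β |log x|` is bounded on `[0, M]` -/
lemma rpow_mul_abs_log_le {β : ℝ} (hβ : 0 < β) {x M : ℝ} (hx : 0 ≤ x) (hxM : x ≤ M) :
    x ^ β * |Real.log x| ≤ 1 / β + M ^ β * M := by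
  have hM : 0 ≤ M := hx.trans hxM
  rcases hx.eq_or_lt with h0 | h0
  · rw [← h0, Real.log_zero]; simp; positivity
  rcases le_total x 1 with h1 | h1
  · have h2 := Real.abs_log_mul_self_rpow_lt x β h0 h1 hβ
    rw [abs_mul, abs_of_nonneg (Real.rpow_nonneg hx β)] at h2
    have : 0 ≤ M ^ β * M := by positivity
    linarith
  · have h2 : |Real.log x| ≤ x := by
      rw [abs_of_nonneg (Real.log_nonneg h1)]
      have := Real.log_le_sub_one_of_pos h0
      linarith
    have h3 : x ^ β * |Real.log x| ≤ M ^ β * M :=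
      mul_le_mul (Real.rpow_le_rpow hx hxM hβ.le) (h2.trans hxM) (abs_nonneg _) (by positivity)
    have : 0 ≤ 1 / β := by positivity
    linarith

lemma integrable_log_vand {β : ℝ} (hβ : 0 < β) (n : ℕ) :
    Integrable (fun θ => Real.log (vand θ)) (cbe β n) := by
  have hm : Measurable (fun θ : Fin n → ℝ => vand θ) := (vand_continuous n).measurable
  rw [cbe, integrable_withDensity_iff (by fun_prop) (ae_of_all _ fun θ => ENNReal.ofReal_lt_top)]
  refine Integrable.of_bound (C := (1 / β + ((n : ℝ) ^ ((n : ℝ) / 2)) ^ β *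
    (n : ℝ) ^ ((n : ℝ) / 2)) / Z β n) (by fun_prop) (ae_of_all _ fun θ => ?_)
  have hZ := Z_pos β hβ.le n
  have hv := Real.rpow_nonneg (vand_nonneg θ) β
  rw [ENNReal.toReal_ofReal (by positivity), norm_mul, Real.norm_eq_abs, Real.norm_eq_abs,
    abs_of_nonneg (a := vand θ ^ β / Z β n) (by positivity)]
  have := rpow_mul_abs_log_le hβ (vand_nonneg θ) (vand_le θ)
  calc |Real.log (vand θ)| * (vand θ ^ β / Z β n) = (vand θ ^ β * |Real.log (vand θ)|) / Z β n := by
        ring
    _ ≤ _ := by gcongr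

theorem energy_le {β : ℝ} (hβ : 0 < β) (n : ℕ) :
    ∫ θ, Real.log (vand θ) ∂(cbe β n) ≤ (n : ℝ) / 2 * Real.log n := by
  have := cbe_prob hβ.le n
  have h : ∀ᵐ θ ∂(cbe β n), Real.log (vand θ) ≤ (n : ℝ) / 2 * Real.log n := by
    filter_upwards [vand_pos_ae_cbe β n] with θ hθ
    have hn : (0 : ℝ) ≤ n := by positivity
    rcases Nat.eq_zero_or_pos n with rfl | hn0
    · simp [vand]
    have hn' : (0 : ℝ) < n := by exact_mod_cast hn0
    rw [← Real.log_rpow hn']
    exact Real.log_le_log hθ (vand_le θ)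
  calc ∫ θ, Real.log (vand θ) ∂(cbe β n) ≤ ∫ _θ, (n : ℝ) / 2 * Real.log n ∂(cbe β n) :=
        integral_mono_ae (integrable_log_vand hβ n) (integrable_const _) h
    _ = _ := by simp

theorem energy_ge {β : ℝ} (hβ : 0 < β) (n : ℕ) :
    (n : ℝ) / 2 * Real.log n - 2 * (1 + β) / β * n ≤ ∫ θ, Real.log (vand θ) ∂(cbe β n) := by
  have := cbe_prob hβ.le n
  rcases Nat.eq_zero_or_pos n with rfl | hn
  · simp [vand]
  have hn' : (0 : ℝ) < n := by exact_mod_cast hn
  have hZ := Z_pos β hβ.le n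
  have hZ' := Z_pos (β / 2) (by positivity) n
  have hm : Measurable (fun θ : Fin n → ℝ => vand θ) := (vand_continuous n).measurable
  have hexp : ∀ᵐ θ ∂(tor n), Real.exp (-(β / 2) * Real.log (vand θ)) * vand θ ^ β =
      vand θ ^ (β / 2) := by
    filter_upwards [vand_pos_ae n] with θ hθ
    rw [mul_comm (-(β / 2)), ← Real.rpow_def_of_pos hθ, ← Real.rpow_add hθ]
    ring_nf
  have hint : Integrable (fun θ => Real.exp (-(β / 2) * Real.log (vand θ))) (cbe β n) := by
    rw [cbe, integrable_withDensity_iff (by fun_prop) (ae_of_all _ fun θ => ENNReal.ofReal_lt_top)]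
    refine ((integrable_vand_rpow (β := β / 2) (by positivity) n).div_const (Z β n)).congr ?_
    filter_upwards [hexp] with θ hθ
    rw [ENNReal.toReal_ofReal (by have := Real.rpow_nonneg (vand_nonneg θ) β; positivity), ← hθ]
    ring
  have hJ := convexOn_exp.map_integral_le (μ := cbe β n)
    (f := fun θ => -(β / 2) * Real.log (vand θ)) Real.continuous_exp.continuousOn isClosed_univ
    (ae_of_all _ fun _ => mem_univ _) ((integrable_log_vand hβ n).const_mul _) hint
  have h1 : ∫ θ, Real.exp (-(β / 2) * Real.log (vand θ)) ∂(cbe β n) = Z (β / 2) n / Z β n := by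
    rw [integral_cbe hβ.le, integral_congr_ae hexp, Z, Z]
  rw [h1, integral_const_mul] at hJ
  have h2 := Real.log_le_log (Real.exp_pos _) hJ
  rw [Real.log_exp, Real.log_div hZ'.ne' hZ.ne'] at h2
  have h3 : Real.log (Z (β / 2) n) ≤ (β / 2) * n / 2 * Real.log n := by
    rw [← Real.log_rpow hn']
    exact Real.log_le_log hZ' (Z_le (by positivity) n)
  have h4 : -((1 + β) * n) + β * n / 2 * Real.log n ≤ Real.log (Z β n) := by
    have := Real.log_le_log (by positivity) (Z_ge hβ n)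
    rwa [Real.log_mul (Real.exp_pos _).ne' (Real.rpow_pos_of_pos hn' _).ne', Real.log_exp,
      Real.log_rpow hn'] at this
  set E := ∫ θ, Real.log (vand θ) ∂(cbe β n)
  have h5 : (β / 2) * ((n : ℝ) / 2 * Real.log n - 2 * (1 + β) / β * n) ≤ (β / 2) * E := by
    have h6 : (β / 2) * ((n : ℝ) / 2 * Real.log n - 2 * (1 + β) / β * n) =
        β * n / 4 * Real.log n - (1 + β) * n := by
      field_simp
      ring
    rw [h6]
    linarith
  exact le_of_mul_le_mul_left h5 (by positivity)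

end Pool.Agent.Lib.MP_b33862_pr
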