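import Mathlib
import Pool.Agent.Lib.MP_b33862_pr.Basic
import Pool.Agent.Lib.MP_b33862_pr.Part

/-!
Positivity inequality for the logarithmic energy and bounds for the expected local counts of the
circular beta ensemble.
-/

set_option autoImplicit false

namespace Pool.Agent.Lib.MP_b33862_pr

open MeasureTheory Set Real Filter
open scoped ENNReal Topology

/-! ### sums over pairs -/

lemma sum_pairs {n : ℕ} (F : Fin n → Fin n → ℝ) (hF : ∀ i j, F i j = F j i) :
    ∑ i, ∑ j ∈ Finset.univ.erase i, F i j = 2 * ∑ i, ∑ j ∈ Finset.Ioi i, F i j := by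
  have h1 : ∀ i : Fin n, ∑ j ∈ Finset.univ.erase i, F i j
      = ∑ j ∈ Finset.Ioi i, F i j + ∑ j ∈ Finset.Iio i, F i j := by
    intro i
    rw [← Finset.sum_union]
    · apply Finset.sum_congr _ (fun _ _ => rfl)
      ext j
      simp only [Finset.mem_erase, Finset.mem_univ, and_true, Finset.mem_union, Finset.mem_Ioi,
        Finset.mem_Iio]
      constructor
      · intro h
        rcases lt_or_gt_of_ne h with h | h
        · exact Or.inr h
        · exact Or.inl h
      · rintro (h | h)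
        · exact h.ne'
        · exact h.ne
    · rw [Finset.disjoint_left]
      intro j hj hj'
      rw [Finset.mem_Ioi] at hj
      rw [Finset.mem_Iio] at hj'
      exact lt_asymm hj hj'
  have h2 : ∑ i, ∑ j ∈ Finset.Iio i, F i j = ∑ i, ∑ j ∈ Finset.Ioi i, F i j := by
    rw [Finset.sum_comm' (t' := Finset.univ) (s' := fun j => Finset.Ioi j)]
    · apply Finset.sum_congr rfl
      intro i _
      apply Finset.sum_congr rfl
      intro j _
      exact hF j i
    · intro x y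
      simp
  rw [Finset.sum_congr rfl (fun i _ => h1 i), Finset.sum_add_distrib, h2]
  ring

lemma sum_all {n : ℕ} (F : Fin n → Fin n → ℝ) (hF : ∀ i j, F i j = F j i) :
    ∑ i, ∑ j, F i j = ∑ i, F i i + 2 * ∑ i, ∑ j ∈ Finset.Ioi i, F i j := by
  rw [← sum_pairs F hF, ← Finset.sum_add_distrib]
  apply Finset.sum_congr rfl
  intro i _
  rw [Finset.add_sum_erase _ _ (Finset.mem_univ i)]

/-! ### the positivity inequality -/

lemma sum_log_nonpos {n : ℕ} (u : Fin n → ℂ) (hu : ∀ i, ‖u i‖ < 1) :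
    ∑ i, ∑ j, Real.log ‖1 - u i * (starRingEnd ℂ) (u j)‖ ≤ 0 := by
  have hw : ∀ i j, ‖u i * (starRingEnd ℂ) (u j)‖ < 1 := by
    intro i j
    rw [norm_mul, RCLike.norm_conj]
    calc ‖u i‖ * ‖u j‖ ≤ ‖u i‖ * 1 := by
          apply mul_le_mul_of_nonneg_left (hu j).le (norm_nonneg _)
      _ < 1 := by rw [mul_one]; exact hu i
  have h1 : HasSum (fun m : ℕ => ∑ i, ∑ j, (u i * (starRingEnd ℂ) (u j)) ^ m / (m : ℂ))
      (∑ i, ∑ j, -Complex.log (1 - u i * (starRingEnd ℂ) (u j))) := by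
    apply hasSum_sum
    intro i _
    apply hasSum_sum
    intro j _
    exact Complex.hasSum_taylorSeries_neg_log (hw i j)
  have h2 : ∀ m : ℕ, ∑ i, ∑ j, (u i * (starRingEnd ℂ) (u j)) ^ m / (m : ℂ)
      = (((‖∑ i, u i ^ m‖ ^ 2 / (m : ℝ) : ℝ)) : ℂ) := by
    intro m
    have : ∑ i, ∑ j, (u i * (starRingEnd ℂ) (u j)) ^ m / (m : ℂ)
        = (∑ i, u i ^ m) * (starRingEnd ℂ) (∑ i, u i ^ m) / m := by
      rw [map_sum, Finset.sum_mul_sum, Finset.sum_div]
      apply Finset.sum_congr rfl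
      intro i _
      rw [Finset.sum_div]
      apply Finset.sum_congr rfl
      intro j _
      rw [mul_pow, map_pow]
    rw [this, Complex.mul_conj, Complex.normSq_eq_norm_sq]
    push_cast
    ring
  have h3 := h1
  simp_rw [h2] at h3
  have h4 : HasSum (fun m : ℕ => ‖∑ i, u i ^ m‖ ^ 2 / (m : ℝ))
      (∑ i, ∑ j, -Complex.log (1 - u i * (starRingEnd ℂ) (u j))).re := by
    have := Complex.hasSum_re h3
    simpa only [Complex.ofReal_re] using this
  have h5 : 0 ≤ (∑ i, ∑ j, -Complex.log (1 - u i * (starRingEnd ℂ) (u j))).re :=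
    h4.nonneg fun m => by positivity
  have h6 : (∑ i, ∑ j, -Complex.log (1 - u i * (starRingEnd ℂ) (u j))).re
      = -∑ i, ∑ j, Real.log ‖1 - u i * (starRingEnd ℂ) (u j)‖ := by
    rw [Complex.re_sum, ← Finset.sum_neg_distrib]
    apply Finset.sum_congr rfl
    intro i _
    rw [Complex.re_sum, ← Finset.sum_neg_distrib]
    apply Finset.sum_congr rfl
    intro j _
    rw [Complex.neg_re, Complex.log_re]
  linarith

lemma norm_sub_sq_aux {z w : ℂ} (hz : ‖z‖ = 1) (hw : ‖w‖ = 1) (ρ : ℝ) :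
    ‖1 - (ρ : ℂ) * (z * (starRingEnd ℂ) w)‖ ^ 2 = (1 - ρ) ^ 2 + ρ * ‖z - w‖ ^ 2 := by
  have hz2 : z.re ^ 2 + z.im ^ 2 = 1 := by
    have := Complex.sq_norm z
    rw [hz, Complex.normSq_apply] at this
    nlinarith
  have hw2 : w.re ^ 2 + w.im ^ 2 = 1 := by
    have := Complex.sq_norm w
    rw [hw, Complex.normSq_apply] at this
    nlinarith
  rw [Complex.sq_norm, Complex.sq_norm, Complex.normSq_apply, Complex.normSq_apply]
  simp only [Complex.sub_re, Complex.one_re, Complex.mul_re, Complex.ofReal_re, Complex.conj_re,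
    Complex.conj_im, Complex.ofReal_im, Complex.mul_im, Complex.sub_im, Complex.one_im]
  have h : (z.re * w.re + z.im * w.im) ^ 2 + (z.im * w.re - z.re * w.im) ^ 2 = 1 := by
    have : (z.re * w.re + z.im * w.im) ^ 2 + (z.im * w.re - z.re * w.im) ^ 2
      = (z.re ^ 2 + z.im ^ 2) * (w.re ^ 2 + w.im ^ 2) := by ring
    rw [this, hz2, hw2, one_mul]
  linear_combination ρ ^ 2 * h - ρ * hz2 - ρ * hw2

lemma sinh_aux {x : ℝ} (hx : 0 < x) : x ^ 2 * Real.exp (-x) ≤ (1 - Real.exp (-x)) ^ 2 := by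
  have h1 : x / 2 ≤ Real.sinh (x / 2) := Real.self_le_sinh_iff.2 (by positivity)
  rw [Real.sinh_eq] at h1
  have h2 : x * Real.exp (-(x / 2)) ≤ 1 - Real.exp (-x) := by
    have h3 : x ≤ Real.exp (x / 2) - Real.exp (-(x / 2)) := by linarith
    calc x * Real.exp (-(x / 2)) ≤ (Real.exp (x / 2) - Real.exp (-(x / 2))) * Real.exp (-(x / 2)) :=
          mul_le_mul_of_nonneg_right h3 (Real.exp_pos _).le
      _ = 1 - Real.exp (-x) := by
          rw [sub_mul, ← Real.exp_add, ← Real.exp_add]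
          congr 1
          · rw [show x / 2 + -(x / 2) = 0 by ring, Real.exp_zero]
          · congr 1; ring
  calc x ^ 2 * Real.exp (-x) = (x * Real.exp (-(x / 2))) ^ 2 := by
        rw [mul_pow, ← Real.exp_nat_mul]; congr 2; push_cast; ring
    _ ≤ _ := by
        apply pow_le_pow_left₀ _ h2
        positivity

lemma pair_log {z w : ℂ} (hz : ‖z‖ = 1) (hw : ‖w‖ = 1) (hzw : z ≠ w) {a b : ℝ} (ha : 0 < a)
    (hb : 0 < b) :
    Real.log ‖z - w‖ + 1 / 2 * Real.log (1 + (a + b) ^ 2 / ‖z - w‖ ^ 2) - (a + b) / 2 ≤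
      Real.log ‖1 - ((Real.exp (-a) : ℂ) * z) * (starRingEnd ℂ) ((Real.exp (-b) : ℂ) * w)‖ := by
  set d := ‖z - w‖ with hd
  have hd0 : 0 < d := norm_pos_iff.2 (sub_ne_zero.2 hzw)
  set x := a + b with hx
  have hx0 : 0 < x := by positivity
  have e1 : ((Real.exp (-a) : ℂ) * z) * (starRingEnd ℂ) ((Real.exp (-b) : ℂ) * w)
      = ((Real.exp (-x) : ℝ) : ℂ) * (z * (starRingEnd ℂ) w) := by
    rw [map_mul, Complex.conj_ofReal]
    have : Real.exp (-x) = Real.exp (-a) * Real.exp (-b) := by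
      rw [← Real.exp_add]; congr 1; rw [hx]; ring
    rw [this]
    push_cast
    ring
  rw [e1]
  have e2 := norm_sub_sq_aux hz hw (Real.exp (-x))
  have e3 : Real.exp (-x) * (d ^ 2 + x ^ 2) ≤
      ‖1 - ((Real.exp (-x) : ℝ) : ℂ) * (z * (starRingEnd ℂ) w)‖ ^ 2 := by
    rw [e2, ← hd]
    have := sinh_aux hx0
    nlinarith
  have e4 : 0 < Real.exp (-x) * (d ^ 2 + x ^ 2) := by positivity
  have e5 := Real.log_le_log e4 e3
  rw [Real.log_pow] at e5
  have e6 : Real.log (Real.exp (-x) * (d ^ 2 + x ^ 2)) =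
      -x + (2 * Real.log d + Real.log (1 + x ^ 2 / d ^ 2)) := by
    rw [Real.log_mul (Real.exp_pos _).ne' (by positivity), Real.log_exp]
    congr 1
    rw [show d ^ 2 + x ^ 2 = d ^ 2 * (1 + x ^ 2 / d ^ 2) by field_simp,
      Real.log_mul (by positivity) (by positivity), Real.log_pow]
    push_cast
    ring
  rw [e6] at e5
  have e7 : ((2 : ℕ) : ℝ) = 2 := by norm_num
  rw [e7] at e5
  linarith

theorem star {n : ℕ} (θ : Fin n → ℝ) (h : vand θ ≠ 0) (η : Fin n → ℝ) (hη : ∀ i, 0 < η i) :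
    Real.log (vand θ) + 1 / 2 * ∑ i, ∑ j ∈ Finset.Ioi i,
        Real.log (1 + (η i + η j) ^ 2 / ‖e (θ i) - e (θ j)‖ ^ 2) ≤
      1 / 2 * ∑ i, Real.log (1 / (1 - Real.exp (-(2 * η i)))) + ((n : ℝ) - 1) / 2 * ∑ i, η i := by
  set u : Fin n → ℂ := fun i => (Real.exp (-(η i)) : ℂ) * e (θ i) with hu
  have hun : ∀ i, ‖u i‖ = Real.exp (-(η i)) := by
    intro i
    rw [hu]
    simp only
    rw [norm_mul, e_norm, mul_one, Complex.norm_real, Real.norm_eq_abs, abs_of_pos (Real.exp_pos _)]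
  have hu1 : ∀ i, ‖u i‖ < 1 := by
    intro i
    rw [hun, Real.exp_lt_one_iff]
    linarith [hη i]
  have hne : ∀ i j, i < j → ‖e (θ i) - e (θ j)‖ ≠ 0 := by
    intro i j hij h0
    apply h
    unfold vand
    exact Finset.prod_eq_zero (Finset.mem_univ i)
      (Finset.prod_eq_zero (Finset.mem_Ioi.2 hij) h0)
  have hlog : Real.log (vand θ) = ∑ i, ∑ j ∈ Finset.Ioi i, Real.log ‖e (θ i) - e (θ j)‖ := by
    unfold vand
    rw [Real.log_prod]
    · apply Finset.sum_congr rfl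
      intro i _
      rw [Real.log_prod]
      intro j hj
      exact hne i j (Finset.mem_Ioi.1 hj)
    · intro i _
      rw [Finset.prod_ne_zero_iff]
      intro j hj
      exact hne i j (Finset.mem_Ioi.1 hj)
  have hS := sum_log_nonpos u hu1
  have hsym : ∀ i j, Real.log ‖1 - u i * (starRingEnd ℂ) (u j)‖
      = Real.log ‖1 - u j * (starRingEnd ℂ) (u i)‖ := by
    intro i j
    rw [← RCLike.norm_conj (1 - u j * (starRingEnd ℂ) (u i))]
    congr 2
    simp [mul_comm]
  rw [sum_all _ hsym] at hS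
  have hdiag : ∀ i, Real.log ‖1 - u i * (starRingEnd ℂ) (u i)‖
      = -Real.log (1 / (1 - Real.exp (-(2 * η i)))) := by
    intro i
    rw [one_div, Real.log_inv, neg_neg, Complex.mul_conj, Complex.normSq_eq_norm_sq, hun]
    have : (1 : ℂ) - ((Real.exp (-(η i)) ^ 2 : ℝ) : ℂ) = ((1 - Real.exp (-(2 * η i)) : ℝ) : ℂ) := by
      rw [← Real.exp_nat_mul]
      push_cast
      congr 2
      ring
    rw [this, Complex.norm_real, Real.norm_eq_abs, Real.log_abs]
  rw [Finset.sum_congr rfl (fun i _ => hdiag i), Finset.sum_neg_distrib] at hS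
  have hpair : ∑ i, ∑ j ∈ Finset.Ioi i, (Real.log ‖e (θ i) - e (θ j)‖ +
      1 / 2 * Real.log (1 + (η i + η j) ^ 2 / ‖e (θ i) - e (θ j)‖ ^ 2) - (η i + η j) / 2) ≤
      ∑ i, ∑ j ∈ Finset.Ioi i, Real.log ‖1 - u i * (starRingEnd ℂ) (u j)‖ := by
    apply Finset.sum_le_sum
    intro i _
    apply Finset.sum_le_sum
    intro j hj
    exact pair_log (e_norm _) (e_norm _)
      (sub_ne_zero.1 (norm_ne_zero_iff.1 (hne i j (Finset.mem_Ioi.1 hj)))) (hη i) (hη j)
  have hsplit : ∑ i, ∑ j ∈ Finset.Ioi i, (Real.log ‖e (θ i) - e (θ j)‖ +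
      1 / 2 * Real.log (1 + (η i + η j) ^ 2 / ‖e (θ i) - e (θ j)‖ ^ 2) - (η i + η j) / 2)
      = Real.log (vand θ) + 1 / 2 * (∑ i, ∑ j ∈ Finset.Ioi i,
        Real.log (1 + (η i + η j) ^ 2 / ‖e (θ i) - e (θ j)‖ ^ 2))
        - ∑ i, ∑ j ∈ Finset.Ioi i, (η i + η j) / 2 := by
    rw [hlog, Finset.mul_sum, ← Finset.sum_add_distrib, ← Finset.sum_sub_distrib]
    apply Finset.sum_congr rfl
    intro i _
    rw [Finset.mul_sum, ← Finset.sum_add_distrib, ← Finset.sum_sub_distrib]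
  have heta : ∑ i, ∑ j ∈ Finset.Ioi i, (η i + η j) / 2 = ((n : ℝ) - 1) / 2 * ∑ i, η i := by
    have h1 := sum_pairs (fun i j => (η i + η j) / 2) (fun i j => by ring)
    have h2 : ∑ i, ∑ j ∈ Finset.univ.erase i, (η i + η j) / 2 = ((n : ℝ) - 1) * ∑ i, η i := by
      have h3 : ∀ i, ∑ j ∈ Finset.univ.erase i, (η i + η j) / 2
          = (n : ℝ) / 2 * η i + (∑ j, η j) / 2 - η i := by
        intro i
        have := Finset.add_sum_erase Finset.univ (fun j => (η i + η j) / 2) (Finset.mem_univ i)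
        have h4 : ∑ j, (η i + η j) / 2 = (n : ℝ) / 2 * η i + (∑ j, η j) / 2 := by
          rw [← Finset.sum_div, Finset.sum_add_distrib, Finset.sum_const, Finset.card_univ,
            Fintype.card_fin, nsmul_eq_mul]
          ring
        linarith
      rw [Finset.sum_congr rfl (fun i _ => h3 i), Finset.sum_sub_distrib, Finset.sum_add_distrib,
        ← Finset.mul_sum, Finset.sum_const, Finset.card_univ, Fintype.card_fin, nsmul_eq_mul]
      ring
    rw [h2] at h1
    linarith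
  rw [hsplit, heta] at hpair
  linarith

/-! ### local counts -/

lemma cnt_pos {n : ℕ} {r : ℝ} (hr : 0 ≤ r) (θ : Fin n → ℝ) (i : Fin n) : 1 ≤ cnt r θ i := by
  unfold cnt
  rw [Nat.one_le_iff_ne_zero]
  apply Finset.card_ne_zero_of_mem (a := i)
  simp [hr]

lemma cnt_le_n {n : ℕ} (r : ℝ) (θ : Fin n → ℝ) (i : Fin n) : cnt r θ i ≤ n := by
  unfold cnt
  calc _ ≤ (Finset.univ : Finset (Fin n)).card := Finset.card_filter_le _ _
    _ = n := by simp

lemma cnt_sub_one {n : ℕ} {r : ℝ} (hr : 0 ≤ r) (θ : Fin n → ℝ) (i : Fin n) :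
    (cnt r θ i : ℝ) - 1 = ∑ j ∈ Finset.univ.erase i,
      if ‖e (θ i) - e (θ j)‖ ≤ r then (1 : ℝ) else 0 := by
  unfold cnt
  rw [Finset.card_filter]
  push_cast
  have := Finset.add_sum_erase Finset.univ
    (fun j => if ‖e (θ i) - e (θ j)‖ ≤ r then (1 : ℝ) else 0) (Finset.mem_univ i)
  rw [← this]
  simp [hr]

lemma one_sub_exp_ge {x : ℝ} (h0 : 0 < x) (h1 : x ≤ 1) : x / 2 ≤ 1 - Real.exp (-(2 * x)) := by
  -- `exp (2 x) ≥ 1 + 2 x`
  have h2 : 1 + 2 * x ≤ Real.exp (2 * x) := by linarith [Real.add_one_le_exp (2 * x)]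
  have h3 : Real.exp (-(2 * x)) ≤ 1 / (1 + 2 * x) := by
    rw [Real.exp_neg, ← one_div]
    exact one_div_le_one_div_of_le (by positivity) h2
  have h4 : 1 / (1 + 2 * x) ≤ 1 - x / 2 := by
    rw [div_le_iff₀ (by positivity)]
    nlinarith
  linarith

lemma log_one_div_le {x y : ℝ} (h0 : 0 < x) (h1 : x ≤ 1) (hy : 0 < y) (hyx : y ≤ x) :
    Real.log (1 / (1 - Real.exp (-(2 * x)))) ≤ Real.log (2 / y) := by
  have h2 := one_sub_exp_ge h0 h1
  have h3 : 0 < 1 - Real.exp (-(2 * x)) := by linarith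
  apply Real.log_le_log (by positivity)
  rw [div_le_div_iff₀ h3 hy]
  linarith

/-- deficit of the energy -/
noncomputable def deficit {n : ℕ} (θ : Fin n → ℝ) : ℝ :=
  (n : ℝ) / 2 * Real.log n + n - Real.log (vand θ)

lemma log_two_lt : Real.log 2 < 1 := by
  have := Real.log_two_lt_d9
  linarith

lemma star_one {n : ℕ} (θ : Fin n → ℝ) (h : vand θ ≠ 0) :
    1 / 2 * ∑ i, ∑ j ∈ Finset.Ioi i,
        Real.log (1 + (1 / (n : ℝ) + 1 / n) ^ 2 / ‖e (θ i) - e (θ j)‖ ^ 2) ≤ deficit θ := by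
  rcases Nat.eq_zero_or_pos n with rfl | hn
  · unfold deficit vand
    simp
  have hn' : (1 : ℝ) ≤ n := by exact_mod_cast hn
  have h1 := star θ h (fun _ => 1 / (n : ℝ)) (fun _ => by positivity)
  have h2 : ∑ _i : Fin n, Real.log (1 / (1 - Real.exp (-(2 * (1 / (n : ℝ)))))) ≤
      n * Real.log (2 * n) := by
    rw [Finset.sum_const, Finset.card_univ, Fintype.card_fin, nsmul_eq_mul]
    apply mul_le_mul_of_nonneg_left _ (by positivity)
    have := log_one_div_le (x := 1 / (n : ℝ)) (y := 1 / (n : ℝ)) (by positivity)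
      (by rw [div_le_one (by positivity)]; exact hn') (by positivity) le_rfl
    rwa [show (2 : ℝ) / (1 / (n : ℝ)) = 2 * n by field_simp] at this
  have h3 : ∑ _i : Fin n, 1 / (n : ℝ) = 1 := by
    rw [Finset.sum_const, Finset.card_univ, Fintype.card_fin, nsmul_eq_mul]
    field_simp
  rw [h3] at h1
  rw [Real.log_mul (by norm_num) (by positivity)] at h2
  unfold deficit
  have h4 := log_two_lt
  nlinarith

lemma star_cnt {n : ℕ} {L : ℝ} (hL : 0 < L) (θ : Fin n → ℝ) (h : vand θ ≠ 0) :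
    1 / 2 * ∑ i, ∑ j ∈ Finset.Ioi i,
        Real.log (1 + ((cnt (L / n) θ i : ℝ) / n + (cnt (L / n) θ j : ℝ) / n) ^ 2 /
          ‖e (θ i) - e (θ j)‖ ^ 2) ≤
      deficit θ + 1 / 2 * ∑ i, ((cnt (L / n) θ i : ℝ) - 1) := by
  rcases Nat.eq_zero_or_pos n with rfl | hn
  · unfold deficit vand
    simp
  have hn' : (1 : ℝ) ≤ n := by exact_mod_cast hn
  have hK1 : ∀ i, (1 : ℝ) ≤ cnt (L / n) θ i := fun i => by
    exact_mod_cast cnt_pos (by positivity) θ i
  have hKn : ∀ i, (cnt (L / n) θ i : ℝ) ≤ n := fun i => by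
    exact_mod_cast cnt_le_n _ θ i
  have h1 := star θ h (fun i => (cnt (L / n) θ i : ℝ) / n)
    (fun i => by have := hK1 i; positivity)
  have h2 : ∑ i : Fin n, Real.log (1 / (1 - Real.exp (-(2 * ((cnt (L / n) θ i : ℝ) / n))))) ≤
      n * Real.log (2 * n) := by
    calc _ ≤ ∑ _i : Fin n, Real.log (2 * n) := by
          apply Finset.sum_le_sum
          intro i _
          have := log_one_div_le (x := (cnt (L / n) θ i : ℝ) / n) (y := 1 / (n : ℝ))
            (by have := hK1 i; positivity)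
            (by rw [div_le_one (by positivity)]; exact hKn i) (by positivity)
            (by apply div_le_div_of_nonneg_right (hK1 i) (by positivity))
          rwa [show (2 : ℝ) / (1 / (n : ℝ)) = 2 * n by field_simp] at this
      _ = _ := by rw [Finset.sum_const, Finset.card_univ, Fintype.card_fin, nsmul_eq_mul]
  have h3 : ∑ i : Fin n, (cnt (L / n) θ i : ℝ) = n + ∑ i : Fin n, ((cnt (L / n) θ i : ℝ) - 1) := by
    rw [Finset.sum_sub_distrib, Finset.sum_const, Finset.card_univ, Fintype.card_fin,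
      nsmul_eq_mul]
    ring
  have h5 : ((n : ℝ) - 1) / 2 * ∑ i, (cnt (L / n) θ i : ℝ) / n ≤
      1 / 2 * ∑ i : Fin n, (cnt (L / n) θ i : ℝ) := by
    rw [← Finset.sum_div]
    have h6 : 0 ≤ ∑ i : Fin n, (cnt (L / n) θ i : ℝ) := Finset.sum_nonneg fun i _ => by
      positivity
    rw [show ((n : ℝ) - 1) / 2 * ((∑ i : Fin n, (cnt (L / n) θ i : ℝ)) / n)
      = ((n : ℝ) - 1) / n * (1 / 2 * ∑ i : Fin n, (cnt (L / n) θ i : ℝ)) by ring]
    calc _ ≤ 1 * (1 / 2 * ∑ i : Fin n, (cnt (L / n) θ i : ℝ)) := by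
          apply mul_le_mul_of_nonneg_right _ (by positivity)
          rw [div_le_one (by positivity)]
          linarith
      _ = _ := one_mul _
  rw [h3] at h5
  rw [Real.log_mul (by norm_num) (by positivity)] at h2
  unfold deficit
  have h4 := log_two_lt
  nlinarith

lemma deficit_nonneg {n : ℕ} (θ : Fin n → ℝ) (h : vand θ ≠ 0) : 0 ≤ deficit θ := by
  refine le_trans ?_ (star_one θ h)
  apply mul_nonneg (by norm_num)
  apply Finset.sum_nonneg
  intro i _
  apply Finset.sum_nonneg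
  intro j _
  apply Real.log_nonneg
  have : 0 ≤ (1 / (n : ℝ) + 1 / n) ^ 2 / ‖e (θ i) - e (θ j)‖ ^ 2 := by positivity
  linarith

lemma close_log {n : ℕ} (hn : 0 < n) {L d a : ℝ} (hL : 0 < L) (hd0 : 0 < d) (hd : d ≤ L / n)
    (ha : 0 ≤ a) :
    Real.log (1 + a ^ 2 / L ^ 2) ≤ Real.log (1 + (a / n) ^ 2 / d ^ 2) := by
  have hn' : (0 : ℝ) < n := by exact_mod_cast hn
  apply Real.log_le_log (by positivity)
  have h1 : n * d ≤ L := by
    rw [le_div_iff₀ hn'] at hd
    linarith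
  have h2 : (a / n) ^ 2 / d ^ 2 = a ^ 2 / (n * d) ^ 2 := by
    field_simp
  rw [h2]
  have h3 : a ^ 2 / L ^ 2 ≤ a ^ 2 / (n * d) ^ 2 := by
    apply div_le_div_of_nonneg_left (by positivity) (by positivity)
    apply pow_le_pow_left₀ (by positivity) h1
  linarith

lemma count_pointwise {n : ℕ} {L : ℝ} (hL : 0 < L) (θ : Fin n → ℝ) (h : vand θ ≠ 0) :
    ∑ i, ((cnt (L / n) θ i : ℝ) - 1) ≤ 4 / Real.log (1 + 1 / L ^ 2) * deficit θ := by
  rcases Nat.eq_zero_or_pos n with rfl | hn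
  · have := deficit_nonneg θ h
    have h0 : 0 < Real.log (1 + 1 / L ^ 2) := Real.log_pos (by
      have : 0 < 1 / L ^ 2 := by positivity
      linarith)
    simp only [Finset.univ_eq_empty, Finset.sum_empty]
    positivity
  have hn' : (0 : ℝ) < n := by exact_mod_cast hn
  have hc : 0 < Real.log (1 + 1 / L ^ 2) := Real.log_pos (by
      have : 0 < 1 / L ^ 2 := by positivity
      linarith)
  have hne : ∀ i j, i < j → 0 < ‖e (θ i) - e (θ j)‖ := by
    intro i j hij
    refine lt_of_le_of_ne (norm_nonneg _) fun h0 => h ?_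
    unfold vand
    exact Finset.prod_eq_zero (Finset.mem_univ i)
      (Finset.prod_eq_zero (Finset.mem_Ioi.2 hij) h0.symm)
  have h1 := star_one θ h
  have h2 : ∑ i, ((cnt (L / n) θ i : ℝ) - 1) =
      2 * ∑ i, ∑ j ∈ Finset.Ioi i, if ‖e (θ i) - e (θ j)‖ ≤ L / n then (1 : ℝ) else 0 := by
    rw [← sum_pairs (fun i j => if ‖e (θ i) - e (θ j)‖ ≤ L / n then (1 : ℝ) else 0)
      (fun i j => by rw [norm_sub_rev])]
    apply Finset.sum_congr rfl
    intro i _
    exact cnt_sub_one (by positivity) θ i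
  have h3 : (∑ i, ∑ j ∈ Finset.Ioi i, if ‖e (θ i) - e (θ j)‖ ≤ L / n then (1 : ℝ) else 0) *
      Real.log (1 + 1 / L ^ 2) ≤ ∑ i, ∑ j ∈ Finset.Ioi i,
        Real.log (1 + (1 / (n : ℝ) + 1 / n) ^ 2 / ‖e (θ i) - e (θ j)‖ ^ 2) := by
    rw [Finset.sum_mul]
    apply Finset.sum_le_sum
    intro i _
    rw [Finset.sum_mul]
    apply Finset.sum_le_sum
    intro j hj
    have hd0 := hne i j (Finset.mem_Ioi.1 hj)
    split_ifs with hc'
    · rw [one_mul]
      refine (close_log hn hL hd0 hc' (zero_le_one)).trans' (by norm_num) |>.trans ?_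
      apply Real.log_le_log (by positivity)
      have : (1 / (n : ℝ)) ^ 2 ≤ (1 / (n : ℝ) + 1 / n) ^ 2 := by
        apply pow_le_pow_left₀ (by positivity)
        have : 0 < 1 / (n : ℝ) := by positivity
        linarith
      have := div_le_div_of_nonneg_right this (by positivity : 0 ≤ ‖e (θ i) - e (θ j)‖ ^ 2)
      linarith
    · rw [zero_mul]
      apply Real.log_nonneg
      have : 0 ≤ (1 / (n : ℝ) + 1 / n) ^ 2 / ‖e (θ i) - e (θ j)‖ ^ 2 := by positivity
      linarith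
  rw [h2, div_mul_eq_mul_div, le_div_iff₀ hc]
  linarith

lemma count_log_pointwise {n : ℕ} {L : ℝ} (hL : 0 < L) (θ : Fin n → ℝ) (h : vand θ ≠ 0) :
    ∑ i, ((cnt (L / n) θ i : ℝ) - 1) * Real.log (1 + (cnt (L / n) θ i : ℝ) ^ 2 / L ^ 2) ≤
      4 * deficit θ + 2 * ∑ i, ((cnt (L / n) θ i : ℝ) - 1) := by
  rcases Nat.eq_zero_or_pos n with rfl | hn
  · have := deficit_nonneg θ h
    simp only [Finset.univ_eq_empty, Finset.sum_empty]
    linarith
  have hn' : (0 : ℝ) < n := by exact_mod_cast hn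
  have hne : ∀ i j, i < j → 0 < ‖e (θ i) - e (θ j)‖ := by
    intro i j hij
    refine lt_of_le_of_ne (norm_nonneg _) fun h0 => h ?_
    unfold vand
    exact Finset.prod_eq_zero (Finset.mem_univ i)
      (Finset.prod_eq_zero (Finset.mem_Ioi.2 hij) h0.symm)
  set a : Fin n → ℝ := fun i => Real.log (1 + (cnt (L / n) θ i : ℝ) ^ 2 / L ^ 2)
  have ha0 : ∀ i, 0 ≤ a i := by
    intro i
    apply Real.log_nonneg
    have : 0 ≤ (cnt (L / n) θ i : ℝ) ^ 2 / L ^ 2 := by positivity
    linarith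
  have h1 := star_cnt hL θ h
  have h2 : ∑ i, ((cnt (L / n) θ i : ℝ) - 1) * a i =
      ∑ i, ∑ j ∈ Finset.Ioi i, (if ‖e (θ i) - e (θ j)‖ ≤ L / n then (1 : ℝ) else 0) *
        (a i + a j) := by
    have h3 := sum_pairs (fun i j => (if ‖e (θ i) - e (θ j)‖ ≤ L / n then (1 : ℝ) else 0) *
        (a i + a j)) (fun i j => by rw [norm_sub_rev, add_comm])
    have h4 : ∑ i, ∑ j ∈ Finset.univ.erase i,
        (if ‖e (θ i) - e (θ j)‖ ≤ L / n then (1 : ℝ) else 0) * (a i + a j)
        = 2 * ∑ i, ((cnt (L / n) θ i : ℝ) - 1) * a i := by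
      have h5 : ∑ i, ∑ j ∈ Finset.univ.erase i,
          (if ‖e (θ i) - e (θ j)‖ ≤ L / n then (1 : ℝ) else 0) * a i
          = ∑ i, ((cnt (L / n) θ i : ℝ) - 1) * a i := by
        apply Finset.sum_congr rfl
        intro i _
        rw [← Finset.sum_mul, cnt_sub_one (by positivity) θ i]
      have h6 : ∑ i, ∑ j ∈ Finset.univ.erase i,
          (if ‖e (θ i) - e (θ j)‖ ≤ L / n then (1 : ℝ) else 0) * a j
          = ∑ i, ((cnt (L / n) θ i : ℝ) - 1) * a i := by
        rw [← h5, Finset.sum_comm' (t' := Finset.univ) (s' := fun j => Finset.univ.erase j)]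
        · apply Finset.sum_congr rfl
          intro i _
          apply Finset.sum_congr rfl
          intro j _
          rw [norm_sub_rev]
        · intro x y
          simp [eq_comm]
      calc _ = ∑ i, (∑ j ∈ Finset.univ.erase i,
            (if ‖e (θ i) - e (θ j)‖ ≤ L / n then (1 : ℝ) else 0) * a i +
            ∑ j ∈ Finset.univ.erase i,
            (if ‖e (θ i) - e (θ j)‖ ≤ L / n then (1 : ℝ) else 0) * a j) := by
            apply Finset.sum_congr rfl
            intro i _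
            rw [← Finset.sum_add_distrib]
            apply Finset.sum_congr rfl
            intro j _
            rw [mul_add]
        _ = _ := by rw [Finset.sum_add_distrib, h5, h6]; ring
    rw [h4] at h3
    linarith
  have h3 : ∑ i, ∑ j ∈ Finset.Ioi i, (if ‖e (θ i) - e (θ j)‖ ≤ L / n then (1 : ℝ) else 0) *
        (a i + a j) ≤ 2 * ∑ i, ∑ j ∈ Finset.Ioi i,
        Real.log (1 + ((cnt (L / n) θ i : ℝ) / n + (cnt (L / n) θ j : ℝ) / n) ^ 2 /
          ‖e (θ i) - e (θ j)‖ ^ 2) := by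
    rw [Finset.mul_sum]
    apply Finset.sum_le_sum
    intro i _
    rw [Finset.mul_sum]
    apply Finset.sum_le_sum
    intro j hj
    have hd0 := hne i j (Finset.mem_Ioi.1 hj)
    have hKi : (0 : ℝ) ≤ cnt (L / n) θ i := by positivity
    have hKj : (0 : ℝ) ≤ cnt (L / n) θ j := by positivity
    split_ifs with hc'
    · rw [one_mul]
      have e1 : a i ≤ Real.log (1 + ((cnt (L / n) θ i : ℝ) / n + (cnt (L / n) θ j : ℝ) / n) ^ 2 /
          ‖e (θ i) - e (θ j)‖ ^ 2) := by
        refine (close_log hn hL hd0 hc' hKi).trans ?_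
        apply Real.log_le_log (by positivity)
        have : ((cnt (L / n) θ i : ℝ) / n) ^ 2 ≤
            ((cnt (L / n) θ i : ℝ) / n + (cnt (L / n) θ j : ℝ) / n) ^ 2 := by
          apply pow_le_pow_left₀ (by positivity)
          have : 0 ≤ (cnt (L / n) θ j : ℝ) / n := by positivity
          linarith
        have := div_le_div_of_nonneg_right this (by positivity : 0 ≤ ‖e (θ i) - e (θ j)‖ ^ 2)
        linarith
      have e2 : a j ≤ Real.log (1 + ((cnt (L / n) θ i : ℝ) / n + (cnt (L / n) θ j : ℝ) / n) ^ 2 /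
          ‖e (θ i) - e (θ j)‖ ^ 2) := by
        refine (close_log hn hL hd0 hc' hKj).trans ?_
        apply Real.log_le_log (by positivity)
        have : ((cnt (L / n) θ j : ℝ) / n) ^ 2 ≤
            ((cnt (L / n) θ i : ℝ) / n + (cnt (L / n) θ j : ℝ) / n) ^ 2 := by
          apply pow_le_pow_left₀ (by positivity)
          have : 0 ≤ (cnt (L / n) θ i : ℝ) / n := by positivity
          linarith
        have := div_le_div_of_nonneg_right this (by positivity : 0 ≤ ‖e (θ i) - e (θ j)‖ ^ 2)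
        linarith
      linarith
    · rw [zero_mul]
      apply mul_nonneg (by norm_num)
      apply Real.log_nonneg
      have : 0 ≤ ((cnt (L / n) θ i : ℝ) / n + (cnt (L / n) θ j : ℝ) / n) ^ 2 /
          ‖e (θ i) - e (θ j)‖ ^ 2 := by positivity
      linarith
  rw [h2]
  linarith

lemma lintegral_deficit_le {β : ℝ} (hβ : 0 < β) (n : ℕ) {c : ℝ} (hc : 0 ≤ c) :
    ∫⁻ θ, ENNReal.ofReal (c * deficit θ) ∂(cbe β n) ≤
      ENNReal.ofReal (c * ((1 + 2 * (1 + β) / β) * n)) := by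
  have := cbe_prob hβ.le n
  have hi : Integrable (fun θ => c * deficit θ) (cbe β n) := by
    apply Integrable.const_mul
    unfold deficit
    exact (integrable_const _).sub (integrable_log_vand hβ n)
  have h0 : 0 ≤ᵐ[cbe β n] fun θ => c * deficit θ := by
    filter_upwards [vand_pos_ae_cbe β n] with θ hθ
    exact mul_nonneg hc (deficit_nonneg θ hθ.ne')
  rw [← ofReal_integral_eq_lintegral_ofReal hi h0]
  apply ENNReal.ofReal_le_ofReal
  rw [integral_const_mul]
  apply mul_le_mul_of_nonneg_left _ hc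
  unfold deficit
  rw [integral_sub (integrable_const _) (integrable_log_vand hβ n), integral_const]
  simp only [probReal_univ, smul_eq_mul, one_mul]
  have := energy_ge hβ n
  linarith

/-- expected local counts (first and x log x form) are of order `n`, uniformly in `n` and locally
uniformly in `β` -/
theorem count_le (b B L : ℝ) (hb : 0 < b) (hL : 0 < L) : ∃ C : ℝ, 0 ≤ C ∧ ∀ β ∈ Icc b B, ∀ n : ℕ,
    ∫⁻ θ, ∑ i, ENNReal.ofReal ((cnt (L / n) θ i : ℝ) - 1) ∂(cbe β n) ≤ ENNReal.ofReal (C * n) ∧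
    ∫⁻ θ, ∑ i, ENNReal.ofReal (((cnt (L / n) θ i : ℝ) - 1) *
      Real.log (1 + (cnt (L / n) θ i : ℝ) ^ 2 / L ^ 2)) ∂(cbe β n) ≤ ENNReal.ofReal (C * n) := by
  have hc : 0 < Real.log (1 + 1 / L ^ 2) := Real.log_pos (by
      have : 0 < 1 / L ^ 2 := by positivity
      linarith)
  set c := Real.log (1 + 1 / L ^ 2) with hcdef
  refine ⟨(4 + 2 * (4 / c)) * (1 + 2 * (1 / b + 1)) + (4 / c) * (1 + 2 * (1 / b + 1)),
    by positivity, fun β hβ n => ?_⟩
  have hβ0 : 0 < β := lt_of_lt_of_le hb hβ.1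
  have hE : (1 + 2 * (1 + β) / β) ≤ 1 + 2 * (1 / b + 1) := by
    have h1 : 2 * (1 + β) / β = 2 * (1 / β + 1) := by field_simp
    rw [h1]
    have h2 : 1 / β ≤ 1 / b := one_div_le_one_div_of_le hb hβ.1
    linarith
  have hK1 : ∀ θ : Fin n → ℝ, ∀ i, (0 : ℝ) ≤ (cnt (L / n) θ i : ℝ) - 1 := fun θ i => by
    have : (1 : ℝ) ≤ cnt (L / n) θ i := by
      exact_mod_cast cnt_pos (by positivity) θ i
    linarith
  have hlog : ∀ θ : Fin n → ℝ, ∀ i,
      0 ≤ Real.log (1 + (cnt (L / n) θ i : ℝ) ^ 2 / L ^ 2) := fun θ i => by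
    apply Real.log_nonneg
    have : 0 ≤ (cnt (L / n) θ i : ℝ) ^ 2 / L ^ 2 := by positivity
    linarith
  constructor
  · calc ∫⁻ θ, ∑ i, ENNReal.ofReal ((cnt (L / n) θ i : ℝ) - 1) ∂(cbe β n)
        ≤ ∫⁻ θ, ENNReal.ofReal (4 / c * deficit θ) ∂(cbe β n) := by
          apply lintegral_mono_ae
          filter_upwards [vand_pos_ae_cbe β n] with θ hθ
          rw [← ENNReal.ofReal_sum_of_nonneg fun i _ => hK1 θ i]
          exact ENNReal.ofReal_le_ofReal (count_pointwise hL θ hθ.ne')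
      _ ≤ ENNReal.ofReal (4 / c * ((1 + 2 * (1 + β) / β) * n)) :=
          lintegral_deficit_le hβ0 n (by positivity)
      _ ≤ _ := by
          apply ENNReal.ofReal_le_ofReal
          rw [← mul_assoc]
          apply mul_le_mul_of_nonneg_right _ (Nat.cast_nonneg n)
          have h3 : 4 / c * (1 + 2 * (1 + β) / β) ≤ 4 / c * (1 + 2 * (1 / b + 1)) :=
            mul_le_mul_of_nonneg_left hE (by positivity)
          have h4 : 0 ≤ (4 + 2 * (4 / c)) * (1 + 2 * (1 / b + 1)) := by positivity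
          linarith
  · calc ∫⁻ θ, ∑ i, ENNReal.ofReal (((cnt (L / n) θ i : ℝ) - 1) *
          Real.log (1 + (cnt (L / n) θ i : ℝ) ^ 2 / L ^ 2)) ∂(cbe β n)
        ≤ ∫⁻ θ, ENNReal.ofReal ((4 + 2 * (4 / c)) * deficit θ) ∂(cbe β n) := by
          apply lintegral_mono_ae
          filter_upwards [vand_pos_ae_cbe β n] with θ hθ
          rw [← ENNReal.ofReal_sum_of_nonneg fun i _ => mul_nonneg (hK1 θ i) (hlog θ i)]
          apply ENNReal.ofReal_le_ofReal
          have h1 := count_pointwise hL θ hθ.ne'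
          have h2 := count_log_pointwise hL θ hθ.ne'
          rw [add_mul]
          linarith
      _ ≤ ENNReal.ofReal ((4 + 2 * (4 / c)) * ((1 + 2 * (1 + β) / β) * n)) :=
          lintegral_deficit_le hβ0 n (by positivity)
      _ ≤ _ := by
          apply ENNReal.ofReal_le_ofReal
          rw [← mul_assoc]
          apply mul_le_mul_of_nonneg_right _ (Nat.cast_nonneg n)
          have h3 : (4 + 2 * (4 / c)) * (1 + 2 * (1 + β) / β) ≤
              (4 + 2 * (4 / c)) * (1 + 2 * (1 / b + 1)) :=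
            mul_le_mul_of_nonneg_left hE (by positivity)
          have h4 : 0 ≤ (4 / c) * (1 + 2 * (1 / b + 1)) := by positivity
          linarith

end Pool.Agent.Lib.MP_b33862_pr
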