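import Mathlib
import Pool.Agent.Lib.MP_b33862_pr.Defs

set_option autoImplicit false

namespace Pool.Agent.Lib.MP_b33862_pr

open MeasureTheory Set Real
open scoped ENNReal

/-- the circular beta ensemble of `N + 1` points seen from one of its points: law of the other
points, sorted -/
noncomputable def nu (β : ℝ) (N : ℕ) : Measure (Fin N → ℝ) :=
  (∫⁻ φ in simplex N, ENNReal.ofReal (vand (pts φ) ^ β))⁻¹ •
    (volume.restrict (simplex N)).withDensity fun φ => ENNReal.ofReal (vand (pts φ) ^ β)

end Pool.Agent.Lib.MP_b33862_pr
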