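import Mathlib
import Pool.Agent.Lib.MP_b33862_pr.Defs
import Pool.Agent.Lib.MP_66505f_gt.PL

/-!
Prekopa-Leindler inequality for statistics of the `m`-th neighbour distances of the circular
beta ensemble.
-/

set_option autoImplicit false

namespace Pool.Agent.Lib.MP_b33862_pr

open MeasureTheory Set Real
open scoped ENNReal

namespace PLGap

/-- `log (2 sin (u/2))` -/
noncomputable def ls (u : ℝ) : ℝ := Real.log (2 * Real.sin (u / 2))

lemma sin_half_pos {u : ℝ} (hu : u ∈ Ioo 0 (2 * π)) : 0 < Real.sin (u / 2) := by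
  obtain ⟨h1, h2⟩ := hu
  exact Real.sin_pos_of_pos_of_lt_pi (by linarith) (by linarith)

/-- strong midpoint concavity of `ls` -/
lemma ls_mid {u v : ℝ} (hu : u ∈ Ioo 0 (2 * π)) (hv : v ∈ Ioo 0 (2 * π)) :
    ls u + ls v + (|u - v| / (u + v)) ^ 2 ≤ 2 * ls ((u + v) / 2) := by
  have hm : (u + v) / 2 ∈ Ioo 0 (2 * π) := by
    obtain ⟨h1, h2⟩ := hu
    obtain ⟨h3, h4⟩ := hv
    constructor <;> linarith
  have su := sin_half_pos hu
  have sv := sin_half_pos hv
  have sm := sin_half_pos hm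
  set a : ℝ := |u - v| / 4 with ha
  set b : ℝ := (u + v) / 4 with hb
  have hb0 : 0 < b := by rw [hb]; linarith [hu.1, hv.1]
  have hbp : b ≤ π := by rw [hb]; linarith [hu.2, hv.2]
  have ha0 : 0 ≤ a := by positivity
  have hab : a ≤ b := by
    rw [ha, hb]
    have : |u - v| ≤ u + v := abs_le.mpr ⟨by linarith [hu.1, hv.1], by linarith [hu.1, hv.1]⟩
    linarith
  have hbm : (u + v) / 2 / 2 = b := by rw [hb]; ring
  have hq : |u - v| / (u + v) = a / b := by
    rw [ha, hb]
    have : u + v ≠ 0 := by linarith [hu.1, hv.1]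
    field_simp
  rw [hq]
  -- concavity of the sine
  have hs : a / b * Real.sin b ≤ Real.sin a := by
    have hc1 : (0 : ℝ) ≤ 1 - a / b := sub_nonneg.mpr ((div_le_one hb0).mpr hab)
    have hc2 : (0 : ℝ) ≤ a / b := by positivity
    have hc3 : (1 - a / b) + a / b = 1 := by ring
    have hc4 : (0 : ℝ) ∈ Icc 0 π := ⟨le_refl _, Real.pi_pos.le⟩
    have hc5 : b ∈ Icc 0 π := ⟨hb0.le, hbp⟩
    have h := strictConcaveOn_sin_Icc.concaveOn.2 hc4 hc5 hc1 hc2 hc3
    simp only [smul_eq_mul, mul_zero, Real.sin_zero, zero_add] at h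
    rwa [div_mul_cancel₀ _ hb0.ne'] at h
  have hsb : 0 < Real.sin b := by rw [← hbm]; exact sm
  have hprod : Real.sin (u / 2) * Real.sin (v / 2) = Real.sin b ^ 2 - Real.sin a ^ 2 := by
    have h1 : Real.sin a ^ 2 = Real.sin ((u - v) / 4) ^ 2 := by
      rw [ha]
      rcases abs_cases (u - v) with ⟨h, _⟩ | ⟨h, _⟩
      · rw [h]
      · rw [h, neg_div, Real.sin_neg, neg_sq]
    rw [h1]
    have e1 : u / 2 = b + (u - v) / 4 := by rw [hb]; ring
    have e2 : v / 2 = b - (u - v) / 4 := by rw [hb]; ring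
    rw [e1, e2, Real.sin_add, Real.sin_sub]
    have c1 := Real.sin_sq_add_cos_sq b
    have c2 := Real.sin_sq_add_cos_sq ((u - v) / 4)
    linear_combination (Real.sin b) ^ 2 * c2 - (Real.sin ((u - v) / 4)) ^ 2 * c1
  -- the main estimate
  set r : ℝ := (a / b) ^ 2 with hr
  have hle : Real.sin (u / 2) * Real.sin (v / 2) ≤ Real.sin b ^ 2 * (1 - r) := by
    rw [hprod, hr]
    have h1 : (a / b * Real.sin b) ^ 2 ≤ Real.sin a ^ 2 :=
      pow_le_pow_left₀ (by positivity) hs 2
    nlinarith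
  have hpos : 0 < 1 - r := by
    by_contra hc
    have : Real.sin b ^ 2 * (1 - r) ≤ 0 := mul_nonpos_of_nonneg_of_nonpos (sq_nonneg _) (not_lt.mp hc)
    have : 0 < Real.sin (u / 2) * Real.sin (v / 2) := mul_pos su sv
    linarith
  have hlog : Real.log (1 - r) ≤ -r := by
    have := Real.log_le_sub_one_of_pos hpos
    linarith
  unfold ls
  rw [hbm]
  have h4 : Real.log (2 * Real.sin (u / 2)) + Real.log (2 * Real.sin (v / 2)) =
      Real.log 4 + Real.log (Real.sin (u / 2) * Real.sin (v / 2)) := by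
    rw [← Real.log_mul (by positivity) (by positivity), ← Real.log_mul (by norm_num) (by positivity)]
    congr 1
    ring
  have h5 : 2 * Real.log (2 * Real.sin b) = Real.log 4 + Real.log (Real.sin b ^ 2) := by
    rw [← Real.log_mul (by norm_num) (by positivity)]
    have : (4 : ℝ) * Real.sin b ^ 2 = (2 * Real.sin b) ^ 2 := by ring
    rw [this, Real.log_pow]
    norm_num
  rw [h4, h5]
  have h6 : Real.log (Real.sin (u / 2) * Real.sin (v / 2)) ≤
      Real.log (Real.sin b ^ 2) + Real.log (1 - r) := by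
    rw [← Real.log_mul (by positivity) hpos.ne']
    exact Real.log_le_log (mul_pos su sv) hle
  linarith

lemma measurableSet_simplex' (N : ℕ) : MeasurableSet (simplex N) := by
  have : simplex N = (⋂ (i : Fin N) (j : Fin N) (_ : i < j), {φ : Fin N → ℝ | φ i < φ j}) ∩
      (⋂ i : Fin N, {φ : Fin N → ℝ | φ i ∈ Ioo 0 (2 * π)}) := by
    ext φ
    simp only [simplex, StrictMono, mem_ofPred_eq, mem_inter_iff, mem_iInter]
  rw [this]
  refine MeasurableSet.inter ?_ ?_
  · exact MeasurableSet.iInter fun i => MeasurableSet.iInter fun j => MeasurableSet.iInter fun _ =>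
      measurableSet_lt (measurable_pi_apply i) (measurable_pi_apply j)
  · exact MeasurableSet.iInter fun i => (measurable_pi_apply i) measurableSet_Ioo

lemma mid_mem {N : ℕ} {x y : Fin N → ℝ} (hx : x ∈ simplex N) (hy : y ∈ simplex N) :
    (1 - (1 / 2 : ℝ)) • x + (1 / 2 : ℝ) • y ∈ simplex N := by
  obtain ⟨hx1, hx2⟩ := hx
  obtain ⟨hy1, hy2⟩ := hy
  constructor
  · intro i j hij
    have h1 := hx1 hij
    have h2 := hy1 hij
    simp only [Pi.add_apply, Pi.smul_apply, smul_eq_mul]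
    linarith
  · intro i
    have h1 := hx2 i
    have h2 := hy2 i
    simp only [Pi.add_apply, Pi.smul_apply, smul_eq_mul]
    constructor
    · linarith [h1.1, h2.1]
    · linarith [h1.2, h2.2]

lemma pts_mid {N : ℕ} (x y : Fin N → ℝ) (i : Fin (N + 1)) :
    pts ((1 - (1 / 2 : ℝ)) • x + (1 / 2 : ℝ) • y) i = (pts x i + pts y i) / 2 := by
  unfold pts
  refine Fin.cases ?_ (fun j => ?_) i
  · simp
  · simp only [Fin.cons_succ, Pi.add_apply, Pi.smul_apply, smul_eq_mul]
    ring

lemma gap_mid {N : ℕ} (x y : Fin N → ℝ) (i j : Fin (N + 1)) :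
    gap (pts ((1 - (1 / 2 : ℝ)) • x + (1 / 2 : ℝ) • y)) i j =
      (gap (pts x) i j + gap (pts y) i j) / 2 := by
  unfold gap
  rw [pts_mid, pts_mid]
  split_ifs <;> ring

lemma pts_strictMono {N : ℕ} {x : Fin N → ℝ} (hx : x ∈ simplex N) : StrictMono (pts x) := by
  obtain ⟨hx1, hx2⟩ := hx
  intro i j
  unfold pts
  refine Fin.cases ?_ (fun i' => ?_) i
  · refine Fin.cases ?_ (fun j' => ?_) j
    · intro h; exact absurd h (lt_irrefl _)
    · intro _
      simp only [Fin.cons_zero, Fin.cons_succ]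
      exact (hx2 j').1
  · refine Fin.cases ?_ (fun j' => ?_) j
    · intro h; exact absurd h (Fin.not_lt_zero _)
    · intro h
      simp only [Fin.cons_succ]
      exact hx1 (Fin.succ_lt_succ_iff.mp h)

lemma pts_mem {N : ℕ} {x : Fin N → ℝ} (hx : x ∈ simplex N) (i : Fin (N + 1)) :
    0 ≤ pts x i ∧ pts x i < 2 * π := by
  obtain ⟨hx1, hx2⟩ := hx
  unfold pts
  refine Fin.cases ?_ (fun i' => ?_) i
  · simp only [Fin.cons_zero]
    exact ⟨le_refl _, by positivity⟩
  · simp only [Fin.cons_succ]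
    exact ⟨(hx2 i').1.le, (hx2 i').2⟩

lemma gap_mem {N : ℕ} {x : Fin N → ℝ} (hx : x ∈ simplex N) {i j : Fin (N + 1)} (hij : i ≠ j) :
    gap (pts x) i j ∈ Ioo 0 (2 * π) := by
  have hi := pts_mem hx i
  have hj := pts_mem hx j
  have hm := pts_strictMono hx
  unfold gap
  split_ifs with h
  · have := hm h
    constructor <;> linarith
  · have := hm (lt_of_le_of_ne (not_lt.mp h) hij.symm)
    constructor <;> linarith

lemma e_sub_norm' (x y : ℝ) : ‖e x - e y‖ = |2 * Real.sin ((y - x) / 2)| := by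
  have h1 : e y - e x = e x * (Complex.exp (Complex.I * ((y - x : ℝ) : ℂ)) - 1) := by
    unfold e
    rw [mul_sub, mul_one, ← Complex.exp_add]
    congr 2
    push_cast
    ring
  rw [← norm_neg, neg_sub, h1, norm_mul, Complex.norm_exp_I_mul_ofReal_sub_one]
  have : ‖e x‖ = 1 := by
    unfold e
    exact Complex.norm_exp_ofReal_mul_I x
  rw [this, one_mul, Real.norm_eq_abs]

/-- logarithm of the mutual distance in terms of the gap -/
lemma log_dist {N : ℕ} {x : Fin N → ℝ} (hx : x ∈ simplex N) {i j : Fin (N + 1)} (hij : i ≠ j) :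
    Real.log ‖e (pts x i) - e (pts x j)‖ = ls (gap (pts x) i j) ∧
      ‖e (pts x i) - e (pts x j)‖ ≠ 0 := by
  have hg := sin_half_pos (gap_mem hx hij)
  have : ‖e (pts x i) - e (pts x j)‖ = 2 * Real.sin (gap (pts x) i j / 2) := by
    rw [e_sub_norm']
    rw [← abs_of_pos (show 0 < 2 * Real.sin (gap (pts x) i j / 2) by positivity)]
    unfold gap
    split_ifs with h
    · rfl
    · have : (pts x j - pts x i + 2 * π) / 2 = (pts x j - pts x i) / 2 + π := by ring
      rw [this, Real.sin_add_pi, mul_neg, abs_neg]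
  rw [this]
  exact ⟨rfl, by positivity⟩

/-- `vand` in exponential form -/
lemma vand_eq {N : ℕ} {x : Fin N → ℝ} (hx : x ∈ simplex N) :
    vand (pts x) = Real.exp (1 / 2 * ∑ i, ∑ j ∈ {i}ᶜ, ls (gap (pts x) i j)) := by
  have h1 : vand (pts x) =
      Real.exp (∑ i, ∑ j ∈ Finset.Ioi i, Real.log ‖e (pts x i) - e (pts x j)‖) := by
    unfold vand
    rw [Real.exp_sum]
    refine Finset.prod_congr rfl fun i _ => ?_
    rw [Real.exp_sum]
    refine Finset.prod_congr rfl fun j hj => ?_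
    rw [Real.exp_log]
    exact lt_of_le_of_ne (norm_nonneg _) (log_dist hx (Finset.mem_Ioi.mp hj).ne).2.symm
  rw [h1]
  congr 1
  have h2 := Finset.sum_sum_Ioi_add_eq_sum_sum_off_diag
    (f := fun i j : Fin (N + 1) => Real.log ‖e (pts x i) - e (pts x j)‖)
  have h3 : ∑ i : Fin (N + 1), ∑ j ∈ Finset.Ioi i, (Real.log ‖e (pts x j) - e (pts x i)‖ +
      Real.log ‖e (pts x i) - e (pts x j)‖) =
      2 * ∑ i, ∑ j ∈ Finset.Ioi i, Real.log ‖e (pts x i) - e (pts x j)‖ := by
    rw [Finset.mul_sum]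
    refine Finset.sum_congr rfl fun i _ => ?_
    rw [Finset.mul_sum]
    refine Finset.sum_congr rfl fun j _ => ?_
    rw [norm_sub_rev (e (pts x j))]
    ring
  have h4 : ∑ i : Fin (N + 1), ∑ j ∈ {i}ᶜ, Real.log ‖e (pts x j) - e (pts x i)‖ =
      ∑ i, ∑ j ∈ {i}ᶜ, ls (gap (pts x) i j) := by
    refine Finset.sum_congr rfl fun i _ => Finset.sum_congr rfl fun j hj => ?_
    have hji : j ≠ i := by simpa using hj
    rw [norm_sub_rev, (log_dist hx hji.symm).1]
  have h5 : 2 * ∑ i, ∑ j ∈ Finset.Ioi i, Real.log ‖e (pts x i) - e (pts x j)‖ =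
      ∑ i, ∑ j ∈ {i}ᶜ, ls (gap (pts x) i j) := by
    rw [← h3, ← h4]
    exact h2
  linarith

/-- the pointwise inequality in logarithmic form -/
lemma log_ineq {N : ℕ} {β : ℝ} (hβ : 0 < β) {ψ : ℝ → ℝ} {B : ℝ} (_ : 0 ≤ B)
    (hψ : ∀ u ∈ Ioo 0 (2 * π), ∀ v ∈ Ioo 0 (2 * π), |ψ u - ψ v| ≤ B * (|u - v| / (u + v)))
    (m : Fin (N + 1)) (hm0 : m ≠ 0) (t : ℝ) {x y : Fin N → ℝ} (hx : x ∈ simplex N)
    (hy : y ∈ simplex N) :
    (t * gapSum ψ m x + β * (1 / 2 * ∑ i, ∑ j ∈ {i}ᶜ, ls (gap (pts x) i j))) +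
      (-(t * gapSum ψ m y) + β * (1 / 2 * ∑ i, ∑ j ∈ {i}ᶜ, ls (gap (pts y) i j))) ≤
    B ^ 2 * (N + 1) * t ^ 2 / (2 * β) + 2 * (β * (1 / 2 * ∑ i, ∑ j ∈ {i}ᶜ,
      ls (gap (pts ((1 - (1 / 2 : ℝ)) • x + (1 / 2 : ℝ) • y)) i j))) := by
  have key : ∀ i : Fin (N + 1),
      t * ψ (gap (pts x) i (i + m)) - t * ψ (gap (pts y) i (i + m)) +
        β / 2 * ∑ j ∈ {i}ᶜ, (ls (gap (pts x) i j) + ls (gap (pts y) i j) -
          2 * ls ((gap (pts x) i j + gap (pts y) i j) / 2)) ≤ B ^ 2 * t ^ 2 / (2 * β) := by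
    intro i
    have hne : i ≠ i + m := by
      intro h
      exact hm0 (by simpa using h.symm)
    set u := gap (pts x) i (i + m) with hu
    set v := gap (pts y) i (i + m) with hv
    have hu' : u ∈ Ioo 0 (2 * π) := gap_mem hx hne
    have hv' : v ∈ Ioo 0 (2 * π) := gap_mem hy hne
    set r : ℝ := |u - v| / (u + v) with hr
    have hr0 : 0 ≤ r := by
      have : 0 < u + v := by linarith [hu'.1, hv'.1]
      positivity
    have hsum : ∑ j ∈ {i}ᶜ, (ls (gap (pts x) i j) + ls (gap (pts y) i j) -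
          2 * ls ((gap (pts x) i j + gap (pts y) i j) / 2)) ≤ -r ^ 2 := by
      rw [← Finset.add_sum_erase _ _ (a := i + m) (by simpa using hne.symm)]
      have h1 := ls_mid hu' hv'
      have h2 : ∑ j ∈ ({i}ᶜ : Finset (Fin (N + 1))).erase (i + m),
          (ls (gap (pts x) i j) + ls (gap (pts y) i j) -
          2 * ls ((gap (pts x) i j + gap (pts y) i j) / 2)) ≤ 0 := by
        refine Finset.sum_nonpos fun j hj => ?_
        have hji : i ≠ j := by
          have := (Finset.mem_erase.mp hj).2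
          have h3 : j ≠ i := by simpa using this
          exact h3.symm
        have h4 := ls_mid (gap_mem hx hji) (gap_mem hy hji)
        have h5 : 0 ≤ (|gap (pts x) i j - gap (pts y) i j| /
          (gap (pts x) i j + gap (pts y) i j)) ^ 2 := sq_nonneg _
        linarith
      linarith
    have h6 : t * ψ u - t * ψ v ≤ |t| * (B * r) := by
      calc t * ψ u - t * ψ v = t * (ψ u - ψ v) := by ring
        _ ≤ |t * (ψ u - ψ v)| := le_abs_self _
        _ = |t| * |ψ u - ψ v| := abs_mul _ _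
        _ ≤ |t| * (B * r) := mul_le_mul_of_nonneg_left (hψ u hu' v hv') (abs_nonneg _)
    have h7 : β / 2 * ∑ j ∈ {i}ᶜ, (ls (gap (pts x) i j) + ls (gap (pts y) i j) -
          2 * ls ((gap (pts x) i j + gap (pts y) i j) / 2)) ≤ β / 2 * (-r ^ 2) :=
      mul_le_mul_of_nonneg_left hsum (by positivity)
    have h8 : |t| * (B * r) ≤ B ^ 2 * t ^ 2 / (2 * β) + β / 2 * r ^ 2 := by
      have : B ^ 2 * t ^ 2 / (2 * β) + β / 2 * r ^ 2 - |t| * (B * r) =
          (B * |t| - β * r) ^ 2 / (2 * β) := by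
        rw [← sq_abs t]
        field_simp
        ring
      have h9 : 0 ≤ (B * |t| - β * r) ^ 2 / (2 * β) := by positivity
      linarith
    linarith
  have hs := Finset.sum_le_sum fun i (_ : i ∈ (Finset.univ : Finset (Fin (N + 1)))) => key i
  simp only [Finset.sum_add_distrib, Finset.sum_sub_distrib, ← Finset.mul_sum] at hs
  rw [Finset.sum_const, Finset.card_univ, Fintype.card_fin, nsmul_eq_mul] at hs
  simp only [gap_mid]
  unfold gapSum
  have e1 : ((N + 1 : ℕ) : ℝ) * (B ^ 2 * t ^ 2 / (2 * β)) = B ^ 2 * (N + 1) * t ^ 2 / (2 * β) := by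
    push_cast
    ring
  rw [e1] at hs
  linarith

lemma measurable_pts {N : ℕ} (i : Fin (N + 1)) : Measurable fun φ : Fin N → ℝ => pts φ i := by
  unfold pts
  refine Fin.cases ?_ (fun j => ?_) i
  · simp only [Fin.cons_zero]
    exact measurable_const
  · simp only [Fin.cons_succ]
    exact measurable_pi_apply j

lemma measurable_gapSum {N : ℕ} {ψ : ℝ → ℝ} (hm : Measurable ψ) (m : Fin (N + 1)) :
    Measurable fun φ : Fin N → ℝ => gapSum ψ m φ := by
  unfold gapSum
  refine Finset.measurable_sum _ fun i _ => hm.comp ?_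
  unfold gap
  split_ifs
  · exact (measurable_pts _).sub (measurable_pts _)
  · exact ((measurable_pts _).sub (measurable_pts _)).add_const _

lemma measurable_e : Measurable e := by
  unfold e
  fun_prop

lemma measurable_vand_pts (N : ℕ) : Measurable fun φ : Fin N → ℝ => vand (pts φ) := by
  unfold vand
  refine Finset.measurable_prod _ fun i _ => Finset.measurable_prod _ fun j _ => ?_
  exact ((measurable_e.comp (measurable_pts i)).sub (measurable_e.comp (measurable_pts j))).norm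

end PLGap

open PLGap in
theorem pl_gap {N : ℕ} {β : ℝ} (hβ : 0 < β) {ψ : ℝ → ℝ} (hm : Measurable ψ) {B : ℝ} (hB : 0 ≤ B)
    (hψ : ∀ u ∈ Ioo 0 (2 * π), ∀ v ∈ Ioo 0 (2 * π), |ψ u - ψ v| ≤ B * (|u - v| / (u + v)))
    (m : Fin (N + 1)) (hm0 : m ≠ 0) (t : ℝ) :
    (∫⁻ φ in simplex N, ENNReal.ofReal (Real.exp (t * gapSum ψ m φ) * vand (pts φ) ^ β)) *
      (∫⁻ φ in simplex N, ENNReal.ofReal (Real.exp (-(t * gapSum ψ m φ)) * vand (pts φ) ^ β)) ≤
    ENNReal.ofReal (Real.exp (B ^ 2 * (N + 1) * t ^ 2 / (2 * β))) *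
      (∫⁻ φ in simplex N, ENNReal.ofReal (vand (pts φ) ^ β)) ^ 2 := by
  have hS := measurableSet_simplex' N
  have hg := measurable_gapSum hm m
  have hv := measurable_vand_pts N
  set E : ℝ := B ^ 2 * (N + 1) * t ^ 2 / (2 * β) with hE
  have hf1 : Measurable fun φ : Fin N → ℝ =>
      ENNReal.ofReal (Real.exp (t * gapSum ψ m φ) * vand (pts φ) ^ β) :=
    ((Real.measurable_exp.comp (hg.const_mul t)).mul (hv.pow_const β)).ennreal_ofReal
  have hf2 : Measurable fun φ : Fin N → ℝ =>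
      ENNReal.ofReal (Real.exp (-(t * gapSum ψ m φ)) * vand (pts φ) ^ β) :=
    ((Real.measurable_exp.comp (hg.const_mul t).neg).mul (hv.pow_const β)).ennreal_ofReal
  have hf3 : Measurable fun φ : Fin N → ℝ =>
      ENNReal.ofReal (Real.exp (E / 2)) * ENNReal.ofReal (vand (pts φ) ^ β) :=
    (hv.pow_const β).ennreal_ofReal.const_mul _
  have hpl := Pool.Agent.Lib.MP_66505f_gt.pl (l := 1 / 2) (by norm_num) (by norm_num) N
    ((simplex N).indicator fun φ =>
      ENNReal.ofReal (Real.exp (t * gapSum ψ m φ) * vand (pts φ) ^ β))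
    ((simplex N).indicator fun φ =>
      ENNReal.ofReal (Real.exp (-(t * gapSum ψ m φ)) * vand (pts φ) ^ β))
    ((simplex N).indicator fun φ =>
      ENNReal.ofReal (Real.exp (E / 2)) * ENNReal.ofReal (vand (pts φ) ^ β))
    (hf1.indicator hS) (hf2.indicator hS) (hf3.indicator hS) ?_
  · rw [lintegral_indicator hS, lintegral_indicator hS, lintegral_indicator hS,
      lintegral_const_mul _ (hv.pow_const β).ennreal_ofReal] at hpl
    have h2 := ENNReal.rpow_le_rpow hpl (show (0 : ℝ) ≤ 2 by norm_num)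
    rw [ENNReal.mul_rpow_of_nonneg _ _ (by norm_num : (0 : ℝ) ≤ 2), ← ENNReal.rpow_mul,
      ← ENNReal.rpow_mul, ENNReal.mul_rpow_of_nonneg _ _ (by norm_num : (0 : ℝ) ≤ 2)] at h2
    norm_num at h2
    refine h2.trans (le_of_eq ?_)
    congr 1
    rw [← ENNReal.ofReal_pow (Real.exp_pos _).le, ← Real.exp_nat_mul]
    congr 2
    push_cast
    ring
  · intro x y
    by_cases hx : x ∈ simplex N
    · by_cases hy : y ∈ simplex N
      · rw [indicator_of_mem hx, indicator_of_mem hy, indicator_of_mem (mid_mem hx hy)]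
        have hl := log_ineq hβ hB hψ m hm0 t hx hy
        rw [vand_eq hx, vand_eq hy, vand_eq (mid_mem hx hy)]
        rw [← Real.exp_mul, ← Real.exp_mul, ← Real.exp_mul, ← Real.exp_add, ← Real.exp_add,
          ENNReal.ofReal_rpow_of_pos (Real.exp_pos _), ENNReal.ofReal_rpow_of_pos (Real.exp_pos _),
          ← Real.exp_mul, ← Real.exp_mul, ← ENNReal.ofReal_mul (Real.exp_pos _).le,
          ← ENNReal.ofReal_mul (Real.exp_pos _).le, ← Real.exp_add, ← Real.exp_add]
        refine ENNReal.ofReal_le_ofReal (Real.exp_le_exp.mpr ?_)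
        rw [← hE] at hl
        linarith
      · rw [indicator_of_notMem hy, ENNReal.zero_rpow_of_pos (by norm_num), mul_zero]
        exact zero_le
    · rw [indicator_of_notMem hx, ENNReal.zero_rpow_of_pos (by norm_num), zero_mul]
      exact zero_le

end Pool.Agent.Lib.MP_b33862_pr
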