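import Mathlib
import Pool.Agent.Lib.MP_b33862_pr.Basic

/-!
Symmetric functions of the angles: the integral over the torus is `N!` times the integral over
the simplex of sorted points, with the first point rotated to `0`.
-/

set_option autoImplicit false

namespace Pool.Agent.Lib.MP_b33862_pr

open MeasureTheory Set Real
open scoped ENNReal


lemma measurableSet_simplex (N : ℕ) : MeasurableSet (simplex N) := by
  have h : simplex N = (⋂ i : Fin N, ⋂ j : Fin N, ⋂ _ : i < j, {φ : Fin N → ℝ | φ i < φ j}) ∩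
      ⋂ i : Fin N, {φ : Fin N → ℝ | φ i ∈ Ioo 0 (2 * π)} := by
    ext φ
    simp only [simplex, mem_ofPred_eq, mem_inter_iff, mem_iInter]
    constructor
    · rintro ⟨h1, h2⟩
      exact ⟨fun i j hij => h1 hij, h2⟩
    · rintro ⟨h1, h2⟩
      exact ⟨fun i j hij => h1 i j hij, h2⟩
  rw [h]
  refine MeasurableSet.inter ?_ ?_
  · refine MeasurableSet.iInter fun i => MeasurableSet.iInter fun j => MeasurableSet.iInter fun _ =>
      measurableSet_lt (measurable_pi_apply i) (measurable_pi_apply j)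
  · exact MeasurableSet.iInter fun i => measurableSet_Ioo.preimage (measurable_pi_apply i)

/-- almost every configuration is injective -/
lemma ae_injective (N : ℕ) : ∀ᵐ θ : Fin N → ℝ, Function.Injective θ := by
  have h : ∀ i j : Fin N, i ≠ j → ∀ᵐ θ : Fin N → ℝ, θ i ≠ θ j := by
    intro i j hij
    let L : (Fin N → ℝ) →ₗ[ℝ] ℝ :=
      (LinearMap.proj i : (Fin N → ℝ) →ₗ[ℝ] ℝ) - (LinearMap.proj j : (Fin N → ℝ) →ₗ[ℝ] ℝ)
    have hL : LinearMap.ker L ≠ ⊤ := by
      intro htop
      have hm : (Pi.single i 1 : Fin N → ℝ) ∈ LinearMap.ker L := by rw [htop]; trivial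
      rw [LinearMap.mem_ker] at hm
      simp [L, Pi.single_apply, hij.symm] at hm
    have hv := Measure.addHaar_submodule (volume : Measure (Fin N → ℝ)) (LinearMap.ker L) hL
    rw [ae_iff]
    convert hv using 2
    ext θ
    simp [L, sub_eq_zero]
  have h2 : ∀ᵐ θ : Fin N → ℝ, ∀ i j : Fin N, i ≠ j → θ i ≠ θ j := by
    rw [ae_all_iff]; intro i
    rw [ae_all_iff]; intro j
    by_cases hij : i = j
    · simp [hij]
    · filter_upwards [h i j hij] with θ hθ _ using hθ
  filter_upwards [h2] with θ hθ i j hij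
  by_contra hne
  exact hθ i j hne hij

lemma lintegral_perm {N : ℕ} (G : (Fin N → ℝ) → ℝ≥0∞) (σ : Equiv.Perm (Fin N)) :
    ∫⁻ θ : Fin N → ℝ, G (θ ∘ σ) = ∫⁻ θ, G θ := by
  have h := volume_measurePreserving_piCongrLeft (fun _ : Fin N => ℝ) σ⁻¹
  have h3 := h.lintegral_comp_emb (MeasurableEquiv.measurableEmbedding _) G
  rw [← h3]
  refine lintegral_congr fun θ => ?_
  congr 1
  ext i
  have := MeasurableEquiv.piCongrLeft_apply_apply (β := fun _ : Fin N => ℝ) (σ⁻¹) θ (σ i)
  simpa using this.symm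

/-- the cube is the union of `N!` copies of the simplex -/
lemma lintegral_cube {N : ℕ} {G : (Fin N → ℝ) → ℝ≥0∞} (hG : Measurable G)
    (hS : ∀ (θ : Fin N → ℝ) (σ : Equiv.Perm (Fin N)), G (θ ∘ σ) = G θ) :
    ∫⁻ θ in Set.pi univ (fun _ : Fin N => Ioo 0 (2 * π)), G θ =
      (N.factorial : ℝ≥0∞) * ∫⁻ φ in simplex N, G φ := by
  have hcube : MeasurableSet (Set.pi univ (fun _ : Fin N => Ioo (0 : ℝ) (2 * π))) :=
    MeasurableSet.univ_pi fun _ => measurableSet_Ioo
  have hsx := measurableSet_simplex N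
  rw [← lintegral_indicator hcube, ← lintegral_indicator hsx]
  have hae : (fun θ => (Set.pi univ (fun _ : Fin N => Ioo (0 : ℝ) (2 * π))).indicator G θ) =ᵐ[volume]
      fun θ => ∑ σ : Equiv.Perm (Fin N), (simplex N).indicator G (θ ∘ σ) := by
    filter_upwards [ae_injective N] with θ hθ
    by_cases hc : θ ∈ Set.pi univ (fun _ : Fin N => Ioo (0 : ℝ) (2 * π))
    · rw [indicator_of_mem hc]
      have hmono : StrictMono (θ ∘ Tuple.sort θ) :=
        (Tuple.monotone_sort θ).strictMono_of_injective (hθ.comp (Tuple.sort θ).injective)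
      rw [Finset.sum_eq_single (Tuple.sort θ)]
      · rw [indicator_of_mem, hS]
        exact ⟨hmono, fun i => hc _ (mem_univ _)⟩
      · intro τ _ hτ
        refine indicator_of_notMem ?_ _
        rintro ⟨h1, _⟩
        refine hτ ?_
        have h2 := Tuple.unique_monotone h1.monotone (Tuple.monotone_sort θ)
        ext i
        have h3 := congrFun h2 i
        simp only [Function.comp_apply] at h3
        rw [hθ h3]
      · intro h; exact absurd (Finset.mem_univ _) h
    · rw [indicator_of_notMem hc]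
      symm
      refine Finset.sum_eq_zero fun σ _ => indicator_of_notMem ?_ _
      rintro ⟨_, h2⟩
      refine hc fun i _ => ?_
      have := h2 (σ⁻¹ i)
      simpa using this
  rw [lintegral_congr_ae hae, lintegral_finsetSum]
  · have : ∀ σ ∈ (Finset.univ : Finset (Equiv.Perm (Fin N))),
        ∫⁻ θ : Fin N → ℝ, (simplex N).indicator G (θ ∘ σ) = ∫⁻ θ, (simplex N).indicator G θ :=
      fun σ _ => lintegral_perm _ σ
    rw [Finset.sum_congr rfl this]
    simp [Fintype.card_perm]
  · intro σ _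
    refine (hG.indicator hsx).comp ?_
    exact measurable_pi_lambda _ fun i => measurable_pi_apply _

theorem lintegral_sorted {N : ℕ} {F : (Fin (N + 1) → ℝ) → ℝ≥0∞} (hF : Measurable F) (hP : Per F)
    (hR : Rot F) (hS : Sym F) :
    ∫⁻ θ, F θ ∂(tor (N + 1)) = (N.factorial : ℝ≥0∞) * (ENNReal.ofReal (2 * π))⁻¹ ^ N *
      ∫⁻ φ in simplex N, F (pts φ) := by
  have hcons : ∀ a : ℝ, Measurable fun θ : Fin N → ℝ => (Fin.cons a θ : Fin (N + 1) → ℝ) := by
    intro a
    refine measurable_pi_lambda _ fun i => ?_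
    refine Fin.cases ?_ (fun j => ?_) i
    · simp
    · simpa using measurable_pi_apply j
  have hmeas : ∀ a : ℝ, Measurable fun θ : Fin N → ℝ => F (Fin.cons a θ) := fun a =>
    hF.comp (hcons a)
  have hper : ∀ a : ℝ, Per fun θ : Fin N → ℝ => F (Fin.cons a θ) := by
    intro a θ θ' h
    refine hP _ _ fun i => ?_
    refine Fin.cases ?_ (fun j => ?_) i
    · simp
    · simpa using h j
  have key : ∀ a : ℝ, ∫⁻ θ, F (Fin.cons a θ) ∂(tor N) = ∫⁻ θ, F (pts θ) ∂(tor N) := by
    intro a
    rw [← lintegral_tor_rot (hmeas a) (hper a) a]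
    refine lintegral_congr fun θ => ?_
    have h2 : (Fin.cons a (fun i => θ i + a) : Fin (N + 1) → ℝ) = fun i => (pts θ) i + a := by
      ext i
      refine Fin.cases ?_ (fun j => ?_) i
      · simp [pts]
      · simp [pts]
    rw [h2, hR]
  rw [lintegral_tor_cons hF]
  simp_rw [key]
  have : IsProbabilityMeasure circ := inferInstance
  rw [lintegral_const, measure_univ, mul_one]
  have h6 := lintegral_tor_box (hmeas 0) (hper 0)
  have h7 : ∫⁻ θ, F (Fin.cons 0 θ) ∂(tor N) = ∫⁻ θ, F (pts θ) ∂(tor N) := rfl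
  rw [← h7, h6]
  have hsym : ∀ (θ : Fin N → ℝ) (σ : Equiv.Perm (Fin N)), F (pts (θ ∘ σ)) = F (pts θ) := by
    intro θ σ
    have h3 : (pts (θ ∘ σ) : Fin (N + 1) → ℝ) = pts θ ∘ (Equiv.Perm.decomposeFin.symm (0, σ)) := by
      ext i
      refine Fin.cases ?_ (fun j => ?_) i
      · simp [pts]
      · simp [pts]
    rw [h3, hS]
  have h4 := lintegral_cube (G := fun θ => F (pts θ)) (hmeas 0) hsym
  have h5 : ∫⁻ θ in Set.pi univ (fun _ : Fin N => Ioo 0 (2 * π)), F (Fin.cons 0 θ) =
      ∫⁻ θ in Set.pi univ (fun _ : Fin N => Ioo 0 (2 * π)), F (pts θ) := rfl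
  rw [h5, h4]
  ring

end Pool.Agent.Lib.MP_b33862_pr
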