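import Mathlib
import Pool.Agent.Lib.MP_b33862_pr.Basic
import Pool.Agent.Lib.MP_b33862_pr.Part
import Pool.Agent.Lib.MP_b33862_pr.PLGap
import Pool.Agent.Lib.MP_b33862_pr.NuDef
import Pool.Agent.Lib.MP_b33862_pr.Sort

/-!
The circular beta ensemble seen from one of its points: transfer of integrals, and continuity in
`β` of the expectations of the statistics of the `m`-th neighbour distances.
-/

set_option autoImplicit false

namespace Pool.Agent.Lib.MP_b33862_pr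

open MeasureTheory Set Real Filter
open scoped ENNReal Topology

namespace GapBeta

/-- partition function on the simplex -/
noncomputable def Wn (β : ℝ) (N : ℕ) : ℝ≥0∞ :=
  ∫⁻ φ in simplex N, ENNReal.ofReal (vand (pts φ) ^ β)

lemma w_measurable (β : ℝ) (N : ℕ) :
    Measurable fun φ : Fin N → ℝ => ENNReal.ofReal (vand (pts φ) ^ β) :=
  ((PLGap.measurable_vand_pts N).pow_const β).ennreal_ofReal

lemma Z_eq {β : ℝ} (hβ : 0 ≤ β) (N : ℕ) : ENNReal.ofReal (Z β (N + 1)) =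
    (N.factorial : ℝ≥0∞) * (ENNReal.ofReal (2 * π))⁻¹ ^ N * Wn β N := by
  have hm : Measurable fun θ : Fin (N + 1) → ℝ => ENNReal.ofReal (vand θ ^ β) :=
    vand_rpow_ofReal_measurable (N + 1) β
  have h := lintegral_sorted hm ((vand_per _).comp fun x => ENNReal.ofReal (x ^ β))
    (fun θ a => by simp only [vand_rot _ θ a]) (fun θ σ => by simp only [vand_sym _ θ σ])
  rw [Z, ofReal_integral_eq_lintegral_ofReal (integrable_vand_rpow0 hβ _)
    (ae_of_all _ fun θ => Real.rpow_nonneg (vand_nonneg _) _), h]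
  rfl

lemma c_ne_zero (N : ℕ) : (N.factorial : ℝ≥0∞) * (ENNReal.ofReal (2 * π))⁻¹ ^ N ≠ 0 := by
  refine mul_ne_zero (by exact_mod_cast N.factorial_ne_zero) (pow_ne_zero _ ?_)
  exact ENNReal.inv_ne_zero.mpr ENNReal.ofReal_ne_top

lemma c_ne_top (N : ℕ) : (N.factorial : ℝ≥0∞) * (ENNReal.ofReal (2 * π))⁻¹ ^ N ≠ ⊤ := by
  refine ENNReal.mul_ne_top (ENNReal.natCast_ne_top _) (ENNReal.pow_ne_top ?_)
  exact ENNReal.inv_ne_top.mpr two_pi_ne

lemma Wn_ne_zero {β : ℝ} (hβ : 0 ≤ β) (N : ℕ) : Wn β N ≠ 0 := by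
  intro h
  have h1 := Z_eq hβ N
  rw [h, mul_zero, ENNReal.ofReal_eq_zero] at h1
  exact absurd (Z_pos β hβ (N + 1)) (not_lt.mpr h1)

lemma Wn_ne_top {β : ℝ} (hβ : 0 ≤ β) (N : ℕ) : Wn β N ≠ ⊤ := by
  intro h
  have h1 := Z_eq hβ N
  rw [h, ENNReal.mul_top (c_ne_zero N)] at h1
  exact ENNReal.ofReal_ne_top h1

lemma lintegral_nu_eq (β : ℝ) (N : ℕ) {G : (Fin N → ℝ) → ℝ≥0∞} (hG : Measurable G) :
    ∫⁻ φ, G φ ∂(nu β N) =
      (Wn β N)⁻¹ * ∫⁻ φ in simplex N, ENNReal.ofReal (vand (pts φ) ^ β) * G φ := by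
  rw [nu, lintegral_smul_measure, lintegral_withDensity_eq_lintegral_mul _ (w_measurable β N) hG]
  rfl

end GapBeta

open GapBeta

lemma nu_prob {β : ℝ} (hβ : 0 ≤ β) (N : ℕ) : IsProbabilityMeasure (nu β N) := by
  constructor
  have h := lintegral_nu_eq β N (G := fun _ => 1) measurable_const
  simp only [lintegral_one, mul_one] at h
  rw [h]
  exact ENNReal.inv_mul_cancel (Wn_ne_zero hβ N) (Wn_ne_top hβ N)

lemma nu_ac (β : ℝ) (N : ℕ) : nu β N ≪ (volume : Measure (Fin N → ℝ)).restrict (simplex N) :=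
  (Measure.smul_absolutelyContinuous).trans (withDensity_absolutelyContinuous _ _)

lemma nu_simplex (β : ℝ) (N : ℕ) : ∀ᵐ φ ∂(nu β N), φ ∈ simplex N :=
  (nu_ac β N).ae_le (ae_restrict_mem (PLGap.measurableSet_simplex' N))

lemma measurable_pts' (N : ℕ) : Measurable (pts : (Fin N → ℝ) → Fin (N + 1) → ℝ) :=
  measurable_pi_iff.mpr fun i => PLGap.measurable_pts i

lemma lintegral_nu {β : ℝ} (hβ : 0 ≤ β) {N : ℕ} {F : (Fin (N + 1) → ℝ) → ℝ≥0∞} (hF : Measurable F)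
    (hP : Per F) (hR : Rot F) (hS : Sym F) :
    ∫⁻ θ, F θ ∂(cbe β (N + 1)) = ∫⁻ φ, F (pts φ) ∂(nu β N) := by
  have hm : Measurable fun θ : Fin (N + 1) → ℝ => F θ * ENNReal.ofReal (vand θ ^ β) :=
    hF.mul (vand_rpow_ofReal_measurable (N + 1) β)
  have h := lintegral_sorted hm
    (hP.mul ((vand_per _).comp fun x => ENNReal.ofReal (x ^ β)))
    (fun θ a => by simp only [vand_rot _ θ a, hR θ a])
    (fun θ σ => by simp only [vand_sym _ θ σ, hS θ σ])
  rw [lintegral_cbe hβ hF, h, Z_eq hβ N, lintegral_nu_eq β N (G := fun φ => F (pts φ)) (hF.comp (measurable_pts' N)),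
    ENNReal.mul_div_mul_left _ _ (c_ne_zero N) (c_ne_top N), div_eq_mul_inv, mul_comm]
  congr 1
  refine lintegral_congr fun φ => ?_
  rw [mul_comm]

lemma integrable_nu {β : ℝ} (hβ : 0 ≤ β) {N : ℕ} {F : (Fin (N + 1) → ℝ) → ℝ} (hF : Measurable F)
    (hP : Per F) (hR : Rot F) (hS : Sym F) :
    Integrable F (cbe β (N + 1)) ↔ Integrable (fun φ => F (pts φ)) (nu β N) := by
  have h := lintegral_nu hβ (F := fun θ => ‖F θ‖ₑ) hF.enorm (hP.comp fun x => ‖x‖ₑ)
    (fun θ a => by simp only [hR θ a]) (fun θ σ => by simp only [hS θ σ])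
  constructor
  · intro hi
    refine ⟨(hF.comp (measurable_pts' N)).aestronglyMeasurable, ?_⟩
    have := hi.2
    rw [HasFiniteIntegral] at this ⊢
    rwa [← h]
  · intro hi
    refine ⟨hF.aestronglyMeasurable, ?_⟩
    have := hi.2
    rw [HasFiniteIntegral] at this ⊢
    rwa [h]

lemma integral_nu {β : ℝ} (hβ : 0 ≤ β) {N : ℕ} {F : (Fin (N + 1) → ℝ) → ℝ} (hF : Measurable F)
    (hP : Per F) (hR : Rot F) (hS : Sym F) :
    ∫ θ, F θ ∂(cbe β (N + 1)) = ∫ φ, F (pts φ) ∂(nu β N) := by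
  by_cases hi : Integrable F (cbe β (N + 1))
  · have hi' := (integrable_nu hβ hF hP hR hS).mp hi
    rw [integral_eq_lintegral_pos_part_sub_lintegral_neg_part hi,
      integral_eq_lintegral_pos_part_sub_lintegral_neg_part hi',
      lintegral_nu hβ (F := fun θ => ENNReal.ofReal (F θ)) hF.ennreal_ofReal
        (hP.comp fun x => ENNReal.ofReal x) (fun θ a => by simp only [hR θ a])
        (fun θ σ => by simp only [hS θ σ]),
      lintegral_nu hβ (F := fun θ => ENNReal.ofReal (-F θ)) hF.neg.ennreal_ofReal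
        (hP.comp fun x => ENNReal.ofReal (-x)) (fun θ a => by simp only [hR θ a])
        (fun θ σ => by simp only [hS θ σ])]
  · have hi' : ¬ Integrable (fun φ => F (pts φ)) (nu β N) :=
      fun h => hi ((integrable_nu hβ hF hP hR hS).mpr h)
    rw [integral_undef hi, integral_undef hi']

lemma gapSum_measurable {N : ℕ} {ψ : ℝ → ℝ} (hm : Measurable ψ) (m : Fin (N + 1)) :
    Measurable (gapSum ψ m) := PLGap.measurable_gapSum hm m

namespace GapBeta

lemma vand_pts_pos {N : ℕ} {φ : Fin N → ℝ} (hφ : φ ∈ simplex N) : 0 < vand (pts φ) := by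
  rw [PLGap.vand_eq hφ]
  exact Real.exp_pos _

/-- Jensen -/
lemma jensen {N : ℕ} {β : ℝ} (hβ : 0 ≤ β) {G : (Fin N → ℝ) → ℝ} (hG : Measurable G)
    (hi : Integrable G (nu β N)) :
    ENNReal.ofReal (Real.exp (∫ φ, G φ ∂(nu β N))) ≤
      ∫⁻ φ, ENNReal.ofReal (Real.exp (G φ)) ∂(nu β N) := by
  have := nu_prob hβ N
  by_cases h : Integrable (fun φ => Real.exp (G φ)) (nu β N)
  · rw [← ofReal_integral_eq_lintegral_ofReal h (ae_of_all _ fun φ => (Real.exp_pos _).le)]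
    exact ENNReal.ofReal_le_ofReal (convexOn_exp.map_integral_le
      Real.continuous_exp.continuousOn isClosed_univ (ae_of_all _ fun _ => mem_univ _) hi h)
  · have h1 : ∫⁻ φ, ENNReal.ofReal (Real.exp (G φ)) ∂(nu β N) = ⊤ := by
      by_contra h2
      apply h
      refine ⟨(Real.measurable_exp.comp hG).aestronglyMeasurable, ?_⟩
      rw [hasFiniteIntegral_iff_ofReal (ae_of_all _ fun φ => (Real.exp_pos _).le)]
      exact lt_top_iff_ne_top.mpr h2
    rw [h1]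
    exact le_top

/-- change of `β` -/
lemma change {N : ℕ} {β β' : ℝ} (hβ' : 0 ≤ β') {G : (Fin N → ℝ) → ℝ}
    (hG : Measurable G) :
    ∫⁻ φ, ENNReal.ofReal (Real.exp (G φ)) ∂(nu β N) = (Wn β N)⁻¹ * (Wn β' N *
      ∫⁻ φ, ENNReal.ofReal (Real.exp (G φ - (β' - β) * Real.log (vand (pts φ)))) ∂(nu β' N)) := by
  have hv := PLGap.measurable_vand_pts N
  have m1 : Measurable fun φ : Fin N → ℝ => ENNReal.ofReal (Real.exp (G φ)) :=
    (Real.measurable_exp.comp hG).ennreal_ofReal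
  have m2 : Measurable fun φ : Fin N → ℝ =>
      ENNReal.ofReal (Real.exp (G φ - (β' - β) * Real.log (vand (pts φ)))) :=
    (Real.measurable_exp.comp (hG.sub ((Real.measurable_log.comp hv).const_mul _))).ennreal_ofReal
  rw [lintegral_nu_eq β N m1, lintegral_nu_eq β' N m2, ← mul_assoc (Wn β' N),
    ENNReal.mul_inv_cancel (Wn_ne_zero hβ' N) (Wn_ne_top hβ' N), one_mul]
  congr 1
  refine setLIntegral_congr_fun (PLGap.measurableSet_simplex' N) fun φ hφ => ?_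
  have hp := vand_pts_pos hφ
  change ENNReal.ofReal (vand (pts φ) ^ β) * ENNReal.ofReal (Real.exp (G φ)) =
    ENNReal.ofReal (vand (pts φ) ^ β') *
      ENNReal.ofReal (Real.exp (G φ - (β' - β) * Real.log (vand (pts φ))))
  rw [← ENNReal.ofReal_mul (Real.rpow_nonneg hp.le _), ← ENNReal.ofReal_mul
    (Real.rpow_nonneg hp.le _), Real.rpow_def_of_pos hp, Real.rpow_def_of_pos hp, ← Real.exp_add,
    ← Real.exp_add]
  congr 2
  ring

lemma integrable_S {β : ℝ} (hβ : 0 < β) (N : ℕ) :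
    Integrable (fun φ => Real.log (vand (pts φ))) (nu β N) :=
  (integrable_nu hβ.le (F := fun θ => Real.log (vand θ))
    (Real.measurable_log.comp (vand_continuous _).measurable) ((vand_per _).comp Real.log)
    (fun θ a => by simp only [vand_rot _ θ a]) (fun θ σ => by simp only [vand_sym _ θ σ])).mp
    (integrable_log_vand hβ (N + 1))

lemma integral_S {β : ℝ} (hβ : 0 < β) (N : ℕ) :
    ∫ φ, Real.log (vand (pts φ)) ∂(nu β N) = ∫ θ, Real.log (vand θ) ∂(cbe β (N + 1)) :=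
  (integral_nu hβ.le (F := fun θ => Real.log (vand θ))
    (Real.measurable_log.comp (vand_continuous _).measurable) ((vand_per _).comp Real.log)
    (fun θ a => by simp only [vand_rot _ θ a]) (fun θ σ => by simp only [vand_sym _ θ σ])).symm

/-- the one-sided inequality -/
lemma one_sided {β β' : ℝ} (hβ : 0 < β) (hβ' : 0 < β') {N : ℕ} {ψ : ℝ → ℝ} (hm : Measurable ψ)
    {A : ℝ} (hA : ∀ u, |ψ u| ≤ A) {D : ℝ} (hD : 0 ≤ D)
    (hψ : ∀ u ∈ Ioo 0 (2 * π), ∀ v ∈ Ioo 0 (2 * π), |ψ u - ψ v| ≤ D * (|u - v| / (u + v)))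
    (m : Fin (N + 1)) (hm0 : m ≠ 0) (t : ℝ) :
    t * ((∫ φ, gapSum ψ m φ ∂(nu β' N)) - ∫ φ, gapSum ψ m φ ∂(nu β N)) ≤
      D ^ 2 * (N + 1) * t ^ 2 / (2 * β) + (β' - β) * ((∫ φ, Real.log (vand (pts φ)) ∂(nu β' N)) -
        ∫ φ, Real.log (vand (pts φ)) ∂(nu β N)) := by
  have hF := gapSum_measurable hm m
  have hb : ∀ φ : Fin N → ℝ, |gapSum ψ m φ| ≤ (N + 1) * A := by
    intro φ
    calc |gapSum ψ m φ| ≤ ∑ i : Fin (N + 1), |ψ (gap (pts φ) i (i + m))| :=
          Finset.abs_sum_le_sum_abs _ _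
      _ ≤ ∑ _i : Fin (N + 1), A := Finset.sum_le_sum fun i _ => hA _
      _ = (N + 1) * A := by simp
  have hFi : ∀ {γ : ℝ}, 0 < γ → Integrable (gapSum ψ m) (nu γ N) := by
    intro γ hγ
    have := nu_prob hγ.le N
    exact Integrable.of_bound hF.aestronglyMeasurable _ (ae_of_all _ hb)
  set E := ∫ φ, gapSum ψ m φ ∂(nu β N) with hE
  set E' := ∫ φ, gapSum ψ m φ ∂(nu β' N) with hE'
  set L := ∫ φ, Real.log (vand (pts φ)) ∂(nu β N) with hL
  set L' := ∫ φ, Real.log (vand (pts φ)) ∂(nu β' N) with hL'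
  set Q := D ^ 2 * (N + 1) * t ^ 2 / (2 * β) with hQ
  -- Prekopa-Leindler
  have h1 : (∫⁻ φ, ENNReal.ofReal (Real.exp (t * gapSum ψ m φ)) ∂(nu β N)) *
      (∫⁻ φ, ENNReal.ofReal (Real.exp (-(t * gapSum ψ m φ))) ∂(nu β N)) ≤
      ENNReal.ofReal (Real.exp Q) := by
    have hpl := pl_gap hβ hm hD hψ m hm0 t
    have m1 : Measurable fun φ : Fin N → ℝ => ENNReal.ofReal (Real.exp (t * gapSum ψ m φ)) :=
      (Real.measurable_exp.comp (hF.const_mul t)).ennreal_ofReal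
    have m2 : Measurable fun φ : Fin N → ℝ => ENNReal.ofReal (Real.exp (-(t * gapSum ψ m φ))) :=
      (Real.measurable_exp.comp (hF.const_mul t).neg).ennreal_ofReal
    rw [lintegral_nu_eq β N m1, lintegral_nu_eq β N m2]
    have e : ∀ s : (Fin N → ℝ) → ℝ,
        ∫⁻ φ in simplex N, ENNReal.ofReal (vand (pts φ) ^ β) * ENNReal.ofReal (Real.exp (s φ)) =
        ∫⁻ φ in simplex N, ENNReal.ofReal (Real.exp (s φ) * vand (pts φ) ^ β) := by
      intro s
      refine lintegral_congr fun φ => ?_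
      rw [ENNReal.ofReal_mul (Real.exp_pos _).le, mul_comm]
    rw [e, e]
    have hW0 := Wn_ne_zero hβ.le N
    have hW1 := Wn_ne_top hβ.le N
    change _ ≤ ENNReal.ofReal (Real.exp Q) * (Wn β N) ^ 2 at hpl
    calc (Wn β N)⁻¹ * (∫⁻ φ in simplex N, ENNReal.ofReal (Real.exp (t * gapSum ψ m φ) *
          vand (pts φ) ^ β)) * ((Wn β N)⁻¹ * ∫⁻ φ in simplex N,
          ENNReal.ofReal (Real.exp (-(t * gapSum ψ m φ)) * vand (pts φ) ^ β))
        = ((Wn β N)⁻¹) ^ 2 * ((∫⁻ φ in simplex N, ENNReal.ofReal (Real.exp (t * gapSum ψ m φ) *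
          vand (pts φ) ^ β)) * ∫⁻ φ in simplex N,
          ENNReal.ofReal (Real.exp (-(t * gapSum ψ m φ)) * vand (pts φ) ^ β)) := by ring
      _ ≤ ((Wn β N)⁻¹) ^ 2 * (ENNReal.ofReal (Real.exp Q) * (Wn β N) ^ 2) := by gcongr
      _ = ENNReal.ofReal (Real.exp Q) * ((Wn β N)⁻¹ * Wn β N) ^ 2 := by ring
      _ = ENNReal.ofReal (Real.exp Q) := by
        rw [ENNReal.inv_mul_cancel hW0 hW1, one_pow, mul_one]
  have h2 : ENNReal.ofReal (Real.exp (-(t * E))) ≤
      ∫⁻ φ, ENNReal.ofReal (Real.exp (-(t * gapSum ψ m φ))) ∂(nu β N) := by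
    have := jensen hβ.le (G := fun φ => -(t * gapSum ψ m φ)) (hF.const_mul t).neg
      ((hFi hβ).const_mul t).neg
    rwa [integral_neg, integral_const_mul] at this
  have h3 : ∫⁻ φ, ENNReal.ofReal (Real.exp (t * gapSum ψ m φ)) ∂(nu β N) ≤
      ENNReal.ofReal (Real.exp (Q + t * E)) := by
    have h4 : (∫⁻ φ, ENNReal.ofReal (Real.exp (t * gapSum ψ m φ)) ∂(nu β N)) *
        ENNReal.ofReal (Real.exp (-(t * E))) ≤ ENNReal.ofReal (Real.exp Q) :=
      (mul_le_mul_right h2 _).trans h1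
    have h5 : ENNReal.ofReal (Real.exp (-(t * E))) * ENNReal.ofReal (Real.exp (t * E)) = 1 := by
      rw [← ENNReal.ofReal_mul (Real.exp_pos _).le, ← Real.exp_add]
      simp
    calc ∫⁻ φ, ENNReal.ofReal (Real.exp (t * gapSum ψ m φ)) ∂(nu β N)
        = (∫⁻ φ, ENNReal.ofReal (Real.exp (t * gapSum ψ m φ)) ∂(nu β N)) *
          ENNReal.ofReal (Real.exp (-(t * E))) * ENNReal.ofReal (Real.exp (t * E)) := by
          rw [mul_assoc, h5, mul_one]
      _ ≤ ENNReal.ofReal (Real.exp Q) * ENNReal.ofReal (Real.exp (t * E)) := by gcongr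
      _ = _ := by rw [← ENNReal.ofReal_mul (Real.exp_pos _).le, ← Real.exp_add]
  -- Gibbs
  have h6 := change (β := β) (β' := β') (N := N) hβ'.le (G := fun φ => t * gapSum ψ m φ)
    (hF.const_mul t)
  have hv := PLGap.measurable_vand_pts N
  have hlv : Measurable fun φ : Fin N → ℝ => Real.log (vand (pts φ)) :=
    Real.measurable_log.comp hv
  have h7 : ENNReal.ofReal (Real.exp (t * E' - (β' - β) * L')) ≤
      ∫⁻ φ, ENNReal.ofReal (Real.exp (t * gapSum ψ m φ - (β' - β) * Real.log (vand (pts φ))))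
        ∂(nu β' N) := by
    have := jensen hβ'.le (G := fun φ => t * gapSum ψ m φ - (β' - β) * Real.log (vand (pts φ)))
      ((hF.const_mul t).sub (hlv.const_mul _))
      (((hFi hβ').const_mul t).sub ((integrable_S hβ' N).const_mul _))
    rwa [integral_sub ((hFi hβ').const_mul t) ((integrable_S hβ' N).const_mul _),
      integral_const_mul, integral_const_mul] at this
  have h8 := change (β := β) (β' := β') (N := N) hβ'.le
    (G := fun φ => (β' - β) * Real.log (vand (pts φ))) (hlv.const_mul _)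
  have h9 : ENNReal.ofReal (Real.exp ((β' - β) * L)) ≤ (Wn β N)⁻¹ * Wn β' N := by
    have := jensen hβ.le (G := fun φ => (β' - β) * Real.log (vand (pts φ)))
      (hlv.const_mul _) ((integrable_S hβ N).const_mul _)
    rw [integral_const_mul, h8] at this
    have hpr := nu_prob hβ'.le N
    simpa using this
  have h10 : ENNReal.ofReal (Real.exp ((β' - β) * L + (t * E' - (β' - β) * L'))) ≤
      ENNReal.ofReal (Real.exp (Q + t * E)) := by
    rw [Real.exp_add, ENNReal.ofReal_mul (Real.exp_pos _).le]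
    calc ENNReal.ofReal (Real.exp ((β' - β) * L)) *
          ENNReal.ofReal (Real.exp (t * E' - (β' - β) * L'))
        ≤ ((Wn β N)⁻¹ * Wn β' N) * ∫⁻ φ, ENNReal.ofReal (Real.exp (t * gapSum ψ m φ -
          (β' - β) * Real.log (vand (pts φ)))) ∂(nu β' N) := mul_le_mul' h9 h7
      _ = ∫⁻ φ, ENNReal.ofReal (Real.exp (t * gapSum ψ m φ)) ∂(nu β N) := by
        rw [h6, mul_assoc]
      _ ≤ _ := h3
  have h11 := (ENNReal.ofReal_le_ofReal_iff (Real.exp_pos _).le).mp h10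
  have h12 := Real.exp_le_exp.mp h11
  linarith

lemma energy_diff {b β β' : ℝ} (hb : 0 < b) (hβ : b ≤ β) (hβ' : b ≤ β') (N : ℕ) :
    |(∫ φ, Real.log (vand (pts φ)) ∂(nu β' N)) - ∫ φ, Real.log (vand (pts φ)) ∂(nu β N)| ≤
      (2 + 2 / b) * (N + 1) := by
  have p : 0 < β := lt_of_lt_of_le hb hβ
  have p' : 0 < β' := lt_of_lt_of_le hb hβ'
  rw [integral_S p, integral_S p']
  have h1 := energy_ge p (N + 1)
  have h2 := energy_le p (N + 1)
  have h1' := energy_ge p' (N + 1)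
  have h2' := energy_le p' (N + 1)
  have k : ∀ γ : ℝ, b ≤ γ → 2 * (1 + γ) / γ ≤ 2 + 2 / b := by
    intro γ hγ
    have pγ : 0 < γ := lt_of_lt_of_le hb hγ
    have : 2 * (1 + γ) / γ = 2 + 2 / γ := by
      field_simp
      ring
    rw [this]
    have : 2 / γ ≤ 2 / b := div_le_div_of_nonneg_left (by norm_num) hb hγ
    linarith
  have hn : (0 : ℝ) ≤ ((N + 1 : ℕ) : ℝ) := by positivity
  have k1 := mul_le_mul_of_nonneg_right (k β hβ) hn
  have k2 := mul_le_mul_of_nonneg_right (k β' hβ') hn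
  push_cast at *
  rw [abs_le]
  constructor <;> linarith

end GapBeta

theorem gap_beta (b B : ℝ) (hb : 0 < b) : ∃ C : ℝ, 0 ≤ C ∧ ∀ β ∈ Icc b B, ∀ β' ∈ Icc b B,
    ∀ N : ℕ, ∀ ψ : ℝ → ℝ, Measurable ψ → ∀ A : ℝ, (∀ u, |ψ u| ≤ A) → ∀ D : ℝ, 0 ≤ D →
    (∀ u ∈ Ioo 0 (2 * π), ∀ v ∈ Ioo 0 (2 * π), |ψ u - ψ v| ≤ D * (|u - v| / (u + v))) →
    ∀ m : Fin (N + 1), m ≠ 0 →
    |(∫ φ, gapSum ψ m φ ∂(nu β N)) - ∫ φ, gapSum ψ m φ ∂(nu β' N)| ≤
      C * (1 + D ^ 2) * (N + 1) * √|β - β'| := by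
  refine ⟨1 / (2 * b) + (2 + 2 / b), by positivity, ?_⟩
  have key : ∀ β ∈ Icc b B, ∀ β' ∈ Icc b B,
    ∀ N : ℕ, ∀ ψ : ℝ → ℝ, Measurable ψ → ∀ A : ℝ, (∀ u, |ψ u| ≤ A) → ∀ D : ℝ, 0 ≤ D →
    (∀ u ∈ Ioo 0 (2 * π), ∀ v ∈ Ioo 0 (2 * π), |ψ u - ψ v| ≤ D * (|u - v| / (u + v))) →
    ∀ m : Fin (N + 1), m ≠ 0 →
    (∫ φ, gapSum ψ m φ ∂(nu β' N)) - ∫ φ, gapSum ψ m φ ∂(nu β N) ≤
      (1 / (2 * b) + (2 + 2 / b)) * (1 + D ^ 2) * (N + 1) * √|β - β'| := by
    intro β hβ β' hβ' N ψ hm A hA D hD hψ m hm0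
    have p : 0 < β := lt_of_lt_of_le hb hβ.1
    have p' : 0 < β' := lt_of_lt_of_le hb hβ'.1
    by_cases hbb : β = β'
    · subst hbb
      simp
    set t := √|β - β'| with ht
    have hpos : 0 < |β - β'| := abs_pos.mpr (sub_ne_zero.mpr hbb)
    have htp : 0 < t := Real.sqrt_pos.mpr hpos
    have htt : t * t = |β - β'| := Real.mul_self_sqrt hpos.le
    have h1 := one_sided p p' hm hA hD hψ m hm0 t
    have h2 := energy_diff hb hβ.1 hβ'.1 N
    have hN : (0 : ℝ) ≤ (N : ℝ) + 1 := by positivity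
    have h3 : (β' - β) * ((∫ φ, Real.log (vand (pts φ)) ∂(nu β' N)) -
        ∫ φ, Real.log (vand (pts φ)) ∂(nu β N)) ≤ t * t * ((2 + 2 / b) * (N + 1)) := by
      calc _ ≤ |(β' - β) * ((∫ φ, Real.log (vand (pts φ)) ∂(nu β' N)) -
            ∫ φ, Real.log (vand (pts φ)) ∂(nu β N))| := le_abs_self _
        _ = |β - β'| * |(∫ φ, Real.log (vand (pts φ)) ∂(nu β' N)) -
            ∫ φ, Real.log (vand (pts φ)) ∂(nu β N)| := by rw [abs_mul, abs_sub_comm]
        _ ≤ |β - β'| * ((2 + 2 / b) * (N + 1)) := by gcongr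
        _ = _ := by rw [htt]
    have h4 : D ^ 2 * (N + 1) * t ^ 2 / (2 * β) ≤ t * t * (D ^ 2 * (N + 1) * (1 / (2 * b))) := by
      have : 1 / (2 * β) ≤ 1 / (2 * b) :=
        one_div_le_one_div_of_le (by positivity) (by linarith [hβ.1])
      calc D ^ 2 * (N + 1) * t ^ 2 / (2 * β) = t * t * (D ^ 2 * (N + 1) * (1 / (2 * β))) := by
            ring
        _ ≤ _ := by gcongr
    have h5 : t * ((∫ φ, gapSum ψ m φ ∂(nu β' N)) - ∫ φ, gapSum ψ m φ ∂(nu β N)) ≤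
        t * (t * (D ^ 2 * (N + 1) * (1 / (2 * b)) + (2 + 2 / b) * (N + 1))) := by
      calc _ ≤ _ := h1
        _ ≤ _ := add_le_add h4 h3
        _ = _ := by ring
    have h6 := le_of_mul_le_mul_left h5 htp
    refine h6.trans ?_
    have h7 : D ^ 2 * (N + 1) * (1 / (2 * b)) + (2 + 2 / b) * (N + 1) ≤
        (1 / (2 * b) + (2 + 2 / b)) * (1 + D ^ 2) * (N + 1) := by
      have e : (1 / (2 * b) + (2 + 2 / b)) * (1 + D ^ 2) * (N + 1) -
          (D ^ 2 * (N + 1) * (1 / (2 * b)) + (2 + 2 / b) * (N + 1)) =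
          (1 / (2 * b)) * (N + 1) + (2 + 2 / b) * D ^ 2 * (N + 1) := by ring
      have : 0 ≤ (1 / (2 * b)) * ((N : ℝ) + 1) + (2 + 2 / b) * D ^ 2 * (N + 1) := by positivity
      linarith
    calc t * (D ^ 2 * (N + 1) * (1 / (2 * b)) + (2 + 2 / b) * (N + 1))
        ≤ t * ((1 / (2 * b) + (2 + 2 / b)) * (1 + D ^ 2) * (N + 1)) := by gcongr
      _ = _ := by ring
  intro β hβ β' hβ' N ψ hm A hA D hD hψ m hm0
  rw [abs_le]
  have h1 := key β hβ β' hβ' N ψ hm A hA D hD hψ m hm0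
  have h2 := key β' hβ' β hβ N ψ hm A hA D hD hψ m hm0
  rw [abs_sub_comm β' β] at h2
  constructor <;> linarith

end Pool.Agent.Lib.MP_b33862_pr
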