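import Mathlib
import Pool.Agent.Lib.MP_b33862_pr.Basic

/-!
One-point and two-point functions of the circular beta ensemble.
-/

set_option autoImplicit false

namespace Pool.Agent.Lib.MP_b33862_pr

open MeasureTheory Set Real Filter
open scoped ENNReal Topology

namespace TwoPt

lemma lintegral_scale {c : ℝ} (hc : 0 < c) {g : ℝ → ℝ≥0∞} (hg : Measurable g) :
    ∫⁻ x in Ico (-(c * π)) (c * π), g x =
      ENNReal.ofReal c * ∫⁻ a in Ico (-π) π, g (c * a) := by
  rw [← lintegral_indicator measurableSet_Ico, ← lintegral_indicator measurableSet_Ico]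
  conv_lhs => rw [← Real.smul_map_volume_mul_left hc.ne']
  rw [lintegral_smul_measure, lintegral_map (hg.indicator measurableSet_Ico)
    (measurable_const_mul c), abs_of_pos hc, smul_eq_mul]
  congr 1
  refine lintegral_congr fun x => ?_
  by_cases h : x ∈ Ico (-π) π
  · have h' : c * x ∈ Ico (-(c * π)) (c * π) :=
      ⟨by nlinarith [h.1, h.2], by nlinarith [h.1, h.2]⟩
    rw [indicator_of_mem h, indicator_of_mem h']
  · have h' : c * x ∉ Ico (-(c * π)) (c * π) := by
      intro h'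
      refine h ⟨?_, ?_⟩
      · have := h'.1
        by_contra h3
        push Not at h3
        nlinarith
      · have := h'.2
        by_contra h3
        push Not at h3
        nlinarith
    rw [indicator_of_notMem h, indicator_of_notMem h']

lemma lintegral_circ (g : ℝ → ℝ≥0∞) :
    ∫⁻ a, g a ∂circ = (ENNReal.ofReal (2 * π))⁻¹ * ∫⁻ a in Ico (-π) π, g a := by
  unfold circ
  rw [lintegral_smul_measure, smul_eq_mul]

lemma lintegral_circ_scale {c : ℝ} (hc : 0 < c) {g : ℝ → ℝ≥0∞} (hg : Measurable g) :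
    ∫⁻ a, g (c * a) ∂circ =
      ENNReal.ofReal (1 / (2 * π * c)) * ∫⁻ x in Ico (-(c * π)) (c * π), g x := by
  rw [lintegral_circ, lintegral_scale hc hg, ← mul_assoc, ← ENNReal.ofReal_mul (by positivity),
    ← ENNReal.ofReal_inv_of_pos (by positivity)]
  congr 2
  field_simp

lemma measurable_cp {m : ℕ} (ζ : ℂ) : Measurable fun θ : Fin m → ℝ => cp θ ζ :=
  ((cp_continuous m).comp (continuous_id.prodMk continuous_const)).measurable

lemma measurable_vand (m : ℕ) : Measurable (vand : (Fin m → ℝ) → ℝ) :=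
  (vand_continuous m).measurable

lemma cp_e_le {m : ℕ} (θ : Fin m → ℝ) (s : ℝ) : cp θ (e s) ≤ 2 ^ m := by
  have := cp_le θ (e s)
  rw [e_norm] at this
  norm_num at this ⊢
  exact this

lemma cp_one_le {m : ℕ} (θ : Fin m → ℝ) : cp θ 1 ≤ 2 ^ m := by
  have := cp_e_le θ 0
  rwa [e_zero] at this

lemma integrable_cpcp {β : ℝ} (hβ : 0 ≤ β) (m : ℕ) (s : ℝ) :
    Integrable (fun θ => cp θ 1 ^ β * cp θ (e s) ^ β) (cbe β m) := by
  refine integrable_cbe_of_bdd hβ (((measurable_cp 1).pow_const β).mul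
    ((measurable_cp (e s)).pow_const β)) ((2 ^ m) ^ β * (2 ^ m) ^ β) fun θ => ?_
  rw [abs_of_nonneg (mul_nonneg (Real.rpow_nonneg (cp_nonneg _ _) _)
    (Real.rpow_nonneg (cp_nonneg _ _) _))]
  exact mul_le_mul (Real.rpow_le_rpow (cp_nonneg _ _) (cp_one_le θ) hβ)
    (Real.rpow_le_rpow (cp_nonneg _ _) (cp_e_le θ s) hβ) (Real.rpow_nonneg (cp_nonneg _ _) _)
    (by positivity)

lemma dfun_nonneg' (β : ℝ) (m : ℕ) (s : ℝ) : 0 ≤ dfun β m s :=
  integral_nonneg fun _ => mul_nonneg (Real.rpow_nonneg (cp_nonneg _ _) _)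
    (Real.rpow_nonneg (cp_nonneg _ _) _)

/-- the two-point function of the characteristic polynomial at two arbitrary points -/
lemma lintegral_cpcp {β : ℝ} (hβ : 0 ≤ β) (m : ℕ) (a b : ℝ) :
    ∫⁻ θ, ENNReal.ofReal (cp θ (e a) ^ β * cp θ (e b) ^ β) ∂(cbe β m) =
      ENNReal.ofReal (dfun β m (b - a)) := by
  have hF : Measurable fun θ : Fin m → ℝ => ENNReal.ofReal (cp θ 1 ^ β * cp θ (e (b - a)) ^ β) :=
    (((measurable_cp 1).pow_const β).mul ((measurable_cp (e (b - a))).pow_const β)).ennreal_ofReal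
  have hP : Per fun θ : Fin m → ℝ => ENNReal.ofReal (cp θ 1 ^ β * cp θ (e (b - a)) ^ β) := by
    intro θ θ' h
    have h1 : cp θ 1 = cp θ' 1 := cp_per 1 θ θ' h
    have h2 : cp θ (e (b - a)) = cp θ' (e (b - a)) := cp_per (e (b - a)) θ θ' h
    simp only [h1, h2]
  have h1 := lintegral_cbe_rot hβ hF hP (-a)
  have h2 : ∀ θ : Fin m → ℝ, cp (fun i => θ i + -a) 1 = cp θ (e a) := by
    intro θ
    have := cp_rot (fun i => θ i + -a) a 1
    rw [mul_one] at this
    rw [← this]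
    congr 1
    ext i; ring
  have h3 : ∀ θ : Fin m → ℝ, cp (fun i => θ i + -a) (e (b - a)) = cp θ (e b) := by
    intro θ
    have := cp_rot (fun i => θ i + -a) a (e (b - a))
    rw [← e_add, add_sub_cancel] at this
    rw [← this]
    congr 1
    ext i; ring
  simp only [h2, h3] at h1
  rw [h1, dfun, ofReal_integral_eq_lintegral_ofReal (integrable_cpcp hβ m _)
    (Eventually.of_forall fun θ => mul_nonneg (Real.rpow_nonneg (cp_nonneg _ _) _)
      (Real.rpow_nonneg (cp_nonneg _ _) _))]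

lemma lintegral_cpcp_vand {β : ℝ} (hβ : 0 ≤ β) (m : ℕ) (a b : ℝ) :
    ∫⁻ θ, ENNReal.ofReal (cp θ (e a) ^ β * cp θ (e b) ^ β) * ENNReal.ofReal (vand θ ^ β) ∂(tor m) =
      ENNReal.ofReal (Z β m * dfun β m (b - a)) := by
  have hF : Measurable fun θ : Fin m → ℝ => ENNReal.ofReal (cp θ (e a) ^ β * cp θ (e b) ^ β) :=
    (((measurable_cp (e a)).pow_const β).mul ((measurable_cp (e b)).pow_const β)).ennreal_ofReal
  have h1 := lintegral_cbe hβ hF
  rw [lintegral_cpcp hβ] at h1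
  have hZ := Z_pos β hβ m
  rw [ENNReal.ofReal_mul hZ.le, h1, ENNReal.mul_div_cancel (ENNReal.ofReal_pos.2 hZ).ne'
    ENNReal.ofReal_ne_top]

/-- the law of one angle is uniform -/
lemma lintegral_one {β : ℝ} (hβ : 0 ≤ β) {n : ℕ} (i : Fin n) {g : ℝ → ℝ≥0∞} (hg : Measurable g) :
    ∫⁻ θ, g (θ i) ∂(cbe β n) = ∫⁻ a, g a ∂circ := by
  have := cbe_prob hβ n
  have hmap : (cbe β n).map (fun θ => θ i) = circ := by
    ext A hA
    rw [Measure.map_apply (measurable_pi_apply i) hA]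
    have h := mass_transport hβ (n := n) (F := fun _ => 1) measurable_const
      (fun _ _ _ => rfl) (fun _ _ => rfl) i hA
    simp only [mul_one, lintegral_const, measure_univ] at h
    rw [← h]
    have : (fun θ : Fin n → ℝ => A.indicator (1 : ℝ → ℝ≥0∞) (θ i)) =
        ((fun θ : Fin n → ℝ => θ i) ⁻¹' A).indicator 1 := by
      ext θ
      rfl
    rw [this, lintegral_indicator_one (hA.preimage (measurable_pi_apply i))]
  rw [← hmap, lintegral_map hg (measurable_pi_apply i)]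

lemma lintegral_cbe_two {β : ℝ} (hβ : 0 ≤ β) {m : ℕ} {g : ℝ → ℝ → ℝ≥0∞}
    (hg : Measurable fun p : ℝ × ℝ => g p.1 p.2) :
    ∫⁻ θ : Fin (m + 2) → ℝ, g (θ 0) (θ 1) ∂(cbe β (m + 2)) =
      ∫⁻ a, ∫⁻ b, g a b * ENNReal.ofReal
        (Z β m / Z β (m + 2) * ‖1 - e (b - a)‖ ^ β * dfun β m (b - a)) ∂circ ∂circ := by
  have hZ := Z_pos β hβ m
  have hZ2 := Z_pos β hβ (m + 2)
  have hm0 : Measurable fun θ : Fin (m + 2) → ℝ => g (θ 0) (θ 1) := by
    have h01 : Measurable fun θ : Fin (m + 2) → ℝ => (θ 0, θ 1) :=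
      (measurable_pi_apply (0 : Fin (m + 2))).prodMk (measurable_pi_apply (1 : Fin (m + 2)))
    exact hg.comp h01
  have hm1 : Measurable fun θ : Fin (m + 2) → ℝ => g (θ 0) (θ 1) *
      ENNReal.ofReal (vand θ ^ β) :=
    hm0.mul ((measurable_vand _).pow_const β).ennreal_ofReal
  rw [lintegral_cbe hβ hm0, lintegral_tor_cons hm1, div_eq_mul_inv,
    ← lintegral_mul_const' _ _ (by simpa using hZ2)]
  refine lintegral_congr fun a => ?_
  have hm2 : Measurable fun θ : Fin (m + 1) → ℝ =>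
      g ((Fin.cons a θ : Fin (m + 2) → ℝ) 0) ((Fin.cons a θ : Fin (m + 2) → ℝ) 1) *
      ENNReal.ofReal (vand (Fin.cons a θ : Fin (m + 2) → ℝ) ^ β) := by
    refine hm1.comp ?_
    rw [measurable_pi_iff]
    intro i
    refine Fin.cases ?_ (fun j => ?_) i
    · simp
    · simpa using measurable_pi_apply j
  rw [lintegral_tor_cons hm2, ← lintegral_mul_const' _ _ (by simpa using hZ2)]
  refine lintegral_congr fun b => ?_
  have hpt : ∀ θ : Fin m → ℝ,
      g ((Fin.cons a (Fin.cons b θ : Fin (m + 1) → ℝ) : Fin (m + 2) → ℝ) 0)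
        ((Fin.cons a (Fin.cons b θ : Fin (m + 1) → ℝ) : Fin (m + 2) → ℝ) 1) *
      ENNReal.ofReal (vand (Fin.cons a (Fin.cons b θ : Fin (m + 1) → ℝ) : Fin (m + 2) → ℝ) ^ β) =
      (g a b * ENNReal.ofReal (‖1 - e (b - a)‖ ^ β)) *
        (ENNReal.ofReal (cp θ (e a) ^ β * cp θ (e b) ^ β) * ENNReal.ofReal (vand θ ^ β)) := by
    intro θ
    rw [vand_cons, cp_cons, vand_cons, e_sub_norm]
    have h1 : (Fin.cons a (Fin.cons b θ : Fin (m + 1) → ℝ) : Fin (m + 2) → ℝ) 0 = a := rfl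
    have h2 : (Fin.cons a (Fin.cons b θ : Fin (m + 1) → ℝ) : Fin (m + 2) → ℝ) 1 = b := rfl
    rw [h1, h2, ← ENNReal.ofReal_mul (mul_nonneg (Real.rpow_nonneg (cp_nonneg _ _) _)
      (Real.rpow_nonneg (cp_nonneg _ _) _)), mul_assoc (g a b),
      ← ENNReal.ofReal_mul (Real.rpow_nonneg (norm_nonneg _) _)]
    congr 2
    rw [Real.mul_rpow (mul_nonneg (norm_nonneg _) (cp_nonneg _ _))
      (mul_nonneg (cp_nonneg _ _) (vand_nonneg _)),
      Real.mul_rpow (norm_nonneg _) (cp_nonneg _ _), Real.mul_rpow (cp_nonneg _ _) (vand_nonneg _)]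
    ring
  simp_rw [hpt]
  have hm3 : Measurable fun θ : Fin m → ℝ =>
      ENNReal.ofReal (cp θ (e a) ^ β * cp θ (e b) ^ β) * ENNReal.ofReal (vand θ ^ β) :=
    (((measurable_cp (e a)).pow_const β).mul
      ((measurable_cp (e b)).pow_const β)).ennreal_ofReal.mul
      ((measurable_vand _).pow_const β).ennreal_ofReal
  rw [lintegral_const_mul _ hm3, lintegral_cpcp_vand hβ, mul_assoc, mul_assoc]
  congr 1
  rw [← ENNReal.ofReal_inv_of_pos hZ2, ← ENNReal.ofReal_mul (mul_nonneg hZ.le (dfun_nonneg' _ _ _)),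
    ← ENNReal.ofReal_mul (Real.rpow_nonneg (norm_nonneg _) _)]
  congr 1
  rw [div_eq_mul_inv]
  ring

end TwoPt

open TwoPt

theorem one_point {β : ℝ} (hβ : 0 < β) {n : ℕ} (hn : 1 ≤ n) {f : ℝ → ℝ≥0∞} (hf : Measurable f) :
    ∫⁻ θ, ∑ i, f (n * θ i) ∂(cbe β n) =
      ∫⁻ x in Ico (-(n * π)) (n * π), f x * ENNReal.ofReal (1 / (2 * π)) := by
  have hn0 : (0 : ℝ) < n := by exact_mod_cast hn
  have hg : Measurable fun x : ℝ => f (n * x) := hf.comp (measurable_const_mul _)
  have hgi : ∀ i : Fin n, Measurable fun θ : Fin n → ℝ => f (n * θ i) := fun i =>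
    hg.comp (measurable_pi_apply i)
  rw [lintegral_finsetSum _ fun i _ => hgi i]
  have h1 : ∀ i : Fin n, ∫⁻ θ, f (n * θ i) ∂(cbe β n) =
      ENNReal.ofReal (1 / (2 * π * n)) * ∫⁻ x in Ico (-(n * π)) (n * π), f x := by
    intro i
    rw [lintegral_one hβ.le i hg, lintegral_circ_scale hn0 hf]
  simp_rw [h1]
  rw [Finset.sum_const, Finset.card_univ, Fintype.card_fin, nsmul_eq_mul,
    lintegral_mul_const _ hf, ← mul_assoc, mul_comm _ (ENNReal.ofReal (1 / (2 * π)))]
  congr 1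
  rw [← ENNReal.ofReal_natCast, ← ENNReal.ofReal_mul hn0.le]
  congr 1
  field_simp


namespace TwoPt

lemma dfun_continuous' {β : ℝ} (hβ : 0 ≤ β) (m : ℕ) : Continuous (dfun β m) := by
  have := cbe_prob hβ m
  refine continuous_of_dominated (bound := fun _ => ((2 : ℝ) ^ m) ^ β * (2 ^ m) ^ β)
    (fun s => (integrable_cpcp hβ m s).aestronglyMeasurable) (fun s => Eventually.of_forall
      fun θ => ?_) (integrable_const _) (Eventually.of_forall fun θ => ?_)
  · rw [Real.norm_eq_abs, abs_of_nonneg (mul_nonneg (Real.rpow_nonneg (cp_nonneg _ _) _)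
      (Real.rpow_nonneg (cp_nonneg _ _) _))]
    exact mul_le_mul (Real.rpow_le_rpow (cp_nonneg _ _) (cp_one_le θ) hβ)
      (Real.rpow_le_rpow (cp_nonneg _ _) (cp_e_le θ s) hβ) (Real.rpow_nonneg (cp_nonneg _ _) _)
      (by positivity)
  · have h1 : Continuous fun s : ℝ => cp θ (e s) :=
      (cp_continuous m).comp (continuous_const.prodMk e_continuous)
    exact continuous_const.mul (h1.rpow_const fun _ => Or.inr hβ)

lemma dfun_neg' {β : ℝ} (hβ : 0 ≤ β) (m : ℕ) (s : ℝ) : dfun β m (-s) = dfun β m s := by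
  have h1 := lintegral_cpcp hβ m 0 s
  have h2 := lintegral_cpcp hβ m s 0
  have h3 : ∀ θ : Fin m → ℝ, cp θ (e 0) ^ β * cp θ (e s) ^ β = cp θ (e s) ^ β * cp θ (e 0) ^ β :=
    fun θ => mul_comm _ _
  simp_rw [h3] at h1
  rw [h1] at h2
  rw [sub_zero, zero_sub] at h2
  have h4 := (ENNReal.ofReal_eq_ofReal_iff (dfun_nonneg' β m s) (dfun_nonneg' β m (-s))).1 h2
  exact h4.symm

lemma dfun_per' (β : ℝ) (m : ℕ) (s : ℝ) : dfun β m (s + 2 * π) = dfun β m s := by
  have h : e (s + 2 * π) = e s := by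
    have := e_per s 1
    simpa using this
  unfold dfun
  rw [h]

lemma exists_perm {m : ℕ} {i j : Fin (m + 2)} (hij : i ≠ j) :
    ∃ σ : Equiv.Perm (Fin (m + 2)), σ 0 = i ∧ σ 1 = j := by
  set τ : Equiv.Perm (Fin (m + 2)) := Equiv.swap 0 i
  have h0 : τ 0 = i := Equiv.swap_apply_left _ _
  have h1 : τ 1 ≠ i := by
    rw [← h0]
    exact fun h => absurd (τ.injective h) (by simp)
  refine ⟨τ.trans (Equiv.swap (τ 1) j), ?_, ?_⟩
  · rw [Equiv.trans_apply, h0, Equiv.swap_apply_of_ne_of_ne h1.symm hij]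
  · rw [Equiv.trans_apply, Equiv.swap_apply_left]

end TwoPt

lemma rho_continuous {β : ℝ} (hβ : 0 < β) (n : ℕ) : Continuous (rho β n) := by
  unfold rho
  have h1 : Continuous fun x : ℝ => x / (n : ℝ) := continuous_id.div_const _
  have h2 : Continuous fun x : ℝ => ‖1 - e (x / n)‖ ^ β :=
    ((continuous_const.sub (e_continuous.comp h1)).norm).rpow_const fun _ => Or.inr hβ.le
  exact (continuous_const.mul h2).mul ((dfun_continuous' hβ.le (n - 2)).comp h1)

lemma rho_nonneg {β : ℝ} (hβ : 0 < β) {n : ℕ} (hn : 1 ≤ n) (x : ℝ) : 0 ≤ rho β n x := by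
  have h1 : (0 : ℝ) ≤ n - 1 := by
    have : (1 : ℝ) ≤ n := by exact_mod_cast hn
    linarith
  unfold rho
  have hZ := (Z_pos β hβ.le (n - 2)).le
  have hZ2 := (Z_pos β hβ.le n).le
  have hd := dfun_nonneg' β (n - 2) (x / n)
  have hr : 0 ≤ ‖1 - e (x / n)‖ ^ β := Real.rpow_nonneg (norm_nonneg _) _
  positivity

lemma rho_neg {β : ℝ} (hβ : 0 < β) {n : ℕ} (x : ℝ) : rho β n (-x) = rho β n x := by
  unfold rho
  rw [neg_div, dfun_neg' hβ.le, one_sub_e, one_sub_e, neg_div, Real.sin_neg, mul_neg, abs_neg]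

lemma rho_per {β : ℝ} (_hβ : 0 < β) {n : ℕ} (x : ℝ) : rho β n (x + 2 * π * n) = rho β n x := by
  rcases Nat.eq_zero_or_pos n with rfl | hn
  · simp
  have hn0 : (n : ℝ) ≠ 0 := by positivity
  unfold rho
  have h : (x + 2 * π * n) / n = x / n + 2 * π := by field_simp
  have h' : e (x / n + 2 * π) = e (x / n) := by
    have := e_per (x / n) 1
    simpa using this
  rw [h, h', dfun_per']

theorem two_point {β : ℝ} (hβ : 0 < β) {n : ℕ} (hn : 2 ≤ n) {f : ℝ × ℝ → ℝ≥0∞}
    (hf : Measurable f) :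
    ∫⁻ θ, ∑ i, ∑ j ∈ Finset.univ.erase i, f (n * θ i, n * θ j) ∂(cbe β n) =
      ∫⁻ x in Ico (-(n * π)) (n * π), ∫⁻ y in Ico (-(n * π)) (n * π),
        f (x, y) * ENNReal.ofReal (rho β n (y - x)) := by
  obtain ⟨m, rfl⟩ : ∃ m, n = m + 2 := ⟨n - 2, by omega⟩
  set N : ℝ := ((m + 2 : ℕ) : ℝ) with hN
  have hN0 : 0 < N := by positivity
  have hZ := Z_pos β hβ.le m
  have hZ2 := Z_pos β hβ.le (m + 2)
  -- measurability
  have hmij : ∀ i j : Fin (m + 2), Measurable fun θ : Fin (m + 2) → ℝ => f (N * θ i, N * θ j) := by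
    intro i j
    have hi : ∀ k : Fin (m + 2), Measurable fun θ : Fin (m + 2) → ℝ => N * θ k := fun k => by
      fun_prop
    exact hf.comp ((hi i).prodMk (hi j))
  -- symmetry
  have hsym : ∀ i j : Fin (m + 2), i ≠ j → ∫⁻ θ, f (N * θ i, N * θ j) ∂(cbe β (m + 2)) =
      ∫⁻ θ, f (N * θ 0, N * θ 1) ∂(cbe β (m + 2)) := by
    intro i j hij
    obtain ⟨σ, h0, h1⟩ := exists_perm hij
    have := lintegral_cbe_perm hβ.le (hmij 0 1) σ
    simp only [Function.comp_apply, h0, h1] at this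
    exact this
  rw [lintegral_finsetSum _ fun i _ => Finset.measurable_sum _ fun j _ => hmij i j]
  have hs1 : ∀ i : Fin (m + 2), ∫⁻ θ, ∑ j ∈ Finset.univ.erase i, f (N * θ i, N * θ j)
      ∂(cbe β (m + 2)) = (m + 1 : ℕ) * ∫⁻ θ, f (N * θ 0, N * θ 1) ∂(cbe β (m + 2)) := by
    intro i
    rw [lintegral_finsetSum _ fun j _ => hmij i j, Finset.sum_congr rfl fun j hj =>
      hsym i j (Finset.ne_of_mem_erase hj).symm, Finset.sum_const, nsmul_eq_mul]
    congr 2
    rw [Finset.card_erase_of_mem (Finset.mem_univ _), Finset.card_univ, Fintype.card_fin]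
    rfl
  simp_rw [hs1]
  rw [Finset.sum_const, Finset.card_univ, Fintype.card_fin, nsmul_eq_mul]
  -- the function of two variables
  set G : ℝ → ℝ → ℝ≥0∞ := fun x y => f (x, y) * ENNReal.ofReal
    (Z β m / Z β (m + 2) * ‖1 - e ((y - x) / N)‖ ^ β * dfun β m ((y - x) / N)) with hG
  have hdiff : Measurable fun p : ℝ × ℝ => (p.2 - p.1) / N :=
    ((measurable_snd.sub measurable_fst).div_const _)
  have hGm : Measurable fun p : ℝ × ℝ => G p.1 p.2 := by
    refine Measurable.mul hf (Measurable.ennreal_ofReal (Measurable.mul (Measurable.const_mul ?_ _)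
      ((dfun_continuous' hβ.le m).measurable.comp hdiff)))
    exact ((measurable_const.sub (e_continuous.measurable.comp hdiff)).norm).pow_const β
  have hg0 : Measurable fun p : ℝ × ℝ => f (N * p.1, N * p.2) := by
    have : Measurable fun p : ℝ × ℝ => (N * p.1, N * p.2) :=
      (measurable_fst.const_mul N).prodMk (measurable_snd.const_mul N)
    exact hf.comp this
  have key := lintegral_cbe_two hβ.le (m := m) (g := fun a b => f (N * a, N * b)) hg0
  have hGG : ∀ a b : ℝ, f (N * a, N * b) * ENNReal.ofReal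
      (Z β m / Z β (m + 2) * ‖1 - e (b - a)‖ ^ β * dfun β m (b - a)) = G (N * a) (N * b) := by
    intro a b
    have : (N * b - N * a) / N = b - a := by field_simp
    simp only [hG, this]
  simp_rw [hGG] at key
  have hin : ∀ a : ℝ, ∫⁻ b, G (N * a) (N * b) ∂circ =
      ENNReal.ofReal (1 / (2 * π * N)) * ∫⁻ y in Ico (-(N * π)) (N * π), G (N * a) y := by
    intro a
    exact lintegral_circ_scale hN0 (hGm.comp measurable_prodMk_left)
  simp_rw [hin] at key
  have hHm : Measurable fun x : ℝ => ENNReal.ofReal (1 / (2 * π * N)) *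
      ∫⁻ y in Ico (-(N * π)) (N * π), G x y :=
    (Measurable.lintegral_prod_right' hGm).const_mul _
  rw [lintegral_circ_scale hN0 (g := fun x => ENNReal.ofReal (1 / (2 * π * N)) *
      ∫⁻ y in Ico (-(N * π)) (N * π), G x y) hHm,
    lintegral_const_mul _ (Measurable.lintegral_prod_right' hGm)] at key
  rw [key, ← mul_assoc, ← mul_assoc, ← mul_assoc,
    ← lintegral_const_mul _ (Measurable.lintegral_prod_right' hGm)]
  refine lintegral_congr fun x => ?_
  have hGx : Measurable fun y : ℝ => G x y := hGm.comp measurable_prodMk_left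
  rw [← lintegral_const_mul _ hGx]
  refine lintegral_congr fun y => ?_
  simp only [hG]
  rw [mul_left_comm]
  congr 1
  have hd := dfun_nonneg' β m ((y - x) / N)
  have hr : 0 ≤ ‖1 - e ((y - x) / N)‖ ^ β := Real.rpow_nonneg (norm_nonneg _) _
  rw [← ENNReal.ofReal_natCast, ← ENNReal.ofReal_natCast, ← ENNReal.ofReal_mul (by positivity),
    ← ENNReal.ofReal_mul (by positivity), ← ENNReal.ofReal_mul (by positivity),
    ← ENNReal.ofReal_mul (by positivity)]
  congr 1
  unfold rho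
  rw [show m + 2 - 2 = m from rfl]
  rw [← hN]
  have hm1 : ((m + 1 : ℕ) : ℝ) = N - 1 := by rw [hN]; push_cast; ring
  rw [hm1]
  field_simp
  ring

end Pool.Agent.Lib.MP_b33862_pr
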