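import Mathlib
import Pool.Agent.Lib.MP_b33862_pr.Basic
import Pool.Agent.Lib.MP_b33862_pr.Energy
import Pool.Agent.Lib.MP_b33862_pr.TwoPt
import Pool.Agent.Lib.MP_b33862_pr.NuDef
import Pool.Agent.Lib.MP_b33862_pr.GapBeta

set_option autoImplicit false

namespace Pool.Agent.Lib.MP_b33862_pr

open MeasureTheory Set Real Filter
open scoped ENNReal Topology

namespace BetaCont

/-- counterclockwise distance -/
noncomputable def dd (x y : ℝ) : ℝ := 2 * π * Int.fract ((y - x) / (2 * π))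

lemma dd_nonneg (x y : ℝ) : 0 ≤ dd x y :=
  mul_nonneg Real.two_pi_pos.le (Int.fract_nonneg _)

lemma dd_lt (x y : ℝ) : dd x y < 2 * π := by
  have := Int.fract_lt_one ((y - x) / (2 * π))
  have h2 := Real.two_pi_pos
  unfold dd
  nlinarith

lemma dd_of_nonneg {x y : ℝ} (h0 : 0 ≤ y - x) (h1 : y - x < 2 * π) : dd x y = y - x := by
  have h2 := Real.two_pi_pos
  unfold dd
  rw [Int.fract_eq_self.2 ⟨by positivity, by rw [div_lt_one h2]; exact h1⟩]
  field_simp

lemma dd_of_neg {x y : ℝ} (h0 : -(2 * π) ≤ y - x) (h1 : y - x < 0) : dd x y = y - x + 2 * π := by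
  have h2 := Real.two_pi_pos
  unfold dd
  have h3 : Int.fract ((y - x) / (2 * π)) = Int.fract ((y - x) / (2 * π) + 1) := by
    rw [Int.fract_add_one]
  rw [h3, Int.fract_eq_self.2 ⟨?_, ?_⟩]
  · field_simp
  · have : (-(2 * π)) / (2 * π) ≤ (y - x) / (2 * π) := by gcongr
    rw [neg_div, div_self h2.ne'] at this
    linarith
  · have : (y - x) / (2 * π) < 0 := div_neg_of_neg_of_pos h1 h2
    linarith

lemma dd_add (x y a : ℝ) : dd (x + a) (y + a) = dd x y := by
  unfold dd
  congr 3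
  ring

lemma dd_measurable : Measurable fun p : ℝ × ℝ => dd p.1 p.2 := by
  unfold dd
  exact (measurable_fract.comp (by fun_prop)).const_mul _

lemma dd_per {x y x' y' : ℝ} (hx : e x = e x') (hy : e y = e y') : dd x y = dd x' y' := by
  rw [e_eq_iff] at hx hy
  rw [QuotientAddGroup.eq] at hx hy
  obtain ⟨k, hk⟩ := AddSubgroup.mem_zmultiples_iff.1 hx
  obtain ⟨l, hl⟩ := AddSubgroup.mem_zmultiples_iff.1 hy
  have h2 := Real.two_pi_pos
  rw [zsmul_eq_mul] at hk hl
  unfold dd
  congr 1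
  have : (y' - x') / (2 * π) = (y - x) / (2 * π) + ((l - k : ℤ) : ℝ) := by
    push_cast
    field_simp
    linarith
  rw [this, Int.fract_add_intCast]

lemma chord_le_dd (x y : ℝ) : ‖e x - e y‖ ≤ dd x y := by
  have h2 := Real.two_pi_pos
  have h : e y = e (x + dd x y) := by
    have : x + dd x y = y + ((-⌊(y - x) / (2 * π)⌋ : ℤ) : ℝ) * (2 * π) := by
      unfold dd Int.fract
      push_cast
      field_simp
      ring
    rw [this, e_per]
  rw [h]
  refine (e_sub_le _ _).trans ?_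
  rw [show x - (x + dd x y) = -dd x y by ring, abs_neg, abs_of_nonneg (dd_nonneg _ _)]

/-- the pair statistic -/
noncomputable def FF {n : ℕ} (g : ℝ → ℝ) (θ : Fin n → ℝ) : ℝ :=
  ∑ i, ∑ j ∈ Finset.univ.erase i, g (dd (θ i) (θ j))

lemma FF_measurable {n : ℕ} {g : ℝ → ℝ} (hg : Measurable g) :
    Measurable (FF g : (Fin n → ℝ) → ℝ) := by
  unfold FF
  refine Finset.measurable_sum _ fun i _ => Finset.measurable_sum _ fun j _ => ?_
  have h : Measurable fun θ : Fin n → ℝ => (θ i, θ j) := by fun_prop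
  exact hg.comp (dd_measurable.comp h)

lemma FF_per {n : ℕ} (g : ℝ → ℝ) : Per (FF g : (Fin n → ℝ) → ℝ) := by
  intro θ θ' h
  unfold FF
  refine Finset.sum_congr rfl fun i _ => Finset.sum_congr rfl fun j _ => ?_
  rw [dd_per (h i) (h j)]

lemma FF_rot {n : ℕ} (g : ℝ → ℝ) : Rot (FF g : (Fin n → ℝ) → ℝ) := by
  intro θ a
  unfold FF
  refine Finset.sum_congr rfl fun i _ => Finset.sum_congr rfl fun j _ => ?_
  rw [dd_add]

lemma FF_sym {n : ℕ} (g : ℝ → ℝ) : Sym (FF g : (Fin n → ℝ) → ℝ) := by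
  intro θ σ
  unfold FF
  refine Fintype.sum_equiv σ _ _ fun i => ?_
  refine Finset.sum_equiv σ (fun j => ?_) fun j _ => rfl
  simp

/-- integrals of periodic functions over a period -/
lemma lintegral_period {T : ℝ} (hT : 0 < T) {G : ℝ → ℝ≥0∞} (hG : ∀ x, G (x + T) = G x) (a b : ℝ) :
    ∫⁻ x in Ico a (a + T), G x = ∫⁻ x in Ico b (b + T), G x := by
  have h1 : ∀ c : ℝ, ∫⁻ x in Ico c (c + T), G x = ∫⁻ x in Ioc c (c + T), G x := fun c =>
    (setLIntegral_congr Ico_ae_eq_Ioc)
  rw [h1, h1]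
  have hP : Function.Periodic G T := hG
  refine (isAddFundamentalDomain_Ioc hT a).setLIntegral_eq (isAddFundamentalDomain_Ioc hT b) G ?_
  rintro ⟨g, hg⟩ x
  obtain ⟨k, rfl⟩ := AddSubgroup.mem_zmultiples_iff.1 hg
  show G (k • T + x) = G x
  rw [add_comm]
  exact hP.zsmul k x

lemma exp_FF {β : ℝ} (hβ : 0 < β) {n : ℕ} (hn : 2 ≤ n) {φ : ℝ → ℝ} (hc : Continuous φ)
    (hp : ∀ x, 0 ≤ φ x) {R : ℝ} (h0 : ∀ x ≤ 0, φ x = 0) (hR : ∀ x, R ≤ x → φ x = 0)
    (hRn : R ≤ 2 * π * n) :
    ∫ θ, FF (fun u => φ (n * u)) θ ∂(cbe β n) = 2 * π * n * ∫ x, φ x * rho β n x := by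
  have hn0 : (0 : ℝ) < n := by positivity
  have h2 := Real.two_pi_pos
  have hr0 : ∀ x, 0 ≤ rho β n x := rho_nonneg hβ (by omega)
  have hrc : Continuous (rho β n) := rho_continuous hβ n
  have hgm : Measurable fun u : ℝ => φ (n * u) := by
    have : Continuous fun u : ℝ => φ (n * u) := by fun_prop
    exact this.measurable
  have hFm := FF_measurable (n := n) hgm
  have hF0 : ∀ θ : Fin n → ℝ, 0 ≤ FF (fun u => φ (n * u)) θ := fun θ =>
    Finset.sum_nonneg fun i _ => Finset.sum_nonneg fun j _ => hp _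
  rw [integral_eq_lintegral_of_nonneg_ae (ae_of_all _ hF0) hFm.aestronglyMeasurable]
  rw [integral_eq_lintegral_of_nonneg_ae (ae_of_all _ fun x => mul_nonneg (hp x) (hr0 x))
    (hc.mul hrc).aestronglyMeasurable]
  have hT : (0 : ℝ) < 2 * π * n := by positivity
  set f : ℝ × ℝ → ℝ≥0∞ := fun p => ENNReal.ofReal (φ (n * dd (p.1 / n) (p.2 / n))) with hf
  have hfm : Measurable f := by
    have h1 : Measurable fun p : ℝ × ℝ => dd (p.1 / n) (p.2 / n) :=
      dd_measurable.comp ((measurable_fst.div_const _).prodMk (measurable_snd.div_const _))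
    exact ENNReal.measurable_ofReal.comp (hgm.comp h1)
  have key := two_point hβ hn hfm
  have hL : (∫⁻ θ, ENNReal.ofReal (FF (fun u => φ (n * u)) θ) ∂(cbe β n)) =
      ∫⁻ θ, ∑ i, ∑ j ∈ Finset.univ.erase i, f (n * θ i, n * θ j) ∂(cbe β n) := by
    refine lintegral_congr fun θ => ?_
    unfold FF
    rw [ENNReal.ofReal_sum_of_nonneg fun i _ => Finset.sum_nonneg fun j _ => hp _]
    refine Finset.sum_congr rfl fun i _ => ?_
    rw [ENNReal.ofReal_sum_of_nonneg fun j _ => hp _]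
    refine Finset.sum_congr rfl fun j _ => ?_
    simp only [hf]
    rw [mul_div_cancel_left₀ _ hn0.ne', mul_div_cancel_left₀ _ hn0.ne']
  rw [hL, key]
  set G : ℝ → ℝ≥0∞ := fun u => ENNReal.ofReal (φ (n * (2 * π * Int.fract (u / (2 * π * n))))) *
    ENNReal.ofReal (rho β n u) with hG
  have hGper : ∀ u, G (u + 2 * π * n) = G u := by
    intro u
    simp only [hG]
    rw [rho_per hβ, add_div, div_self hT.ne', Int.fract_add_one]
  have hinner : ∀ x : ℝ, ∫⁻ y in Ico (-(n * π)) (n * π), f (x, y) *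
      ENNReal.ofReal (rho β n (y - x)) = ∫⁻ u, ENNReal.ofReal (φ u * rho β n u) := by
    intro x
    have h1 : ∀ y : ℝ, f (x, y) * ENNReal.ofReal (rho β n (y - x)) = G (y - x) := by
      intro y
      simp only [hf, hG, dd]
      have : (y / n - x / n) / (2 * π) = (y - x) / (2 * π * n) := by field_simp
      rw [this]
    simp_rw [h1]
    have h2 : ∫⁻ y in Ico (-(n * π)) (n * π), G (y - x) =
        ∫⁻ u in Ico (-(n * π) - x) (-(n * π) - x + 2 * π * n), G u := by
      have hmp : MeasurePreserving (fun y : ℝ => y - x) volume volume :=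
        measurePreserving_sub_right volume x
      have h3 := hmp.setLIntegral_comp_preimage_emb (measurableEmbedding_subRight x) G
        (Ico (-(n * π) - x) (-(n * π) - x + 2 * π * n))
      rw [← h3]
      congr 2
      ext y
      simp only [mem_Ico, mem_preimage]
      constructor
      · rintro ⟨h4, h5⟩; constructor <;> linarith
      · rintro ⟨h4, h5⟩; constructor <;> linarith
    rw [h2, lintegral_period hT hGper _ 0, zero_add]
    rw [← lintegral_indicator measurableSet_Ico]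
    refine lintegral_congr fun u => ?_
    by_cases hu : u ∈ Ico 0 (2 * π * n)
    · rw [indicator_of_mem hu, ENNReal.ofReal_mul (hp u)]
      simp only [hG]
      rw [Int.fract_eq_self.2 ⟨div_nonneg hu.1 hT.le, by rw [div_lt_one hT]; exact hu.2⟩]
      congr 3
      field_simp
    · rw [indicator_of_notMem hu]
      have : φ u = 0 := by
        by_cases h3 : u ≤ 0
        · exact h0 u h3
        · refine hR u (hRn.trans ?_)
          by_contra h4
          exact hu ⟨(not_le.1 h3).le, not_le.1 h4⟩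
      rw [this, zero_mul, ENNReal.ofReal_zero]
  simp_rw [hinner]
  rw [setLIntegral_const, ENNReal.toReal_mul, Real.volume_Ico, ENNReal.toReal_ofReal (by nlinarith [Real.pi_pos])]
  ring

/-! ### sorted configurations -/

lemma pts_mem {N : ℕ} {u : Fin N → ℝ} (hu : u ∈ simplex N) (i : Fin (N + 1)) :
    0 ≤ pts u i ∧ pts u i < 2 * π := by
  have h2 := Real.two_pi_pos
  refine Fin.cases ?_ (fun j => ?_) i
  · simp [pts, h2]
  · simp only [pts, Fin.cons_succ]
    exact ⟨(hu.2 j).1.le, (hu.2 j).2⟩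

lemma pts_mono {N : ℕ} {u : Fin N → ℝ} (hu : u ∈ simplex N) : StrictMono (pts u) := by
  unfold pts
  intro i j hij
  induction j using Fin.cases with
  | zero => exact absurd hij (Fin.not_lt_zero i)
  | succ j =>
    induction i using Fin.cases with
    | zero => simp only [Fin.cons_zero, Fin.cons_succ]; exact (hu.2 j).1
    | succ i =>
      simp only [Fin.cons_succ]
      exact hu.1 (Fin.succ_lt_succ_iff.1 hij)

lemma dd_pts {N : ℕ} {u : Fin N → ℝ} (hu : u ∈ simplex N) {i j : Fin (N + 1)} (hij : i ≠ j) :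
    dd (pts u i) (pts u j) = gap (pts u) i j := by
  have hi := pts_mem hu i
  have hj := pts_mem hu j
  unfold gap
  rcases lt_or_gt_of_ne hij with h | h
  · rw [if_pos h]
    have := pts_mono hu h
    exact dd_of_nonneg (by linarith) (by linarith)
  · rw [if_neg (not_lt.2 h.le)]
    have := pts_mono hu h
    exact dd_of_neg (by linarith) (by linarith)

lemma FF_pts {N : ℕ} {u : Fin N → ℝ} (hu : u ∈ simplex N) (g : ℝ → ℝ) :
    FF g (pts u) = ∑ m ∈ Finset.univ.erase (0 : Fin (N + 1)), gapSum g m u := by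
  unfold FF gapSum
  have h : ∀ i : Fin (N + 1), ∑ j ∈ Finset.univ.erase i, g (dd (pts u i) (pts u j)) =
      ∑ m ∈ Finset.univ.erase (0 : Fin (N + 1)), g (gap (pts u) i (i + m)) := by
    intro i
    symm
    refine Finset.sum_equiv (Equiv.addLeft i) (fun m => ?_) fun m hm => ?_
    · simp
    · simp only [Finset.mem_erase, Finset.mem_univ, and_true] at hm
      have : i ≠ i + m := by
        intro h
        exact hm (by simpa using h.symm)
      simp only [Equiv.coe_addLeft]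
      rw [dd_pts hu this]
  rw [Finset.sum_congr rfl fun i _ => h i]
  exact Finset.sum_comm

/-- the distance to the `m`-th next point is increasing in `m` -/
lemma gap_mono {N : ℕ} {u : Fin N → ℝ} (hu : u ∈ simplex N) (i : Fin (N + 1))
    {m m' : Fin (N + 1)} (h0 : m ≠ 0) (h : m ≤ m') :
    gap (pts u) i (i + m) ≤ gap (pts u) i (i + m') := by
  have hm0 : 0 < m.val := by
    rcases Nat.eq_zero_or_pos m.val with h1 | h1
    · exact absurd (Fin.ext h1) h0
    · exact h1
  have hmm : m.val ≤ m'.val := h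
  have hmono := (pts_mono hu).monotone
  have hlt : ∀ k : Fin (N + 1), 0 < k.val → (i < i + k ↔ i.val + k.val < N + 1) := by
    intro k hk
    rw [Fin.lt_def, Fin.val_add]
    constructor
    · intro h1
      by_contra h2
      have h3 : (i.val + k.val) % (N + 1) = i.val + k.val - (N + 1) := by
        rw [Nat.mod_eq_sub_mod (by omega), Nat.mod_eq_of_lt (by omega)]
      omega
    · intro h1
      rw [Nat.mod_eq_of_lt h1]
      omega
  unfold gap
  by_cases h1 : i.val + m'.val < N + 1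
  · have h2 : i.val + m.val < N + 1 := by omega
    rw [if_pos ((hlt m hm0).2 h2), if_pos ((hlt m' (by omega)).2 h1)]
    have : i + m ≤ i + m' := by
      rw [Fin.le_def, Fin.val_add, Fin.val_add, Nat.mod_eq_of_lt h1, Nat.mod_eq_of_lt h2]
      omega
    have := hmono this
    linarith
  · rw [if_neg fun h => h1 ((hlt m' (by omega)).1 h)]
    by_cases h2 : i.val + m.val < N + 1
    · rw [if_pos ((hlt m hm0).2 h2)]
      have h3 := pts_mem hu (i + m)
      have h4 := pts_mem hu (i + m')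
      linarith
    · rw [if_neg fun h => h2 ((hlt m hm0).1 h)]
      have : i + m ≤ i + m' := by
        rw [Fin.le_def, Fin.val_add, Fin.val_add]
        rw [Nat.mod_eq_sub_mod (by omega), Nat.mod_eq_of_lt (by omega),
          Nat.mod_eq_sub_mod (by omega), Nat.mod_eq_of_lt (by omega)]
        omega
      have := hmono this
      linarith

open Classical in
lemma card_le_cnt {N : ℕ} {u : Fin N → ℝ} (hu : u ∈ simplex N) (i : Fin (N + 1)) {r : ℝ}
    (hr : 0 ≤ r) :
    (Finset.univ.filter fun m : Fin (N + 1) => m ≠ 0 ∧ gap (pts u) i (i + m) < r).card + 1 ≤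
      cnt r (pts u) i := by
  unfold cnt
  have h0 : (Finset.univ.filter fun m : Fin (N + 1) => m ≠ 0 ∧
      gap (pts u) i (i + m) < r).card + 1 =
      (insert (0 : Fin (N + 1)) (Finset.univ.filter fun m : Fin (N + 1) => m ≠ 0 ∧
      gap (pts u) i (i + m) < r)).card := by
    rw [Finset.card_insert_of_notMem]
    simp
  rw [h0]
  refine Finset.card_le_card_of_injOn (fun m => i + m) ?_ ?_
  · intro m hm
    simp only [Finset.coe_insert, Finset.coe_filter, Finset.mem_univ, true_and, mem_insert_iff,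
      Set.mem_ofPred_eq] at hm
    simp only [Finset.coe_filter, Finset.mem_univ, true_and, Set.mem_ofPred_eq]
    rcases hm with rfl | ⟨hm, h⟩
    · simp [hr]
    · have hne : i ≠ i + m := by
        intro h
        exact hm (by simpa using h.symm)
      refine (chord_le_dd _ _).trans ?_
      rw [dd_pts hu hne]
      exact h.le
  · intro a _ b _ h
    simpa using h

open Classical in
lemma tail_le {N : ℕ} {u : Fin N → ℝ} (hu : u ∈ simplex N) {r : ℝ} (hr : 0 ≤ r) {g : ℝ → ℝ}
    {A : ℝ} (hA : 0 ≤ A) (hg0 : ∀ x, 0 ≤ g x) (hgA : ∀ x, g x ≤ A) (hgr : ∀ x, r ≤ x → g x = 0)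
    (M : ℕ) :
    ∑ m ∈ Finset.univ.filter (fun m : Fin (N + 1) => M < m.val), gapSum g m u ≤
      A * ∑ i, (if M < cnt r (pts u) i then ((cnt r (pts u) i : ℝ) - 1) else 0) := by
  unfold gapSum
  rw [Finset.sum_comm, Finset.mul_sum]
  refine Finset.sum_le_sum fun i _ => ?_
  set T := Finset.univ.filter fun m : Fin (N + 1) => m ≠ 0 ∧ gap (pts u) i (i + m) < r with hT
  set S := Finset.univ.filter fun m : Fin (N + 1) => M < m.val ∧ gap (pts u) i (i + m) < r with hS
  have hc := card_le_cnt hu i hr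
  have hc' : ((T.card : ℕ) : ℝ) + 1 ≤ cnt r (pts u) i := by exact_mod_cast hc
  have hST : S ⊆ T := by
    intro m hm
    simp only [hS, hT, Finset.mem_filter, Finset.mem_univ, true_and] at hm ⊢
    refine ⟨?_, hm.2⟩
    rintro rfl
    simp at hm
  have h1 : ∑ m ∈ Finset.univ.filter (fun m : Fin (N + 1) => M < m.val),
      g (gap (pts u) i (i + m)) ≤ A * S.card := by
    have h2 : ∑ m ∈ Finset.univ.filter (fun m : Fin (N + 1) => M < m.val),
        g (gap (pts u) i (i + m)) = ∑ m ∈ S, g (gap (pts u) i (i + m)) := by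
      symm
      refine Finset.sum_subset ?_ ?_
      · intro m hm
        simp only [hS, Finset.mem_filter, Finset.mem_univ, true_and] at hm ⊢
        exact hm.1
      · intro m hm hm'
        simp only [hS, Finset.mem_filter, Finset.mem_univ, true_and, not_and, not_lt] at hm hm'
        exact hgr _ (hm' hm)
    rw [h2]
    calc ∑ m ∈ S, g (gap (pts u) i (i + m)) ≤ ∑ m ∈ S, A :=
          Finset.sum_le_sum fun m _ => hgA _
      _ = A * S.card := by rw [Finset.sum_const, nsmul_eq_mul, mul_comm]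
  refine h1.trans (mul_le_mul_of_nonneg_left ?_ hA)
  have hST' : ((S.card : ℕ) : ℝ) ≤ T.card := by exact_mod_cast Finset.card_le_card hST
  rcases Finset.eq_empty_or_nonempty S with hE | ⟨m₀, hm₀⟩
  · rw [hE, Finset.card_empty]
    split_ifs
    · push_cast
      have : (0 : ℝ) ≤ T.card := by positivity
      linarith
    · simp
  · have hm₀' : M < m₀.val ∧ gap (pts u) i (i + m₀) < r := by
      simpa only [hS, Finset.mem_filter, Finset.mem_univ, true_and] using hm₀
    have hI : Finset.Ioc 0 m₀ ⊆ T := by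
      intro m hm
      rw [Finset.mem_Ioc] at hm
      simp only [hT, Finset.mem_filter, Finset.mem_univ, true_and]
      exact ⟨hm.1.ne', (gap_mono hu i hm.1.ne' hm.2).trans_lt hm₀'.2⟩
    have hI' := Finset.card_le_card hI
    rw [Fin.card_Ioc] at hI'
    have hI2 : m₀.val ≤ T.card := by simpa using hI'
    have hc2 : T.card + 1 ≤ cnt r (pts u) i := hc
    have hM : M < cnt r (pts u) i := by omega
    rw [if_pos hM]
    linarith

/-! ### expected tails -/

lemma cnt_measurable {n : ℕ} (r : ℝ) (i : Fin n) :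
    Measurable fun θ : Fin n → ℝ => cnt r θ i := by
  unfold cnt
  simp_rw [Finset.card_filter]
  refine Finset.measurable_sum _ fun j _ => ?_
  refine Measurable.ite ?_ measurable_const measurable_const
  have : Continuous fun θ : Fin n → ℝ => ‖e (θ i) - e (θ j)‖ := by
    have := e_continuous
    fun_prop
  exact measurableSet_le this.measurable measurable_const

lemma cnt_per {n : ℕ} (r : ℝ) {θ θ' : Fin n → ℝ} (h : ∀ i, e (θ i) = e (θ' i)) (i : Fin n) :
    cnt r θ i = cnt r θ' i := by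
  unfold cnt
  simp_rw [h]

lemma cnt_rot {n : ℕ} (r : ℝ) (θ : Fin n → ℝ) (a : ℝ) (i : Fin n) :
    cnt r (fun j => θ j + a) i = cnt r θ i := by
  unfold cnt
  have : ∀ j, ‖e (θ i + a) - e (θ j + a)‖ = ‖e (θ i) - e (θ j)‖ := by
    intro j
    rw [e_add, e_add, ← sub_mul, norm_mul, e_norm, mul_one]
  simp_rw [this]

lemma cnt_comp {n : ℕ} (r : ℝ) (θ : Fin n → ℝ) (σ : Equiv.Perm (Fin n)) (i : Fin n) :
    cnt r (θ ∘ σ) i = cnt r θ (σ i) := by
  unfold cnt
  refine Finset.card_bij (fun j _ => σ j) (fun j hj => ?_) (fun a _ b _ h => σ.injective h)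
    fun j hj => ⟨σ.symm j, ?_, ?_⟩
  · simpa using hj
  · simpa using hj
  · simp

/-- the tail weight -/
noncomputable def wt (L : ℝ) (k : ℕ) : ℝ := ((k : ℝ) - 1) * Real.log (1 + (k : ℝ) ^ 2 / L ^ 2)

noncomputable def HH {n : ℕ} (L r : ℝ) (θ : Fin n → ℝ) : ℝ≥0∞ :=
  ∑ i, ENNReal.ofReal (wt L (cnt r θ i))

lemma HH_measurable {n : ℕ} (L r : ℝ) : Measurable (HH L r : (Fin n → ℝ) → ℝ≥0∞) := by
  unfold HH
  refine Finset.measurable_sum _ fun i _ => ENNReal.measurable_ofReal.comp ?_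
  exact (measurable_from_nat (f := wt L)).comp (cnt_measurable r i)

lemma HH_per {n : ℕ} (L r : ℝ) : Per (HH L r : (Fin n → ℝ) → ℝ≥0∞) := by
  intro θ θ' h
  unfold HH
  simp_rw [cnt_per r h]

lemma HH_rot {n : ℕ} (L r : ℝ) : Rot (HH L r : (Fin n → ℝ) → ℝ≥0∞) := by
  intro θ a
  unfold HH
  simp_rw [cnt_rot r]

lemma HH_sym {n : ℕ} (L r : ℝ) : Sym (HH L r : (Fin n → ℝ) → ℝ≥0∞) := by
  intro θ σ
  unfold HH
  simp_rw [cnt_comp r]
  exact Equiv.sum_comp σ fun i => ENNReal.ofReal (wt L (cnt r θ i))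

lemma wt_ge {L : ℝ} (hL : 0 < L) {M k : ℕ} (hM : 1 ≤ M) (hk : 1 ≤ k) :
    (if M < k then ((k : ℝ) - 1) else 0) ≤ wt L k / Real.log (1 + (M : ℝ) ^ 2 / L ^ 2) := by
  have hl : 0 < Real.log (1 + (M : ℝ) ^ 2 / L ^ 2) := by
    apply Real.log_pos
    have : (0 : ℝ) < M := by exact_mod_cast hM
    have : 0 < (M : ℝ) ^ 2 / L ^ 2 := by positivity
    linarith
  have hk' : (1 : ℝ) ≤ k := by exact_mod_cast hk
  have hlk : 0 ≤ Real.log (1 + (k : ℝ) ^ 2 / L ^ 2) := by
    apply Real.log_nonneg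
    have : 0 ≤ (k : ℝ) ^ 2 / L ^ 2 := by positivity
    linarith
  unfold wt
  split_ifs with h
  · rw [le_div_iff₀ hl]
    refine mul_le_mul_of_nonneg_left ?_ (by linarith)
    apply Real.log_le_log (by positivity)
    have : (M : ℝ) ≤ k := by exact_mod_cast h.le
    gcongr
  · exact div_nonneg (mul_nonneg (by linarith) hlk) hl.le

lemma gapSum_nonneg {N : ℕ} {g : ℝ → ℝ} (hg0 : ∀ x, 0 ≤ g x) (m : Fin (N + 1)) (u : Fin N → ℝ) :
    0 ≤ gapSum g m u := Finset.sum_nonneg fun _ _ => hg0 _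

lemma gapSum_le {N : ℕ} {g : ℝ → ℝ} {A : ℝ} (hgA : ∀ x, |g x| ≤ A) (m : Fin (N + 1))
    (u : Fin N → ℝ) : |gapSum g m u| ≤ (N + 1) * A := by
  unfold gapSum
  refine (Finset.abs_sum_le_sum_abs _ _).trans ?_
  refine (Finset.sum_le_sum fun i _ => hgA _).trans ?_
  simp

lemma gapSum_integrable {β : ℝ} (hβ : 0 ≤ β) {N : ℕ} {g : ℝ → ℝ} (hg : Measurable g) {A : ℝ}
    (hgA : ∀ x, |g x| ≤ A) (m : Fin (N + 1)) : Integrable (gapSum g m) (nu β N) := by
  have := nu_prob hβ N
  refine Integrable.of_bound (gapSum_measurable hg m).aestronglyMeasurable ((N + 1) * A)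
    (ae_of_all _ fun u => ?_)
  rw [Real.norm_eq_abs]
  exact gapSum_le hgA m u

lemma tail_int {β : ℝ} (hβ : 0 < β) {N : ℕ} {R : ℝ} (hR : 0 < R) {g : ℝ → ℝ} (hg : Measurable g)
    {A : ℝ} (hA : 0 ≤ A) (hg0 : ∀ x, 0 ≤ g x) (hgA : ∀ x, g x ≤ A)
    (hgr : ∀ x, R / ((N : ℝ) + 1) ≤ x → g x = 0) {C : ℝ} (hC : 0 ≤ C)
    (hcount : ∫⁻ θ, HH R (R / ((N : ℝ) + 1)) θ ∂(cbe β (N + 1)) ≤ ENNReal.ofReal (C * (N + 1)))
    {M : ℕ} (hM : 1 ≤ M) :
    ∑ m ∈ Finset.univ.filter (fun m : Fin (N + 1) => M < m.val), ∫ u, gapSum g m u ∂(nu β N) ≤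
      A / Real.log (1 + (M : ℝ) ^ 2 / R ^ 2) * (C * (N + 1)) := by
  have := nu_prob hβ.le N
  have hgabs : ∀ x, |g x| ≤ A := fun x => by rw [abs_of_nonneg (hg0 x)]; exact hgA x
  have hl : 0 < Real.log (1 + (M : ℝ) ^ 2 / R ^ 2) := by
    apply Real.log_pos
    have : (0 : ℝ) < M := by exact_mod_cast hM
    have : 0 < (M : ℝ) ^ 2 / R ^ 2 := by positivity
    linarith
  set l := Real.log (1 + (M : ℝ) ^ 2 / R ^ 2) with hl'
  rw [← integral_finsetSum _ fun m _ => gapSum_integrable hβ.le hg hgabs m]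
  have hr : 0 < R / ((N : ℝ) + 1) := by positivity
  rw [integral_eq_lintegral_of_nonneg_ae
    (ae_of_all _ fun u => Finset.sum_nonneg fun m _ => gapSum_nonneg hg0 m u)
    (Finset.measurable_sum _ fun m _ => gapSum_measurable hg m).aestronglyMeasurable]
  refine ENNReal.toReal_le_of_le_ofReal (by positivity) ?_
  calc ∫⁻ u, ENNReal.ofReal (∑ m ∈ Finset.univ.filter (fun m : Fin (N + 1) => M < m.val),
        gapSum g m u) ∂(nu β N)
      ≤ ∫⁻ u, ENNReal.ofReal (A / l) * HH R (R / ((N : ℝ) + 1)) (pts u) ∂(nu β N) := by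
        refine lintegral_mono_ae ?_
        filter_upwards [nu_simplex β N] with u hu
        unfold HH
        rw [Finset.mul_sum]
        calc _ ≤ ENNReal.ofReal (∑ i, A / l * wt R (cnt (R / ((N : ℝ) + 1)) (pts u) i)) := by
              apply ENNReal.ofReal_le_ofReal
              refine (tail_le hu hr.le hA hg0 hgA hgr M).trans ?_
              rw [Finset.mul_sum]
              refine Finset.sum_le_sum fun i _ => ?_
              rw [div_mul_eq_mul_div, mul_div_assoc]
              exact mul_le_mul_of_nonneg_left (wt_ge hR hM (cnt_pos hr.le _ i)) hA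
          _ = ∑ i, ENNReal.ofReal (A / l * wt R (cnt (R / ((N : ℝ) + 1)) (pts u) i)) := by
              rw [ENNReal.ofReal_sum_of_nonneg]
              intro i _
              have h1 : (1 : ℝ) ≤ cnt (R / ((N : ℝ) + 1)) (pts u) i := by
                exact_mod_cast cnt_pos hr.le _ i
              have h2 : 0 ≤ wt R (cnt (R / ((N : ℝ) + 1)) (pts u) i) := by
                unfold wt
                refine mul_nonneg (by linarith) (Real.log_nonneg ?_)
                have : 0 ≤ ((cnt (R / ((N : ℝ) + 1)) (pts u) i : ℝ)) ^ 2 / R ^ 2 := by positivity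
                linarith
              positivity
          _ = _ := by
              refine Finset.sum_congr rfl fun i _ => ?_
              rw [ENNReal.ofReal_mul (by positivity)]
    _ = ENNReal.ofReal (A / l) * ∫⁻ u, HH R (R / ((N : ℝ) + 1)) (pts u) ∂(nu β N) := by
        rw [lintegral_const_mul']
        exact ENNReal.ofReal_ne_top
    _ = ENNReal.ofReal (A / l) * ∫⁻ θ, HH R (R / ((N : ℝ) + 1)) θ ∂(cbe β (N + 1)) := by
        rw [lintegral_nu hβ.le (HH_measurable _ _) (HH_per _ _) (HH_rot _ _) (HH_sym _ _)]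
    _ ≤ ENNReal.ofReal (A / l) * ENNReal.ofReal (C * (N + 1)) := by gcongr
    _ = ENNReal.ofReal (A / l * (C * (N + 1))) := by rw [← ENNReal.ofReal_mul (by positivity)]

lemma osc_psi {φ : ℝ → ℝ} {K : NNReal} (hφ : LipschitzWith K φ) {R : ℝ} (hR0 : 0 < R)
    (hR : ∀ x, R ≤ x → φ x = 0) {x y : ℝ} (hx : 0 < x) (hy : 0 < y) :
    |φ x - φ y| ≤ 2 * R * K * (|x - y| / (x + y)) := by
  have hK : (0 : ℝ) ≤ K := K.2
  have hL : ∀ a b : ℝ, |φ a - φ b| ≤ K * |a - b| := fun a b => by
    have := hφ.dist_le_mul a b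
    simpa [Real.dist_eq] using this
  have main : ∀ x y : ℝ, 0 < x → x ≤ y → |φ x - φ y| ≤ 2 * R * K * (|x - y| / (x + y)) := by
    intro x y hx hxy
    have hy : 0 < y := hx.trans_le hxy
    have hs : 0 < x + y := by linarith
    rw [abs_sub_comm x y, abs_of_nonneg (by linarith : 0 ≤ y - x)]
    rcases le_or_gt R x with h1 | h1
    · rw [hR x h1, hR y (h1.trans hxy), sub_self, abs_zero]
      have : 0 ≤ y - x := by linarith
      positivity
    · rcases le_or_gt y R with h2 | h2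
      · refine (hL x y).trans ?_
        rw [abs_sub_comm x y, abs_of_nonneg (by linarith : 0 ≤ y - x)]
        rw [← mul_div_assoc, le_div_iff₀ hs]
        have h3 : 0 ≤ K * (y - x) := mul_nonneg hK (by linarith)
        nlinarith
      · have h3 : |φ x - φ y| ≤ K * (R - x) := by
          rw [hR y h2.le, ← hR R le_rfl]
          refine (hL x R).trans ?_
          rw [abs_sub_comm x R, abs_of_nonneg (by linarith : 0 ≤ R - x)]
        refine h3.trans ?_
        rw [← mul_div_assoc, le_div_iff₀ hs]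
        have h4 : (R - x) * (x + y) ≤ 2 * R * (y - x) := by nlinarith
        calc K * (R - x) * (x + y) = K * ((R - x) * (x + y)) := by ring
          _ ≤ K * (2 * R * (y - x)) := mul_le_mul_of_nonneg_left h4 hK
          _ = 2 * R * K * (y - x) := by ring
  rcases le_total x y with h | h
  · exact main x y hx h
  · have := main y x hy h
    rw [abs_sub_comm (φ x), abs_sub_comm x y, add_comm x y]
    exact this

lemma exists_M {R : ℝ} (hR : 0 < R) (c : ℝ) : ∃ M : ℕ, 1 ≤ M ∧
    c ≤ Real.log (1 + (M : ℝ) ^ 2 / R ^ 2) := by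
  have h1 : Tendsto (fun M : ℕ => 1 + (M : ℝ) ^ 2 / R ^ 2) atTop atTop := by
    refine tendsto_atTop_add_const_left _ _ ?_
    refine Tendsto.atTop_div_const (by positivity) ?_
    exact (tendsto_pow_atTop (by norm_num)).comp tendsto_natCast_atTop_atTop
  have h2 := Real.tendsto_log_atTop.comp h1
  obtain ⟨M, hM⟩ := ((eventually_ge_atTop 1).and (h2.eventually_ge_atTop c)).exists
  exact ⟨M, hM.1, hM.2⟩

theorem beta_cont_nonneg (b B : ℝ) (hb : 0 < b) (φ : ℝ → ℝ) (K : NNReal) (hφ : LipschitzWith K φ)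
    (hp : ∀ x, 0 ≤ φ x) (R : ℝ) (hR0 : 0 < R)
    (h0 : ∀ x ≤ 0, φ x = 0) (hR : ∀ x, R ≤ x → φ x = 0) :
    ∀ ε : ℝ, 0 < ε → ∃ δ : ℝ, 0 < δ ∧ ∃ n₀ : ℕ, ∀ β ∈ Icc b B, ∀ β' ∈ Icc b B, |β - β'| ≤ δ →
      ∀ n : ℕ, n₀ ≤ n → |(∫ x, φ x * rho β n x) - ∫ x, φ x * rho β' n x| ≤ ε := by
  intro ε hε
  have hpi := Real.pi_pos
  have hK : (0 : ℝ) ≤ K := K.2
  obtain ⟨C1, hC1, hgap⟩ := gap_beta b B hb
  obtain ⟨C2, hC2, hcount⟩ := count_le b B R hb hR0
  set A : ℝ := K * R with hA
  have hA0 : 0 ≤ A := by positivity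
  set D : ℝ := 2 * R * K with hD
  have hD0 : 0 ≤ D := by positivity
  have hφA : ∀ x, φ x ≤ A := by
    intro x
    rcases le_or_gt x 0 with h | h
    · rw [h0 x h]; exact hA0
    · rcases le_or_gt R x with h' | h'
      · rw [hR x h']; exact hA0
      · have := hφ.dist_le_mul x 0
        rw [Real.dist_eq, Real.dist_eq, h0 0 le_rfl, sub_zero, sub_zero, abs_of_nonneg (hp x),
          abs_of_pos h] at this
        refine this.trans ?_
        exact mul_le_mul_of_nonneg_left h'.le hK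
  obtain ⟨M, hM1, hM⟩ := exists_M hR0 (2 * A * C2 / (π * ε) + 1)
  have hl : 0 < Real.log (1 + (M : ℝ) ^ 2 / R ^ 2) := by
    have : 0 ≤ 2 * A * C2 / (π * ε) := by positivity
    linarith
  set l := Real.log (1 + (M : ℝ) ^ 2 / R ^ 2) with hldef
  have htail : 2 * (A / l * C2) ≤ π * ε := by
    have h1 : 2 * A * C2 / (π * ε) ≤ l := by linarith
    rw [div_le_iff₀ (by positivity)] at h1
    have : 2 * (A / l * C2) = 2 * A * C2 / l := by ring
    rw [this, div_le_iff₀ hl]
    linarith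
  set E : ℝ := M * (C1 * (1 + D ^ 2)) with hE
  have hE0 : 0 ≤ E := by positivity
  refine ⟨(π * ε / (E + 1)) ^ 2, by positivity, ⌈R⌉₊ + 2, ?_⟩
  intro β hβ β' hβ' hd n hn
  have hβ0 : 0 < β := hb.trans_le hβ.1
  have hβ0' : 0 < β' := hb.trans_le hβ'.1
  obtain ⟨N, rfl⟩ : ∃ N, n = N + 1 := ⟨n - 1, by omega⟩
  have hn2 : 2 ≤ N + 1 := by omega
  have hRN : R ≤ ((N + 1 : ℕ) : ℝ) := by
    refine (Nat.le_ceil R).trans ?_
    exact_mod_cast (by omega : ⌈R⌉₊ ≤ N + 1)
  have hRn : R ≤ 2 * π * ((N + 1 : ℕ) : ℝ) := by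
    have : (1 : ℝ) ≤ 2 * π := by linarith [Real.pi_gt_three]
    nlinarith
  have hN1 : (0 : ℝ) < (N : ℝ) + 1 := by positivity
  have hcast : ((N + 1 : ℕ) : ℝ) = (N : ℝ) + 1 := by push_cast; ring
  set g : ℝ → ℝ := fun u => φ (((N + 1 : ℕ) : ℝ) * u) with hg
  have hgm : Measurable g := by
    have := hφ.continuous
    have : Continuous g := by simp only [hg]; fun_prop
    exact this.measurable
  have hg0 : ∀ x, 0 ≤ g x := fun x => hp _
  have hgA : ∀ x, g x ≤ A := fun x => hφA _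
  have hgabs : ∀ x, |g x| ≤ A := fun x => by rw [abs_of_nonneg (hg0 x)]; exact hgA x
  have hgr : ∀ x, R / ((N : ℝ) + 1) ≤ x → g x = 0 := by
    intro x hx
    refine hR _ ?_
    rw [div_le_iff₀ hN1] at hx
    rw [hcast]
    linarith
  have hgosc : ∀ u ∈ Ioo 0 (2 * π), ∀ v ∈ Ioo 0 (2 * π), |g u - g v| ≤
      D * (|u - v| / (u + v)) := by
    intro u hu v hv
    have h1 := osc_psi hφ hR0 hR (x := ((N + 1 : ℕ) : ℝ) * u) (y := ((N + 1 : ℕ) : ℝ) * v)
      (by have := hu.1; positivity) (by have := hv.1; positivity)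
    refine h1.trans (le_of_eq ?_)
    rw [← mul_sub, ← mul_add, abs_mul, abs_of_nonneg (by positivity : (0 : ℝ) ≤ ((N + 1 : ℕ) : ℝ)),
      mul_div_mul_left _ _ (by positivity : ((N + 1 : ℕ) : ℝ) ≠ 0)]
  have hEF : ∀ γ ∈ Icc b B, 2 * π * ((N : ℝ) + 1) * ∫ x, φ x * rho γ (N + 1) x =
      ∑ m ∈ Finset.univ.erase (0 : Fin (N + 1)), ∫ u, gapSum g m u ∂(nu γ N) := by
    intro γ hγ
    have hγ0 : 0 < γ := hb.trans_le hγ.1
    rw [← hcast, ← exp_FF hγ0 hn2 hφ.continuous hp h0 hR hRn,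
      integral_nu hγ0.le (FF_measurable hgm) (FF_per g) (FF_rot g) (FF_sym g),
      ← integral_finsetSum _ fun m _ => gapSum_integrable hγ0.le hgm hgabs m]
    refine integral_congr_ae ?_
    filter_upwards [nu_simplex γ N] with u hu
    exact FF_pts hu g
  have hT : ∀ γ ∈ Icc b B, ∑ m ∈ Finset.univ.filter (fun m : Fin (N + 1) => M < m.val),
      ∫ u, gapSum g m u ∂(nu γ N) ≤ A / l * (C2 * (N + 1)) := by
    intro γ hγ
    have hγ0 : 0 < γ := hb.trans_le hγ.1
    refine tail_int hγ0 hR0 hgm hA0 hg0 hgA hgr hC2 ?_ hM1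
    have := (hcount γ hγ (N + 1)).2
    rw [hcast] at this
    exact this
  have hT0 : ∀ γ ∈ Icc b B, 0 ≤ ∑ m ∈ Finset.univ.filter (fun m : Fin (N + 1) => M < m.val),
      ∫ u, gapSum g m u ∂(nu γ N) := fun γ hγ =>
    Finset.sum_nonneg fun m _ => integral_nonneg fun u => gapSum_nonneg hg0 m u
  have hsplit : ∀ γ : ℝ, ∑ m ∈ Finset.univ.erase (0 : Fin (N + 1)), ∫ u, gapSum g m u ∂(nu γ N) =
      ∑ m ∈ Finset.univ.filter (fun m : Fin (N + 1) => m ≠ 0 ∧ m.val ≤ M),
        ∫ u, gapSum g m u ∂(nu γ N) +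
      ∑ m ∈ Finset.univ.filter (fun m : Fin (N + 1) => M < m.val),
        ∫ u, gapSum g m u ∂(nu γ N) := by
    intro γ
    rw [← Finset.sum_union]
    · congr 1
      ext m
      simp only [Finset.mem_erase, Finset.mem_univ, and_true, Finset.mem_union, Finset.mem_filter,
        true_and]
      constructor
      · intro h
        rcases le_or_gt m.val M with h' | h'
        · exact Or.inl ⟨h, h'⟩
        · exact Or.inr h'
      · rintro (h | h)
        · exact h.1
        · rintro rfl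
          simp at h
    · rw [Finset.disjoint_filter]
      intro m _ h1 h2
      omega
  have hnear : |(∑ m ∈ Finset.univ.filter (fun m : Fin (N + 1) => m ≠ 0 ∧ m.val ≤ M),
        ∫ u, gapSum g m u ∂(nu β N)) -
      ∑ m ∈ Finset.univ.filter (fun m : Fin (N + 1) => m ≠ 0 ∧ m.val ≤ M),
        ∫ u, gapSum g m u ∂(nu β' N)| ≤ E * (N + 1) * √|β - β'| := by
    rw [← Finset.sum_sub_distrib]
    refine (Finset.abs_sum_le_sum_abs _ _).trans ?_
    have h1 : ∀ m ∈ Finset.univ.filter (fun m : Fin (N + 1) => m ≠ 0 ∧ m.val ≤ M),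
        |(∫ u, gapSum g m u ∂(nu β N)) - ∫ u, gapSum g m u ∂(nu β' N)| ≤
          C1 * (1 + D ^ 2) * (N + 1) * √|β - β'| := by
      intro m hm
      have hm' := (Finset.mem_filter.1 hm).2.1
      exact hgap β hβ β' hβ' N g hgm A hgabs D hD0 hgosc m hm'
    refine (Finset.sum_le_sum h1).trans ?_
    rw [Finset.sum_const, nsmul_eq_mul]
    have hcard : (Finset.univ.filter (fun m : Fin (N + 1) => m ≠ 0 ∧ m.val ≤ M)).card ≤ M := by
      have : (Finset.univ.filter (fun m : Fin (N + 1) => m ≠ 0 ∧ m.val ≤ M)).card ≤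
          (Finset.Ioc 0 M).card := by
        refine Finset.card_le_card_of_injOn (fun m => m.val) ?_ ?_
        · intro m hm
          have hm := (Finset.mem_filter.1 hm).2
          simp only [Finset.coe_Ioc, mem_Ioc]
          refine ⟨?_, hm.2⟩
          rcases Nat.eq_zero_or_pos m.val with h | h
          · exact absurd (Fin.ext h) hm.1
          · exact h
        · intro a _ b _ h
          exact Fin.ext h
      simpa using this
    have hcard' : ((Finset.univ.filter
        (fun m : Fin (N + 1) => m ≠ 0 ∧ m.val ≤ M)).card : ℝ) ≤ M := by exact_mod_cast hcard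
    calc _ ≤ (M : ℝ) * (C1 * (1 + D ^ 2) * (N + 1) * √|β - β'|) := by
          refine mul_le_mul_of_nonneg_right hcard' (by positivity)
      _ = _ := by rw [hE]; ring
  have hsqrt : √|β - β'| ≤ π * ε / (E + 1) := by
    rw [Real.sqrt_le_left (by positivity)]
    exact hd
  have hfin : 2 * π * ((N : ℝ) + 1) * |(∫ x, φ x * rho β (N + 1) x) -
      ∫ x, φ x * rho β' (N + 1) x| ≤ 2 * π * ((N : ℝ) + 1) * ε := by
    have h1 : 2 * π * ((N : ℝ) + 1) * |(∫ x, φ x * rho β (N + 1) x) -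
        ∫ x, φ x * rho β' (N + 1) x| = |2 * π * ((N : ℝ) + 1) * (∫ x, φ x * rho β (N + 1) x) -
        2 * π * ((N : ℝ) + 1) * ∫ x, φ x * rho β' (N + 1) x| := by
      rw [← mul_sub, abs_mul, abs_of_nonneg (by positivity : 0 ≤ 2 * π * ((N : ℝ) + 1))]
    rw [h1, hEF β hβ, hEF β' hβ', hsplit β, hsplit β']
    have h2 := hT β hβ
    have h3 := hT β' hβ'
    have h4 := hT0 β hβ
    have h5 := hT0 β' hβ'
    have h6 : E * (N + 1) * √|β - β'| ≤ π * ε * (N + 1) := by
      have : E * √|β - β'| ≤ π * ε := by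
        calc E * √|β - β'| ≤ (E + 1) * (π * ε / (E + 1)) := by
              apply mul_le_mul (by linarith) hsqrt (Real.sqrt_nonneg _) (by positivity)
          _ = π * ε := by field_simp
      nlinarith
    have h7 : A / l * (C2 * (N + 1)) + A / l * (C2 * (N + 1)) ≤ π * ε * (N + 1) := by
      nlinarith
    have h8 : 2 * π * ((N : ℝ) + 1) * ε = 2 * (π * ε * (N + 1)) := by ring
    rw [h8]
    generalize hX : π * ε * ((N : ℝ) + 1) = X at *
    generalize hY : A / l * (C2 * ((N : ℝ) + 1)) = Y at *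
    rw [abs_le] at hnear ⊢
    constructor <;> linarith [hnear.1, hnear.2]
  exact le_of_mul_le_mul_left hfin (by positivity)

end BetaCont

theorem beta_cont (b B : ℝ) (hb : 0 < b) (φ : ℝ → ℝ) (K : NNReal) (hφ : LipschitzWith K φ) (R : ℝ)
    (h0 : ∀ x ≤ 0, φ x = 0) (hR : ∀ x, R ≤ x → φ x = 0) :
    ∀ ε : ℝ, 0 < ε → ∃ δ : ℝ, 0 < δ ∧ ∃ n₀ : ℕ, ∀ β ∈ Icc b B, ∀ β' ∈ Icc b B, |β - β'| ≤ δ →
      ∀ n : ℕ, n₀ ≤ n → |(∫ x, φ x * rho β n x) - ∫ x, φ x * rho β' n x| ≤ ε := by
  intro ε hε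
  set R' : ℝ := max R 1 with hR'
  have hR'0 : 0 < R' := lt_of_lt_of_le one_pos (le_max_right _ _)
  have hRR : ∀ x, R' ≤ x → φ x = 0 := fun x hx => hR x ((le_max_left _ _).trans hx)
  have hp1 : LipschitzWith K (fun x => max (φ x) 0) := by
    have := hφ.max_const 0
    exact this
  have hp2 : LipschitzWith K (fun x => max (-φ x) 0) := by
    have := hφ.neg.max_const 0
    exact this
  obtain ⟨δ1, hδ1, n1, h1⟩ := BetaCont.beta_cont_nonneg b B hb (fun x => max (φ x) 0) K hp1
    (fun x => le_max_right _ _) R' hR'0 (fun x hx => by simp [h0 x hx])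
    (fun x hx => by simp [hRR x hx]) (ε / 2) (by positivity)
  obtain ⟨δ2, hδ2, n2, h2⟩ := BetaCont.beta_cont_nonneg b B hb (fun x => max (-φ x) 0) K hp2
    (fun x => le_max_right _ _) R' hR'0 (fun x hx => by simp [h0 x hx])
    (fun x hx => by simp [hRR x hx]) (ε / 2) (by positivity)
  refine ⟨min δ1 δ2, lt_min hδ1 hδ2, max n1 n2, ?_⟩
  intro β hβ β' hβ' hd n hn
  have k1 := h1 β hβ β' hβ' (hd.trans (min_le_left _ _)) n ((le_max_left _ _).trans hn)
  have k2 := h2 β hβ β' hβ' (hd.trans (min_le_right _ _)) n ((le_max_right _ _).trans hn)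
  have hsupp : ∀ f : ℝ → ℝ, Continuous f → (∀ x ≤ 0, f x = 0) → (∀ x, R' ≤ x → f x = 0) →
      ∀ γ, 0 < γ → Integrable fun x => f x * rho γ n x := by
    intro f hf hf0 hfR γ hγ
    refine (hf.mul (rho_continuous hγ n)).integrable_of_hasCompactSupport ?_
    refine HasCompactSupport.intro (isCompact_Icc (a := 0) (b := R')) fun x hx => ?_
    rw [mem_Icc, not_and_or, not_le, not_le] at hx
    rcases hx with hx | hx
    · show f x * _ = 0
      rw [hf0 x hx.le, zero_mul]
    · show f x * _ = 0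
      rw [hfR x hx.le, zero_mul]
  have hdec : ∀ γ, 0 < γ → ∫ x, φ x * rho γ n x = (∫ x, max (φ x) 0 * rho γ n x) -
      ∫ x, max (-φ x) 0 * rho γ n x := by
    intro γ hγ
    rw [← integral_sub]
    · refine integral_congr_ae (ae_of_all _ fun x => ?_)
      simp only
      rw [← sub_mul]
      congr 1
      rcases le_total (φ x) 0 with h | h
      · rw [max_eq_right h, max_eq_left (by linarith)]; ring
      · rw [max_eq_left h, max_eq_right (by linarith)]; ring
    · exact hsupp _ hp1.continuous (fun x hx => by simp [h0 x hx])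
        (fun x hx => by simp [hRR x hx]) γ hγ
    · exact hsupp _ hp2.continuous (fun x hx => by simp [h0 x hx])
        (fun x hx => by simp [hRR x hx]) γ hγ
  rw [hdec β (hb.trans_le hβ.1), hdec β' (hb.trans_le hβ'.1)]
  rw [abs_le] at k1 k2 ⊢
  constructor <;> linarith [k1.1, k1.2, k2.1, k2.2]

end Pool.Agent.Lib.MP_b33862_pr
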