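import Mathlib
import Pool.Agent.Lib.MP_b33862_pr.Basic

/-!
Oscillation of the two-point function of the characteristic polynomial of the circular beta
ensemble (Poisson kernel argument).
-/

set_option autoImplicit false

namespace Pool.Agent.Lib.MP_b33862_pr

open MeasureTheory Set Real Filter
open scoped ENNReal Topology

/-! ### the Poisson inequality -/

/-- the holomorphic function `∏ (1 - ζ conj z_j)^q` -/
noncomputable def hol {m : ℕ} (θ : Fin m → ℝ) (q : ℝ) (ζ : ℂ) : ℂ :=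
  ∏ j, (1 - ζ * (starRingEnd ℂ) (e (θ j))) ^ (q : ℂ)

lemma norm_sub_e (ζ : ℂ) (x : ℝ) : ‖1 - ζ * (starRingEnd ℂ) (e x)‖ = ‖ζ - e x‖ := by
  have h1 : (starRingEnd ℂ) (e x) * e x = 1 := by
    rw [← Complex.normSq_eq_conj_mul_self, Complex.normSq_eq_norm_sq, e_norm]; simp
  have h2 : (1 - ζ * (starRingEnd ℂ) (e x)) * e x = e x - ζ := by
    linear_combination (-ζ) * h1
  have h3 := congrArg norm h2
  rw [norm_mul, e_norm, mul_one] at h3
  rw [h3, norm_sub_rev]

lemma norm_hol {m : ℕ} (θ : Fin m → ℝ) (q : ℝ) (ζ : ℂ) : ‖hol θ q ζ‖ = cp θ ζ ^ q := by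
  unfold hol cp
  rw [norm_prod, ← Real.finsetProd_rpow _ _ (fun i _ => norm_nonneg _)]
  refine Finset.prod_congr rfl fun i _ => ?_
  rw [Complex.norm_cpow_real, norm_sub_e]

lemma re_pos_aux {ζ : ℂ} (hζ : ‖ζ‖ < 1) (x : ℝ) :
    0 < (1 - ζ * (starRingEnd ℂ) (e x)).re := by
  have h1 : ‖ζ * (starRingEnd ℂ) (e x)‖ < 1 := by
    rw [norm_mul, Complex.norm_conj, e_norm, mul_one]; exact hζ
  have h2 := Complex.re_le_norm (ζ * (starRingEnd ℂ) (e x))
  simp only [Complex.sub_re, Complex.one_re]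
  linarith

lemma re_nonneg_aux {ζ : ℂ} (hζ : ‖ζ‖ ≤ 1) (x : ℝ) :
    0 ≤ (1 - ζ * (starRingEnd ℂ) (e x)).re := by
  have h1 : ‖ζ * (starRingEnd ℂ) (e x)‖ ≤ 1 := by
    rw [norm_mul, Complex.norm_conj, e_norm, mul_one]; exact hζ
  have h2 := Complex.re_le_norm (ζ * (starRingEnd ℂ) (e x))
  simp only [Complex.sub_re, Complex.one_re]
  linarith

lemma hol_diff {m : ℕ} (θ : Fin m → ℝ) {q : ℝ} (hq : 0 < q) :
    DiffContOnCl ℂ (hol θ q) (Metric.ball 0 1) := by
  refine ⟨?_, ?_⟩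
  · intro ζ hζ
    have hζ' : ‖ζ‖ < 1 := by simpa using hζ
    unfold hol
    apply DifferentiableAt.differentiableWithinAt
    apply DifferentiableAt.fun_finsetProd
    intro i _
    apply DifferentiableAt.cpow_const
    · fun_prop
    · exact Or.inl (re_pos_aux hζ' _)
  · rw [closure_ball (0 : ℂ) one_ne_zero]
    unfold hol
    refine continuousOn_finsetProd _ fun i _ => ?_
    intro ζ hζ
    have hζ' : ‖ζ‖ ≤ 1 := by simpa using hζ
    apply ContinuousAt.continuousWithinAt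
    have h1 : ContinuousAt (fun x : ℂ => x ^ (q : ℂ)) (1 - ζ * (starRingEnd ℂ) (e (θ i))) :=
      Complex.continuousAt_cpow_const_of_re_pos (Or.inl (re_nonneg_aux hζ' _)) (by simpa using hq)
    exact ContinuousAt.comp (f := fun ζ : ℂ => 1 - ζ * (starRingEnd ℂ) (e (θ i))) h1
      (by fun_prop)

/-- `|p|^q` is dominated by its Poisson integral -/
theorem poisson_ineq {m : ℕ} (θ : Fin m → ℝ) {q : ℝ} (hq : 0 < q) {w : ℂ} (hw : ‖w‖ < 1) :
    cp θ w ^ q ≤ Real.circleAverage (fun z => poissonKernel 0 w z * cp θ z ^ q) 0 1 := by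
  have hw' : w ∈ Metric.ball (0 : ℂ) 1 := by simpa using hw
  have h1 := (hol_diff θ hq).circleAverage_poissonKernel_smul hw'
  rw [← norm_hol, ← h1, Real.circleAverage_def, Real.circleAverage_def, norm_smul,
    Real.norm_of_nonneg (by positivity), smul_eq_mul]
  refine mul_le_mul_of_nonneg_left ?_ (by positivity)
  refine (intervalIntegral.norm_integral_le_integral_norm (by positivity)).trans (le_of_eq ?_)
  refine intervalIntegral.integral_congr fun x _ => ?_
  simp only [Pi.smul_apply', norm_smul, norm_hol]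
  congr 1
  rw [Real.norm_of_nonneg]
  unfold poissonKernel
  refine div_nonneg ?_ (by positivity)
  simp only [sub_zero, norm_circleMap_zero, abs_one]
  nlinarith [norm_nonneg w]

/-- pointwise lower bound inside the disc -/
theorem cp_ge {m : ℕ} (θ : Fin m → ℝ) {r : ℝ} (h0 : 0 < r) (_h1 : r ≤ 1) :
    r ^ ((m : ℝ) / 2) * cp θ 1 ≤ cp θ r := by
  have h2 : r ^ ((m : ℝ) / 2) = ∏ _j : Fin m, √r := by
    rw [Finset.prod_const, Finset.card_univ, Fintype.card_fin, Real.sqrt_eq_rpow,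
      ← Real.rpow_natCast, ← Real.rpow_mul h0.le]
    ring_nf
  rw [h2]
  unfold cp
  rw [← Finset.prod_mul_distrib]
  refine Finset.prod_le_prod (fun i _ => by positivity) fun i _ => ?_
  refine le_of_sq_le_sq ?_ (norm_nonneg _)
  rw [mul_pow, Real.sq_sqrt h0.le, ← Complex.normSq_eq_norm_sq, ← Complex.normSq_eq_norm_sq,
    Complex.normSq_apply, Complex.normSq_apply]
  have h3 : (e (θ i)).re * (e (θ i)).re + (e (θ i)).im * (e (θ i)).im = 1 := by
    rw [← Complex.normSq_apply, Complex.normSq_eq_norm_sq, e_norm]; simp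
  simp only [Complex.sub_re, Complex.sub_im, Complex.one_re, Complex.one_im, Complex.ofReal_re,
    Complex.ofReal_im]
  nlinarith [sq_nonneg (1 - r), h3]


/-! ### elementary properties of `dfun` -/

/-- the random function `x ↦ |p(e^{ix})|^β` -/
noncomputable def gf {m : ℕ} (β : ℝ) (x : ℝ) (θ : Fin m → ℝ) : ℝ := cp θ (e x) ^ β

lemma gf_nonneg {m : ℕ} (β : ℝ) (x : ℝ) (θ : Fin m → ℝ) : 0 ≤ gf β x θ :=
  Real.rpow_nonneg (cp_nonneg _ _) _

lemma gf_le {m : ℕ} {β : ℝ} (hβ : 0 ≤ β) (x : ℝ) (θ : Fin m → ℝ) :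
    gf β x θ ≤ ((2 : ℝ) ^ m) ^ β := by
  unfold gf
  refine Real.rpow_le_rpow (cp_nonneg _ _) ?_ hβ
  refine (cp_le θ (e x)).trans (le_of_eq ?_)
  rw [e_norm]; norm_num

lemma gf_cont {m : ℕ} {β : ℝ} (hβ : 0 ≤ β) {X : Type*} [TopologicalSpace X] {f : X → ℝ}
    {h : X → (Fin m → ℝ)} (hf : Continuous f) (hh : Continuous h) :
    Continuous fun p => gf β (f p) (h p) := by
  have h1 : Continuous fun p => cp (h p) (e (f p)) :=
    (cp_continuous m).comp (hh.prodMk (e_continuous.comp hf))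
  unfold gf
  exact Continuous.rpow_const h1 fun _ => Or.inr hβ

lemma gf_meas {m : ℕ} {β : ℝ} (hβ : 0 ≤ β) (x : ℝ) :
    Measurable (gf β x : (Fin m → ℝ) → ℝ) :=
  (gf_cont hβ continuous_const continuous_id).measurable

lemma gf_abs {m : ℕ} {β : ℝ} (hβ : 0 ≤ β) (x : ℝ) (θ : Fin m → ℝ) :
    |gf β x θ| ≤ ((2 : ℝ) ^ m) ^ β := by
  rw [abs_of_nonneg (gf_nonneg _ _ _)]; exact gf_le hβ _ _

/-- products of two values -/
lemma gf_mul_int {m : ℕ} {β : ℝ} (hβ : 0 ≤ β) (x y : ℝ) :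
    Integrable (fun θ : Fin m → ℝ => gf β x θ * gf β y θ) (cbe β m) := by
  refine integrable_cbe_of_bdd hβ ((gf_meas hβ x).mul (gf_meas hβ y))
    (((2 : ℝ) ^ m) ^ β * ((2 : ℝ) ^ m) ^ β) fun θ => ?_
  rw [abs_mul]
  exact mul_le_mul (gf_abs hβ _ _) (gf_abs hβ _ _) (abs_nonneg _) (by positivity)

lemma gf_rot {m : ℕ} (β x a : ℝ) (θ : Fin m → ℝ) :
    gf β (a + x) (fun i => θ i + a) = gf β x θ := by
  unfold gf
  rw [e_add, cp_rot]

lemma gf_zero {m : ℕ} (β : ℝ) (θ : Fin m → ℝ) : gf β 0 θ = cp θ 1 ^ β := by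
  unfold gf; rw [e_zero]

/-- covariance function -/
lemma gf_cov {m : ℕ} {β : ℝ} (hβ : 0 ≤ β) (x y : ℝ) :
    ∫ θ : Fin m → ℝ, gf β x θ * gf β y θ ∂(cbe β m) = dfun β m (y - x) := by
  rw [← integral_cbe_rot hβ (F := fun θ : Fin m → ℝ => gf β x θ * gf β y θ)
    ((gf_meas hβ x).mul (gf_meas hβ y)) ?_ x]
  · unfold dfun
    refine integral_congr_ae (Eventually.of_forall fun θ => ?_)
    have h1 := gf_rot β 0 x θ
    have h2 := gf_rot β (y - x) x θ
    rw [add_zero] at h1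
    rw [add_sub_cancel] at h2
    simp only [h1, h2, gf_zero]
    rfl
  · intro θ θ' h
    have h1 : cp θ (e x) = cp θ' (e x) := cp_per (e x) θ θ' h
    have h2 : cp θ (e y) = cp θ' (e y) := cp_per (e y) θ θ' h
    simp only [gf, h1, h2]

lemma dfun_nonneg (β : ℝ) (m : ℕ) (s : ℝ) : 0 ≤ dfun β m s :=
  integral_nonneg fun _ => mul_nonneg (Real.rpow_nonneg (cp_nonneg _ _) _)
    (Real.rpow_nonneg (cp_nonneg _ _) _)

lemma dfun_neg {β : ℝ} (hβ : 0 < β) (m : ℕ) (s : ℝ) : dfun β m (-s) = dfun β m s := by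
  have h1 := gf_cov (m := m) hβ.le s 0
  have h2 := gf_cov (m := m) hβ.le 0 s
  rw [zero_sub] at h1
  rw [sub_zero] at h2
  rw [← h1, ← h2]
  simp only [mul_comm]

/-- variance of increments -/
lemma gf_var {m : ℕ} {β : ℝ} (hβ : 0 ≤ β) (x y : ℝ) :
    ∫ θ : Fin m → ℝ, (gf β y θ - gf β x θ) ^ 2 ∂(cbe β m) =
      2 * (dfun β m 0 - dfun β m (y - x)) := by
  have h1 := gf_cov (m := m) hβ x x
  have h2 := gf_cov (m := m) hβ y y
  have h3 := gf_cov (m := m) hβ x y
  rw [sub_self] at h1 h2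
  have e1 : (fun θ : Fin m → ℝ => (gf β y θ - gf β x θ) ^ 2) = fun θ =>
      gf β y θ * gf β y θ + gf β x θ * gf β x θ - 2 * (gf β x θ * gf β y θ) := by
    funext θ; ring
  have i1 : Integrable (fun θ : Fin m → ℝ => gf β y θ * gf β y θ + gf β x θ * gf β x θ)
      (cbe β m) := (gf_mul_int hβ y y).add (gf_mul_int hβ x x)
  rw [e1, integral_sub i1 ((gf_mul_int hβ x y).const_mul 2),
    integral_add (gf_mul_int hβ y y) (gf_mul_int hβ x x), integral_const_mul, h1, h2, h3]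
  ring

lemma dfun_le {β : ℝ} (hβ : 0 < β) (m : ℕ) (s : ℝ) : dfun β m s ≤ dfun β m 0 := by
  have h1 := gf_var (m := m) hβ.le 0 s
  rw [sub_zero] at h1
  have h2 : 0 ≤ ∫ θ : Fin m → ℝ, (gf β s θ - gf β 0 θ) ^ 2 ∂(cbe β m) :=
    integral_nonneg fun θ => sq_nonneg _
  linarith


/-! ### positivity of `dfun β m 0` -/

instance : NullSingletonClass circ := by
  constructor
  intro x
  unfold circ
  rw [Measure.smul_apply, measure_singleton, smul_zero]

lemma cp_one_ae (m : ℕ) : ∀ᵐ θ : Fin m → ℝ ∂(tor m), 0 < cp θ 1 := by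
  have h1 : ∀ i : Fin m, ∀ k : ℤ, ∀ᵐ θ : Fin m → ℝ ∂(tor m), θ i ≠ k * (2 * π) := by
    intro i k
    have h2 : (tor m) {θ : Fin m → ℝ | θ i = k * (2 * π)} = 0 :=
      Measure.pi_hyperplane (fun _ : Fin m => circ) i _
    rw [ae_iff]
    simpa using h2
  have h2 : ∀ᵐ θ : Fin m → ℝ ∂(tor m), ∀ i : Fin m, ∀ k : ℤ, θ i ≠ k * (2 * π) := by
    rw [ae_all_iff]; intro i; rw [ae_all_iff]; exact h1 i
  filter_upwards [h2] with θ hθ
  unfold cp
  refine Finset.prod_pos fun i _ => ?_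
  rw [norm_pos_iff, sub_ne_zero]
  intro h3
  unfold e at h3
  obtain ⟨k, hk⟩ := Complex.exp_eq_one_iff.1 h3.symm
  refine hθ i k ?_
  have h4 : ((θ i : ℂ) - k * (2 * π)) * Complex.I = 0 := by linear_combination hk
  rcases mul_eq_zero.1 h4 with h5 | h5
  · have h6 := sub_eq_zero.1 h5
    exact_mod_cast h6
  · exact absurd h5 Complex.I_ne_zero

lemma dfun_pos {β : ℝ} (hβ : 0 < β) (m : ℕ) : 0 < dfun β m 0 := by
  have := cbe_prob hβ.le m
  have h0 := gf_cov (m := m) hβ.le 0 0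
  rw [sub_self] at h0
  rw [← h0]
  have h1 : ∀ᵐ θ : Fin m → ℝ ∂(cbe β m), 0 < gf β 0 θ * gf β 0 θ := by
    have h2 : ∀ᵐ θ : Fin m → ℝ ∂(cbe β m), 0 < cp θ 1 :=
      (withDensity_absolutelyContinuous _ _).ae_le (cp_one_ae m)
    filter_upwards [h2] with θ hθ
    have h3 : 0 < gf β 0 θ := by rw [gf_zero]; exact Real.rpow_pos_of_pos hθ _
    positivity
  rw [integral_pos_iff_support_of_nonneg (fun θ => mul_nonneg (gf_nonneg _ _ _) (gf_nonneg _ _ _))
    (gf_mul_int hβ.le 0 0)]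
  have h4 : (cbe β m) (Function.support fun θ : Fin m → ℝ => gf β 0 θ * gf β 0 θ) = 1 := by
    rw [← measure_univ (μ := cbe β m)]
    refine measure_congr ?_
    filter_upwards [h1] with θ hθ
    exact propext ⟨fun _ => trivial, fun _ => hθ.ne'⟩
  rw [h4]; exact one_pos

/-! ### Fubini -/

lemma cbe_swap {m : ℕ} {β : ℝ} (hβ : 0 ≤ β) {H : ℝ → (Fin m → ℝ) → ℝ}
    (hH : Continuous (Function.uncurry H)) (C : ℝ) (hC : ∀ x θ, |H x θ| ≤ C) (a b : ℝ) :
    ∫ θ, (∫ x in a..b, H x θ) ∂(cbe β m) = ∫ x in a..b, ∫ θ, H x θ ∂(cbe β m) := by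
  have := cbe_prob hβ m
  symm
  apply intervalIntegral_integral_swap
  have : IsFiniteMeasure (volume.restrict (Set.uIoc a b)) := ⟨by
    rw [Measure.restrict_apply_univ, Set.uIoc]
    exact measure_Ioc_lt_top⟩
  exact Integrable.of_bound hH.aestronglyMeasurable C (Eventually.of_forall fun p => hC p.1 p.2)

lemma cbe_int_swap {m : ℕ} {β : ℝ} (hβ : 0 ≤ β) {H : ℝ → (Fin m → ℝ) → ℝ}
    (hH : Continuous (Function.uncurry H)) (C : ℝ) (hC : ∀ x θ, |H x θ| ≤ C) (a b : ℝ) :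
    Integrable (fun θ => ∫ x in a..b, H x θ) (cbe β m) := by
  have h1 : Continuous fun θ : Fin m → ℝ => ∫ x in a..b, H x θ :=
    intervalIntegral.continuous_parametric_intervalIntegral_of_continuous'
      (f := fun θ x => H x θ) (hH.comp continuous_swap) a b
  refine integrable_cbe_of_bdd hβ h1.measurable (C * |b - a|) fun θ => ?_
  have h2 := intervalIntegral.norm_integral_le_of_norm_le_const (a := a) (b := b)
    (f := fun x => H x θ) (C := C) (fun x _ => hC x θ)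
  simpa using h2


/-! ### the oscillation bound -/

/-- the Poisson kernel on the circle at the point `1 - r` -/
noncomputable def pk (r x : ℝ) : ℝ := poissonKernel 0 ((1 - r : ℝ) : ℂ) (e x)

lemma circleMap_e (x : ℝ) : circleMap 0 1 x = e x := by
  simp [circleMap, e]

lemma pk_eq {r : ℝ} (_hr : 0 < r) (_hr1 : r < 1) (x : ℝ) :
    pk r x = (1 - (1 - r) ^ 2) / ‖e x - (1 - r : ℝ)‖ ^ 2 := by
  unfold pk poissonKernel
  simp only [sub_zero, e_norm, Complex.norm_real, Real.norm_eq_abs, sq_abs]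
  norm_num

lemma pk_den {r : ℝ} (hr : 0 < r) (hr1 : r < 1) (x : ℝ) : 0 < ‖e x - (1 - r : ℝ)‖ := by
  have h1 : ‖e x‖ - ‖((1 - r : ℝ) : ℂ)‖ ≤ ‖e x - (1 - r : ℝ)‖ := norm_sub_norm_le _ _
  rw [e_norm, Complex.norm_real, Real.norm_eq_abs, abs_of_pos (by linarith)] at h1
  linarith

lemma pk_nonneg {r : ℝ} (hr : 0 < r) (hr1 : r < 1) (x : ℝ) : 0 ≤ pk r x := by
  rw [pk_eq hr hr1]
  exact div_nonneg (by nlinarith) (by positivity)

lemma pk_cont {r : ℝ} (hr : 0 < r) (hr1 : r < 1) : Continuous (pk r) := by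
  have h1 : pk r = fun x => (1 - (1 - r) ^ 2) / ‖e x - (1 - r : ℝ)‖ ^ 2 := by
    funext x; exact pk_eq hr hr1 x
  rw [h1]
  refine Continuous.div continuous_const ?_ fun x => (pow_pos (pk_den hr hr1 x) 2).ne'
  exact (e_continuous.sub continuous_const).norm.pow 2

lemma pk_ge {r : ℝ} (hr : 0 < r) (hr1 : r ≤ 1 / 2) {x : ℝ} (hx : |x| ≤ r) :
    1 / (4 * r) ≤ pk r x := by
  rw [pk_eq hr (by linarith)]
  have h1 : ‖e x - (1 - r : ℝ)‖ ≤ 2 * r := by
    have h2 : e x - (1 - r : ℝ) = (e x - 1) + (r : ℂ) := by push_cast; ring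
    rw [h2]
    refine (norm_add_le _ _).trans ?_
    have h3 : ‖e x - 1‖ ≤ |x| := by rw [norm_sub_rev]; exact one_sub_e_le x
    rw [Complex.norm_real, Real.norm_eq_abs, abs_of_pos hr]
    linarith
  have h4 := pk_den hr (by linarith) x
  rw [div_le_div_iff₀ (by linarith) (pow_pos h4 2)]
  have h5 : ‖e x - (1 - r : ℝ)‖ ^ 2 ≤ (2 * r) ^ 2 := by gcongr
  nlinarith

lemma pk_avg {r : ℝ} (hr : 0 < r) (hr1 : r < 1) :
    (2 * π)⁻¹ * ∫ x in (0 : ℝ)..2 * π, pk r x = 1 := by
  have h1 : DiffContOnCl ℂ (fun _ : ℂ => (1 : ℂ)) (Metric.ball 0 1) := diffContOnCl_const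
  have h2 : ((1 - r : ℝ) : ℂ) ∈ Metric.ball (0 : ℂ) 1 := by
    rw [mem_ball_zero_iff, Complex.norm_real, Real.norm_eq_abs, abs_of_pos (by linarith)]
    linarith
  have h3 := h1.circleAverage_poissonKernel_smul h2
  rw [Real.circleAverage_def] at h3
  have h4 : (∫ x in (0 : ℝ)..2 * π, (poissonKernel 0 ((1 - r : ℝ) : ℂ) • fun _ : ℂ => (1 : ℂ))
      (circleMap 0 1 x)) = ((∫ x in (0 : ℝ)..2 * π, pk r x : ℝ) : ℂ) := by
    rw [← intervalIntegral.integral_ofReal]
    refine intervalIntegral.integral_congr fun x _ => ?_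
    simp only [Pi.smul_apply', circleMap_e]
    unfold pk
    rw [Complex.real_smul, mul_one]
  rw [h4, Complex.real_smul] at h3
  exact_mod_cast h3

lemma pk_bd {r : ℝ} (hr : 0 < r) (hr1 : r < 1) (x : ℝ) : pk r x ≤ 1 / r ^ 2 := by
  rw [pk_eq hr hr1]
  have h1 : ‖e x‖ - ‖((1 - r : ℝ) : ℂ)‖ ≤ ‖e x - (1 - r : ℝ)‖ := norm_sub_norm_le _ _
  rw [e_norm, Complex.norm_real, Real.norm_eq_abs, abs_of_pos (by linarith)] at h1
  have h2 : r ≤ ‖e x - (1 - r : ℝ)‖ := by linarith
  have h3 : r ^ 2 ≤ ‖e x - (1 - r : ℝ)‖ ^ 2 := by gcongr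
  apply div_le_div₀ zero_le_one _ (by positivity) h3
  nlinarith

lemma e_per' (x : ℝ) : e (x + 2 * π) = e x := by
  have := e_per x 1
  simpa using this

/-- pointwise inequality behind the oscillation bound -/
lemma osc_pt {m : ℕ} {β : ℝ} (hβ : 0 < β) (θ : Fin m → ℝ) {r : ℝ} (h0 : 0 < r)
    (h1 : r ≤ 1 / 2) :
    (1 - r) ^ (m * β) * (gf β 0 θ * gf β 0 θ) +
        1 / (16 * π * r) * ∫ x in (-r)..0, (gf β (x + r) θ - gf β x θ) ^ 2 ≤
      (2 * π)⁻¹ * ∫ x in (0 : ℝ)..2 * π, pk r x * (gf β x θ * gf β x θ) := by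
  have hr1 : r < 1 := by linarith
  have hπ := Real.pi_pos
  have hπ3 := Real.pi_gt_three
  set g : ℝ → ℝ := fun x => gf β x θ with hg
  have gc : Continuous g := gf_cont hβ.le continuous_id continuous_const
  have pc := pk_cont h0 hr1
  have gper : ∀ x, g (x + 2 * π) = g x := by
    intro x; simp only [hg, gf, e_per']
  have pper : ∀ x, pk r (x + 2 * π) = pk r x := by
    intro x; simp only [pk, e_per']
  set A : ℝ := (2 * π)⁻¹ * ∫ x in (0 : ℝ)..2 * π, pk r x * g x with hA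
  -- lower bound for A
  have hA1 : (1 - r) ^ (m * β / 2) * g 0 ≤ A := by
    have h2 : ‖((1 - r : ℝ) : ℂ)‖ < 1 := by
      rw [Complex.norm_real, Real.norm_eq_abs, abs_of_pos (by linarith)]
      linarith
    have h3 := poisson_ineq θ hβ h2
    rw [Real.circleAverage_def, smul_eq_mul] at h3
    have h4 : (∫ x in (0 : ℝ)..2 * π, poissonKernel 0 ((1 - r : ℝ) : ℂ) (circleMap 0 1 x) *
        cp θ (circleMap 0 1 x) ^ β) = ∫ x in (0 : ℝ)..2 * π, pk r x * g x := by
      refine intervalIntegral.integral_congr fun x _ => ?_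
      simp only [circleMap_e, pk, hg, gf]
    rw [h4] at h3
    refine le_trans ?_ h3
    have h5 := cp_ge θ (r := 1 - r) (by linarith) (by linarith)
    have h6 : ((1 - r) ^ ((m : ℝ) / 2) * cp θ 1) ^ β ≤ cp θ ((1 - r : ℝ) : ℂ) ^ β :=
      Real.rpow_le_rpow (mul_nonneg (Real.rpow_nonneg (by linarith) _) (cp_nonneg _ _)) h5 hβ.le
    rw [Real.mul_rpow (Real.rpow_nonneg (by linarith) _) (cp_nonneg _ _),
      ← Real.rpow_mul (by linarith)] at h6
    simp only [hg, gf_zero]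
    refine le_trans (le_of_eq ?_) h6
    congr 2
    ring
  have hA2 : (1 - r) ^ (m * β) * (g 0 * g 0) ≤ A ^ 2 := by
    have h2 : 0 ≤ (1 - r) ^ (m * β / 2) * g 0 :=
      mul_nonneg (Real.rpow_nonneg (by linarith) _) (gf_nonneg _ _ _)
    have h3 := mul_self_le_mul_self h2 hA1
    have h4 : (1 - r) ^ (m * β) = (1 - r) ^ (m * β / 2) * (1 - r) ^ (m * β / 2) := by
      rw [← Real.rpow_add (by linarith)]; ring_nf
    rw [h4]; nlinarith
  -- variance identity
  have hvar : (2 * π)⁻¹ * ∫ x in (0 : ℝ)..2 * π, pk r x * (g x - A) ^ 2 =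
      (2 * π)⁻¹ * (∫ x in (0 : ℝ)..2 * π, pk r x * (g x * g x)) - A ^ 2 := by
    have e1 : (∫ x in (0 : ℝ)..2 * π, pk r x * (g x - A) ^ 2) =
        (∫ x in (0 : ℝ)..2 * π, pk r x * (g x * g x)) - 2 * A * (∫ x in (0 : ℝ)..2 * π, pk r x * g x)
          + A ^ 2 * ∫ x in (0 : ℝ)..2 * π, pk r x := by
      rw [← intervalIntegral.integral_const_mul, ← intervalIntegral.integral_const_mul,
        ← intervalIntegral.integral_sub, ← intervalIntegral.integral_add]
      · refine intervalIntegral.integral_congr fun x _ => ?_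
        ring
      · exact Continuous.intervalIntegrable (by fun_prop) _ _
      · exact Continuous.intervalIntegrable (by fun_prop) _ _
      · exact Continuous.intervalIntegrable (by fun_prop) _ _
      · exact Continuous.intervalIntegrable (by fun_prop) _ _
    have e2 := pk_avg h0 hr1
    rw [e1]
    have e3 : (2 * π)⁻¹ * (∫ x in (0 : ℝ)..2 * π, pk r x * g x) = A := rfl
    linear_combination (A ^ 2) * e2 - 2 * A * e3
  -- restriction to a small interval
  have hres : 1 / (4 * r) * (∫ x in (-r)..r, (g x - A) ^ 2) ≤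
      ∫ x in (0 : ℝ)..2 * π, pk r x * (g x - A) ^ 2 := by
    have hper : Function.Periodic (fun x => pk r x * (g x - A) ^ 2) (2 * π) := by
      intro x; simp only [gper, pper]
    have e1 := hper.intervalIntegral_add_eq 0 (-π)
    rw [zero_add, show -π + 2 * π = π by ring] at e1
    rw [e1]
    have hc : Continuous fun x => pk r x * (g x - A) ^ 2 := by fun_prop
    refine le_trans ?_ (intervalIntegral.integral_mono_interval (a := -r) (b := r)
      (c := -π) (d := π) (by linarith) (by linarith) (by linarith)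
      (Eventually.of_forall fun x => mul_nonneg (pk_nonneg h0 hr1 x) (sq_nonneg _))
      (hc.intervalIntegrable _ _))
    rw [← intervalIntegral.integral_const_mul]
    refine intervalIntegral.integral_mono_on (by linarith)
      (Continuous.intervalIntegrable (by fun_prop) _ _) (hc.intervalIntegrable _ _) fun x hx => ?_
    exact mul_le_mul_of_nonneg_right (pk_ge h0 h1 (abs_le.2 ⟨hx.1, hx.2⟩)) (sq_nonneg _)
  have hsplit : 1 / 2 * (∫ x in (-r)..0, (g (x + r) - g x) ^ 2) ≤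
      ∫ x in (-r)..r, (g x - A) ^ 2 := by
    have hc : Continuous fun x => (g x - A) ^ 2 := by fun_prop
    rw [← intervalIntegral.integral_add_adjacent_intervals (hc.intervalIntegrable (-r) 0)
      (hc.intervalIntegrable 0 r)]
    have e1 := intervalIntegral.integral_comp_add_right (a := -r) (b := 0)
      (fun x => (g x - A) ^ 2) r
    rw [neg_add_cancel, zero_add] at e1
    rw [← e1, ← intervalIntegral.integral_add (hc.intervalIntegrable _ _)
      (Continuous.intervalIntegrable (by fun_prop) _ _), ← intervalIntegral.integral_const_mul]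
    refine intervalIntegral.integral_mono_on (by linarith)
      (Continuous.intervalIntegrable (by fun_prop) _ _)
      (Continuous.intervalIntegrable (by fun_prop) _ _) fun x hx => ?_
    nlinarith [sq_nonneg ((g x - A) + (g (x + r) - A))]
  -- conclusion
  have h7 : (2 * π)⁻¹ * (1 / (4 * r) * (1 / 2 * (∫ x in (-r)..0, (g (x + r) - g x) ^ 2))) ≤
      (2 * π)⁻¹ * ∫ x in (0 : ℝ)..2 * π, pk r x * (g x - A) ^ 2 := by
    refine mul_le_mul_of_nonneg_left ?_ (by positivity)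
    refine le_trans ?_ hres
    exact mul_le_mul_of_nonneg_left hsplit (by positivity)
  rw [hvar] at h7
  have h8 : (2 * π)⁻¹ * (1 / (4 * r) * (1 / 2 * (∫ x in (-r)..0, (g (x + r) - g x) ^ 2))) =
      1 / (16 * π * r) * ∫ x in (-r)..0, (g (x + r) - g x) ^ 2 := by
    field_simp
    ring
  rw [h8] at h7
  linarith

theorem osc_pos {β : ℝ} (hβ : 0 < β) (m : ℕ) {r : ℝ} (h0 : 0 < r) (h1 : r ≤ 1 / 2) :
    dfun β m 0 - dfun β m r ≤ 16 * π * β * m * r * dfun β m 0 := by
  have := cbe_prob hβ.le m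
  have hr1 : r < 1 := by linarith
  have hπ := Real.pi_pos
  set C := ((2 : ℝ) ^ m) ^ β with hC
  have hC0 : 0 ≤ C := by positivity
  -- the two Fubini computations
  have c1 : Continuous (Function.uncurry fun (x : ℝ) (θ : Fin m → ℝ) =>
      (gf β (x + r) θ - gf β x θ) ^ 2) := by
    have a1 : Continuous fun p : ℝ × (Fin m → ℝ) => gf β (p.1 + r) p.2 :=
      gf_cont hβ.le (continuous_fst.add continuous_const) continuous_snd
    have a2 : Continuous fun p : ℝ × (Fin m → ℝ) => gf β p.1 p.2 :=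
      gf_cont hβ.le continuous_fst continuous_snd
    exact (a1.sub a2).pow 2
  have b1 : ∀ x (θ : Fin m → ℝ), |(gf β (x + r) θ - gf β x θ) ^ 2| ≤ (C + C) ^ 2 := by
    intro x θ
    rw [abs_pow]
    refine pow_le_pow_left₀ (abs_nonneg _) ?_ 2
    exact (abs_sub _ _).trans (add_le_add (gf_abs hβ.le _ _) (gf_abs hβ.le _ _))
  have c2 : Continuous (Function.uncurry fun (x : ℝ) (θ : Fin m → ℝ) =>
      pk r x * (gf β x θ * gf β x θ)) := by
    have a2 : Continuous fun p : ℝ × (Fin m → ℝ) => gf β p.1 p.2 :=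
      gf_cont hβ.le continuous_fst continuous_snd
    exact ((pk_cont h0 hr1).comp continuous_fst).mul (a2.mul a2)
  have b2 : ∀ x (θ : Fin m → ℝ), |pk r x * (gf β x θ * gf β x θ)| ≤ 1 / r ^ 2 * (C * C) := by
    intro x θ
    rw [abs_mul, abs_mul, abs_of_nonneg (pk_nonneg h0 hr1 x)]
    exact mul_le_mul (pk_bd h0 hr1 x) (mul_le_mul (gf_abs hβ.le _ _) (gf_abs hβ.le _ _)
      (abs_nonneg _) hC0) (by positivity) (by positivity)
  have f1 := cbe_swap hβ.le c1 _ b1 (-r) 0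
  have f2 := cbe_swap hβ.le c2 _ b2 0 (2 * π)
  have i1 := cbe_int_swap hβ.le c1 _ b1 (-r) 0
  have i2 := cbe_int_swap hβ.le c2 _ b2 0 (2 * π)
  have g1 : (∫ x in (-r)..0, ∫ θ : Fin m → ℝ, (gf β (x + r) θ - gf β x θ) ^ 2 ∂(cbe β m)) =
      r * (2 * (dfun β m 0 - dfun β m r)) := by
    have a1 : ∀ x : ℝ, (∫ θ : Fin m → ℝ, (gf β (x + r) θ - gf β x θ) ^ 2 ∂(cbe β m)) =
        2 * (dfun β m 0 - dfun β m r) := by
      intro x
      rw [gf_var hβ.le x (x + r), add_sub_cancel_left]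
    simp only [a1, intervalIntegral.integral_const, smul_eq_mul]
    ring
  have g2 : (∫ x in (0 : ℝ)..2 * π, ∫ θ : Fin m → ℝ, pk r x * (gf β x θ * gf β x θ) ∂(cbe β m)) =
      (2 * π) * dfun β m 0 := by
    have a1 : ∀ x : ℝ, (∫ θ : Fin m → ℝ, pk r x * (gf β x θ * gf β x θ) ∂(cbe β m)) =
        pk r x * dfun β m 0 := by
      intro x
      rw [integral_const_mul, gf_cov hβ.le x x, sub_self]
    simp only [a1, intervalIntegral.integral_mul_const]
    have a2 := pk_avg h0 hr1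
    have a3 : (∫ x in (0 : ℝ)..2 * π, pk r x) = 2 * π := by
      field_simp at a2
      linarith
    rw [a3]
  have hmain : ∫ θ : Fin m → ℝ, ((1 - r) ^ (m * β) * (gf β 0 θ * gf β 0 θ) +
        1 / (16 * π * r) * ∫ x in (-r)..0, (gf β (x + r) θ - gf β x θ) ^ 2) ∂(cbe β m) ≤
      ∫ θ : Fin m → ℝ, ((2 * π)⁻¹ * ∫ x in (0 : ℝ)..2 * π, pk r x * (gf β x θ * gf β x θ))
        ∂(cbe β m) :=
    integral_mono (((gf_mul_int hβ.le 0 0).const_mul _).add (i1.const_mul _)) (i2.const_mul _)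
      fun θ => osc_pt hβ θ h0 h1
  rw [integral_add ((gf_mul_int hβ.le 0 0).const_mul _) (i1.const_mul _), integral_const_mul,
    integral_const_mul, integral_const_mul, f1, f2, g1, g2, gf_cov hβ.le 0 0, sub_self] at hmain
  have hlog : 1 - 2 * (m * β) * r ≤ (1 - r) ^ (m * β) := by
    rw [Real.rpow_def_of_pos (by linarith)]
    have a1 : -(2 * r) ≤ Real.log (1 - r) := by
      have a2 := Real.one_sub_inv_le_log_of_pos (x := 1 - r) (by linarith)
      refine le_trans ?_ a2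
      have a3 : (1 - r)⁻¹ ≤ 1 + 2 * r := by
        rw [inv_le_comm₀ (by linarith) (by linarith)]
        rw [inv_le_iff_one_le_mul₀ (by linarith)]
        nlinarith
      linarith
    have a4 := Real.add_one_le_exp (Real.log (1 - r) * (m * β))
    have a5 : 0 ≤ (m : ℝ) * β := by positivity
    nlinarith
  have hd := dfun_pos hβ m
  have e5 : 1 / (16 * π * r) * (r * (2 * (dfun β m 0 - dfun β m r))) =
      (dfun β m 0 - dfun β m r) / (8 * π) := by
    field_simp
    ring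
  have e6 : (2 * π)⁻¹ * (2 * π * dfun β m 0) = dfun β m 0 := by
    field_simp
  rw [e5, e6] at hmain
  have e7 : (dfun β m 0 - dfun β m r) / (8 * π) ≤ 2 * (m * β) * r * dfun β m 0 := by
    nlinarith
  rw [div_le_iff₀ (by positivity)] at e7
  linarith

theorem osc {β : ℝ} (hβ : 0 < β) (m : ℕ) {s : ℝ} (hs : |s| ≤ 1 / 2) :
    dfun β m 0 - dfun β m s ≤ 64 * π ^ 2 * β * m * |s| * dfun β m 0 := by
  have hd := dfun_pos hβ m
  have hπ3 := Real.pi_gt_three
  rcases eq_or_ne s 0 with rfl | h0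
  · simp
  have h1 : dfun β m s = dfun β m |s| := by
    rcases abs_choice s with h | h
    · rw [h]
    · rw [h, dfun_neg hβ]
  rw [h1]
  refine (osc_pos hβ m (abs_pos.2 h0) hs).trans ?_
  refine mul_le_mul_of_nonneg_right ?_ hd.le
  refine mul_le_mul_of_nonneg_right ?_ (abs_nonneg _)
  refine mul_le_mul_of_nonneg_right ?_ (Nat.cast_nonneg _)
  refine mul_le_mul_of_nonneg_right ?_ hβ.le
  nlinarith

theorem dfun_sub {β : ℝ} (hβ : 0 < β) (m : ℕ) (s t : ℝ) (hs : |s - t| ≤ 1 / 2) :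
    |dfun β m s - dfun β m t| ≤ √(128 * π ^ 2 * β * m * |s - t|) * dfun β m 0 := by
  have hd := dfun_pos hβ m
  set D : ℝ := ∫ θ : Fin m → ℝ, gf β 0 θ * (gf β s θ - gf β t θ) ∂(cbe β m) with hD
  have hD1 : D = dfun β m s - dfun β m t := by
    have a1 := gf_cov (m := m) hβ.le 0 s
    have a2 := gf_cov (m := m) hβ.le 0 t
    rw [sub_zero] at a1 a2
    rw [hD, ← a1, ← a2, ← integral_sub (gf_mul_int hβ.le 0 s) (gf_mul_int hβ.le 0 t)]
    refine integral_congr_ae (Eventually.of_forall fun θ => ?_)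
    simp only; ring
  set V : ℝ := ∫ θ : Fin m → ℝ, (gf β s θ - gf β t θ) ^ 2 ∂(cbe β m) with hV
  have hV1 : V = 2 * (dfun β m 0 - dfun β m (s - t)) := gf_var hβ.le t s
  have hE : ∫ θ : Fin m → ℝ, gf β 0 θ * gf β 0 θ ∂(cbe β m) = dfun β m 0 := by
    rw [gf_cov hβ.le, sub_self]
  -- discriminant
  have h1 : D ^ 2 ≤ dfun β m 0 * V := by
    set c := D / dfun β m 0 with hc
    have h2 : 0 ≤ ∫ θ : Fin m → ℝ, ((gf β s θ - gf β t θ) - c * gf β 0 θ) ^ 2 ∂(cbe β m) :=
      integral_nonneg fun _ => sq_nonneg _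
    have i0 : Integrable (fun θ : Fin m → ℝ => (gf β s θ - gf β t θ) ^ 2) (cbe β m) := by
      have := ((gf_mul_int (m := m) hβ.le s s).add (gf_mul_int hβ.le t t)).sub
        ((gf_mul_int hβ.le s t).const_mul 2)
      refine this.congr (Eventually.of_forall fun θ => ?_)
      simp only [Pi.add_apply, Pi.sub_apply]; ring
    have i1 : Integrable (fun θ : Fin m → ℝ => gf β 0 θ * (gf β s θ - gf β t θ)) (cbe β m) := by
      refine ((gf_mul_int (m := m) hβ.le 0 s).sub (gf_mul_int hβ.le 0 t)).congr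
        (Eventually.of_forall fun θ => ?_)
      simp only [Pi.sub_apply]; ring
    have i2 := gf_mul_int (m := m) hβ.le 0 0
    have e1 : ∫ θ : Fin m → ℝ, ((gf β s θ - gf β t θ) - c * gf β 0 θ) ^ 2 ∂(cbe β m) =
        V - 2 * c * D + c ^ 2 * dfun β m 0 := by
      have i3 : Integrable (fun θ : Fin m → ℝ => (gf β s θ - gf β t θ) ^ 2 -
          2 * c * (gf β 0 θ * (gf β s θ - gf β t θ))) (cbe β m) := i0.sub (i1.const_mul _)
      rw [← hE, hV, hD, ← integral_const_mul, ← integral_const_mul, ← integral_sub i0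
        (i1.const_mul _), ← integral_add i3 (i2.const_mul _)]
      refine integral_congr_ae (Eventually.of_forall fun θ => ?_)
      simp only; ring
    rw [e1] at h2
    have h3 : c * dfun β m 0 = D := by rw [hc]; field_simp
    have h4 : V - 2 * c * D + c ^ 2 * dfun β m 0 = V - c * D := by
      rw [← h3]; ring
    rw [h4] at h2
    have h5 : 0 ≤ (V - c * D) * dfun β m 0 := mul_nonneg h2 hd.le
    have h6 : (V - c * D) * dfun β m 0 = dfun β m 0 * V - (c * dfun β m 0) * D := by ring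
    rw [h6, h3] at h5
    nlinarith
  have h2 : V ≤ 128 * π ^ 2 * β * m * |s - t| * dfun β m 0 := by
    rw [hV1]
    have := osc hβ m hs
    linarith
  rw [← hD1]
  apply abs_le_of_sq_le_sq
  · rw [mul_pow, Real.sq_sqrt (by positivity)]
    nlinarith
  · positivity

end Pool.Agent.Lib.MP_b33862_pr
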