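import Pool.Agent.Lib.MP_b33862_pr.Basic
import Pool.Agent.Lib.MP_b33862_pr.Energy
import Pool.Agent.Lib.MP_b33862_pr.Osc
import Pool.Agent.Lib.MP_b33862_pr.TwoPt

/-!
Upper bound and equicontinuity of the rescaled two-point correlation functions of the circular
beta ensemble.
-/

set_option autoImplicit false

namespace Pool.Agent.Lib.MP_b33862_pr

open MeasureTheory Set Real Filter
open scoped ENNReal Topology

/-- amplitude of `rho β n` -/
noncomputable def amp (β : ℝ) (n : ℕ) : ℝ :=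
  (n - 1) / (4 * π ^ 2 * n) * (Z β (n - 2) / Z β n) * dfun β (n - 2) 0 / (n : ℝ) ^ β

lemma amp_nonneg {β : ℝ} (hβ : 0 < β) {n : ℕ} (hn : 2 ≤ n) : 0 ≤ amp β n := by
  unfold amp
  have h1 : (2 : ℝ) ≤ n := by exact_mod_cast hn
  have hZ1 := Z_pos β hβ.le (n - 2)
  have hZ2 := Z_pos β hβ.le n
  have hd := dfun_pos hβ (n - 2)
  have h2 : (0 : ℝ) ≤ n - 1 := by linarith
  positivity

lemma rho_eq {β : ℝ} (hβ : 0 < β) {n : ℕ} (hn : 2 ≤ n) (x : ℝ) :
    rho β n x = amp β n * (n * ‖1 - e (x / n)‖) ^ β *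
      (dfun β (n - 2) (x / n) / dfun β (n - 2) 0) := by
  have h1 : (0 : ℝ) < n := by
    have : (2 : ℝ) ≤ n := by exact_mod_cast hn
    linarith
  have hd := (dfun_pos hβ (n - 2)).ne'
  have hn' : (n : ℝ) ^ β ≠ 0 := (rpow_pos_of_pos h1 β).ne'
  unfold rho amp
  rw [mul_rpow h1.le (norm_nonneg _)]
  field_simp

lemma scale_le {n : ℕ} (hn : 2 ≤ n) (x : ℝ) : n * ‖1 - e (x / n)‖ ≤ |x| := by
  have h1 : (0 : ℝ) < n := by
    have : (2 : ℝ) ≤ n := by exact_mod_cast hn
    linarith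
  calc n * ‖1 - e (x / n)‖ ≤ n * |x / n| := by
        gcongr
        exact one_sub_e_le _
    _ = |x| := by
        rw [abs_div, abs_of_pos h1]
        field_simp

lemma scale_nonneg (n : ℕ) (x : ℝ) : 0 ≤ n * ‖1 - e (x / n)‖ := by positivity

lemma scale_sub_le {n : ℕ} (hn : 2 ≤ n) (x y : ℝ) :
    |n * ‖1 - e (x / n)‖ - n * ‖1 - e (y / n)‖| ≤ |x - y| := by
  have h1 : (0 : ℝ) < n := by
    have : (2 : ℝ) ≤ n := by exact_mod_cast hn
    linarith
  rw [← mul_sub, abs_mul, abs_of_pos h1]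
  have h2 : |‖1 - e (x / n)‖ - ‖1 - e (y / n)‖| ≤ ‖e (y / n) - e (x / n)‖ := by
    refine (abs_norm_sub_norm_le _ _).trans (le_of_eq ?_)
    congr 1
    ring
  have h3 := e_sub_le (y / n) (x / n)
  have h4 : |y / n - x / n| = |x - y| / n := by
    rw [← sub_div, abs_div, abs_of_pos h1, abs_sub_comm]
  calc n * |‖1 - e (x / n)‖ - ‖1 - e (y / n)‖| ≤ n * (|x - y| / n) := by
        gcongr
        rw [← h4]
        exact h2.trans h3
    _ = |x - y| := by field_simp

lemma rho_le_amp {β : ℝ} (hβ : 0 < β) {n : ℕ} (hn : 2 ≤ n) (x : ℝ) :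
    rho β n x ≤ amp β n * |x| ^ β := by
  rw [rho_eq hβ hn]
  have hd := dfun_pos hβ (n - 2)
  have h1 : dfun β (n - 2) (x / n) / dfun β (n - 2) 0 ≤ 1 := by
    rw [div_le_one hd]
    exact dfun_le hβ _ _
  have h2 : (n * ‖1 - e (x / n)‖) ^ β ≤ |x| ^ β :=
    rpow_le_rpow (scale_nonneg n x) (scale_le hn x) hβ.le
  have h3 := amp_nonneg hβ hn
  calc amp β n * (n * ‖1 - e (x / n)‖) ^ β * (dfun β (n - 2) (x / n) / dfun β (n - 2) 0)
      ≤ amp β n * (n * ‖1 - e (x / n)‖) ^ β * 1 := by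
        gcongr
    _ ≤ amp β n * |x| ^ β := by
        rw [mul_one]
        gcongr

/-- the scale on which the factor `dfun` is almost constant -/
noncomputable def xz (B : ℝ) : ℝ := 1 / (128 * π ^ 2 * (|B| + 1))

lemma xz_pos (B : ℝ) : 0 < xz B := by
  unfold xz
  positivity

lemma xz_le (B : ℝ) : xz B ≤ 1 / 2 := by
  unfold xz
  have h1 : (3 : ℝ) < π := pi_gt_three
  have h2 : 0 ≤ |B| := abs_nonneg B
  apply one_div_le_one_div_of_le (by norm_num)
  nlinarith [mul_nonneg (sq_nonneg π) h2]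

lemma amp_le_rho {b B β : ℝ} (hb : 0 < b) (hβ : β ∈ Icc b B) {n : ℕ} (hn : 2 ≤ n) {x : ℝ}
    (hx : x ∈ Icc (xz B / 2) (xz B)) :
    amp β n * ((xz B / π) ^ B / 2) ≤ rho β n x := by
  have hβ0 : 0 < β := hb.trans_le hβ.1
  have hx0 := xz_pos B
  have hx1 := xz_le B
  have h1 : (2 : ℝ) ≤ n := by exact_mod_cast hn
  have h1' : (0 : ℝ) < n := by linarith
  have hxp : 0 < x := by linarith [hx.1]
  have hd := dfun_pos hβ0 (n - 2)
  have hpi : (3 : ℝ) < π := pi_gt_three
  rw [rho_eq hβ0 hn]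
  -- the dfun ratio
  have hs : |x / n| ≤ 1 / 2 := by
    rw [abs_of_pos (by positivity), div_le_iff₀ h1']
    nlinarith [hx.2]
  have hosc := osc hβ0 (n - 2) hs
  have hcast : ((n - 2 : ℕ) : ℝ) = n - 2 := by
    rw [Nat.cast_sub hn]
    norm_num
  have hsmall : 64 * π ^ 2 * β * ((n - 2 : ℕ) : ℝ) * |x / n| ≤ 1 / 2 := by
    rw [hcast, abs_of_pos (show 0 < x / n by positivity)]
    have hB : β ≤ |B| + 1 := (hβ.2.trans (le_abs_self B)).trans (by linarith)
    have h2 : ((n : ℝ) - 2) * (x / n) ≤ xz B := by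
      rw [mul_div_assoc', div_le_iff₀ h1']
      nlinarith [hx.2, mul_pos hxp h1']
    have h2' : 0 ≤ ((n : ℝ) - 2) * (x / n) := mul_nonneg (by linarith) (by positivity)
    calc 64 * π ^ 2 * β * ((n : ℝ) - 2) * (x / n)
        = 64 * π ^ 2 * (β * (((n : ℝ) - 2) * (x / n))) := by ring
      _ ≤ 64 * π ^ 2 * ((|B| + 1) * xz B) := by gcongr
      _ = 1 / 2 := by
        unfold xz
        field_simp
        norm_num
  have hratio : 1 / 2 ≤ dfun β (n - 2) (x / n) / dfun β (n - 2) 0 := by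
    rw [le_div_iff₀ hd]
    nlinarith [mul_le_mul_of_nonneg_right hsmall hd.le]
  -- the scale factor
  have hsin : xz B / π ≤ n * ‖1 - e (x / n)‖ := by
    rw [one_sub_e]
    have h3 := Real.mul_le_sin (x := x / n / 2) (by positivity) (by
      have : x / n ≤ 1 / 2 := (le_abs_self _).trans hs
      linarith)
    have h4 : 2 / π * (x / n / 2) = x / (π * n) := by
      field_simp
    rw [h4] at h3
    calc xz B / π ≤ 2 * x / π := by
          gcongr
          linarith [hx.1]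
      _ = n * (2 * (x / (π * n))) := by field_simp
      _ ≤ n * |2 * sin (x / n / 2)| := by
          gcongr
          exact (mul_le_mul_of_nonneg_left h3 (by norm_num)).trans (le_abs_self _)
  have hbase : 0 < xz B / π := by positivity
  have hbase1 : xz B / π ≤ 1 := by
    rw [div_le_one (by positivity)]
    linarith
  have hpow : (xz B / π) ^ B ≤ (n * ‖1 - e (x / n)‖) ^ β :=
    (rpow_le_rpow_of_exponent_ge hbase hbase1 hβ.2).trans (rpow_le_rpow hbase.le hsin hβ0.le)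
  have ha := amp_nonneg hβ0 hn
  calc amp β n * ((xz B / π) ^ B / 2) = amp β n * (xz B / π) ^ B * (1 / 2) := by ring
    _ ≤ _ := by gcongr

lemma rb_cnt_sub_one {n : ℕ} {r : ℝ} (hr : 0 ≤ r) (θ : Fin n → ℝ) (i : Fin n) :
    ENNReal.ofReal ((cnt r θ i : ℝ) - 1) =
      ∑ j ∈ Finset.univ.erase i, (if ‖e (θ i) - e (θ j)‖ ≤ r then (1 : ℝ≥0∞) else 0) := by
  have h1 : cnt r θ i =
      (∑ j ∈ Finset.univ.erase i, (if ‖e (θ i) - e (θ j)‖ ≤ r then 1 else 0)) + 1 := by
    unfold cnt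
    rw [Finset.card_filter, ← Finset.add_sum_erase _ _ (Finset.mem_univ i)]
    simp only [sub_self, norm_zero, hr, if_true]
    ring
  rw [h1]
  push_cast
  rw [add_sub_cancel_right]
  have h2 : (∑ j ∈ Finset.univ.erase i, (if ‖e (θ i) - e (θ j)‖ ≤ r then (1 : ℝ) else 0)) =
      ((∑ j ∈ Finset.univ.erase i, (if ‖e (θ i) - e (θ j)‖ ≤ r then 1 else 0) : ℕ) : ℝ) := by
    push_cast
    rfl
  rw [h2, ENNReal.ofReal_natCast]
  push_cast
  rfl

lemma rb_measurable_cnt {n : ℕ} (r : ℝ) (i : Fin n) :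
    Measurable fun θ : Fin n → ℝ => ENNReal.ofReal ((cnt r θ i : ℝ) - 1) := by
  apply ENNReal.measurable_ofReal.comp
  apply Measurable.sub_const
  have : (fun θ : Fin n → ℝ => (cnt r θ i : ℝ)) = fun θ =>
      ∑ j : Fin n, (if ‖e (θ i) - e (θ j)‖ ≤ r then (1 : ℝ) else 0) := by
    funext θ
    unfold cnt
    rw [Finset.card_filter]
    push_cast
    rfl
  rw [this]
  refine Finset.measurable_sum _ fun j _ => Measurable.ite ?_ measurable_const measurable_const
  apply measurableSet_le _ measurable_const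
  exact (((e_continuous.measurable.comp (measurable_pi_apply i)).sub
    (e_continuous.measurable.comp (measurable_pi_apply j))).norm)

lemma rb_cnt_per {n : ℕ} (r : ℝ) (i : Fin n) :
    Per fun θ : Fin n → ℝ => ENNReal.ofReal ((cnt r θ i : ℝ) - 1) := by
  intro θ θ' h
  have : cnt r θ i = cnt r θ' i := by
    unfold cnt
    simp only [h]
  simp only [this]

lemma rb_cnt_rot {n : ℕ} (r : ℝ) (i : Fin n) :
    Rot fun θ : Fin n → ℝ => ENNReal.ofReal ((cnt r θ i : ℝ) - 1) := by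
  intro θ a
  have : cnt r (fun i => θ i + a) i = cnt r θ i := by
    unfold cnt
    congr 1
    ext j
    simp only [Finset.mem_filter, Finset.mem_univ, true_and, e_add, ← sub_mul, norm_mul, e_norm,
      mul_one]
  simp only [this]

/-- test function -/
noncomputable def rbtf (x0 : ℝ) : ℝ × ℝ → ℝ≥0∞ :=
  {p : ℝ × ℝ | p.1 ∈ Ico (0 : ℝ) 1 ∧ p.2 - p.1 ∈ Icc (x0 / 2) x0}.indicator 1

lemma measurable_rbtf (x0 : ℝ) : Measurable (rbtf x0) := by
  apply Measurable.indicator measurable_one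
  exact (measurableSet_Ico.preimage measurable_fst).inter
    (measurableSet_Icc.preimage (measurable_snd.sub measurable_fst))

lemma circ_Ico_le {n : ℕ} (hn : 2 ≤ n) :
    circ (Ico 0 (1 / n)) ≤ ENNReal.ofReal (1 / (2 * π * n)) := by
  have h1 : (2 : ℝ) ≤ n := by exact_mod_cast hn
  have h1' : (0 : ℝ) < n := by linarith
  unfold circ
  rw [Measure.smul_apply, smul_eq_mul]
  have h2 : volume.restrict (Ico (-π) π) (Ico (0 : ℝ) (1 / n)) ≤ ENNReal.ofReal (1 / n) := by
    refine (Measure.restrict_apply_le _ _).trans ?_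
    rw [Real.volume_Ico, sub_zero]
  calc (ENNReal.ofReal (2 * π))⁻¹ * volume.restrict (Ico (-π) π) (Ico (0 : ℝ) (1 / n))
      ≤ (ENNReal.ofReal (2 * π))⁻¹ * ENNReal.ofReal (1 / n) := by gcongr
    _ = ENNReal.ofReal (1 / (2 * π * n)) := by
        rw [← ENNReal.ofReal_inv_of_pos (by positivity), ← ENNReal.ofReal_mul (by positivity)]
        congr 1
        field_simp

lemma two_point_le {β : ℝ} (hβ : 0 < β) {n : ℕ} (hn : 2 ≤ n) {x0 C : ℝ} (h0 : 0 < x0)
    (h1 : x0 ≤ 1)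
    (hC : ∫⁻ θ, ∑ i, ENNReal.ofReal ((cnt (1 / n) θ i : ℝ) - 1) ∂(cbe β n) ≤
      ENNReal.ofReal (C * n)) :
    ∫⁻ θ, ∑ i, ∑ j ∈ Finset.univ.erase i, rbtf x0 (n * θ i, n * θ j) ∂(cbe β n) ≤
      ENNReal.ofReal (C / (2 * π)) := by
  have hn1 : (2 : ℝ) ≤ n := by exact_mod_cast hn
  have hn0 : (0 : ℝ) < n := by linarith
  have key : ∀ (θ : Fin n → ℝ) (i : Fin n),
      ∑ j ∈ Finset.univ.erase i, rbtf x0 (n * θ i, n * θ j) ≤
        (Ico (0 : ℝ) (1 / n)).indicator 1 (θ i) * ENNReal.ofReal ((cnt (1 / n) θ i : ℝ) - 1) := by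
    intro θ i
    rw [rb_cnt_sub_one (by positivity), Finset.mul_sum]
    refine Finset.sum_le_sum fun j _ => ?_
    unfold rbtf
    by_cases hmem : (n * θ i, n * θ j) ∈
        {p : ℝ × ℝ | p.1 ∈ Ico (0 : ℝ) 1 ∧ p.2 - p.1 ∈ Icc (x0 / 2) x0}
    · rw [indicator_of_mem hmem]
      obtain ⟨⟨ha, hb⟩, hc, hd⟩ := hmem
      simp only at ha hb hc hd
      have hmem2 : θ i ∈ Ico (0 : ℝ) (1 / n) := by
        constructor
        · by_contra hneg
          push Not at hneg
          nlinarith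
        · rw [lt_div_iff₀ hn0]
          linarith
      rw [indicator_of_mem hmem2]
      have hdist : ‖e (θ i) - e (θ j)‖ ≤ 1 / n := by
        refine (e_sub_le _ _).trans ?_
        rw [abs_le]
        have e1 : (n : ℝ) * (θ j - θ i) ≤ 1 := by linarith
        have e2 : 0 ≤ (n : ℝ) * (θ j - θ i) := by linarith
        have e3 : θ j - θ i ≤ 1 / n := by
          rw [le_div_iff₀ hn0]
          linarith
        have e4 : 0 ≤ θ j - θ i := by
          by_contra hneg
          push Not at hneg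
          nlinarith
        constructor
        · linarith
        · have : 0 ≤ 1 / (n : ℝ) := by positivity
          linarith
      rw [if_pos hdist]
      simp
    · rw [indicator_of_notMem hmem]
      exact zero_le
  calc ∫⁻ θ, ∑ i, ∑ j ∈ Finset.univ.erase i, rbtf x0 (n * θ i, n * θ j) ∂(cbe β n)
      ≤ ∫⁻ θ, ∑ i, (Ico (0 : ℝ) (1 / n)).indicator 1 (θ i) *
          ENNReal.ofReal ((cnt (1 / n) θ i : ℝ) - 1) ∂(cbe β n) :=
        lintegral_mono fun θ => Finset.sum_le_sum fun i _ => key θ i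
    _ = ∑ i, ∫⁻ θ, (Ico (0 : ℝ) (1 / n)).indicator 1 (θ i) *
          ENNReal.ofReal ((cnt (1 / n) θ i : ℝ) - 1) ∂(cbe β n) := by
        rw [lintegral_finsetSum]
        intro i _
        refine Measurable.mul ?_ (rb_measurable_cnt _ i)
        exact (measurable_one.indicator measurableSet_Ico).comp (measurable_pi_apply i)
    _ = ∑ i, circ (Ico (0 : ℝ) (1 / n)) *
          ∫⁻ θ, ENNReal.ofReal ((cnt (1 / n) θ i : ℝ) - 1) ∂(cbe β n) := by
        refine Finset.sum_congr rfl fun i _ => ?_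
        exact mass_transport hβ.le (rb_measurable_cnt _ i) (rb_cnt_per _ i) (rb_cnt_rot _ i) i
          measurableSet_Ico
    _ = circ (Ico (0 : ℝ) (1 / n)) *
          ∫⁻ θ, ∑ i, ENNReal.ofReal ((cnt (1 / n) θ i : ℝ) - 1) ∂(cbe β n) := by
        rw [← Finset.mul_sum, lintegral_finsetSum]
        intro i _
        exact rb_measurable_cnt _ i
    _ ≤ ENNReal.ofReal (1 / (2 * π * n)) * ENNReal.ofReal (C * n) :=
        mul_le_mul' (circ_Ico_le hn) hC
    _ = ENNReal.ofReal (C / (2 * π)) := by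
        rw [← ENNReal.ofReal_mul (by positivity)]
        congr 1
        field_simp

lemma le_two_point {b B β : ℝ} (hb : 0 < b) (hβ : β ∈ Icc b B) {n : ℕ} (hn : 2 ≤ n) :
    ENNReal.ofReal (amp β n * ((xz B / π) ^ B / 2) * (xz B / 2)) ≤
      ∫⁻ x in Ico (-(n * π)) (n * π), ∫⁻ y in Ico (-(n * π)) (n * π),
        rbtf (xz B) (x, y) * ENNReal.ofReal (rho β n (y - x)) := by
  have hβ0 : 0 < β := hb.trans_le hβ.1
  have hn1 : (2 : ℝ) ≤ n := by exact_mod_cast hn
  have hn0 : (0 : ℝ) < n := by linarith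
  have hpi : (3 : ℝ) < π := pi_gt_three
  have hnpi : (6 : ℝ) ≤ n * π := by nlinarith
  have hx0 := xz_pos B
  have hx1 := xz_le B
  set a : ℝ := amp β n * ((xz B / π) ^ B / 2) with ha
  have ha0 : 0 ≤ a := mul_nonneg (amp_nonneg hβ0 hn) (by positivity)
  have inner : ∀ x ∈ Ico (0 : ℝ) 1, ENNReal.ofReal (a * (xz B / 2)) ≤
      ∫⁻ y in Ico (-(n * π)) (n * π), rbtf (xz B) (x, y) * ENNReal.ofReal (rho β n (y - x)) := by
    intro x hx
    calc ENNReal.ofReal (a * (xz B / 2))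
        = ∫⁻ y in Icc (x + xz B / 2) (x + xz B), ENNReal.ofReal a := by
          rw [setLIntegral_const, Real.volume_Icc, ← ENNReal.ofReal_mul ha0]
          congr 1
          ring
      _ ≤ ∫⁻ y in Icc (x + xz B / 2) (x + xz B),
            rbtf (xz B) (x, y) * ENNReal.ofReal (rho β n (y - x)) := by
          refine setLIntegral_mono' measurableSet_Icc fun y hy => ?_
          have hyx : y - x ∈ Icc (xz B / 2) (xz B) := by
            constructor
            · linarith [hy.1]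
            · linarith [hy.2]
          have : rbtf (xz B) (x, y) = 1 := by
            unfold rbtf
            rw [indicator_of_mem]
            · rfl
            · exact ⟨hx, hyx⟩
          rw [this, one_mul]
          exact ENNReal.ofReal_le_ofReal (amp_le_rho hb hβ hn hyx)
      _ ≤ _ := by
          refine lintegral_mono_set ?_
          intro y hy
          constructor
          · linarith [hy.1, hx.1]
          · linarith [hy.2, hx.2]
  calc ENNReal.ofReal (a * (xz B / 2)) = ∫⁻ x in Ico (0 : ℝ) 1, ENNReal.ofReal (a * (xz B / 2)) := by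
        rw [setLIntegral_const, Real.volume_Ico]
        simp
    _ ≤ ∫⁻ x in Ico (0 : ℝ) 1, ∫⁻ y in Ico (-(n * π)) (n * π),
          rbtf (xz B) (x, y) * ENNReal.ofReal (rho β n (y - x)) :=
        setLIntegral_mono' measurableSet_Ico inner
    _ ≤ _ := by
        refine lintegral_mono_set ?_
        intro x hx
        constructor
        · linarith [hx.1]
        · linarith [hx.2]

theorem amp_bdd (b B : ℝ) (hb : 0 < b) : ∃ C : ℝ, 0 ≤ C ∧ ∀ β ∈ Icc b B, ∀ n : ℕ, 2 ≤ n →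
    amp β n ≤ C := by
  obtain ⟨C, hC0, hC⟩ := count_le b B 1 hb one_pos
  have hx0 := xz_pos B
  have hc1 : 0 < (xz B / π) ^ B / 2 := by positivity
  refine ⟨C / (2 * π) / (((xz B / π) ^ B / 2) * (xz B / 2)), by positivity, fun β hβ n hn => ?_⟩
  have hβ0 : 0 < β := hb.trans_le hβ.1
  have h1 := le_two_point hb hβ hn
  rw [← two_point hβ0 hn (measurable_rbtf _)] at h1
  have h2 := two_point_le hβ0 hn hx0 (by linarith [xz_le B]) (hC β hβ n).1
  have h3 := h1.trans h2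
  rw [ENNReal.ofReal_le_ofReal_iff (by positivity)] at h3
  rw [le_div_iff₀ (by positivity)]
  linarith

theorem rho_le (b B : ℝ) (hb : 0 < b) : ∃ C : ℝ, 0 ≤ C ∧ ∀ β ∈ Icc b B, ∀ n : ℕ, 2 ≤ n → ∀ x : ℝ,
    rho β n x ≤ C * |x| ^ β := by
  obtain ⟨C, hC0, hC⟩ := amp_bdd b B hb
  refine ⟨C, hC0, fun β hβ n hn x => ?_⟩
  have hβ0 : 0 < β := hb.trans_le hβ.1
  refine (rho_le_amp hβ0 hn x).trans ?_
  gcongr
  exact hC β hβ n hn

/-- uniform continuity of powers with exponents in a compact interval -/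
lemma rpow_unif (b B R : ℝ) (hb : 0 < b) : ∀ ε : ℝ, 0 < ε → ∃ δ : ℝ, 0 < δ ∧ ∀ β ∈ Icc b B,
    ∀ u ∈ Icc 0 R, ∀ v ∈ Icc 0 R, |u - v| ≤ δ → |u ^ β - v ^ β| ≤ ε := by
  intro ε hε
  have hK : IsCompact (Icc (0 : ℝ) R ×ˢ Icc b B) := isCompact_Icc.prod isCompact_Icc
  have hc : ContinuousOn (fun p : ℝ × ℝ => p.1 ^ p.2) (Icc (0 : ℝ) R ×ˢ Icc b B) := by
    intro p hp
    exact (continuousAt_rpow p (Or.inr (hb.trans_le hp.2.1))).continuousWithinAt
  have hu := hK.uniformContinuousOn_of_continuous hc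
  rw [Metric.uniformContinuousOn_iff] at hu
  obtain ⟨δ, hδ, h⟩ := hu ε hε
  refine ⟨δ / 2, by positivity, fun β hβ u hu' v hv huv => ?_⟩
  have := h (u, β) ⟨hu', hβ⟩ (v, β) ⟨hv, hβ⟩ (by
    rw [Prod.dist_eq, dist_self, max_eq_left dist_nonneg, Real.dist_eq]
    linarith)
  rw [Real.dist_eq] at this
  exact this.le

theorem rho_equi (b B R : ℝ) (hb : 0 < b) : ∀ ε : ℝ, 0 < ε → ∃ δ : ℝ, 0 < δ ∧ ∀ β ∈ Icc b B,
    ∀ n : ℕ, 2 ≤ n → ∀ x ∈ Icc (-R) R, ∀ y ∈ Icc (-R) R, |x - y| ≤ δ →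
      |rho β n x - rho β n y| ≤ ε := by
  intro ε hε
  obtain ⟨C, hC0, hC⟩ := amp_bdd b B hb
  obtain ⟨δ₁, hδ₁, h1⟩ := rpow_unif b B |R| hb (ε / (2 * (C + 1))) (by positivity)
  -- bound for the powers
  set M : ℝ := (max 1 |R|) ^ |B| with hM
  have hM0 : 0 < M := by positivity
  set η : ℝ := ε / (2 * (C + 1) * M) with hη
  have hη0 : 0 < η := by positivity
  set δ₂ : ℝ := η ^ 2 / (128 * π ^ 2 * (|B| + 1)) with hδ₂
  have hδ₂0 : 0 < δ₂ := by positivity
  refine ⟨min (min δ₁ δ₂) (1 / 2), by positivity, fun β hβ n hn x hx y hy hxy => ?_⟩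
  have hβ0 : 0 < β := hb.trans_le hβ.1
  have hn1 : (2 : ℝ) ≤ n := by exact_mod_cast hn
  have hn0 : (0 : ℝ) < n := by linarith
  have hxy1 : |x - y| ≤ δ₁ := hxy.trans ((min_le_left _ _).trans (min_le_left _ _))
  have hxy2 : |x - y| ≤ δ₂ := hxy.trans ((min_le_left _ _).trans (min_le_right _ _))
  have hxy3 : |x - y| ≤ 1 / 2 := hxy.trans (min_le_right _ _)
  have hR : ∀ z ∈ Icc (-R) R, |z| ≤ |R| := fun z hz => (abs_le.2 hz).trans (le_abs_self R)
  have hd := dfun_pos hβ0 (n - 2)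
  set u : ℝ := n * ‖1 - e (x / n)‖ with hu
  set v : ℝ := n * ‖1 - e (y / n)‖ with hv
  have hu0 : 0 ≤ u := scale_nonneg n x
  have hv0 : 0 ≤ v := scale_nonneg n y
  have huR : u ≤ |R| := (scale_le hn x).trans (hR x hx)
  have hvR : v ≤ |R| := (scale_le hn y).trans (hR y hy)
  have huv : |u ^ β - v ^ β| ≤ ε / (2 * (C + 1)) :=
    h1 β hβ u ⟨hu0, huR⟩ v ⟨hv0, hvR⟩ ((scale_sub_le hn x y).trans hxy1)
  have hvM : v ^ β ≤ M := by
    calc v ^ β ≤ (max 1 |R|) ^ β := rpow_le_rpow hv0 (hvR.trans (le_max_right _ _)) hβ0.le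
      _ ≤ M := rpow_le_rpow_of_exponent_le (le_max_left _ _) (hβ.2.trans (le_abs_self B))
  set p : ℝ := dfun β (n - 2) (x / n) / dfun β (n - 2) 0 with hp
  set q : ℝ := dfun β (n - 2) (y / n) / dfun β (n - 2) 0 with hq
  have hp0 : 0 ≤ p := div_nonneg (dfun_nonneg _ _ _) hd.le
  have hp1 : p ≤ 1 := by
    rw [hp, div_le_one hd]
    exact dfun_le hβ0 _ _
  have hdist : |x / n - y / n| = |x - y| / n := by
    rw [← sub_div, abs_div, abs_of_pos hn0]
  have hpq : |p - q| ≤ η := by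
    have h2 := dfun_sub hβ0 (n - 2) (x / n) (y / n) (by
      rw [hdist, div_le_iff₀ hn0]
      nlinarith)
    have h3 : √(128 * π ^ 2 * β * ((n - 2 : ℕ) : ℝ) * |x / n - y / n|) ≤ η := by
      rw [Real.sqrt_le_left hη0.le, hdist, Nat.cast_sub hn]
      have hB : β ≤ |B| + 1 := (hβ.2.trans (le_abs_self B)).trans (by linarith)
      have h4 : ((n : ℝ) - (2 : ℕ)) * (|x - y| / n) ≤ δ₂ := by
        rw [mul_div_assoc', div_le_iff₀ hn0]
        push_cast
        nlinarith [abs_nonneg (x - y)]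
      have h5 : 0 ≤ ((n : ℝ) - (2 : ℕ)) * (|x - y| / n) := by
        push_cast
        exact mul_nonneg (by linarith) (by positivity)
      calc 128 * π ^ 2 * β * ((n : ℝ) - (2 : ℕ)) * (|x - y| / n)
          = 128 * π ^ 2 * (β * (((n : ℝ) - (2 : ℕ)) * (|x - y| / n))) := by ring
        _ ≤ 128 * π ^ 2 * ((|B| + 1) * δ₂) := by gcongr
        _ = η ^ 2 := by
          rw [hδ₂]
          field_simp
    rw [hp, hq, ← sub_div, abs_div, abs_of_pos hd, div_le_iff₀ hd]
    exact h2.trans (by gcongr)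
  have ha := amp_nonneg hβ0 hn
  have haC := hC β hβ n hn
  rw [rho_eq hβ0 hn, rho_eq hβ0 hn, ← hu, ← hv, ← hp, ← hq]
  have hsplit : amp β n * u ^ β * p - amp β n * v ^ β * q =
      amp β n * ((u ^ β - v ^ β) * p + v ^ β * (p - q)) := by ring
  rw [hsplit, abs_mul, abs_of_nonneg ha]
  have h6 : |(u ^ β - v ^ β) * p + v ^ β * (p - q)| ≤ ε / (2 * (C + 1)) * 1 + M * η := by
    refine (abs_add_le _ _).trans ?_
    rw [abs_mul, abs_mul, abs_of_nonneg hp0, abs_of_nonneg (rpow_nonneg hv0 β)]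
    gcongr
  calc amp β n * |(u ^ β - v ^ β) * p + v ^ β * (p - q)|
      ≤ (C + 1) * (ε / (2 * (C + 1)) * 1 + M * η) := by
        gcongr
        linarith
    _ = ε := by
      rw [hη]
      field_simp
      ring

end Pool.Agent.Lib.MP_b33862_pr
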