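import Mathlib
import Pool.Agent.Lib.MP_b33862_pr.TwoPt
import Pool.Agent.Lib.MP_b33862_pr.RhoBd
import Pool.Agent.Lib.MP_b33862_pr.BetaCont

set_option autoImplicit false

namespace Pool.Agent.Lib.MP_b33862_pr

open MeasureTheory Set Real Filter
open scoped ENNReal Topology

/-- a smooth bump of integral one, supported in the ball of radius `δ` around `a` -/
lemma exists_bump (a δ : ℝ) (hδ : 0 < δ) : ∃ f : ℝ → ℝ, Continuous f ∧ HasCompactSupport f ∧
    (∀ x, 0 ≤ f x) ∧ (∀ x, f x ≠ 0 → |x - a| < δ) ∧ Integrable f ∧ ∫ x, f x = 1 ∧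
    ∃ K : NNReal, LipschitzWith K f := by
  let B : ContDiffBump a := ⟨δ / 2, δ, by positivity, by linarith⟩
  refine ⟨B.normed volume, B.continuous_normed, B.hasCompactSupport_normed, B.nonneg_normed,
    ?_, B.integrable_normed, B.integral_normed, ?_⟩
  · intro x hx
    have h : x ∈ Function.support (B.normed volume) := hx
    rw [B.support_normed_eq] at h
    rw [← Real.dist_eq]
    exact h
  · exact ContDiff.lipschitzWith_of_hasCompactSupport B.hasCompactSupport_normed
      (B.contDiff_normed (n := 1)) (by simp)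

lemma lintegral_bump {f : ℝ → ℝ} (hf0 : ∀ x, 0 ≤ f x) (hI : Integrable f) (h1 : ∫ x, f x = 1) :
    ∫⁻ x, ENNReal.ofReal (f x) = 1 := by
  rw [← ofReal_integral_eq_lintegral_ofReal hI (Eventually.of_forall hf0), h1, ENNReal.ofReal_one]

/-- smearing with two bumps changes `rho β n x` by little -/
lemma smear {β ε : ℝ} {n : ℕ} {x δ R : ℝ} {f g : ℝ → ℝ}
    (hf : Continuous f) (hf0 : ∀ x, 0 ≤ f x) (hfd : ∀ u, f u ≠ 0 → |u - 0| < δ)
    (hfI : Integrable f) (hf1 : ∫ x, f x = 1)
    (hg : Continuous g) (hg0 : ∀ x, 0 ≤ g x) (hgd : ∀ u, g u ≠ 0 → |u - x| < δ)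
    (hgI : Integrable g) (hg1 : ∫ x, g x = 1)
    (hR : |x| + 2 * δ ≤ R) (h : ∀ y ∈ Icc (-R) R, |x - y| ≤ 2 * δ → |rho β n x - rho β n y| ≤ ε) :
    ∫⁻ u, ∫⁻ v, ENNReal.ofReal (f u * g v * rho β n (v - u)) ≤ ENNReal.ofReal (rho β n x + ε) ∧
    ENNReal.ofReal (rho β n x - ε) ≤ ∫⁻ u, ∫⁻ v, ENNReal.ofReal (f u * g v * rho β n (v - u)) := by
  have key : ∀ u v, f u * g v ≠ 0 → |rho β n x - rho β n (v - u)| ≤ ε := by
    intro u v huv
    have h1 := hfd u (left_ne_zero_of_mul huv)
    have h2 := hgd v (right_ne_zero_of_mul huv)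
    rw [sub_zero] at h1
    rw [abs_lt] at h1 h2
    apply h
    · constructor
      · have := neg_abs_le x; linarith
      · have := le_abs_self x; linarith
    · rw [abs_le]; constructor <;> linarith
  have hconst : ∀ c : ℝ, ∫⁻ u, ∫⁻ v, ENNReal.ofReal (f u * g v * c) = ENNReal.ofReal c := by
    intro c
    have e1 : ∀ u v, ENNReal.ofReal (f u * g v * c) =
        ENNReal.ofReal (f u) * (ENNReal.ofReal (g v) * ENNReal.ofReal c) := by
      intro u v
      rw [ENNReal.ofReal_mul (mul_nonneg (hf0 u) (hg0 v)), ENNReal.ofReal_mul (hf0 u), mul_assoc]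
    simp_rw [e1]
    have m1 : Measurable fun v => ENNReal.ofReal (g v) := ENNReal.measurable_ofReal.comp hg.measurable
    have m2 : Measurable fun v => ENNReal.ofReal (f v) := ENNReal.measurable_ofReal.comp hf.measurable
    have e2 : ∀ u, ∫⁻ v, ENNReal.ofReal (f u) * (ENNReal.ofReal (g v) * ENNReal.ofReal c) =
        ENNReal.ofReal (f u) * ENNReal.ofReal c := by
      intro u
      rw [lintegral_const_mul _ (m1.mul_const _), lintegral_mul_const _ m1,
        lintegral_bump hg0 hgI hg1, one_mul]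
    simp_rw [e2]
    rw [lintegral_mul_const _ m2, lintegral_bump hf0 hfI hf1, one_mul]
  constructor
  · rw [← hconst]
    apply lintegral_mono; intro u
    apply lintegral_mono; intro v
    apply ENNReal.ofReal_le_ofReal
    by_cases huv : f u * g v = 0
    · simp [huv]
    · apply mul_le_mul_of_nonneg_left _ (mul_nonneg (hf0 u) (hg0 v))
      have := key u v huv
      rw [abs_le] at this; linarith
  · rw [← hconst]
    apply lintegral_mono; intro u
    apply lintegral_mono; intro v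
    apply ENNReal.ofReal_le_ofReal
    by_cases huv : f u * g v = 0
    · simp [huv]
    · apply mul_le_mul_of_nonneg_left _ (mul_nonneg (hf0 u) (hg0 v))
      have := key u v huv
      rw [abs_le] at this; linarith

theorem rho_lim_exists {β : ℝ} (hβ : 0 < β)
    (h : ∀ f g : ℝ → ℝ, Continuous f → HasCompactSupport f → (∀ x, 0 ≤ f x) →
      Continuous g → HasCompactSupport g → (∀ x, 0 ≤ g x) → ∃ l : ℝ≥0∞, l < ∞ ∧
      Tendsto (fun n : ℕ => (∫⁻ x, ∫⁻ y, ENNReal.ofReal (f x * g y * rho β n (y - x))) +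
        ∫⁻ x, ENNReal.ofReal (1 / (2 * π) * f x * g x)) atTop (𝓝 l)) :
    ∀ x, ∃ r : ℝ, Tendsto (fun n : ℕ => rho β n x) atTop (𝓝 r) := by
  intro x
  apply cauchySeq_tendsto_of_complete
  rw [Metric.cauchySeq_iff]
  intro ε hε
  obtain ⟨δ₀, hδ₀, hδ⟩ := rho_equi β β (|x| + 2) hβ (ε / 6) (by positivity)
  set δ := min (δ₀ / 2) 1 with hδdef
  have hδpos : 0 < δ := by positivity
  have hδ1 : 2 * δ ≤ δ₀ := by have := min_le_left (δ₀ / 2) 1; linarith
  have hδ2 : δ ≤ 1 := min_le_right _ _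
  obtain ⟨f, hf, hfs, hf0, hfd, hfI, hf1, -⟩ := exists_bump 0 δ hδpos
  obtain ⟨g, hg, hgs, hg0, hgd, hgI, hg1, -⟩ := exists_bump x δ hδpos
  obtain ⟨l, hl, hlim⟩ := h f g hf hfs hf0 hg hgs hg0
  set a : ℕ → ℝ≥0∞ := fun n => ∫⁻ u, ∫⁻ v, ENNReal.ofReal (f u * g v * rho β n (v - u)) with ha
  set c : ℝ≥0∞ := ∫⁻ x, ENNReal.ofReal (1 / (2 * π) * f x * g x) with hc
  have hlim' : Tendsto (fun n => a n + c) atTop (𝓝 l) := hlim
  have hsm : ∀ n : ℕ, 2 ≤ n → a n ≤ ENNReal.ofReal (rho β n x + ε / 6) ∧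
      ENNReal.ofReal (rho β n x - ε / 6) ≤ a n := by
    intro n hn
    apply smear (R := |x| + 2) hf hf0 hfd hfI hf1 hg hg0 hgd hgI hg1 (by linarith)
    intro y hy hxy
    apply hδ β (by simp) n hn x _ y hy (hxy.trans hδ1)
    constructor
    · have := neg_abs_le x; linarith
    · have := le_abs_self x; linarith
  have hev : ∀ᶠ n in atTop, a n + c < l + 1 :=
    hlim'.eventually_lt_const (ENNReal.lt_add_right hl.ne one_ne_zero)
  have hc_fin : c ≠ ∞ := by
    obtain ⟨n, hn⟩ := hev.exists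
    intro hc'
    rw [hc'] at hn
    simp at hn
  -- real sequences
  have hareal : Tendsto (fun n => (a n + c).toReal) atTop (𝓝 l.toReal) :=
    (ENNReal.tendsto_toReal hl.ne).comp hlim'
  have hcau := hareal.cauchySeq
  rw [Metric.cauchySeq_iff] at hcau
  obtain ⟨N, hN⟩ := hcau (ε / 2) (by positivity)
  obtain ⟨N', hN'⟩ := eventually_atTop.1 hev
  have hclose : ∀ n, 2 ≤ n → N' ≤ n → |rho β n x + c.toReal - (a n + c).toReal| ≤ ε / 6 := by
    intro n hn hn'
    have h1 := hsm n hn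
    have hafin : a n ≠ ∞ := by
      intro h'
      have h2 := hN' n hn'
      rw [h'] at h2; simp at h2
    have hnn := rho_nonneg hβ (show 1 ≤ n by omega) x
    rw [ENNReal.toReal_add hafin hc_fin]
    have h3 : (a n).toReal ≤ rho β n x + ε / 6 := by
      have := ENNReal.toReal_mono ENNReal.ofReal_ne_top h1.1
      rwa [ENNReal.toReal_ofReal (by positivity)] at this
    have h4 : rho β n x - ε / 6 ≤ (a n).toReal := by
      have h5 := ENNReal.toReal_mono hafin h1.2
      rw [ENNReal.toReal_ofReal'] at h5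
      exact (le_max_left _ _).trans h5
    rw [abs_le]; constructor <;> linarith
  refine ⟨max (max N N') 2, fun m hm n hn => ?_⟩
  have hm1 : N ≤ m := (le_max_left _ _).trans ((le_max_left _ _).trans hm)
  have hn1 : N ≤ n := (le_max_left _ _).trans ((le_max_left _ _).trans hn)
  have hm2 : N' ≤ m := (le_max_right _ _).trans ((le_max_left _ _).trans hm)
  have hn2 : N' ≤ n := (le_max_right _ _).trans ((le_max_left _ _).trans hn)
  have hm3 : 2 ≤ m := (le_max_right _ _).trans hm
  have hn3 : 2 ≤ n := (le_max_right _ _).trans hn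
  have h1 := hclose m hm3 hm2
  have h2 := hclose n hn3 hn2
  have h3 := hN m hm1 n hn1
  rw [Real.dist_eq] at h3 ⊢
  rw [abs_lt] at h3 ⊢
  rw [abs_le] at h1 h2
  constructor <;> linarith

/-- a limit (along any filter) of the two-point functions is jointly continuous -/
theorem lim_cont {l : Filter ℕ} [l.NeBot] (hl : l ≤ atTop) {r : ℝ → ℝ → ℝ}
    (hr : ∀ β, 0 < β → ∀ x, Tendsto (fun n : ℕ => rho β n x) l (𝓝 (r x β))) :
    (∀ β, 0 < β → Continuous fun x => r x β) ∧
      ContinuousOn (fun p : ℝ × ℝ => r p.1 p.2) (univ ×ˢ Ioi 0) := by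
  have hev2 : ∀ᶠ n in l, 2 ≤ n := hl (eventually_ge_atTop 2)
  -- equicontinuity
  have equi : ∀ b B R : ℝ, 0 < b → ∀ ε, 0 < ε → ∃ δ, 0 < δ ∧ ∀ β ∈ Icc b B, ∀ x ∈ Icc (-R) R,
      ∀ y ∈ Icc (-R) R, |x - y| ≤ δ → |r x β - r y β| ≤ ε := by
    intro b B R hb ε hε
    obtain ⟨δ, hδ, h⟩ := rho_equi b B R hb ε hε
    refine ⟨δ, hδ, fun β hβ x hx y hy hxy => ?_⟩
    have hβ0 : 0 < β := lt_of_lt_of_le hb hβ.1
    refine le_of_tendsto (((hr β hβ0 x).sub (hr β hβ0 y)).abs) ?_
    filter_upwards [hev2] with n hn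
    exact h β hβ n hn x hx y hy hxy
  have hneg : ∀ β, 0 < β → ∀ x, r (-x) β = r x β := by
    intro β hβ x
    apply tendsto_nhds_unique (hr β hβ (-x))
    refine (hr β hβ x).congr' ?_
    exact Eventually.of_forall fun n => (rho_neg hβ x).symm
  have hzero : ∀ β, 0 < β → r 0 β = 0 := by
    intro β hβ
    obtain ⟨C, hC, h⟩ := rho_le β β hβ
    apply tendsto_nhds_unique (hr β hβ 0)
    refine tendsto_const_nhds.congr' ?_
    filter_upwards [hev2] with n hn
    have h1 := h β (by simp) n hn 0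
    rw [abs_zero, Real.zero_rpow hβ.ne', mul_zero] at h1
    exact le_antisymm (rho_nonneg hβ (by omega) 0) h1
  -- continuity in `β` for `x > 0`
  have bpos : ∀ b B x₀ : ℝ, 0 < b → 0 < x₀ → ∀ ε, 0 < ε → ∃ δ, 0 < δ ∧ ∀ β ∈ Icc b B,
      ∀ β' ∈ Icc b B, |β - β'| ≤ δ → |r x₀ β - r x₀ β'| ≤ ε := by
    intro b B x₀ hb hx₀ ε hε
    obtain ⟨δ₀, hδ₀, h₀⟩ := rho_equi b B (2 * x₀) hb (ε / 3) (by positivity)
    set η := min δ₀ (x₀ / 2) with hη
    have hηpos : 0 < η := by positivity
    have hη1 : η ≤ δ₀ := min_le_left _ _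
    have hη2 : η ≤ x₀ / 2 := min_le_right _ _
    obtain ⟨f, hf, hfs, hf0, hfd, hfI, hf1, K, hK⟩ := exists_bump x₀ η hηpos
    obtain ⟨δ, hδ, n₀, h₁⟩ := beta_cont b B hb f K hK (2 * x₀)
      (by
        intro x hx
        by_contra hne
        have := hfd x hne
        rw [abs_lt] at this
        linarith)
      (by
        intro x hx
        by_contra hne
        have := hfd x hne
        rw [abs_lt] at this
        linarith) (ε / 3) (by positivity)
    refine ⟨δ, hδ, fun β hβ β' hβ' hββ' => ?_⟩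
    have hβ0 : 0 < β := lt_of_lt_of_le hb hβ.1
    have hβ0' : 0 < β' := lt_of_lt_of_le hb hβ'.1
    have sm : ∀ β ∈ Icc b B, ∀ n : ℕ, 2 ≤ n → |(∫ x, f x * rho β n x) - rho β n x₀| ≤ ε / 3 := by
      intro β hβ n hn
      have hβ0 : 0 < β := lt_of_lt_of_le hb hβ.1
      have i1 : Integrable fun x => f x * rho β n x :=
        (hf.mul (rho_continuous hβ0 n)).integrable_of_hasCompactSupport hfs.mul_right
      have i2 : Integrable fun x => f x * rho β n x₀ := hfI.mul_const _
      have e1 : rho β n x₀ = ∫ x, f x * rho β n x₀ := by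
        rw [integral_mul_const, hf1, one_mul]
      rw [e1, ← integral_sub i1 i2]
      calc |∫ x, f x * rho β n x - f x * rho β n x₀|
          ≤ ∫ x, |f x * rho β n x - f x * rho β n x₀| := abs_integral_le_integral_abs
        _ ≤ ∫ x, f x * (ε / 3) := by
            apply integral_mono (i1.sub i2).abs (hfI.mul_const _)
            intro x
            simp only [Pi.sub_apply]
            rw [← mul_sub, abs_mul, abs_of_nonneg (hf0 x)]
            by_cases hx : f x = 0
            · simp [hx]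
            · apply mul_le_mul_of_nonneg_left _ (hf0 x)
              have hx' := hfd x hx
              have hx'' := hx'
              rw [abs_lt] at hx''
              apply h₀ β hβ n hn x _ x₀ _ (hx'.le.trans hη1)
              · constructor <;> linarith
              · constructor <;> linarith
        _ = ε / 3 := by rw [integral_mul_const, hf1, one_mul]
    refine le_of_tendsto (((hr β hβ0 x₀).sub (hr β' hβ0' x₀)).abs) ?_
    filter_upwards [hev2, hl (eventually_ge_atTop n₀)] with n hn hn0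
    have a1 := sm β hβ n hn
    have a2 := sm β' hβ' n hn
    have a3 := h₁ β hβ β' hβ' hββ' n hn0
    rw [abs_le] at a1 a2 a3 ⊢
    constructor <;> linarith
  have ball : ∀ b B x₀ : ℝ, 0 < b → ∀ ε, 0 < ε → ∃ δ, 0 < δ ∧ ∀ β ∈ Icc b B,
      ∀ β' ∈ Icc b B, |β - β'| ≤ δ → |r x₀ β - r x₀ β'| ≤ ε := by
    intro b B x₀ hb ε hε
    rcases lt_trichotomy x₀ 0 with hx | hx | hx
    · obtain ⟨δ, hδ, h⟩ := bpos b B (-x₀) hb (by linarith) ε hε
      refine ⟨δ, hδ, fun β hβ β' hβ' hββ' => ?_⟩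
      have := h β hβ β' hβ' hββ'
      rwa [hneg β (lt_of_lt_of_le hb hβ.1), hneg β' (lt_of_lt_of_le hb hβ'.1)] at this
    · refine ⟨1, one_pos, fun β hβ β' hβ' _ => ?_⟩
      rw [hx, hzero β (lt_of_lt_of_le hb hβ.1), hzero β' (lt_of_lt_of_le hb hβ'.1)]
      simp [hε.le]
    · exact bpos b B x₀ hb hx ε hε
  constructor
  · intro β hβ
    rw [Metric.continuous_iff]
    intro x ε hε
    obtain ⟨δ, hδ, h⟩ := equi β β (|x| + 1) hβ (ε / 2) (by positivity)
    refine ⟨min δ 1, by positivity, fun y hy => ?_⟩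
    rw [Real.dist_eq] at hy ⊢
    have h1 : |y - x| ≤ δ := hy.le.trans (min_le_left _ _)
    have h2 : |y - x| ≤ 1 := hy.le.trans (min_le_right _ _)
    rw [abs_le] at h2
    have h3 := neg_abs_le x
    have h4 := le_abs_self x
    have := h β (by simp) y ⟨by linarith, by linarith⟩ x ⟨by linarith, by linarith⟩ h1
    linarith
  · intro p hp
    obtain ⟨x₀, β₀⟩ := p
    have hβ₀ : 0 < β₀ := hp.2
    rw [Metric.continuousWithinAt_iff]
    intro ε hε
    obtain ⟨δ₁, hδ₁, h₁⟩ := equi (β₀ / 2) (2 * β₀) (|x₀| + 1) (by positivity) (ε / 3) (by positivity)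
    obtain ⟨δ₂, hδ₂, h₂⟩ := ball (β₀ / 2) (2 * β₀) x₀ (by positivity) (ε / 3) (by positivity)
    refine ⟨min (min δ₁ 1) (min δ₂ (β₀ / 2)), by positivity, ?_⟩
    rintro ⟨x, β⟩ hx hd
    rw [Prod.dist_eq, max_lt_iff, Real.dist_eq, Real.dist_eq] at hd
    rw [Real.dist_eq]
    obtain ⟨hd1, hd2⟩ := hd
    simp only at hd1 hd2 ⊢
    have k1 : |x - x₀| ≤ δ₁ := hd1.le.trans ((min_le_left _ _).trans (min_le_left _ _))
    have k2 : |x - x₀| ≤ 1 := hd1.le.trans ((min_le_left _ _).trans (min_le_right _ _))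
    have k3 : |β - β₀| ≤ δ₂ := hd2.le.trans ((min_le_right _ _).trans (min_le_left _ _))
    have k4 : |β - β₀| ≤ β₀ / 2 := hd2.le.trans ((min_le_right _ _).trans (min_le_right _ _))
    have k3' := k3
    rw [abs_le] at k2 k4
    have h3 := neg_abs_le x₀
    have h4 := le_abs_self x₀
    have hβ : β ∈ Icc (β₀ / 2) (2 * β₀) := ⟨by linarith, by linarith⟩
    have q1 := h₁ β hβ x ⟨by linarith, by linarith⟩ x₀ ⟨by linarith, by linarith⟩ k1
    have q2 := h₂ β hβ β₀ ⟨by linarith, by linarith⟩ k3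
    rw [abs_le] at q1 q2
    rw [abs_lt]
    constructor <;> linarith

theorem lim_integral {β : ℝ} (hβ : 0 < β) {r : ℝ → ℝ}
    (hr : ∀ x, Tendsto (fun n : ℕ => rho β n x) atTop (𝓝 (r x)))
    {f g : ℝ → ℝ} (hf : Continuous f) (hfs : HasCompactSupport f) (hf0 : ∀ x, 0 ≤ f x)
    (hg : Continuous g) (hgs : HasCompactSupport g) (hg0 : ∀ x, 0 ≤ g x) :
    Tendsto (fun n : ℕ => ∫⁻ x, ∫⁻ y, ENNReal.ofReal (f x * g y * rho β n (y - x))) atTop
      (𝓝 (∫⁻ x, ∫⁻ y, ENNReal.ofReal (f x * g y * r (y - x)))) := by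
  obtain ⟨C, hC, hCb⟩ := rho_le β β hβ
  obtain ⟨R₁, hR₁⟩ := hfs.isCompact.isBounded.subset_closedBall (0 : ℝ)
  obtain ⟨R₂, hR₂⟩ := hgs.isCompact.isBounded.subset_closedBall (0 : ℝ)
  have hf' : ∀ x, f x ≠ 0 → |x| ≤ R₁ := by
    intro x hx
    have := hR₁ (subset_tsupport _ hx)
    simpa [Real.dist_eq] using this
  have hg' : ∀ x, g x ≠ 0 → |x| ≤ R₂ := by
    intro x hx
    have := hR₂ (subset_tsupport _ hx)
    simpa [Real.dist_eq] using this
  set D : ℝ := C * (|R₁| + |R₂|) ^ β with hD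
  have hD0 : 0 ≤ D := by positivity
  have bd : ∀ n : ℕ, 2 ≤ n → ∀ x y, f x * g y * rho β n (y - x) ≤ f x * g y * D := by
    intro n hn x y
    by_cases hxy : f x * g y = 0
    · simp [hxy]
    · apply mul_le_mul_of_nonneg_left _ (mul_nonneg (hf0 x) (hg0 y))
      refine (hCb β (by simp) n hn _).trans ?_
      apply mul_le_mul_of_nonneg_left _ hC
      apply Real.rpow_le_rpow (abs_nonneg _) _ hβ.le
      have h1 := hf' x (left_ne_zero_of_mul hxy)
      have h2 := hg' y (right_ne_zero_of_mul hxy)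
      calc |y - x| ≤ |y| + |x| := abs_sub _ _
        _ ≤ |R₁| + |R₂| := by linarith [le_abs_self R₁, le_abs_self R₂]
  have fI : ∫⁻ x, ENNReal.ofReal (f x) ≠ ∞ := by
    have : Integrable f volume := hf.integrable_of_hasCompactSupport hfs
    exact this.lintegral_lt_top.ne
  have gI : ∫⁻ x, ENNReal.ofReal (g x) ≠ ∞ := by
    have : Integrable g volume := hg.integrable_of_hasCompactSupport hgs
    exact this.lintegral_lt_top.ne
  have m1 : Measurable fun v => ENNReal.ofReal (g v) := ENNReal.measurable_ofReal.comp hg.measurable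
  have m2 : Measurable fun v => ENNReal.ofReal (f v) := ENNReal.measurable_ofReal.comp hf.measurable
  have e1 : ∀ u v, ENNReal.ofReal (f u * g v * D) =
      ENNReal.ofReal (f u) * (ENNReal.ofReal (g v) * ENNReal.ofReal D) := by
    intro u v
    rw [ENNReal.ofReal_mul (mul_nonneg (hf0 u) (hg0 v)), ENNReal.ofReal_mul (hf0 u), mul_assoc]
  have e2 : ∀ u, ∫⁻ v, ENNReal.ofReal (f u * g v * D) =
      ENNReal.ofReal (f u) * ((∫⁻ v, ENNReal.ofReal (g v)) * ENNReal.ofReal D) := by
    intro u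
    simp_rw [e1]
    rw [lintegral_const_mul _ (m1.mul_const _), lintegral_mul_const _ m1]
  have hm : ∀ n : ℕ, Measurable fun p : ℝ × ℝ =>
      ENNReal.ofReal (f p.1 * g p.2 * rho β n (p.2 - p.1)) := by
    intro n
    have hc : Continuous fun p : ℝ × ℝ => f p.1 * g p.2 * rho β n (p.2 - p.1) := by
      have := rho_continuous hβ n
      fun_prop
    exact ENNReal.measurable_ofReal.comp hc.measurable
  apply tendsto_lintegral_filter_of_dominated_convergence
    (fun x => ∫⁻ y, ENNReal.ofReal (f x * g y * D))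
  · exact Eventually.of_forall fun n => (hm n).lintegral_prod_right'
  · filter_upwards [eventually_ge_atTop 2] with n hn
    refine Eventually.of_forall fun x => ?_
    apply lintegral_mono; intro y
    exact ENNReal.ofReal_le_ofReal (bd n hn x y)
  · simp_rw [e2]
    rw [lintegral_mul_const _ m2]
    exact ENNReal.mul_ne_top fI (ENNReal.mul_ne_top gI ENNReal.ofReal_ne_top)
  · refine Eventually.of_forall fun x => ?_
    apply tendsto_lintegral_filter_of_dominated_convergence
      (fun y => ENNReal.ofReal (f x * g y * D))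
    · exact Eventually.of_forall fun n => (hm n).comp (by fun_prop : Measurable fun y : ℝ => (x, y))
    · filter_upwards [eventually_ge_atTop 2] with n hn
      exact Eventually.of_forall fun y => ENNReal.ofReal_le_ofReal (bd n hn x y)
    · rw [e2]
      exact ENNReal.mul_ne_top ENNReal.ofReal_ne_top (ENNReal.mul_ne_top gI ENNReal.ofReal_ne_top)
    · refine Eventually.of_forall fun y => ?_
      exact (ENNReal.continuous_ofReal.tendsto _).comp ((hr (y - x)).const_mul _)

end Pool.Agent.Lib.MP_b33862_pr
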