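import Mathlib
import Pool.Agent.Lib.MP_b33862_pr.Defs

/-!
Convergence of Laplace transforms together with uniform integrability of the squares gives
convergence of the second moments.
-/

set_option autoImplicit false

namespace Pool.Agent.Lib.MP_b33862_pr

open MeasureTheory Set Real Filter
open scoped ENNReal Topology

namespace Moment

/-- the bounded approximation of `x ^ 2` -/
noncomputable def gfun (t x : ℝ) : ℝ := ((1 - Real.exp (-(t * x))) / t) ^ 2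

lemma gfun_nonneg (t x : ℝ) : 0 ≤ gfun t x := sq_nonneg _

lemma h_nonneg {t x : ℝ} (ht : 0 < t) (hx : 0 ≤ x) : 0 ≤ (1 - Real.exp (-(t * x))) / t := by
  have : Real.exp (-(t * x)) ≤ 1 := Real.exp_le_one_iff.2 (by nlinarith [mul_nonneg ht.le hx])
  exact div_nonneg (by linarith) ht.le

lemma h_le {t x : ℝ} (ht : 0 < t) : (1 - Real.exp (-(t * x))) / t ≤ x := by
  rw [div_le_iff₀ ht]
  have := Real.add_one_le_exp (-(t * x))
  nlinarith

lemma gfun_le {t x : ℝ} (ht : 0 < t) (hx : 0 ≤ x) : gfun t x ≤ x ^ 2 :=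
  pow_le_pow_left₀ (h_nonneg ht hx) (h_le ht) 2

lemma exp_neg_le {y : ℝ} (hy : 0 ≤ y) : Real.exp (-y) ≤ 1 - y + y ^ 2 / 2 := by
  have h1 := Real.quadratic_le_exp_of_nonneg hy
  have h2 : Real.exp (-y) = (Real.exp y)⁻¹ := Real.exp_neg y
  rw [h2]
  have h3 : 0 < 1 + y + y ^ 2 / 2 := by positivity
  calc (Real.exp y)⁻¹ ≤ (1 + y + y ^ 2 / 2)⁻¹ := inv_anti₀ h3 h1
    _ ≤ 1 - y + y ^ 2 / 2 := by
        rw [inv_le_iff_one_le_mul₀ h3]
        nlinarith [sq_nonneg (y ^ 2)]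

lemma sq_sub_gfun_le {t x : ℝ} (ht : 0 < t) (hx : 0 ≤ x) : x ^ 2 ≤ gfun t x + t * x ^ 3 := by
  have h1 : x - t * x ^ 2 / 2 ≤ (1 - Real.exp (-(t * x))) / t := by
    rw [le_div_iff₀ ht]
    have := exp_neg_le (mul_nonneg ht.le hx)
    nlinarith
  have h2 := h_le (x := x) ht
  have h3 := h_nonneg ht hx
  unfold gfun
  set h := (1 - Real.exp (-(t * x))) / t
  have h4 : x ^ 2 - h ^ 2 = (x - h) * (x + h) := by ring
  have h5 : (x - h) * (x + h) ≤ (t * x ^ 2 / 2) * (2 * x) :=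
    mul_le_mul (by linarith) (by linarith) (by linarith) (by positivity)
  nlinarith

lemma gfun_half {t x : ℝ} (ht : 0 < t) (hx : 0 ≤ x) : gfun t x ≤ gfun (t / 2) x := by
  refine pow_le_pow_left₀ (h_nonneg ht hx) ?_ 2
  have ha : Real.exp (-(t * x)) = Real.exp (-(t / 2 * x)) ^ 2 := by
    rw [← Real.exp_nat_mul]; congr 1; push_cast; ring
  rw [ha]
  set a := Real.exp (-(t / 2 * x))
  have ha1 : a ≤ 1 := Real.exp_le_one_iff.2 (by nlinarith [mul_nonneg ht.le hx])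
  rw [div_le_div_iff₀ ht (by positivity)]
  nlinarith [mul_nonneg ht.le (sq_nonneg (1 - a))]

lemma gfun_mono {x : ℝ} (hx : 0 ≤ x) : Monotone fun k : ℕ => gfun ((1 / 2) ^ k) x := by
  refine monotone_nat_of_le_succ fun k => ?_
  have := gfun_half (t := (1 / 2) ^ k) (x := x) (by positivity) hx
  rwa [pow_succ, mul_one_div]

lemma gfun_tendsto {x : ℝ} (hx : 0 ≤ x) :
    Tendsto (fun k : ℕ => gfun ((1 / 2) ^ k) x) atTop (𝓝 (x ^ 2)) := by
  have h0 : Tendsto (fun k : ℕ => ((1 : ℝ) / 2) ^ k) atTop (𝓝 0) :=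
    tendsto_pow_atTop_nhds_zero_of_lt_one (by norm_num) (by norm_num)
  have h1 : Tendsto (fun k : ℕ => x ^ 2 - ((1 : ℝ) / 2) ^ k * x ^ 3) atTop (𝓝 (x ^ 2)) := by
    simpa using (h0.mul_const (x ^ 3)).const_sub (x ^ 2)
  refine tendsto_of_tendsto_of_tendsto_of_le_of_le h1 tendsto_const_nhds (fun k => ?_) fun k => ?_
  · have := sq_sub_gfun_le (t := (1 / 2) ^ k) (x := x) (by positivity) hx
    simp only
    linarith
  · exact gfun_le (by positivity) hx

lemma measurable_gfun (t : ℝ) : Measurable (gfun t) := by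
  unfold gfun; fun_prop

lemma lintegral_gfun {Ω : Type*} [MeasurableSpace Ω] (P : Measure Ω) (hP : IsProbabilityMeasure P)
    (Y : Ω → ℝ) (hY : Measurable Y) (hY0 : ∀ ω, 0 ≤ Y ω) {t : ℝ} (ht : 0 < t) :
    ∫⁻ ω, ENNReal.ofReal (gfun t (Y ω)) ∂P = ENNReal.ofReal
      ((1 - 2 * ∫ ω, Real.exp (-(t * Y ω)) ∂P + ∫ ω, Real.exp (-(2 * t * Y ω)) ∂P) / t ^ 2) := by
  have hint : ∀ s : ℝ, 0 ≤ s → Integrable (fun ω => Real.exp (-(s * Y ω))) P := by
    intro s hs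
    refine Integrable.of_bound (by fun_prop) 1 (Eventually.of_forall fun ω => ?_)
    rw [Real.norm_eq_abs, abs_of_pos (Real.exp_pos _)]
    exact Real.exp_le_one_iff.2 (by nlinarith [mul_nonneg hs (hY0 ω)])
  have h1 := hint t ht.le
  have h2 := hint (2 * t) (by positivity)
  have hg : ∀ ω, gfun t (Y ω) =
      (1 - 2 * Real.exp (-(t * Y ω)) + Real.exp (-(2 * t * Y ω))) / t ^ 2 := by
    intro ω
    unfold gfun
    have : Real.exp (-(2 * t * Y ω)) = Real.exp (-(t * Y ω)) ^ 2 := by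
      rw [← Real.exp_nat_mul]; congr 1; push_cast; ring
    rw [this, div_pow]; congr 1; ring
  have hI : Integrable (fun ω => gfun t (Y ω)) P := by
    simp_rw [hg]
    exact (((integrable_const _).sub (h1.const_mul 2)).add h2).div_const _
  rw [← ofReal_integral_eq_lintegral_ofReal hI (Eventually.of_forall fun ω => gfun_nonneg _ _)]
  congr 1
  simp_rw [hg]
  have h12 : Integrable (fun ω => 1 - 2 * Real.exp (-(t * Y ω))) P :=
    (integrable_const _).sub (h1.const_mul 2)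
  rw [integral_div, integral_add h12 h2,
    integral_sub (integrable_const _) (h1.const_mul 2), integral_const_mul]
  simp

lemma pointwise {t M x : ℝ} (ht : 0 < t) (hM : 0 ≤ M) (hx : 0 ≤ x) :
    ENNReal.ofReal (x ^ 2) ≤ ENNReal.ofReal (gfun t x) + ENNReal.ofReal (t * M ^ 3) +
      {y : ℝ | M < y}.indicator (fun y => ENNReal.ofReal (y ^ 2)) x := by
  by_cases h : M < x
  · rw [indicator_of_mem (show x ∈ {y : ℝ | M < y} from h)]
    exact le_add_self
  · have h3 : t * x ^ 3 ≤ t * M ^ 3 := by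
      have := pow_le_pow_left₀ hx (not_lt.1 h) 3
      gcongr
    refine le_trans ?_ le_self_add
    rw [← ENNReal.ofReal_add (gfun_nonneg _ _) (by positivity)]
    exact ENNReal.ofReal_le_ofReal (by linarith [sq_sub_gfun_le ht hx])

end Moment

open Moment

theorem tendsto_second_moment {Ω' : ℕ → Type*} [∀ n, MeasurableSpace (Ω' n)]
    (μ : ∀ n, Measure (Ω' n)) (hμ : ∀ n, IsProbabilityMeasure (μ n)) (X : ∀ n, Ω' n → ℝ)
    (hX : ∀ n, Measurable (X n)) (hX0 : ∀ n ω, 0 ≤ X n ω)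
    {Ω : Type*} [MeasurableSpace Ω] (P : Measure Ω) (hP : IsProbabilityMeasure P) (Y : Ω → ℝ)
    (hY : Measurable Y) (hY0 : ∀ ω, 0 ≤ Y ω)
    (hlim : ∀ t : ℝ, 0 ≤ t → Tendsto (fun n => ∫ ω, Real.exp (-(t * X n ω)) ∂(μ n)) atTop
      (𝓝 (∫ ω, Real.exp (-(t * Y ω)) ∂P)))
    (hUI : ∀ ε : ℝ, 0 < ε → ∃ M : ℝ, ∀ᶠ n in atTop,
      ∫⁻ ω in {ω | M < X n ω}, ENNReal.ofReal (X n ω ^ 2) ∂(μ n) ≤ ENNReal.ofReal ε) :
    ∫⁻ ω, ENNReal.ofReal (Y ω ^ 2) ∂P < ∞ ∧
    Tendsto (fun n => ∫⁻ ω, ENNReal.ofReal (X n ω ^ 2) ∂(μ n)) atTop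
      (𝓝 (∫⁻ ω, ENNReal.ofReal (Y ω ^ 2) ∂P)) := by
  -- the uniform integrability with a nonnegative threshold
  have hUI' : ∀ ε : ℝ, 0 < ε → ∃ M : ℝ, 0 ≤ M ∧ ∀ᶠ n in atTop,
      ∫⁻ ω in {ω | M < X n ω}, ENNReal.ofReal (X n ω ^ 2) ∂(μ n) ≤ ENNReal.ofReal ε := by
    intro ε hε
    obtain ⟨M, hM⟩ := hUI ε hε
    refine ⟨max M 0, le_max_right _ _, hM.mono fun n hn => le_trans ?_ hn⟩
    exact lintegral_mono_set fun ω (hω : max M 0 < X n ω) => lt_of_le_of_lt (le_max_left _ _) hω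
  -- upper estimate
  have hup : ∀ {t M : ℝ}, 0 < t → 0 ≤ M → ∀ n, ∫⁻ ω, ENNReal.ofReal (X n ω ^ 2) ∂(μ n) ≤
      ∫⁻ ω, ENNReal.ofReal (gfun t (X n ω)) ∂(μ n) + ENNReal.ofReal (t * M ^ 3) +
        ∫⁻ ω in {ω | M < X n ω}, ENNReal.ofReal (X n ω ^ 2) ∂(μ n) := by
    intro t M ht hM n
    have := hμ n
    have hms : MeasurableSet {ω | M < X n ω} := measurableSet_lt measurable_const (hX n)
    have hmg : Measurable fun ω => ENNReal.ofReal (gfun t (X n ω)) :=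
      ((measurable_gfun t).comp (hX n)).ennreal_ofReal
    calc ∫⁻ ω, ENNReal.ofReal (X n ω ^ 2) ∂(μ n)
        ≤ ∫⁻ ω, (ENNReal.ofReal (gfun t (X n ω)) + ENNReal.ofReal (t * M ^ 3) +
          {ω | M < X n ω}.indicator (fun ω => ENNReal.ofReal (X n ω ^ 2)) ω) ∂(μ n) := by
          refine lintegral_mono fun ω => ?_
          exact pointwise ht hM (hX0 n ω)
      _ = _ := by
          have hmg' : Measurable fun ω => ENNReal.ofReal (gfun t (X n ω)) +
              ENNReal.ofReal (t * M ^ 3) := hmg.add measurable_const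
          rw [lintegral_add_left hmg', lintegral_add_left hmg, lintegral_indicator hms]
          simp
  -- limits of the bounded approximations
  have hg : ∀ {t : ℝ}, 0 < t → Tendsto (fun n => ∫⁻ ω, ENNReal.ofReal (gfun t (X n ω)) ∂(μ n)) atTop
      (𝓝 (∫⁻ ω, ENNReal.ofReal (gfun t (Y ω)) ∂P)) := by
    intro t ht
    rw [lintegral_gfun P hP Y hY hY0 ht]
    have : ∀ n, ∫⁻ ω, ENNReal.ofReal (gfun t (X n ω)) ∂(μ n) = _ :=
      fun n => lintegral_gfun (μ n) (hμ n) (X n) (hX n) (hX0 n) ht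
    simp_rw [this]
    refine ENNReal.tendsto_ofReal (Tendsto.div_const (Tendsto.add (Tendsto.sub tendsto_const_nhds
      ((hlim t ht.le).const_mul 2)) (hlim (2 * t) (by positivity))) _)
  have hmct : Tendsto (fun k : ℕ => ∫⁻ ω, ENNReal.ofReal (gfun ((1 / 2) ^ k) (Y ω)) ∂P) atTop
      (𝓝 (∫⁻ ω, ENNReal.ofReal (Y ω ^ 2) ∂P)) := by
    refine lintegral_tendsto_of_tendsto_of_monotone
      (fun k => ((measurable_gfun _).comp hY).ennreal_ofReal.aemeasurable)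
      (Eventually.of_forall fun ω => ?_) (Eventually.of_forall fun ω => ?_)
    · exact fun i j hij => ENNReal.ofReal_le_ofReal (gfun_mono (hY0 ω) hij)
    · exact ENNReal.tendsto_ofReal (gfun_tendsto (hY0 ω))
  -- finiteness
  have hfin : ∫⁻ ω, ENNReal.ofReal (Y ω ^ 2) ∂P < ∞ := by
    obtain ⟨M, hM0, hM⟩ := hUI' 1 one_pos
    have hC : ∀ᶠ n in atTop, ∫⁻ ω, ENNReal.ofReal (X n ω ^ 2) ∂(μ n) ≤
        ENNReal.ofReal (M ^ 2) + ENNReal.ofReal 1 := by
      filter_upwards [hM] with n hn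
      have := hμ n
      have hms : MeasurableSet {ω | M < X n ω} := measurableSet_lt measurable_const (hX n)
      calc ∫⁻ ω, ENNReal.ofReal (X n ω ^ 2) ∂(μ n)
          ≤ ∫⁻ ω, (ENNReal.ofReal (M ^ 2) +
            {ω | M < X n ω}.indicator (fun ω => ENNReal.ofReal (X n ω ^ 2)) ω) ∂(μ n) := by
            refine lintegral_mono fun ω => ?_
            by_cases h : M < X n ω
            · rw [indicator_of_mem (show ω ∈ {ω | M < X n ω} from h)]
              exact le_add_self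
            · refine le_trans ?_ le_self_add
              exact ENNReal.ofReal_le_ofReal (pow_le_pow_left₀ (hX0 n ω) (not_lt.1 h) 2)
        _ = ENNReal.ofReal (M ^ 2) +
            ∫⁻ ω in {ω | M < X n ω}, ENNReal.ofReal (X n ω ^ 2) ∂(μ n) := by
            rw [lintegral_add_left measurable_const, lintegral_indicator hms]
            simp
        _ ≤ _ := by gcongr
    have hk : ∀ k : ℕ, ∫⁻ ω, ENNReal.ofReal (gfun ((1 / 2) ^ k) (Y ω)) ∂P ≤
        ENNReal.ofReal (M ^ 2) + ENNReal.ofReal 1 := by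
      intro k
      refine le_of_tendsto (hg (t := (1 / 2) ^ k) (by positivity)) ?_
      filter_upwards [hC] with n hn
      refine le_trans (lintegral_mono fun ω => ?_) hn
      exact ENNReal.ofReal_le_ofReal (gfun_le (by positivity) (hX0 n ω))
    exact lt_of_le_of_lt (le_of_tendsto' hmct hk)
      (ENNReal.add_lt_top.2 ⟨ENNReal.ofReal_lt_top, ENNReal.ofReal_lt_top⟩)
  refine ⟨hfin, ?_⟩
  rw [ENNReal.tendsto_nhds hfin.ne]
  intro ε hε
  -- a real number smaller than `ε / 4`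
  obtain ⟨δ, hδ0, hδ⟩ : ∃ δ : ℝ, 0 < δ ∧ 4 * ENNReal.ofReal δ ≤ ε := by
    rcases eq_or_ne ε ∞ with rfl | hε'
    · exact ⟨1, one_pos, le_top⟩
    · refine ⟨ε.toReal / 4, div_pos (ENNReal.toReal_pos hε.ne' hε') (by norm_num), ?_⟩
      rw [show (4 : ℝ≥0∞) = ENNReal.ofReal 4 by simp, ← ENNReal.ofReal_mul (by norm_num),
        mul_div_cancel₀ _ (by norm_num), ENNReal.ofReal_toReal hε']
  obtain ⟨M, hM0, hM⟩ := hUI' δ hδ0
  set b := ∫⁻ ω, ENNReal.ofReal (Y ω ^ 2) ∂P with hb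
  have hδ' : (0 : ℝ≥0∞) < ENNReal.ofReal δ := ENNReal.ofReal_pos.2 hδ0
  -- choice of the level
  obtain ⟨k, hk1, hk2⟩ : ∃ k : ℕ, b ≤ ∫⁻ ω, ENNReal.ofReal (gfun ((1 / 2) ^ k) (Y ω)) ∂P +
      ENNReal.ofReal δ ∧ ((1 : ℝ) / 2) ^ k * M ^ 3 ≤ δ := by
    have e1 := (ENNReal.tendsto_nhds hfin.ne).1 hmct (ENNReal.ofReal δ) hδ'
    have h0 : Tendsto (fun k : ℕ => ((1 : ℝ) / 2) ^ k * M ^ 3) atTop (𝓝 0) := by
      simpa using (tendsto_pow_atTop_nhds_zero_of_lt_one (r := (1 : ℝ) / 2) (by norm_num)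
        (by norm_num)).mul_const (M ^ 3)
    have e2 := h0.eventually (gt_mem_nhds hδ0)
    obtain ⟨k, hk, hk'⟩ := (e1.and e2).exists
    exact ⟨k, tsub_le_iff_right.1 hk.1, le_of_lt hk'⟩
  have hkb : ∫⁻ ω, ENNReal.ofReal (gfun ((1 / 2) ^ k) (Y ω)) ∂P ≤ b :=
    lintegral_mono fun ω => ENNReal.ofReal_le_ofReal (gfun_le (by positivity) (hY0 ω))
  set c := ∫⁻ ω, ENNReal.ofReal (gfun ((1 / 2) ^ k) (Y ω)) ∂P with hc
  have hcfin : c ≠ ∞ := (lt_of_le_of_lt hkb hfin).ne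
  have e3 := (ENNReal.tendsto_nhds hcfin).1 (hg (t := (1 / 2) ^ k) (by positivity))
    (ENNReal.ofReal δ) hδ'
  filter_upwards [hM, e3] with n hn hn3
  have hlow : ∫⁻ ω, ENNReal.ofReal (gfun ((1 / 2) ^ k) (X n ω)) ∂(μ n) ≤
      ∫⁻ ω, ENNReal.ofReal (X n ω ^ 2) ∂(μ n) :=
    lintegral_mono fun ω => ENNReal.ofReal_le_ofReal (gfun_le (by positivity) (hX0 n ω))
  constructor
  · rw [tsub_le_iff_right]
    calc b ≤ c + ENNReal.ofReal δ := hk1
      _ ≤ (∫⁻ ω, ENNReal.ofReal (gfun ((1 / 2) ^ k) (X n ω)) ∂(μ n) + ENNReal.ofReal δ) +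
          ENNReal.ofReal δ := by
          gcongr
          exact tsub_le_iff_right.1 hn3.1
      _ ≤ ∫⁻ ω, ENNReal.ofReal (X n ω ^ 2) ∂(μ n) + (ENNReal.ofReal δ + ENNReal.ofReal δ) := by
          rw [add_assoc]; gcongr
      _ ≤ ∫⁻ ω, ENNReal.ofReal (X n ω ^ 2) ∂(μ n) + ε := by
          gcongr
          refine le_trans ?_ hδ
          rw [← two_mul]
          gcongr
          norm_num
  · calc ∫⁻ ω, ENNReal.ofReal (X n ω ^ 2) ∂(μ n)
        ≤ ∫⁻ ω, ENNReal.ofReal (gfun ((1 / 2) ^ k) (X n ω)) ∂(μ n) +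
          ENNReal.ofReal ((1 / 2) ^ k * M ^ 3) +
          ∫⁻ ω in {ω | M < X n ω}, ENNReal.ofReal (X n ω ^ 2) ∂(μ n) :=
          hup (by positivity) hM0 n
      _ ≤ (c + ENNReal.ofReal δ) + ENNReal.ofReal δ + ENNReal.ofReal δ := by
          gcongr
          exact hn3.2
      _ ≤ (b + ENNReal.ofReal δ) + ENNReal.ofReal δ + ENNReal.ofReal δ := by gcongr
      _ = b + 3 * ENNReal.ofReal δ := by ring
      _ ≤ b + ε := by
          gcongr
          refine le_trans ?_ hδ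
          gcongr
          norm_num

end Pool.Agent.Lib.MP_b33862_pr
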