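import Mathlib

/-!
Random locally finite subsets of the line: linear statistics are measurable, and mixed second
moments of linear statistics determine the second factorial moment measure.
-/

set_option autoImplicit false

namespace Pool.Agent.Lib.MP_b33862_pr

open MeasureTheory Set Real Filter
open scoped ENNReal Topology NNReal

/-- counting measure of a set -/
noncomputable def cntm (s : Set ℝ) : Measure ℝ := Measure.sum fun x : s => Measure.dirac (x : ℝ)

lemma lintegral_cntm (s : Set ℝ) (f : ℝ → ℝ≥0∞) : ∫⁻ x, f x ∂(cntm s) = ∑' x : s, f x := by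
  rw [cntm, lintegral_sum_measure]
  simp

lemma sfinite_cntm {s : Set ℝ} (hs : s.Countable) : SFinite (cntm s) := by
  have := hs.to_subtype
  unfold cntm
  infer_instance

lemma tsum_eq_finset (s : Set ℝ) (T : Finset ℝ) (hT : ∀ x ∈ T, x ∈ s) (h : ℝ → ℝ≥0∞)
    (h0 : ∀ x ∈ s, x ∉ T → h x = 0) : ∑' x : s, h x = ∑ x ∈ T, h x := by
  rw [tsum_subtype s h, tsum_eq_sum (s := T)]
  · refine Finset.sum_congr rfl fun x hx => ?_
    rw [indicator_of_mem (hT x hx)]
  · intro x hx
    by_cases hs : x ∈ s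
    · rw [indicator_of_mem hs, h0 x hs hx]
    · exact indicator_of_notMem hs _

section randset

variable {Ω : Type*} [MeasurableSpace Ω] {X : Ω → Set ℝ}

omit [MeasurableSpace Ω] in
lemma countable_of_hfin (hfin : ∀ ω R, (X ω ∩ Icc (-R) R).Finite) (ω : Ω) : (X ω).Countable := by
  have h : X ω ⊆ ⋃ n : ℕ, X ω ∩ Icc (-(n : ℝ)) n := by
    intro x hx
    obtain ⟨n, hn⟩ := exists_nat_ge |x|
    exact mem_iUnion.mpr ⟨n, hx, abs_le.mp hn⟩
  exact (countable_iUnion fun n : ℕ => (hfin ω n).countable).mono h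

/-- counting measure of the points in the window `(-R, R)` -/
noncomputable def win (X : Ω → Set ℝ) (R : ℝ) (ω : Ω) : Measure ℝ :=
  (cntm (X ω)).restrict (Ioo (-R) R)

omit [MeasurableSpace Ω] in
lemma finite_win (hfin : ∀ ω R, (X ω ∩ Icc (-R) R).Finite) (R : ℝ) (ω : Ω) :
    (X ω ∩ Ioo (-R) R).Finite :=
  (hfin ω R).subset (inter_subset_inter_right _ Ioo_subset_Icc_self)

omit [MeasurableSpace Ω] in
lemma win_apply (hfin : ∀ ω R, (X ω ∩ Icc (-R) R).Finite) (R : ℝ) (ω : Ω) {s : Set ℝ}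
    (hs : MeasurableSet s) : win X R ω s = ((X ω ∩ (s ∩ Ioo (-R) R)).ncard : ℝ≥0∞) := by
  have hf : (X ω ∩ (s ∩ Ioo (-R) R)).Finite :=
    (finite_win hfin R ω).subset (inter_subset_inter_right _ inter_subset_right)
  rw [win, Measure.restrict_apply hs, cntm, Measure.sum_apply _ (hs.inter measurableSet_Ioo)]
  simp_rw [Measure.dirac_apply]
  rw [tsum_eq_finset (X ω) hf.toFinset (fun x hx => (hf.mem_toFinset.mp hx).1)
    ((s ∩ Ioo (-R) R).indicator 1) (fun x hx hx' => indicator_of_notMem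
      (fun h => hx' (hf.mem_toFinset.mpr ⟨hx, h⟩)) _), ncard_eq_toFinset_card _ hf,
    Finset.card_eq_sum_ones, Nat.cast_sum]
  refine Finset.sum_congr rfl fun x hx => ?_
  rw [indicator_of_mem (hf.mem_toFinset.mp hx).2]
  simp

omit [MeasurableSpace Ω] in
lemma isFiniteMeasure_win (hfin : ∀ ω R, (X ω ∩ Icc (-R) R).Finite) (R : ℝ) (ω : Ω) :
    IsFiniteMeasure (win X R ω) :=
  ⟨by rw [win_apply hfin R ω MeasurableSet.univ]; exact ENNReal.natCast_lt_top _⟩

lemma measurable_win (hfin : ∀ ω R, (X ω ∩ Icc (-R) R).Finite)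
    (hmeas : ∀ a b, Measurable fun ω => (X ω ∩ Ioo a b).ncard) (R : ℝ) :
    Measurable (win X R) := by
  have hf := isFiniteMeasure_win hfin R
  refine Measurable.measure_of_isPiSystem
    (S := ⋃ (a : ℚ) (b : ℚ) (_ : a < b), {Ioo (a : ℝ) (b : ℝ)}) ?_ Real.isPiSystem_Ioo_rat ?_ ?_
  · rw [← Real.borel_eq_generateFrom_Ioo_rat]
    exact BorelSpace.measurable_eq
  · intro s hs
    simp only [mem_iUnion, mem_singleton_iff] at hs
    obtain ⟨a, b, _, rfl⟩ := hs
    simp_rw [win_apply hfin R _ measurableSet_Ioo, Ioo_inter_Ioo]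
    exact measurable_from_top.comp (hmeas _ _)
  · simp_rw [win_apply hfin R _ MeasurableSet.univ, univ_inter]
    exact measurable_from_top.comp (hmeas _ _)

lemma measurable_win_prod (hfin : ∀ ω R, (X ω ∩ Icc (-R) R).Finite)
    (hmeas : ∀ a b, Measurable fun ω => (X ω ∩ Ioo a b).ncard) (R : ℝ) :
    Measurable fun ω => (win X R ω).prod (win X R ω) := by
  have hf := isFiniteMeasure_win hfin R
  have hw : ∀ s, MeasurableSet s → Measurable fun ω => win X R ω s :=
    fun s hs => (Measure.measurable_coe hs).comp (measurable_win hfin hmeas R)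
  refine Measurable.measure_of_isPiSystem generateFrom_prod.symm isPiSystem_prod ?_ ?_
  · rintro _ ⟨s, hs, t, ht, rfl⟩
    simp_rw [Measure.prod_prod]
    exact (hw s hs).mul (hw t ht)
  · simp_rw [← univ_prod_univ, Measure.prod_prod]
    exact (hw _ MeasurableSet.univ).mul (hw _ MeasurableSet.univ)

omit [MeasurableSpace Ω] in
lemma ofReal_finsum (hfin : ∀ ω R, (X ω ∩ Icc (-R) R).Finite) (R : ℝ) (ω : Ω) {f : ℝ → ℝ}
    (hf0 : ∀ x, 0 ≤ f x) (hR : ∀ x, R ≤ |x| → f x = 0) :
    ENNReal.ofReal (∑ᶠ x ∈ X ω, f x) = ∫⁻ x, ENNReal.ofReal (f x) ∂(win X R ω) := by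
  have hf := finite_win hfin R ω
  rw [win, ← lintegral_indicator measurableSet_Ioo, lintegral_cntm,
    tsum_eq_finset (X ω) hf.toFinset (fun x hx => (hf.mem_toFinset.mp hx).1)
    _ (fun x hx hx' => indicator_of_notMem (fun h => hx' (hf.mem_toFinset.mpr ⟨hx, h⟩)) _),
    finsum_mem_eq_sum_of_inter_support_eq f (t := hf.toFinset), ENNReal.ofReal_sum_of_nonneg]
  · refine Finset.sum_congr rfl fun x hx => ?_
    rw [indicator_of_mem (hf.mem_toFinset.mp hx).2]
  · exact fun x _ => hf0 x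
  · ext x
    simp only [mem_inter_iff, Function.mem_support, Finite.coe_toFinset]
    constructor
    · rintro ⟨h1, h2⟩
      refine ⟨⟨h1, ?_⟩, h2⟩
      rw [mem_Ioo, ← abs_lt]
      by_contra h3
      exact h2 (hR x (not_lt.mp h3))
    · rintro ⟨⟨h1, _⟩, h2⟩
      exact ⟨h1, h2⟩

omit [MeasurableSpace Ω] in
lemma finsum_nonneg' (ω : Ω) {f : ℝ → ℝ} (hf0 : ∀ x, 0 ≤ f x) : 0 ≤ ∑ᶠ x ∈ X ω, f x :=
  finsum_nonneg fun x => finsum_nonneg fun _ => hf0 x

lemma measurable_finsum_nonneg (hfin : ∀ ω R, (X ω ∩ Icc (-R) R).Finite)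
    (hmeas : ∀ a b, Measurable fun ω => (X ω ∩ Ioo a b).ncard) (R : ℝ) {f : ℝ → ℝ}
    (hf : Measurable f) (hf0 : ∀ x, 0 ≤ f x) (hR : ∀ x, R ≤ |x| → f x = 0) :
    Measurable fun ω => ∑ᶠ x ∈ X ω, f x := by
  have h1 : (fun ω => ∑ᶠ x ∈ X ω, f x) =
      fun ω => (∫⁻ x, ENNReal.ofReal (f x) ∂(win X R ω)).toReal := by
    funext ω
    rw [← ofReal_finsum hfin R ω hf0 hR, ENNReal.toReal_ofReal (finsum_nonneg' ω hf0)]
  rw [h1]
  exact ((Measure.measurable_lintegral hf.ennreal_ofReal).comp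
    (measurable_win hfin hmeas R)).ennreal_toReal

theorem measurable_finsum_mem (hfin : ∀ ω R, (X ω ∩ Icc (-R) R).Finite)
    (hmeas : ∀ a b, Measurable fun ω => (X ω ∩ Ioo a b).ncard) {f : ℝ → ℝ} (hf : Measurable f)
    {R : ℝ} (hR : ∀ x, R < |x| → f x = 0) : Measurable fun ω => ∑ᶠ x ∈ X ω, f x := by
  have h1 := measurable_finsum_nonneg hfin hmeas (R + 1) (f := fun x => max (f x) 0)
    (hf.max measurable_const) (fun x => le_max_right _ _)
    (fun x hx => by simp [hR x (by linarith)])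
  have h2 := measurable_finsum_nonneg hfin hmeas (R + 1) (f := fun x => max (-f x) 0)
    (hf.neg.max measurable_const) (fun x => le_max_right _ _)
    (fun x hx => by simp [hR x (by linarith)])
  have h3 : (fun ω => ∑ᶠ x ∈ X ω, f x) =
      fun ω => (∑ᶠ x ∈ X ω, max (f x) 0) - ∑ᶠ x ∈ X ω, max (-f x) 0 := by
    funext ω
    have hfi := finite_win hfin (R + 1) ω
    have key : ∀ g : ℝ → ℝ, (∀ x, R < |x| → g x = 0) →
        ∑ᶠ x ∈ X ω, g x = ∑ x ∈ hfi.toFinset, g x := by
      intro g hg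
      refine finsum_mem_eq_sum_of_inter_support_eq g ?_
      ext x
      simp only [mem_inter_iff, Function.mem_support, Finite.coe_toFinset]
      constructor
      · rintro ⟨h1, h2⟩
        refine ⟨⟨h1, ?_⟩, h2⟩
        rw [mem_Ioo, ← abs_lt]
        by_contra h3
        exact h2 (hg x (by linarith [not_lt.mp h3]))
      · rintro ⟨⟨h1, _⟩, h2⟩
        exact ⟨h1, h2⟩
    rw [key f hR, key _ (fun x hx => by simp [hR x hx]), key _ (fun x hx => by simp [hR x hx]),
      ← Finset.sum_sub_distrib]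
    refine Finset.sum_congr rfl fun x _ => ?_
    rcases le_total 0 (f x) with h | h
    · rw [max_eq_left h, max_eq_right (by linarith), sub_zero]
    · rw [max_eq_right h, max_eq_left (by linarith)]
      ring
  rw [h3]
  exact h1.sub h2

/-- cutoff function -/
noncomputable def chi (R x : ℝ) : ℝ := max 0 (min 1 (R + 1 - |x|))

lemma chi_nonneg (R x : ℝ) : 0 ≤ chi R x := le_max_left _ _

lemma chi_continuous (R : ℝ) : Continuous (chi R) := by
  unfold chi
  fun_prop

lemma chi_eq_one {R x : ℝ} (h : |x| ≤ R) : chi R x = 1 := by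
  unfold chi
  rw [min_eq_left (by linarith), max_eq_right zero_le_one]

lemma chi_eq_zero {R x : ℝ} (h : R + 1 ≤ |x|) : chi R x = 0 := by
  unfold chi
  exact max_eq_left (le_trans (min_le_right _ _) (by linarith))

lemma chi_mono {R R' : ℝ} (h : R ≤ R') (x : ℝ) : chi R x ≤ chi R' x := by
  unfold chi
  gcongr

lemma chi_compact (R : ℝ) (f : ℝ → ℝ) : HasCompactSupport fun x => chi R x * f x := by
  refine HasCompactSupport.intro (isCompact_Icc (a := -(R + 1)) (b := R + 1)) fun x hx => ?_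
  have : R + 1 ≤ |x| := by
    by_contra h
    exact hx (abs_le.mp (not_le.mp h).le)
  rw [chi_eq_zero this, zero_mul]

/-- a finite measure on the plane is determined by products of continuous functions -/
lemma ext_of_lintegral_mul {μ ν : Measure (ℝ × ℝ)} [IsFiniteMeasure μ]
    (h : ∀ f g : ℝ → ℝ≥0, Continuous f → Continuous g →
      ∫⁻ p, (f p.1 : ℝ≥0∞) * g p.2 ∂μ = ∫⁻ p, (f p.1 : ℝ≥0∞) * g p.2 ∂ν) : μ = ν := by
  let e : (ℝ × ℝ) ≃ᵐ ((Unit → ℝ) × (Unit → ℝ)) :=
    .symm <| .prodCongr (.funUnique ..) (.funUnique ..)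
  rw [← e.map_measurableEquiv_injective.eq_iff]
  have : IsFiniteMeasure (μ.map e) := Measure.isFiniteMeasure_map μ e
  refine Measure.ext_of_lintegral_prod_mul_prod_boundedContinuousFunction fun f g => ?_
  rw [lintegral_map_equiv, lintegral_map_equiv]
  simpa [e] using! h (f ()) (g ()) (f ()).continuous (g ()).continuous

/-- weight -/
noncomputable def wt (R : ℝ) (p : ℝ × ℝ) : ℝ≥0∞ := ENNReal.ofReal (chi R p.1 * chi R p.2)

lemma wt_measurable (R : ℝ) : Measurable (wt R) := by
  have := chi_continuous R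
  unfold wt
  exact (by fun_prop : Continuous fun p : ℝ × ℝ => chi R p.1 * chi R p.2).measurable.ennreal_ofReal

lemma wt_mono {R R' : ℝ} (h : R ≤ R') (p : ℝ × ℝ) : wt R p ≤ wt R' p :=
  ENNReal.ofReal_le_ofReal (mul_le_mul (chi_mono h _) (chi_mono h _) (chi_nonneg _ _)
    (chi_nonneg _ _))

lemma wt_eq_one {R : ℝ} {p : ℝ × ℝ} (h1 : |p.1| ≤ R) (h2 : |p.2| ≤ R) : wt R p = 1 := by
  rw [wt, chi_eq_one h1, chi_eq_one h2, one_mul, ENNReal.ofReal_one]

lemma wt_tendsto (p : ℝ × ℝ) (a : ℝ≥0∞) : Tendsto (fun n : ℕ => wt n p * a) atTop (𝓝 a) := by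
  obtain ⟨n, hn⟩ := exists_nat_ge (max |p.1| |p.2|)
  refine tendsto_const_nhds.congr' ?_
  filter_upwards [eventually_ge_atTop n] with m hm
  have hm' : (n : ℝ) ≤ m := by exact_mod_cast hm
  rw [wt_eq_one ((le_max_left _ _).trans (hn.trans hm')) ((le_max_right _ _).trans (hn.trans hm')),
    one_mul]

lemma tendsto_wt {μ : Measure (ℝ × ℝ)} {F : ℝ × ℝ → ℝ≥0∞} (hF : Measurable F) :
    Tendsto (fun n : ℕ => ∫⁻ p, wt n p * F p ∂μ) atTop (𝓝 (∫⁻ p, F p ∂μ)) := by
  refine lintegral_tendsto_of_tendsto_of_monotone (fun n => ((wt_measurable n).mul hF).aemeasurable)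
    (ae_of_all _ fun p => ?_) (ae_of_all _ fun p => wt_tendsto p _)
  intro m n hmn
  have hm' : (m : ℝ) ≤ n := by exact_mod_cast hmn
  exact mul_le_mul_left (wt_mono hm' p) _

/-- the candidate for the second moment measure -/
noncomputable def secm (r : ℝ → ℝ) (c : ℝ) : Measure (ℝ × ℝ) :=
  ((volume : Measure ℝ).prod volume).withDensity (fun p => ENNReal.ofReal (r (p.2 - p.1))) +
    ENNReal.ofReal c • (volume : Measure ℝ).map (fun x => (x, x))

lemma lintegral_secm {r : ℝ → ℝ} (hr : Continuous r) (c : ℝ) {F : ℝ × ℝ → ℝ≥0∞}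
    (hF : Measurable F) : ∫⁻ p, F p ∂(secm r c) =
      (∫⁻ x, ∫⁻ y, ENNReal.ofReal (r (y - x)) * F (x, y)) +
        ENNReal.ofReal c * ∫⁻ x, F (x, x) := by
  have hm : Measurable fun p : ℝ × ℝ => ENNReal.ofReal (r (p.2 - p.1)) :=
    (by fun_prop : Continuous fun p : ℝ × ℝ => r (p.2 - p.1)).measurable.ennreal_ofReal
  rw [secm, lintegral_add_measure, lintegral_withDensity_eq_lintegral_mul _ hm hF,
    lintegral_prod _ (hm.mul hF).aemeasurable, lintegral_smul_measure,
    lintegral_map hF (by fun_prop)]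
  rfl

/-- the weighted second moment measure -/
lemma key_eq (P : Measure Ω) [IsProbabilityMeasure P]
    (hfin : ∀ ω R, (X ω ∩ Icc (-R) R).Finite)
    (hmeas : ∀ a b, Measurable fun ω => (X ω ∩ Ioo a b).ncard)
    (r : ℝ → ℝ) (hr : Continuous r) (_hr0 : ∀ x, 0 ≤ r x) (c : ℝ) (hc : 0 ≤ c)
    (h : ∀ f g : ℝ → ℝ, Continuous f → HasCompactSupport f → (∀ x, 0 ≤ f x) →
      Continuous g → HasCompactSupport g → (∀ x, 0 ≤ g x) →
      ∫⁻ ω, ENNReal.ofReal ((∑ᶠ x ∈ X ω, f x) * ∑ᶠ x ∈ X ω, g x) ∂P =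
        (∫⁻ x, ∫⁻ y, ENNReal.ofReal (f x * g y * r (y - x))) +
          ∫⁻ x, ENNReal.ofReal (c * f x * g x)) (R : ℝ) :
    (P.bind fun ω => (win X (R + 1) ω).prod (win X (R + 1) ω)).withDensity (wt R) =
      (secm r c).withDensity (wt R) := by
  have hb := measurable_win_prod hfin hmeas (R + 1)
  have hwf := isFiniteMeasure_win hfin (R + 1)
  have hch := chi_continuous R
  -- products of continuous functions
  have main : ∀ f g : ℝ → ℝ≥0, Continuous f → Continuous g →
      ∫⁻ p, (f p.1 : ℝ≥0∞) * g p.2 ∂((P.bind fun ω =>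
        (win X (R + 1) ω).prod (win X (R + 1) ω)).withDensity (wt R)) =
      ∫⁻ p, (f p.1 : ℝ≥0∞) * g p.2 ∂((secm r c).withDensity (wt R)) := by
    intro f g hf hg
    have hfg : Measurable fun p : ℝ × ℝ => (f p.1 : ℝ≥0∞) * g p.2 := by
      have h1 := hf.measurable
      have h2 := hg.measurable
      fun_prop
    rw [lintegral_withDensity_eq_lintegral_mul _ (wt_measurable R) hfg,
      lintegral_withDensity_eq_lintegral_mul _ (wt_measurable R) hfg,
      Measure.lintegral_bind hb.aemeasurable ((wt_measurable R).mul hfg).aemeasurable,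
      lintegral_secm hr c ((wt_measurable R).mul hfg)]
    have pf : ∀ x, 0 ≤ chi R x * (f x : ℝ) := fun x => mul_nonneg (chi_nonneg _ _) (f x).coe_nonneg
    have pg : ∀ x, 0 ≤ chi R x * (g x : ℝ) := fun x => mul_nonneg (chi_nonneg _ _) (g x).coe_nonneg
    have e1 : ∀ x y : ℝ, (wt R * fun p : ℝ × ℝ => (f p.1 : ℝ≥0∞) * g p.2) (x, y) =
        ENNReal.ofReal (chi R x * f x) * ENNReal.ofReal (chi R y * g y) := by
      intro x y
      simp only [Pi.mul_apply, wt]
      rw [ENNReal.ofReal_mul (chi_nonneg _ _), ENNReal.ofReal_mul (chi_nonneg _ _),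
        ENNReal.ofReal_mul (chi_nonneg _ _), ENNReal.ofReal_coe_nnreal, ENNReal.ofReal_coe_nnreal]
      ring
    have e2 : ∀ ω, ∫⁻ p, (wt R * fun p : ℝ × ℝ => (f p.1 : ℝ≥0∞) * g p.2) p
        ∂((win X (R + 1) ω).prod (win X (R + 1) ω)) =
        ENNReal.ofReal ((∑ᶠ x ∈ X ω, chi R x * f x) * ∑ᶠ x ∈ X ω, chi R x * g x) := by
      intro ω
      have m1 : Measurable fun x => ENNReal.ofReal (chi R x * f x) :=
        (by fun_prop : Continuous fun x => chi R x * (f x : ℝ)).measurable.ennreal_ofReal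
      have m2 : Measurable fun x => ENNReal.ofReal (chi R x * g x) :=
        (by fun_prop : Continuous fun x => chi R x * (g x : ℝ)).measurable.ennreal_ofReal
      rw [ENNReal.ofReal_mul (finsum_nonneg' ω pf),
        ofReal_finsum hfin (R + 1) ω pf
          (fun x hx => by rw [chi_eq_zero hx, zero_mul]),
        ofReal_finsum hfin (R + 1) ω pg
          (fun x hx => by rw [chi_eq_zero hx, zero_mul]),
        ← lintegral_prod_mul m1.aemeasurable m2.aemeasurable]
      exact lintegral_congr fun p => e1 p.1 p.2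
    simp_rw [e2, e1]
    rw [h (fun x => chi R x * f x) (fun x => chi R x * g x) (by fun_prop) (chi_compact R _)
      pf (by fun_prop) (chi_compact R _)
      pg]
    congr 1
    · refine lintegral_congr fun x => lintegral_congr fun y => ?_
      rw [ENNReal.ofReal_mul (mul_nonneg (pf x) (pg y)), ENNReal.ofReal_mul (pf x)]
      ring
    · rw [← lintegral_const_mul']
      · refine lintegral_congr fun x => ?_
        rw [mul_assoc, ENNReal.ofReal_mul hc, ENNReal.ofReal_mul (pf x)]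
      · exact ENNReal.ofReal_ne_top
  have hfinm : IsFiniteMeasure ((secm r c).withDensity (wt R)) := by
    constructor
    rw [withDensity_apply _ MeasurableSet.univ, Measure.restrict_univ,
      lintegral_secm hr c (wt_measurable R)]
    refine ENNReal.add_lt_top.mpr ⟨?_, ENNReal.mul_lt_top ENNReal.ofReal_lt_top ?_⟩
    · have hcs : HasCompactSupport fun p : ℝ × ℝ => chi R p.1 * chi R p.2 * r (p.2 - p.1) := by
        refine HasCompactSupport.intro ((isCompact_Icc (a := -(R + 1)) (b := R + 1)).prod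
          (isCompact_Icc (a := -(R + 1)) (b := R + 1))) fun p hp => ?_
        by_cases h1 : p.1 ∈ Icc (-(R + 1)) (R + 1)
        · have h2 : p.2 ∉ Icc (-(R + 1)) (R + 1) := fun h2 => hp ⟨h1, h2⟩
          have : R + 1 ≤ |p.2| := by
            by_contra h3
            exact h2 (abs_le.mp (not_le.mp h3).le)
          rw [chi_eq_zero this, mul_zero, zero_mul]
        · have : R + 1 ≤ |p.1| := by
            by_contra h3
            exact h1 (abs_le.mp (not_le.mp h3).le)
          rw [chi_eq_zero this, zero_mul, zero_mul]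
      have hi : Integrable (fun p : ℝ × ℝ => chi R p.1 * chi R p.2 * r (p.2 - p.1))
          ((volume : Measure ℝ).prod volume) :=
        (by fun_prop : Continuous fun p : ℝ × ℝ =>
          chi R p.1 * chi R p.2 * r (p.2 - p.1)).integrable_of_hasCompactSupport hcs
      have hl := hi.lintegral_lt_top
      rw [lintegral_prod _ (by fun_prop)] at hl
      refine lt_of_le_of_lt (le_of_eq ?_) hl
      refine lintegral_congr fun x => lintegral_congr fun y => ?_
      rw [wt, mul_comm, ← ENNReal.ofReal_mul (mul_nonneg (chi_nonneg _ _) (chi_nonneg _ _))]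
    · have hi : Integrable (fun x => chi R x * chi R x) :=
        (by fun_prop : Continuous fun x => chi R x * chi R x).integrable_of_hasCompactSupport
          (chi_compact R _)
      exact hi.lintegral_lt_top
  exact (ext_of_lintegral_mul fun f g hf hg => (main f g hf hg).symm).symm

/-- mixed second moments of linear statistics determine the second factorial moment measure -/
theorem pair_of_moments (P : Measure Ω) [IsProbabilityMeasure P]
    (hfin : ∀ ω R, (X ω ∩ Icc (-R) R).Finite)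
    (hmeas : ∀ a b, Measurable fun ω => (X ω ∩ Ioo a b).ncard)
    (r : ℝ → ℝ) (hr : Continuous r) (hr0 : ∀ x, 0 ≤ r x) (c : ℝ) (hc : 0 ≤ c)
    (h : ∀ f g : ℝ → ℝ, Continuous f → HasCompactSupport f → (∀ x, 0 ≤ f x) →
      Continuous g → HasCompactSupport g → (∀ x, 0 ≤ g x) →
      ∫⁻ ω, ENNReal.ofReal ((∑ᶠ x ∈ X ω, f x) * ∑ᶠ x ∈ X ω, g x) ∂P =
        (∫⁻ x, ∫⁻ y, ENNReal.ofReal (f x * g y * r (y - x))) +
          ∫⁻ x, ENNReal.ofReal (c * f x * g x))
    {F : ℝ × ℝ → ℝ≥0∞} (hF : Measurable F) :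
    ∫⁻ ω, ∑' x : X ω, ∑' y : X ω, (if (x : ℝ) = y then 0 else F (x, y)) ∂P =
      ∫⁻ x, ∫⁻ y, F (x, y) * ENNReal.ofReal (r (y - x)) := by
  classical
  have hsf : ∀ ω, SFinite (cntm (X ω)) := fun ω => sfinite_cntm (countable_of_hfin hfin ω)
  set G : ℝ × ℝ → ℝ≥0∞ := fun p => if p.1 = p.2 then 0 else F p with hG
  have hGm : Measurable G :=
    Measurable.ite (measurableSet_eq_fun measurable_fst measurable_snd) measurable_const hF
  -- weighted identity
  have hw : ∀ n : ℕ, ∫⁻ ω, ∫⁻ p, wt n p * G p ∂((cntm (X ω)).prod (cntm (X ω))) ∂P =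
      ∫⁻ p, wt n p * G p ∂(secm r c) := by
    intro n
    have hb := measurable_win_prod hfin hmeas ((n : ℝ) + 1)
    have hk := key_eq P hfin hmeas r hr hr0 c hc h n
    have h1 : ∫⁻ p, G p ∂((P.bind fun ω => (win X ((n : ℝ) + 1) ω).prod
        (win X ((n : ℝ) + 1) ω)).withDensity (wt n)) = ∫⁻ p, wt n p * G p ∂(secm r c) := by
      rw [hk, lintegral_withDensity_eq_lintegral_mul _ (wt_measurable n) hGm]
      rfl
    rw [← h1, lintegral_withDensity_eq_lintegral_mul _ (wt_measurable n) hGm,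
      Measure.lintegral_bind hb.aemeasurable ((wt_measurable n).mul hGm).aemeasurable]
    refine lintegral_congr fun ω => ?_
    have := hsf ω
    rw [win, Measure.prod_restrict, ← lintegral_indicator (measurableSet_Ioo.prod measurableSet_Ioo)]
    refine lintegral_congr fun p => ?_
    by_cases hp : p ∈ Ioo (-((n : ℝ) + 1)) (n + 1) ×ˢ Ioo (-((n : ℝ) + 1)) (n + 1)
    · rw [indicator_of_mem hp]
      rfl
    · rw [indicator_of_notMem hp]
      have : wt n p = 0 := by
        unfold wt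
        by_cases h1 : p.1 ∈ Ioo (-((n : ℝ) + 1)) (n + 1)
        · have h2 : p.2 ∉ Ioo (-((n : ℝ) + 1)) (n + 1) := fun h2 => hp ⟨h1, h2⟩
          have : (n : ℝ) + 1 ≤ |p.2| := by
            by_contra h3
            exact h2 (abs_lt.mp (not_le.mp h3))
          rw [chi_eq_zero this, mul_zero, ENNReal.ofReal_zero]
        · have : (n : ℝ) + 1 ≤ |p.1| := by
            by_contra h3
            exact h1 (abs_lt.mp (not_le.mp h3))
          rw [chi_eq_zero this, zero_mul, ENNReal.ofReal_zero]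
      rw [this, zero_mul]
  -- the limit
  have hmono : ∀ ω, Monotone fun n : ℕ =>
      ∫⁻ p, wt n p * G p ∂((cntm (X ω)).prod (cntm (X ω))) := by
    intro ω m n hmn
    have hm' : (m : ℝ) ≤ n := by exact_mod_cast hmn
    exact lintegral_mono fun p => mul_le_mul_left (wt_mono hm' p) _
  have hme : ∀ n : ℕ, Measurable fun ω =>
      ∫⁻ p, wt n p * G p ∂((cntm (X ω)).prod (cntm (X ω))) := by
    intro n
    have hb := measurable_win_prod hfin hmeas ((n : ℝ) + 1)
    have h1 : Measurable fun ω => ∫⁻ p, wt n p * G p ∂((win X ((n : ℝ) + 1) ω).prod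
        (win X ((n : ℝ) + 1) ω)) :=
      (Measure.measurable_lintegral ((wt_measurable n).mul hGm)).comp hb
    convert h1 using 2 with ω
    have := hsf ω
    rw [win, Measure.prod_restrict, ← lintegral_indicator (measurableSet_Ioo.prod measurableSet_Ioo)]
    refine lintegral_congr fun p => ?_
    by_cases hp : p ∈ Ioo (-((n : ℝ) + 1)) (n + 1) ×ˢ Ioo (-((n : ℝ) + 1)) (n + 1)
    · rw [indicator_of_mem hp]
    · rw [indicator_of_notMem hp]
      have : wt n p = 0 := by
        unfold wt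
        by_cases h1 : p.1 ∈ Ioo (-((n : ℝ) + 1)) (n + 1)
        · have h2 : p.2 ∉ Ioo (-((n : ℝ) + 1)) (n + 1) := fun h2 => hp ⟨h1, h2⟩
          have : (n : ℝ) + 1 ≤ |p.2| := by
            by_contra h3
            exact h2 (abs_lt.mp (not_le.mp h3))
          rw [chi_eq_zero this, mul_zero, ENNReal.ofReal_zero]
        · have : (n : ℝ) + 1 ≤ |p.1| := by
            by_contra h3
            exact h1 (abs_lt.mp (not_le.mp h3))
          rw [chi_eq_zero this, zero_mul, ENNReal.ofReal_zero]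
      rw [this, zero_mul]
  have hl1 : Tendsto (fun n : ℕ => ∫⁻ ω, ∫⁻ p, wt n p * G p ∂((cntm (X ω)).prod (cntm (X ω))) ∂P)
      atTop (𝓝 (∫⁻ ω, ∫⁻ p, G p ∂((cntm (X ω)).prod (cntm (X ω))) ∂P)) :=
    lintegral_tendsto_of_tendsto_of_monotone (fun n => (hme n).aemeasurable)
      (ae_of_all _ hmono) (ae_of_all _ fun ω => tendsto_wt hGm)
  have hl2 : Tendsto (fun n : ℕ => ∫⁻ p, wt n p * G p ∂(secm r c)) atTop
      (𝓝 (∫⁻ p, G p ∂(secm r c))) := tendsto_wt hGm
  have hl := tendsto_nhds_unique (hl1.congr hw) hl2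
  have hL : ∫⁻ ω, ∑' x : X ω, ∑' y : X ω, (if (x : ℝ) = y then 0 else F (x, y)) ∂P =
      ∫⁻ ω, ∫⁻ p, G p ∂((cntm (X ω)).prod (cntm (X ω))) ∂P := by
    refine lintegral_congr fun ω => ?_
    have := hsf ω
    rw [lintegral_prod _ hGm.aemeasurable, lintegral_cntm]
    refine tsum_congr fun x => ?_
    rw [lintegral_cntm]
  rw [hL, hl, lintegral_secm hr c hGm]
  have h0 : ∀ x : ℝ, G (x, x) = 0 := fun x => by simp [hG]
  simp only [h0, lintegral_zero, mul_zero, add_zero]
  refine lintegral_congr fun x => lintegral_congr_ae ?_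
  have hx : ∀ᵐ y ∂(volume : Measure ℝ), y ≠ x := by
    rw [ae_iff]
    simp
  filter_upwards [hx] with y hy
  have : G (x, y) = F (x, y) := by
    rw [hG]
    exact if_neg fun h => hy h.symm
  rw [this, mul_comm]

end randset

end Pool.Agent.Lib.MP_b33862_pr
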