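import Mathlib
import Pool.Agent.Lib.MP_b33862_pr.Defs
import Pool.Agent.Lib.MP_b33862_pr.Basic
import Pool.Agent.Lib.MP_b33862_pr.Energy

/-!
Uniform integrability of the second moments of linear statistics of the circular beta ensemble.
-/

set_option autoImplicit false

namespace Pool.Agent.Lib.MP_b33862_pr

open MeasureTheory Set Real Filter
open scoped ENNReal Topology

lemma cnt_eq_sum {n : ℕ} (r : ℝ) (θ : Fin n → ℝ) (i : Fin n) :
    (cnt r θ i : ℝ) = ∑ j, if ‖e (θ i) - e (θ j)‖ ≤ r then (1 : ℝ) else 0 := by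
  unfold cnt
  rw [Finset.card_filter]
  push_cast
  rfl

lemma cnt_measurable {n : ℕ} (r : ℝ) (i : Fin n) :
    Measurable fun θ : Fin n → ℝ => (cnt r θ i : ℝ) := by
  simp_rw [cnt_eq_sum]
  refine Finset.measurable_sum _ fun j _ => ?_
  refine Measurable.ite ?_ measurable_const measurable_const
  refine measurableSet_le ?_ measurable_const
  refine Measurable.norm ?_
  exact (e_continuous.measurable.comp (measurable_pi_apply i)).sub
    (e_continuous.measurable.comp (measurable_pi_apply j))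

lemma cnt_per {n : ℕ} (r : ℝ) (i : Fin n) : Per fun θ : Fin n → ℝ => cnt r θ i := by
  intro θ θ' h
  simp only [cnt, h]

lemma cnt_rot {n : ℕ} (r : ℝ) (i : Fin n) : Rot fun θ : Fin n → ℝ => cnt r θ i := by
  intro θ a
  have h : ∀ j, ‖e (θ i + a) - e (θ j + a)‖ = ‖e (θ i) - e (θ j)‖ := fun j => by
    rw [e_sub_norm, e_sub_norm]
    congr 3
    ring
  simp only [cnt, h]

/-- the local count functional -/
noncomputable def cntG {n : ℕ} (L : ℝ) (i : Fin n) (θ : Fin n → ℝ) : ℝ :=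
  ((cnt (L / n) θ i : ℝ) - 1) * Real.log (1 + (cnt (L / n) θ i : ℝ) ^ 2 / L ^ 2)

lemma cntG_measurable {n : ℕ} (L : ℝ) (i : Fin n) : Measurable (cntG L i) := by
  unfold cntG
  have h := cnt_measurable (L / n) i
  exact (h.sub_const 1).mul (Real.measurable_log.comp (((h.pow_const 2).div_const _).const_add 1))

lemma cntG_nonneg {n : ℕ} {L : ℝ} (hL : 0 < L) (i : Fin n) (θ : Fin n → ℝ) : 0 ≤ cntG L i θ := by
  unfold cntG
  have h1 : (1 : ℝ) ≤ cnt (L / n) θ i := by
    exact_mod_cast cnt_pos (by positivity) θ i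
  refine mul_nonneg (by linarith) (Real.log_nonneg ?_)
  have : 0 ≤ (cnt (L / n) θ i : ℝ) ^ 2 / L ^ 2 := by positivity
  linarith

lemma circ_window {n : ℕ} (hn : 1 ≤ n) {R : ℝ} (hR : 0 ≤ R) :
    circ {x : ℝ | |(n : ℝ) * x| ≤ R} ≤ ENNReal.ofReal (R / (π * n)) := by
  have hn' : (0 : ℝ) < n := by exact_mod_cast hn
  have hsub : {x : ℝ | |(n : ℝ) * x| ≤ R} ⊆ Icc (-(R / n)) (R / n) := by
    intro x hx
    have hx : |(n : ℝ) * x| ≤ R := hx
    rw [abs_mul, abs_of_pos hn'] at hx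
    rw [mem_Icc, ← abs_le, le_div_iff₀ hn']
    linarith
  have h1 : circ {x : ℝ | |(n : ℝ) * x| ≤ R} ≤
      (ENNReal.ofReal (2 * π))⁻¹ * volume (Icc (-(R / (n : ℝ))) (R / n)) := by
    unfold circ
    rw [Measure.smul_apply, smul_eq_mul]
    have h2 : (volume.restrict (Ico (-π) π)) {x : ℝ | |(n : ℝ) * x| ≤ R} ≤
        volume (Icc (-(R / (n : ℝ))) (R / n)) :=
      (measure_mono hsub).trans (Measure.restrict_apply_le _ _)
    exact mul_le_mul_right h2 _
  refine h1.trans ?_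
  rw [Real.volume_Icc, ← ENNReal.ofReal_inv_of_pos (by positivity),
    ← ENNReal.ofReal_mul (by positivity)]
  refine ENNReal.ofReal_le_ofReal (le_of_eq ?_)
  field_simp
  ring

lemma sq_le_window {n : ℕ} (hn : 1 ≤ n) {f : ℝ → ℝ} (h0 : ∀ x, 0 ≤ f x) {A : ℝ} (hA1 : 0 < A)
    (hA : ∀ x, f x ≤ A) {R : ℝ} (hR1 : 0 < R) (hR : ∀ x, R < |x| → f x = 0)
    {M : ℝ} (hM : 2 ≤ M) (θ : Fin n → ℝ) (h : A * M < ∑ i, f (n * θ i)) :
    (∑ i, f (n * θ i)) ^ 2 ≤ 2 * A ^ 2 / Real.log (1 + M ^ 2 / (2 * R) ^ 2) *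
      ∑ i, if |(n : ℝ) * θ i| ≤ R then cntG (2 * R) i θ else 0 := by
  classical
  have hn' : (0 : ℝ) < n := by exact_mod_cast hn
  set W : ℝ := ∑ i : Fin n, if |(n : ℝ) * θ i| ≤ R then (1 : ℝ) else 0 with hW
  set l : ℝ := Real.log (1 + M ^ 2 / (2 * R) ^ 2) with hl
  have hlpos : 0 < l := by
    refine Real.log_pos ?_
    have : 0 < M ^ 2 / (2 * R) ^ 2 := by positivity
    linarith
  have h1 : ∑ i, f (n * θ i) ≤ A * W := by
    rw [hW, Finset.mul_sum]
    refine Finset.sum_le_sum fun i _ => ?_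
    by_cases hi : |(n : ℝ) * θ i| ≤ R
    · rw [if_pos hi, mul_one]
      exact hA _
    · rw [if_neg hi, hR _ (not_le.mp hi), mul_zero]
  have h2 : M < W := by
    have := h.trans_le h1
    exact lt_of_mul_lt_mul_left this hA1.le
  have h3 : ∀ i, |(n : ℝ) * θ i| ≤ R → W ≤ cnt (2 * R / n) θ i := by
    intro i hi
    rw [cnt_eq_sum, hW]
    refine Finset.sum_le_sum fun j _ => ?_
    by_cases hj : |(n : ℝ) * θ j| ≤ R
    · rw [if_pos hj, if_pos]
      refine (e_sub_le _ _).trans ?_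
      rw [le_div_iff₀ hn']
      have : |θ i - θ j| * n = |(n : ℝ) * θ i - n * θ j| := by
        rw [← mul_sub, abs_mul, abs_of_pos hn', mul_comm]
      rw [this]
      calc |(n : ℝ) * θ i - n * θ j| ≤ |(n : ℝ) * θ i| + |(n : ℝ) * θ j| := abs_sub _ _
        _ ≤ 2 * R := by linarith
    · rw [if_neg hj]
      split_ifs <;> norm_num
  have hX0 : 0 ≤ ∑ i, f (n * θ i) := Finset.sum_nonneg fun i _ => h0 _
  have hW0 : 0 ≤ W := by linarith
  calc (∑ i, f (n * θ i)) ^ 2 ≤ (A * W) ^ 2 := by gcongr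
    _ = A ^ 2 * ∑ i : Fin n, if |(n : ℝ) * θ i| ≤ R then W else 0 := by
        have : (∑ i : Fin n, if |(n : ℝ) * θ i| ≤ R then W else 0) = W * W := by
          conv_rhs => rw [hW, Finset.sum_mul]
          refine Finset.sum_congr rfl fun i _ => ?_
          split_ifs
          · rw [one_mul]
          · rw [zero_mul]
        rw [this]
        ring
    _ ≤ A ^ 2 * ∑ i : Fin n, if |(n : ℝ) * θ i| ≤ R then 2 / l * cntG (2 * R) i θ else 0 := by
        gcongr with i _
        split_ifs with hi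
        · have hK := h3 i hi
          set K : ℝ := (cnt (2 * R / n) θ i : ℝ) with hKdef
          have hK2 : 2 ≤ K := by linarith
          have hlog : l ≤ Real.log (1 + K ^ 2 / (2 * R) ^ 2) := by
            refine Real.log_le_log (by positivity) ?_
            gcongr
            linarith
          have hG : cntG (2 * R) i θ = (K - 1) * Real.log (1 + K ^ 2 / (2 * R) ^ 2) := rfl
          rw [hG]
          calc W ≤ K := hK
            _ ≤ 2 * (K - 1) := by linarith
            _ = 2 / l * ((K - 1) * l) := by field_simp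
            _ ≤ 2 / l * ((K - 1) * Real.log (1 + K ^ 2 / (2 * R) ^ 2)) := by
                have : 0 ≤ K - 1 := by linarith
                gcongr
        · exact le_refl _
    _ = 2 * A ^ 2 / l * ∑ i, if |(n : ℝ) * θ i| ≤ R then cntG (2 * R) i θ else 0 := by
        rw [Finset.mul_sum, Finset.mul_sum]
        refine Finset.sum_congr rfl fun i _ => ?_
        split_ifs
        · ring
        · ring

theorem ui {β : ℝ} (hβ : 0 < β) {f : ℝ → ℝ} (hf : Measurable f) (h0 : ∀ x, 0 ≤ f x) (A : ℝ)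
    (hA : ∀ x, f x ≤ A) (R : ℝ) (hR : ∀ x, R < |x| → f x = 0) :
    ∀ ε : ℝ, 0 < ε → ∃ M : ℝ, ∀ᶠ n : ℕ in atTop,
      ∫⁻ θ in {θ | M < ∑ i, f (n * θ i)}, ENNReal.ofReal ((∑ i, f (n * θ i)) ^ 2) ∂(cbe β n) ≤
        ENNReal.ofReal ε := by
  intro ε hε
  set A₁ : ℝ := max A 1 with hA₁
  set R₁ : ℝ := max R 1 with hR₁
  have hA₁pos : 0 < A₁ := lt_of_lt_of_le one_pos (le_max_right _ _)
  have hR₁pos : 0 < R₁ := lt_of_lt_of_le one_pos (le_max_right _ _)
  have hA' : ∀ x, f x ≤ A₁ := fun x => (hA x).trans (le_max_left _ _)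
  have hR' : ∀ x, R₁ < |x| → f x = 0 := fun x hx => hR x ((le_max_left _ _).trans_lt hx)
  obtain ⟨C, hC0, hC⟩ := count_le β β (2 * R₁) hβ (by positivity)
  set T : ℝ := 2 * A₁ ^ 2 * R₁ * C / (π * ε) + 1 with hT
  have hT0 : 0 < T := by positivity
  set M : ℝ := max 2 (2 * R₁ * Real.exp T) with hM
  have hM2 : 2 ≤ M := le_max_left _ _
  have hMT : T ≤ Real.log (1 + M ^ 2 / (2 * R₁) ^ 2) := by
    rw [Real.le_log_iff_exp_le (by positivity)]
    have h1 : Real.exp T ≤ M / (2 * R₁) := by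
      rw [le_div_iff₀ (by positivity)]
      calc Real.exp T * (2 * R₁) = 2 * R₁ * Real.exp T := by ring
        _ ≤ M := le_max_right _ _
    have h2 : 1 ≤ Real.exp T := Real.one_le_exp hT0.le
    have h3 : Real.exp T ≤ Real.exp T ^ 2 := by nlinarith
    have h4 : Real.exp T ^ 2 ≤ (M / (2 * R₁)) ^ 2 := by gcongr
    rw [div_pow] at h4
    linarith
  refine ⟨A₁ * M, ?_⟩
  filter_upwards [eventually_ge_atTop 1] with n hn
  have hn' : (0 : ℝ) < n := by exact_mod_cast hn
  set l : ℝ := Real.log (1 + M ^ 2 / (2 * R₁) ^ 2) with hl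
  have hlpos : 0 < l := lt_of_lt_of_le hT0 hMT
  set Win : Set ℝ := {x : ℝ | |(n : ℝ) * x| ≤ R₁} with hWin
  have hWinm : MeasurableSet Win :=
    measurableSet_le (measurable_const.mul measurable_id).abs measurable_const
  have hXm : Measurable fun θ : Fin n → ℝ => ∑ i, f (n * θ i) :=
    Finset.measurable_sum _ fun i _ => hf.comp (measurable_const.mul (measurable_pi_apply i))
  have hS : MeasurableSet {θ : Fin n → ℝ | A₁ * M < ∑ i, f (n * θ i)} :=
    measurableSet_lt measurable_const hXm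
  have hpt : ∀ θ ∈ {θ : Fin n → ℝ | A₁ * M < ∑ i, f (n * θ i)},
      ENNReal.ofReal ((∑ i, f (n * θ i)) ^ 2) ≤ ENNReal.ofReal (2 * A₁ ^ 2 / l) *
        ∑ i, Win.indicator 1 (θ i) * ENNReal.ofReal (cntG (2 * R₁) i θ) := by
    intro θ hθ
    have h1 := sq_le_window hn h0 hA₁pos hA' hR₁pos hR' hM2 θ hθ
    refine (ENNReal.ofReal_le_ofReal h1).trans ?_
    rw [ENNReal.ofReal_mul (by positivity), ENNReal.ofReal_sum_of_nonneg]
    · refine mul_le_mul_right ?_ _
      refine Finset.sum_le_sum fun i _ => ?_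
      by_cases hi : |(n : ℝ) * θ i| ≤ R₁
      · rw [if_pos hi, Set.indicator_of_mem (show θ i ∈ Win from hi)]
        simp
      · rw [if_neg hi]
        simp
    · intro i _
      split_ifs
      · exact cntG_nonneg (by positivity) i θ
      · exact le_refl _
  calc ∫⁻ θ in {θ | A₁ * M < ∑ i, f (n * θ i)}, ENNReal.ofReal ((∑ i, f (n * θ i)) ^ 2) ∂(cbe β n)
      ≤ ∫⁻ θ in {θ | A₁ * M < ∑ i, f (n * θ i)}, ENNReal.ofReal (2 * A₁ ^ 2 / l) *
        ∑ i, Win.indicator 1 (θ i) * ENNReal.ofReal (cntG (2 * R₁) i θ) ∂(cbe β n) :=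
        setLIntegral_mono' hS hpt
    _ ≤ ∫⁻ θ, ENNReal.ofReal (2 * A₁ ^ 2 / l) *
        ∑ i, Win.indicator 1 (θ i) * ENNReal.ofReal (cntG (2 * R₁) i θ) ∂(cbe β n) :=
        setLIntegral_le_lintegral _ _
    _ = ENNReal.ofReal (2 * A₁ ^ 2 / l) * ∑ i,
        ∫⁻ θ, Win.indicator 1 (θ i) * ENNReal.ofReal (cntG (2 * R₁) i θ) ∂(cbe β n) := by
        have hm : ∀ i : Fin n, Measurable fun θ : Fin n → ℝ =>
            Win.indicator (1 : ℝ → ℝ≥0∞) (θ i) * ENNReal.ofReal (cntG (2 * R₁) i θ) := fun i =>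
          ((measurable_one.indicator hWinm).comp (measurable_pi_apply i)).mul
            (cntG_measurable _ i).ennreal_ofReal
        rw [lintegral_const_mul _ (Finset.measurable_sum _ fun i _ => hm i),
          lintegral_finsetSum _ fun i _ => hm i]
    _ = ENNReal.ofReal (2 * A₁ ^ 2 / l) * ∑ i : Fin n,
        (circ Win * ∫⁻ θ, ENNReal.ofReal (cntG (2 * R₁) i θ) ∂(cbe β n)) := by
        congr 1
        refine Finset.sum_congr rfl fun i _ => ?_
        refine mass_transport hβ.le (cntG_measurable _ i).ennreal_ofReal ?_ ?_ i hWinm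
        · intro θ θ' hθ
          have := cnt_per (2 * R₁ / n) i θ θ' hθ
          simp only at this
          simp only [cntG, this]
        · intro θ a
          have := cnt_rot (2 * R₁ / n) i θ a
          simp only at this
          simp only [cntG, this]
    _ = ENNReal.ofReal (2 * A₁ ^ 2 / l) * (circ Win *
        ∫⁻ θ, ∑ i : Fin n, ENNReal.ofReal (cntG (2 * R₁) i θ) ∂(cbe β n)) := by
        rw [lintegral_finsetSum _ fun i _ => (cntG_measurable _ i).ennreal_ofReal,
          ← Finset.mul_sum]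
    _ ≤ ENNReal.ofReal (2 * A₁ ^ 2 / l) * (ENNReal.ofReal (R₁ / (π * n)) *
        ENNReal.ofReal (C * n)) := by
        gcongr
        · exact circ_window hn hR₁pos.le
        · exact (hC β ⟨le_refl _, le_refl _⟩ n).2
    _ = ENNReal.ofReal (2 * A₁ ^ 2 / l * (R₁ / (π * n) * (C * n))) := by
        rw [← ENNReal.ofReal_mul (by positivity), ← ENNReal.ofReal_mul (by positivity)]
    _ ≤ ENNReal.ofReal ε := by
        refine ENNReal.ofReal_le_ofReal ?_
        have h1 : 2 * A₁ ^ 2 / l * (R₁ / (π * n) * (C * n)) = (2 * A₁ ^ 2 * R₁ * C / π) / l := by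
          field_simp
        rw [h1, div_le_iff₀ hlpos]
        calc 2 * A₁ ^ 2 * R₁ * C / π = ε * (T - 1) := by
              rw [hT]
              field_simp
              ring
          _ ≤ ε * l := by
              have : T - 1 ≤ l := by linarith
              gcongr

end Pool.Agent.Lib.MP_b33862_pr
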