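import Mathlib
import Pool.Agent.Lib.MP_b33862_pr.Moment
import Pool.Agent.Lib.MP_b33862_pr.RandSet
import Pool.Agent.Lib.MP_b33862_pr.TwoPt
import Pool.Agent.Lib.MP_b33862_pr.UI

/-!
Mixed second moments of linear statistics of the limit process are the limits of the mixed second
moments of the circular beta ensemble.
-/

set_option autoImplicit false

namespace Pool.Agent.Lib.MP_b33862_pr

open MeasureTheory Set Real Filter
open scoped ENNReal Topology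

namespace Mixed

variable {Ω : Type*} {X : Ω → Set ℝ}

lemma exists_radius {f : ℝ → ℝ} (hfs : HasCompactSupport f) :
    ∃ R : ℝ, 0 < R ∧ ∀ x, R < |x| → f x = 0 := by
  obtain ⟨R, hR, h⟩ := hfs.exists_pos_le_norm
  exact ⟨R, hR, fun x hx => h x (by rw [Real.norm_eq_abs]; exact hx.le)⟩

lemma exists_finset (hfin : ∀ ω R, (X ω ∩ Icc (-R) R).Finite) (R : ℝ) (ω : Ω) :
    ∃ T : Finset ℝ, ∀ g : ℝ → ℝ, (∀ x, R < |x| → g x = 0) →
      ∑ᶠ x ∈ X ω, g x = ∑ x ∈ T, g x := by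
  refine ⟨(hfin ω R).toFinset, fun g hg => finsum_mem_eq_sum_of_inter_support_eq g ?_⟩
  ext x
  simp only [mem_inter_iff, Function.mem_support, Finite.coe_toFinset]
  constructor
  · rintro ⟨h1, h2⟩
    refine ⟨⟨h1, ?_⟩, h2⟩
    rw [mem_Icc, ← abs_le]
    by_contra h3
    exact h2 (hg x (not_le.mp h3))
  · rintro ⟨⟨h1, _⟩, h2⟩
    exact ⟨h1, h2⟩

lemma finsum_smul (hfin : ∀ ω R, (X ω ∩ Icc (-R) R).Finite) (ω : Ω) {R : ℝ} {f : ℝ → ℝ}
    (hR : ∀ x, R < |x| → f x = 0) (t : ℝ) :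
    ∑ᶠ x ∈ X ω, t * f x = t * ∑ᶠ x ∈ X ω, f x := by
  obtain ⟨T, hT⟩ := exists_finset hfin R ω
  rw [hT f hR, hT (fun x => t * f x) (fun x hx => by rw [hR x hx, mul_zero]), Finset.mul_sum]

lemma finsum_add (hfin : ∀ ω R, (X ω ∩ Icc (-R) R).Finite) (ω : Ω) {R : ℝ} {f g : ℝ → ℝ}
    (hR : ∀ x, R < |x| → f x = 0) (hR' : ∀ x, R < |x| → g x = 0) :
    ∑ᶠ x ∈ X ω, (f x + g x) = (∑ᶠ x ∈ X ω, f x) + ∑ᶠ x ∈ X ω, g x := by
  obtain ⟨T, hT⟩ := exists_finset hfin R ω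
  rw [hT f hR, hT g hR', hT (fun x => f x + g x)
    (fun x hx => by rw [hR x hx, hR' x hx, add_zero]), Finset.sum_add_distrib]

/-- uniform integrability statement used below -/
def UIProp (β : ℝ) (f : ℝ → ℝ) : Prop :=
  ∀ ε : ℝ, 0 < ε → ∃ M : ℝ, ∀ᶠ n : ℕ in atTop,
      ∫⁻ θ in {θ | M < ∑ i, f (n * θ i)}, ENNReal.ofReal ((∑ i, f (n * θ i)) ^ 2) ∂(cbe β n) ≤
        ENNReal.ofReal ε

lemma measurable_stat (n : ℕ) {f : ℝ → ℝ} (hf : Measurable f) :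
    Measurable fun θ : Fin n → ℝ => ∑ i, f (n * θ i) :=
  Finset.measurable_sum _ fun i _ => hf.comp ((measurable_pi_apply i).const_mul _)

variable [MeasurableSpace Ω]

lemma single {β : ℝ} (hβ : 0 < β) (P : Measure Ω) [IsProbabilityMeasure P]
    (hfin : ∀ ω R, (X ω ∩ Icc (-R) R).Finite)
    (hmeas : ∀ a b, Measurable fun ω => (X ω ∩ Ioo a b).ncard)
    (hlap : ∀ f : ℝ → ℝ, Continuous f → HasCompactSupport f → (∀ x, 0 ≤ f x) →
      Tendsto (fun n : ℕ => ∫ θ, Real.exp (-∑ i, f (n * θ i)) ∂(cbe β n)) atTop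
        (𝓝 (∫ ω, Real.exp (-∑ᶠ x ∈ X ω, f x) ∂P)))
    {f : ℝ → ℝ} (hf : Continuous f) (hfs : HasCompactSupport f) (hf0 : ∀ x, 0 ≤ f x)
    (hui : UIProp β f) :
    ∫⁻ ω, ENNReal.ofReal ((∑ᶠ x ∈ X ω, f x) ^ 2) ∂P < ∞ ∧
    Tendsto (fun n : ℕ => ∫⁻ θ, ENNReal.ofReal ((∑ i, f (n * θ i)) ^ 2) ∂(cbe β n)) atTop
      (𝓝 (∫⁻ ω, ENNReal.ofReal ((∑ᶠ x ∈ X ω, f x) ^ 2) ∂P)) := by
  obtain ⟨R, -, hR⟩ := exists_radius hfs
  refine tendsto_second_moment (Ω' := fun n => Fin n → ℝ) (fun n => cbe β n)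
    (fun n => cbe_prob hβ.le n) (fun n θ => ∑ i, f (n * θ i))
    (fun n => measurable_stat n hf.measurable)
    (fun n θ => Finset.sum_nonneg fun i _ => hf0 _) P inferInstance
    (fun ω => ∑ᶠ x ∈ X ω, f x) (measurable_finsum_mem hfin hmeas hf.measurable hR)
    (fun ω => finsum_nonneg' ω hf0) ?_ hui
  intro t ht
  have h := hlap (fun x => t * f x) (continuous_const.mul hf) hfs.mul_left
    (fun x => mul_nonneg ht (hf0 x))
  simp_rw [finsum_smul hfin _ hR t, ← Finset.mul_sum] at h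
  exact h

lemma polar_gen {α : Type*} [MeasurableSpace α] (μ : Measure α) {u v : α → ℝ}
    (hu : Measurable u) (hv : Measurable v) (hu0 : ∀ a, 0 ≤ u a) (hv0 : ∀ a, 0 ≤ v a) :
    ∫⁻ a, ENNReal.ofReal ((u a + v a) ^ 2) ∂μ =
      (∫⁻ a, ENNReal.ofReal (u a ^ 2) ∂μ) + (∫⁻ a, ENNReal.ofReal (v a ^ 2) ∂μ) +
      2 * ∫⁻ a, ENNReal.ofReal (u a * v a) ∂μ := by
  have m1 : Measurable fun a => ENNReal.ofReal (u a ^ 2) := (hu.pow_const 2).ennreal_ofReal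
  have m2 : Measurable fun a => ENNReal.ofReal (v a ^ 2) := (hv.pow_const 2).ennreal_ofReal
  have m3 : Measurable fun a => ENNReal.ofReal (u a * v a) := (hu.mul hv).ennreal_ofReal
  have m12 : Measurable fun a => ENNReal.ofReal (u a ^ 2) + ENNReal.ofReal (v a ^ 2) := m1.add m2
  rw [← lintegral_const_mul _ m3, ← lintegral_add_left m1, ← lintegral_add_left m12]
  refine lintegral_congr fun a => ?_
  have h1 := hu0 a
  have h2 := hv0 a
  rw [show (2 : ℝ≥0∞) = ENNReal.ofReal 2 by simp,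
    ← ENNReal.ofReal_mul (by norm_num), ← ENNReal.ofReal_add (sq_nonneg _) (sq_nonneg _),
    ← ENNReal.ofReal_add (by positivity) (by positivity)]
  congr 1
  ring

lemma polar {β : ℝ} (n : ℕ) {f g : ℝ → ℝ} (hf : Measurable f) (hf0 : ∀ x, 0 ≤ f x)
    (hg : Measurable g) (hg0 : ∀ x, 0 ≤ g x) :
    ∫⁻ θ, ENNReal.ofReal ((∑ i, (f (n * θ i) + g (n * θ i))) ^ 2) ∂(cbe β n) =
      (∫⁻ θ, ENNReal.ofReal ((∑ i, f (n * θ i)) ^ 2) ∂(cbe β n)) +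
      (∫⁻ θ, ENNReal.ofReal ((∑ i, g (n * θ i)) ^ 2) ∂(cbe β n)) +
      2 * ∫⁻ θ, ENNReal.ofReal ((∑ i, f (n * θ i)) * ∑ i, g (n * θ i)) ∂(cbe β n) := by
  simp_rw [Finset.sum_add_distrib]
  exact polar_gen (cbe β n) (measurable_stat n hf) (measurable_stat n hg)
    (fun θ => Finset.sum_nonneg fun i _ => hf0 _) (fun θ => Finset.sum_nonneg fun i _ => hg0 _)

lemma polar_lim (P : Measure Ω)
    (hfin : ∀ ω R, (X ω ∩ Icc (-R) R).Finite)
    (hmeas : ∀ a b, Measurable fun ω => (X ω ∩ Ioo a b).ncard)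
    {f g : ℝ → ℝ} (hf : Measurable f) (hf0 : ∀ x, 0 ≤ f x)
    (hg : Measurable g) (hg0 : ∀ x, 0 ≤ g x) {R : ℝ}
    (hR : ∀ x, R < |x| → f x = 0) (hR' : ∀ x, R < |x| → g x = 0) :
    ∫⁻ ω, ENNReal.ofReal ((∑ᶠ x ∈ X ω, (f x + g x)) ^ 2) ∂P =
      (∫⁻ ω, ENNReal.ofReal ((∑ᶠ x ∈ X ω, f x) ^ 2) ∂P) +
      (∫⁻ ω, ENNReal.ofReal ((∑ᶠ x ∈ X ω, g x) ^ 2) ∂P) +
      2 * ∫⁻ ω, ENNReal.ofReal ((∑ᶠ x ∈ X ω, f x) * ∑ᶠ x ∈ X ω, g x) ∂P := by
  simp_rw [finsum_add hfin _ hR hR']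
  exact polar_gen P (measurable_finsum_mem hfin hmeas hf hR)
    (measurable_finsum_mem hfin hmeas hg hR') (fun ω => finsum_nonneg' ω hf0)
    (fun ω => finsum_nonneg' ω hg0)

/-- mixed moment of the circular ensemble in terms of the two-point function -/
lemma mixed_cbe {β : ℝ} (hβ : 0 < β) {n : ℕ} (hn : 2 ≤ n) {f g : ℝ → ℝ}
    (hf : Measurable f) (hf0 : ∀ x, 0 ≤ f x)
    (hg : Measurable g) (hg0 : ∀ x, 0 ≤ g x) {R : ℝ}
    (hR : ∀ x, R < |x| → f x = 0) (hR' : ∀ x, R < |x| → g x = 0) (hnR : R < n * π) :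
    ∫⁻ θ, ENNReal.ofReal ((∑ i, f (n * θ i)) * ∑ i, g (n * θ i)) ∂(cbe β n) =
      (∫⁻ x, ∫⁻ y, ENNReal.ofReal (f x * g y * rho β n (y - x))) +
        ∫⁻ x, ENNReal.ofReal (1 / (2 * π) * f x * g x) := by
  have mF : Measurable fun p : ℝ × ℝ => ENNReal.ofReal (f p.1 * g p.2) :=
    ((hf.comp measurable_fst).mul (hg.comp measurable_snd)).ennreal_ofReal
  have mG : Measurable fun x : ℝ => ENNReal.ofReal (f x * g x) := (hf.mul hg).ennreal_ofReal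
  have out : ∀ x : ℝ, x ∉ Ico (-(n * π)) (n * π) → R < |x| := by
    intro x hx
    refine lt_of_lt_of_le hnR ?_
    by_contra h
    rw [not_le, abs_lt] at h
    exact hx ⟨h.1.le, h.2⟩
  have h1 : ∀ θ : Fin n → ℝ, ENNReal.ofReal ((∑ i, f (n * θ i)) * ∑ i, g (n * θ i)) =
      (∑ i, ∑ j ∈ Finset.univ.erase i, ENNReal.ofReal (f (n * θ i) * g (n * θ j))) +
        ∑ i, ENNReal.ofReal (f (n * θ i) * g (n * θ i)) := by
    intro θ
    rw [Finset.sum_mul_sum, ENNReal.ofReal_sum_of_nonneg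
      (fun i _ => Finset.sum_nonneg fun j _ => mul_nonneg (hf0 _) (hg0 _)),
      ← Finset.sum_add_distrib]
    refine Finset.sum_congr rfl fun i _ => ?_
    rw [ENNReal.ofReal_sum_of_nonneg (fun j _ => mul_nonneg (hf0 _) (hg0 _)),
      Finset.sum_erase_add _ _ (Finset.mem_univ i)]
  simp_rw [h1]
  have mS : Measurable fun θ : Fin n → ℝ => ∑ i, ENNReal.ofReal (f (n * θ i) * g (n * θ i)) :=
    Finset.measurable_sum _ fun i _ => mG.comp ((measurable_pi_apply i).const_mul _)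
  rw [lintegral_add_right _ mS, two_point hβ hn mF, one_point hβ (by omega) mG]
  congr 1
  · rw [← lintegral_indicator measurableSet_Ico]
    refine lintegral_congr fun x => ?_
    by_cases hx : x ∈ Ico (-(n * π)) (n * π)
    · rw [indicator_of_mem hx, ← lintegral_indicator measurableSet_Ico]
      refine lintegral_congr fun y => ?_
      by_cases hy : y ∈ Ico (-(n * π)) (n * π)
      · rw [indicator_of_mem hy, ← ENNReal.ofReal_mul (mul_nonneg (hf0 _) (hg0 _))]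
      · rw [indicator_of_notMem hy, hR' y (out y hy)]
        simp
    · rw [indicator_of_notMem hx, hR x (out x hx)]
      simp
  · rw [← lintegral_indicator measurableSet_Ico]
    refine lintegral_congr fun x => ?_
    by_cases hx : x ∈ Ico (-(n * π)) (n * π)
    · rw [indicator_of_mem hx, ← ENNReal.ofReal_mul (mul_nonneg (hf0 _) (hg0 _))]
      congr 1
      ring
    · rw [indicator_of_notMem hx, hR x (out x hx)]
      simp

theorem mixed_of_ui {β : ℝ} (hβ : 0 < β) (P : Measure Ω) [IsProbabilityMeasure P]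
    (hfin : ∀ ω R, (X ω ∩ Icc (-R) R).Finite)
    (hmeas : ∀ a b, Measurable fun ω => (X ω ∩ Ioo a b).ncard)
    (hlap : ∀ f : ℝ → ℝ, Continuous f → HasCompactSupport f → (∀ x, 0 ≤ f x) →
      Tendsto (fun n : ℕ => ∫ θ, Real.exp (-∑ i, f (n * θ i)) ∂(cbe β n)) atTop
        (𝓝 (∫ ω, Real.exp (-∑ᶠ x ∈ X ω, f x) ∂P)))
    (hui : ∀ f : ℝ → ℝ, Continuous f → HasCompactSupport f → (∀ x, 0 ≤ f x) → UIProp β f)
    {f g : ℝ → ℝ} (hf : Continuous f) (hfs : HasCompactSupport f) (hf0 : ∀ x, 0 ≤ f x)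
    (hg : Continuous g) (hgs : HasCompactSupport g) (hg0 : ∀ x, 0 ≤ g x) :
    ∫⁻ ω, ENNReal.ofReal ((∑ᶠ x ∈ X ω, f x) * ∑ᶠ x ∈ X ω, g x) ∂P < ∞ ∧
    Tendsto (fun n : ℕ => (∫⁻ x, ∫⁻ y, ENNReal.ofReal (f x * g y * rho β n (y - x))) +
        ∫⁻ x, ENNReal.ofReal (1 / (2 * π) * f x * g x)) atTop
      (𝓝 (∫⁻ ω, ENNReal.ofReal ((∑ᶠ x ∈ X ω, f x) * ∑ᶠ x ∈ X ω, g x) ∂P)) := by
  obtain ⟨R₁, hR₁, h₁⟩ := exists_radius hfs
  obtain ⟨R₂, hR₂, h₂⟩ := exists_radius hgs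
  set R := max R₁ R₂ with hRdef
  have h1 : ∀ x, R < |x| → f x = 0 := fun x hx => h₁ x (lt_of_le_of_lt (le_max_left _ _) hx)
  have h2 : ∀ x, R < |x| → g x = 0 := fun x hx => h₂ x (lt_of_le_of_lt (le_max_right _ _) hx)
  obtain ⟨f1, f2⟩ := single hβ P hfin hmeas hlap hf hfs hf0 (hui f hf hfs hf0)
  obtain ⟨g1, g2⟩ := single hβ P hfin hmeas hlap hg hgs hg0 (hui g hg hgs hg0)
  have hfg : Continuous fun x => f x + g x := hf.add hg
  have hfgs : HasCompactSupport fun x => f x + g x := hfs.add hgs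
  have hfg0 : ∀ x, 0 ≤ f x + g x := fun x => add_nonneg (hf0 x) (hg0 x)
  obtain ⟨s1, s2⟩ := single hβ P hfin hmeas hlap hfg hfgs hfg0 (hui _ hfg hfgs hfg0)
  have hp := polar_lim P hfin hmeas hf.measurable hf0 hg.measurable hg0 h1 h2
  set C := ∫⁻ ω, ENNReal.ofReal ((∑ᶠ x ∈ X ω, f x) * ∑ᶠ x ∈ X ω, g x) ∂P with hC
  set A := ∫⁻ ω, ENNReal.ofReal ((∑ᶠ x ∈ X ω, f x) ^ 2) ∂P with hA
  set B := ∫⁻ ω, ENNReal.ofReal ((∑ᶠ x ∈ X ω, g x) ^ 2) ∂P with hB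
  have hCfin : C < ∞ := by
    rw [hp] at s1
    have h3 : 2 * C < ∞ := lt_of_le_of_lt le_add_self s1
    by_contra h
    rw [not_lt, top_le_iff] at h
    rw [h] at h3
    simp at h3
  refine ⟨hCfin, ?_⟩
  have key : Tendsto (fun n : ℕ =>
      ∫⁻ θ, ENNReal.ofReal ((∑ i, f (n * θ i)) * ∑ i, g (n * θ i)) ∂(cbe β n)) atTop (𝓝 C) := by
    have hAB : A + B ≠ ∞ := (ENNReal.add_lt_top.mpr ⟨f1, g1⟩).ne
    have t1 := ENNReal.Tendsto.sub s2 (f2.add g2) (Or.inr hAB)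
    rw [hp, ENNReal.add_sub_cancel_left hAB] at t1
    have t2 : Tendsto (fun n : ℕ => 2 *
      ∫⁻ θ, ENNReal.ofReal ((∑ i, f (n * θ i)) * ∑ i, g (n * θ i)) ∂(cbe β n)) atTop
        (𝓝 (2 * C)) := by
      refine t1.congr' ?_
      have hev : ∀ᶠ n : ℕ in atTop,
          ((∫⁻ θ, ENNReal.ofReal ((∑ i, f (n * θ i)) ^ 2) ∂(cbe β n)) +
            ∫⁻ θ, ENNReal.ofReal ((∑ i, g (n * θ i)) ^ 2) ∂(cbe β n)) < ∞ :=
        (f2.add g2).eventually (gt_mem_nhds hAB.lt_top)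
      filter_upwards [hev] with n hn
      rw [polar n hf.measurable hf0 hg.measurable hg0, ENNReal.add_sub_cancel_left hn.ne]
    have t3 := ENNReal.Tendsto.const_mul (a := (2 : ℝ≥0∞)⁻¹) t2 (Or.inr (by simp))
    simp_rw [← mul_assoc] at t3
    rw [ENNReal.inv_mul_cancel (by norm_num) (by norm_num), one_mul] at t3
    simpa using t3
  refine key.congr' ?_
  have hev : ∀ᶠ n : ℕ in atTop, 2 ≤ n ∧ R < n * π := by
    refine (eventually_ge_atTop 2).and ?_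
    have : Tendsto (fun n : ℕ => (n : ℝ) * π) atTop atTop :=
      tendsto_natCast_atTop_atTop.atTop_mul_const Real.pi_pos
    exact this.eventually_gt_atTop R
  filter_upwards [hev] with n hn
  exact mixed_cbe hβ hn.1 hf.measurable hf0 hg.measurable hg0 h1 h2 hn.2

end Mixed

theorem mixed_moment {β : ℝ} (hβ : 0 < β) {Ω : Type*} [MeasurableSpace Ω] {X : Ω → Set ℝ}
    (P : Measure Ω) [IsProbabilityMeasure P] (hfin : ∀ ω R, (X ω ∩ Icc (-R) R).Finite)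
    (hmeas : ∀ a b, Measurable fun ω => (X ω ∩ Ioo a b).ncard)
    (hlap : ∀ f : ℝ → ℝ, Continuous f → HasCompactSupport f → (∀ x, 0 ≤ f x) →
      Tendsto (fun n : ℕ => ∫ θ, Real.exp (-∑ i, f (n * θ i)) ∂(cbe β n)) atTop
        (𝓝 (∫ ω, Real.exp (-∑ᶠ x ∈ X ω, f x) ∂P)))
    {f g : ℝ → ℝ} (hf : Continuous f) (hfs : HasCompactSupport f) (hf0 : ∀ x, 0 ≤ f x)
    (hg : Continuous g) (hgs : HasCompactSupport g) (hg0 : ∀ x, 0 ≤ g x) :
    ∫⁻ ω, ENNReal.ofReal ((∑ᶠ x ∈ X ω, f x) * ∑ᶠ x ∈ X ω, g x) ∂P < ∞ ∧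
    Tendsto (fun n : ℕ => (∫⁻ x, ∫⁻ y, ENNReal.ofReal (f x * g y * rho β n (y - x))) +
        ∫⁻ x, ENNReal.ofReal (1 / (2 * π) * f x * g x)) atTop
      (𝓝 (∫⁻ ω, ENNReal.ofReal ((∑ᶠ x ∈ X ω, f x) * ∑ᶠ x ∈ X ω, g x) ∂P)) := by
  refine Mixed.mixed_of_ui hβ P hfin hmeas hlap (fun u hu hus hu0 => ?_) hf hfs hf0 hg hgs hg0
  obtain ⟨R, -, hR⟩ := Mixed.exists_radius hus
  obtain ⟨A, hA⟩ := hu.bounded_above_of_compact_support hus
  exact ui hβ hu.measurable hu0 A (fun x => (Real.le_norm_self _).trans (hA x)) R hR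

end Pool.Agent.Lib.MP_b33862_pr
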