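import Mathlib
import Pool.Agent.Lib.MP_b33862_pr.LimRho
import Pool.Agent.Lib.MP_b33862_pr.Mixed
import Pool.Agent.Lib.MP_b33862_pr.RandSet

set_option autoImplicit false

namespace Pool.Agent.Lib.MP_b33862_pr

open MeasureTheory Set Real Filter
open scoped ENNReal Topology

/-- limits along a nonprincipal ultrafilter of the two-point functions -/
lemma exists_ultra : ∃ r : ℝ → ℝ → ℝ, (∀ x β, 0 ≤ r x β) ∧
    ∀ β, 0 < β → ∀ x, Tendsto (fun n : ℕ => rho β n x) (hyperfilter ℕ) (𝓝 (r x β)) := by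
  have hU : (hyperfilter ℕ : Filter ℕ) ≤ atTop := by
    rw [← Nat.cofinite_eq_atTop]; exact hyperfilter_le_cofinite
  have hev2 : ∀ᶠ n in (hyperfilter ℕ : Filter ℕ), 2 ≤ n := hU (eventually_ge_atTop 2)
  have key : ∀ x β : ℝ, ∃ r : ℝ, 0 ≤ r ∧
      (0 < β → Tendsto (fun n : ℕ => rho β n x) (hyperfilter ℕ) (𝓝 r)) := by
    intro x β
    by_cases hβ : 0 < β
    · obtain ⟨C, hC, h⟩ := rho_le β β hβ
      have hmem : ∀ᶠ n in (hyperfilter ℕ : Filter ℕ), rho β n x ∈ Icc 0 (C * |x| ^ β) := by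
        filter_upwards [hev2] with n hn
        exact ⟨rho_nonneg hβ (by omega) x, h β (by simp) n hn x⟩
      obtain ⟨r, hr, hr'⟩ := (isCompact_Icc (a := (0 : ℝ)) (b := C * |x| ^ β)).ultrafilter_le_nhds
        ((hyperfilter ℕ).map fun n => rho β n x) (by
          rw [le_principal_iff]
          exact hmem)
      exact ⟨r, hr.1, fun _ => hr'⟩
    · exact ⟨0, le_rfl, fun h => absurd h hβ⟩
  choose r h0 h1 using key
  exact ⟨r, h0, fun β hβ x => h1 x β hβ⟩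

theorem pair_corr {β : ℝ} (hβ : 0 < β) {r : ℝ → ℝ} (hr0 : ∀ x, 0 ≤ r x) (hrc : Continuous r)
    (hr : ∀ x, Tendsto (fun n : ℕ => rho β n x) (hyperfilter ℕ) (𝓝 (r x)))
    {Ω : Type*} [MeasurableSpace Ω] {X : Ω → Set ℝ}
    (P : Measure Ω) [IsProbabilityMeasure P] (hfin : ∀ ω R, (X ω ∩ Icc (-R) R).Finite)
    (hmeas : ∀ a b, Measurable fun ω => (X ω ∩ Ioo a b).ncard)
    (hlap : ∀ f : ℝ → ℝ, Continuous f → HasCompactSupport f → (∀ x, 0 ≤ f x) →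
      Tendsto (fun n : ℕ => ∫ θ, Real.exp (-∑ i, f (n * θ i)) ∂(cbe β n)) atTop
        (𝓝 (∫ ω, Real.exp (-∑ᶠ x ∈ X ω, f x) ∂P))) {F : ℝ × ℝ → ℝ≥0∞} (hF : Measurable F) :
    ∫⁻ ω, ∑' x : X ω, ∑' y : X ω, (if (x : ℝ) = y then 0 else F (x, y)) ∂P =
      ∫⁻ x, ∫⁻ y, F (x, y) * ENNReal.ofReal (r (y - x)) := by
  have hU : (hyperfilter ℕ : Filter ℕ) ≤ atTop := by
    rw [← Nat.cofinite_eq_atTop]; exact hyperfilter_le_cofinite
  have hlim : ∀ x, Tendsto (fun n : ℕ => rho β n x) atTop (𝓝 (r x)) := by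
    intro x
    obtain ⟨r', hr'⟩ := rho_lim_exists hβ (fun f g hf hfs hf0 hg hgs hg0 =>
      ⟨_, mixed_moment hβ P hfin hmeas hlap hf hfs hf0 hg hgs hg0⟩) x
    rwa [tendsto_nhds_unique (hr x) (hr'.mono_left hU)]
  apply pair_of_moments P hfin hmeas r hrc hr0 (1 / (2 * π)) (by positivity) _ hF
  intro f g hf hfs hf0 hg hgs hg0
  have h1 := (mixed_moment hβ P hfin hmeas hlap hf hfs hf0 hg hgs hg0).2
  have h2 := (lim_integral hβ hlim hf hfs hf0 hg hgs hg0).add_const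
    (∫⁻ x, ENNReal.ofReal (1 / (2 * π) * f x * g x))
  exact tendsto_nhds_unique h1 h2

end Pool.Agent.Lib.MP_b33862_pr
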